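import Pool.Agent.Lib.MP_2da099_lc.QL.Q01

/-!
# Q13: machines: copy of R2/B11.lean.
-/

set_option autoImplicit false

namespace Pool.Agent.WQL

open Pool.Agent.Lib.PolyTime Pool.Agent.WPM Pool.Agent.WPR Function

theorem q13_arith (κ C C' n L : ℕ) (hL : 1 ≤ L) :
    C' * ((κ * (n + 1) + C * (n + 1) * L ^ C) + n + 1) ≤
      (C' * (κ + C + 1) + C) * (n + 1) * L ^ (C' * (κ + C + 1) + C) := by
  have h1 : 1 ≤ L ^ C := Nat.one_le_pow _ _ hL
  have h2 : L ^ C ≤ L ^ (C' * (κ + C + 1) + C) := Nat.pow_le_pow_right hL (Nat.le_add_left _ _)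
  have h3 : (κ * (n + 1) + C * (n + 1) * L ^ C) + n + 1 ≤ (κ + C + 1) * (n + 1) * L ^ C := by
    have e : (κ + C + 1) * (n + 1) * L ^ C =
        κ * (n + 1) * L ^ C + C * (n + 1) * L ^ C + (n + 1) * L ^ C := by ring
    have a1 : κ * (n + 1) ≤ κ * (n + 1) * L ^ C := Nat.le_mul_of_pos_right _ h1
    have a2 : (n + 1) ≤ (n + 1) * L ^ C := Nat.le_mul_of_pos_right _ h1
    omega
  calc C' * ((κ * (n + 1) + C * (n + 1) * L ^ C) + n + 1)
      ≤ C' * ((κ + C + 1) * (n + 1) * L ^ C) := Nat.mul_le_mul_left _ h3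
    _ = C' * (κ + C + 1) * (n + 1) * L ^ C := by ring
    _ ≤ (C' * (κ + C + 1) + C) * (n + 1) * L ^ C :=
        Nat.mul_le_mul_right _ (Nat.mul_le_mul_right _ (Nat.le_add_right _ _))
    _ ≤ _ := Nat.mul_le_mul_left _ h2

open Classical in
theorem QL.machine {r : ℕ} {Z : List (Letter r) → Prop} (h : QL Z) :
    ∃ (M : Turing.TM2ComputableInTime (fun w : List (Letter r) => w) (fun b : Bool => [b])
      (fun w => decide (Z w))) (C : ℕ), (∀ k, Finite (M.tm.Γ k)) ∧
      ∀ n : ℕ, M.time n ≤ C * (n + 1) * Nat.log 2 (n + 2) ^ C := by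
  obtain ⟨f, T, C, hf, hfz, hT⟩ := h
  have hfe : f = fun w => decide (Z w) := by
    funext w
    rw [Bool.eq_iff_iff, hfz, decide_eq_true_iff]
  rw [← hfe]
  obtain ⟨κ, hκ⟩ := size_list_fin (Letter r)
  have hrev : CT (fun w : List (Letter r) => f w.reverse) (fun w => size w + T w.reverse) :=
    hf.comp CT.reverse
  obtain ⟨M, C', hfin, hM⟩ := CT.machine f _ hrev
    (fun n => κ * (n + 1) + C * (n + 1) * lg n ^ C) (by
      intro w
      have e1 := hκ w
      have e2 := hT w.reverse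
      rw [List.length_reverse] at e2
      exact Nat.add_le_add e1 e2)
  exact ⟨M, C' * (κ + C + 1) + C, hfin, fun n =>
    (hM n).trans (q13_arith κ C C' n (lg n) (Nat.log_pos (by norm_num) (by omega)))⟩

end Pool.Agent.WQL
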