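import Pool.Agent.Lib.MP_2da099_lc.QL.Defs
import Mathlib.GroupTheory.MonoidLocalization.UniqueFactorization
import Mathlib.RingTheory.Polynomial.UniqueFactorization
import Mathlib.RingTheory.FiniteType
import Mathlib.Algebra.Group.UniqueProds.Basic
import Mathlib.Algebra.MonoidAlgebra.NoZeroDivisors

/-!
# R1: the ring of Laurent polynomials.

`noeth_LM`: as `isNoetherian_L2` (R2/B09) or A04.  `domain_LM`: `inferInstance` (unique products) .
`ufd_LM`: `LM m` is a localisation of `MvPolynomial (Fin m) ℤ` at the monomials, and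
`UniqueFactorizationMonoid.of_isLocalization`.
`exists_prime_LM`: an irreducible factor of the nonzero nonunit `2` (augmentation to `ℤ`).
-/

set_option autoImplicit false

namespace Pool.Agent.WQL

open Pool.Agent.Lib.PolyTime Pool.Agent.WPM Pool.Agent.WPR Function

theorem noeth_LM (m : ℕ) : IsNoetherianRing (LM m) := by
  have : AddMonoid.FG (Fin m → ℤ) := by
    have h : Module.Finite ℤ (Fin m → ℤ) := inferInstance
    have h2 : AddGroup.FG (Fin m → ℤ) := by
      rw [← Module.Finite.iff_addGroup_fg]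
      exact h
    exact AddGroup.fg_iff_addMonoid_fg.mp h2
  have : Algebra.FiniteType ℤ (AddMonoidAlgebra ℤ (Fin m → ℤ)) := inferInstance
  exact Algebra.FiniteType.isNoetherianRing ℤ _

theorem domain_LM (m : ℕ) : IsDomain (LM m) := inferInstance

/-- The exponents of polynomials as exponents of Laurent polynomials. -/
def r1_emb (m : ℕ) : (Fin m →₀ ℕ) →+ (Fin m → ℤ) where
  toFun u := fun i => (u i : ℤ)
  map_zero' := by
    funext i
    simp
  map_add' u v := by
    funext i
    simp

theorem r1_emb_inj (m : ℕ) : Injective (r1_emb m) := by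
  intro u v h
  ext i
  have := congrFun h i
  simpa [r1_emb] using this

/-- The inclusion of the polynomials. -/
noncomputable def r1_map (m : ℕ) : AddMonoidAlgebra ℤ (Fin m →₀ ℕ) →+* LM m :=
  AddMonoidAlgebra.mapDomainRingHom ℤ (r1_emb m)

theorem r1_map_single (m : ℕ) (u : Fin m →₀ ℕ) (a : ℤ) :
    r1_map m (AddMonoidAlgebra.single u a) = AddMonoidAlgebra.single (r1_emb m u) a := by
  unfold r1_map
  simp

theorem r1_map_inj (m : ℕ) : Injective (r1_map m) :=
  AddMonoidAlgebra.mapDomain_injective (r1_emb_inj m)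

/-- The monomials. -/
noncomputable def r1_mon (m : ℕ) : Submonoid (AddMonoidAlgebra ℤ (Fin m →₀ ℕ)) :=
  MonoidHom.mrange (AddMonoidAlgebra.of ℤ (Fin m →₀ ℕ))

theorem r1_surj (m : ℕ) (z : LM m) : ∃ (x : AddMonoidAlgebra ℤ (Fin m →₀ ℕ)) (u : Fin m →₀ ℕ),
    z * AddMonoidAlgebra.single (r1_emb m u) 1 = r1_map m x := by
  induction z using AddMonoidAlgebra.induction_linear with
  | zero => exact ⟨0, 0, by simp⟩
  | add f g hf hg =>
    obtain ⟨x, u, hx⟩ := hf
    obtain ⟨y, v, hy⟩ := hg
    refine ⟨x * AddMonoidAlgebra.single v 1 + y * AddMonoidAlgebra.single u 1, u + v, ?_⟩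
    rw [map_add (r1_map m), map_mul (r1_map m), map_mul (r1_map m), r1_map_single, r1_map_single,
      ← hx, ← hy, map_add (r1_emb m)]
    have h : (AddMonoidAlgebra.single (r1_emb m u + r1_emb m v) 1 : LM m) =
        AddMonoidAlgebra.single (r1_emb m u) 1 * AddMonoidAlgebra.single (r1_emb m v) 1 := by
      rw [AddMonoidAlgebra.single_mul_single, one_mul]
    rw [h]
    ring
  | single v a =>
    refine ⟨AddMonoidAlgebra.single (Finsupp.equivFunOnFinite.symm (fun i => (v i).toNat)) a,
      Finsupp.equivFunOnFinite.symm (fun i => (-(v i)).toNat), ?_⟩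
    rw [r1_map_single, AddMonoidAlgebra.single_mul_single, mul_one]
    congr 1
    funext i
    simp only [r1_emb, AddMonoidHom.coe_mk, ZeroHom.coe_mk, Finsupp.equivFunOnFinite_symm_apply_apply,
      Pi.add_apply]
    omega

theorem r1_unit (m : ℕ) (v : Fin m → ℤ) : IsUnit (AddMonoidAlgebra.single v 1 : LM m) := by
  refine IsUnit.of_mul_eq_one (AddMonoidAlgebra.single (-v) 1) ?_
  rw [AddMonoidAlgebra.single_mul_single, add_neg_cancel, mul_one]
  rfl

theorem ufd_LM (m : ℕ) : UniqueFactorizationMonoid (LM m) := by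
  let : Algebra (AddMonoidAlgebra ℤ (Fin m →₀ ℕ)) (LM m) := (r1_map m).toAlgebra
  have hal : ∀ x, algebraMap (AddMonoidAlgebra ℤ (Fin m →₀ ℕ)) (LM m) x = r1_map m x :=
    fun x => rfl
  have hloc : IsLocalization (r1_mon m) (LM m) := by
    constructor
    · constructor
      · rintro ⟨y, u, rfl⟩
        rw [hal]
        have h : r1_map m (AddMonoidAlgebra.of ℤ (Fin m →₀ ℕ) u) =
            AddMonoidAlgebra.single (r1_emb m u.toAdd) 1 := r1_map_single m u.toAdd 1
        rw [h]
        exact r1_unit m _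
      · intro z
        obtain ⟨x, u, hx⟩ := r1_surj m z
        refine ⟨(x, ⟨AddMonoidAlgebra.single u 1, Multiplicative.ofAdd u, rfl⟩), ?_⟩
        rw [hal, hal]
        simp only
        rw [r1_map_single, hx]
      · intro x y hxy
        rw [hal, hal] at hxy
        exact ⟨1, by rw [r1_map_inj m hxy]⟩
  have : UniqueFactorizationMonoid (AddMonoidAlgebra ℤ (Fin m →₀ ℕ)) :=
    inferInstanceAs (UniqueFactorizationMonoid (MvPolynomial (Fin m) ℤ))
  exact UniqueFactorizationMonoid.of_isLocalization (r1_mon m) (LM m)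

theorem exists_prime_LM (m : ℕ) : ∃ h : LM m, Prime h := by
  have := ufd_LM m
  have := domain_LM m
  let φ : LM m →+* ℤ := (AddMonoidAlgebra.lift ℤ ℤ (Fin m → ℤ)
    (1 : Multiplicative (Fin m → ℤ) →* ℤ)).toRingHom
  have hφ : φ 2 = 2 := map_ofNat φ 2
  have h2 : ¬ IsUnit (2 : LM m) := by
    intro h
    have h1 := h.map φ
    rw [hφ, Int.isUnit_iff] at h1
    omega
  have h0 : (2 : LM m) ≠ 0 := by
    intro h
    have h1 := congrArg φ h
    rw [hφ, map_zero] at h1
    omega
  obtain ⟨h, hh, -⟩ := WfDvdMonoid.exists_irreducible_factor h2 h0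
  exact ⟨h, UniqueFactorizationMonoid.irreducible_iff_prime.mp hh⟩

end Pool.Agent.WQL
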