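import Pool.Agent.Lib.MP_2da099_lc.QL.Defs

/-!
# L01: basic facts: copy of R2/I01.lean (and M03_mm_mul, B07_mm_unit) with `Fin m → ℤ`.

`spM_sum`: both sides are additive; or from `spM_coeff` by grouping the tokens by their position.
-/

set_option autoImplicit false

namespace Pool.Agent.WQL

open Pool.Agent.Lib.PolyTime Pool.Agent.WPM Pool.Agent.WPR Function

section
variable {m k : ℕ}

theorem posM_append (c : Fin m → ℤ) (I J : List (IM m k)) :
    posM c (I ++ J) = posM c I ++ posM (endM c I) J := by
  induction I generalizing c with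
  | nil => rfl
  | cons a I ih =>
    cases a with
    | inl m => exact ih _
    | inr κ =>
      show (c, κ) :: posM c (I ++ J) = (c, κ) :: (posM c I ++ posM (endM c I) J)
      rw [ih]

theorem endM_append (c : Fin m → ℤ) (I J : List (IM m k)) :
    endM c (I ++ J) = endM (endM c I) J := by
  induction I generalizing c with
  | nil => rfl
  | cons a I ih =>
    cases a with
    | inl m => exact ih _
    | inr κ => exact ih _

theorem posM_add (c d : Fin m → ℤ) (I : List (IM m k)) :
    posM (c + d) I = (posM c I).map (fun x => (x.1 + d, x.2)) := by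
  induction I generalizing c with
  | nil => rfl
  | cons a I ih =>
    cases a with
    | inl a =>
      show posM (c + d + stv a) I = (posM (c + stv a) I).map (fun x => (x.1 + d, x.2))
      rw [← ih, add_right_comm]
    | inr κ =>
      show (c + d, κ) :: posM (c + d) I = (c + d, κ) :: (posM c I).map (fun x => (x.1 + d, x.2))
      rw [ih]

theorem endM_add (c d : Fin m → ℤ) (I : List (IM m k)) : endM (c + d) I = endM c I + d := by
  induction I generalizing c with
  | nil => rfl
  | cons a I ih =>
    cases a with
    | inl a =>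
      show endM (c + d + stv a) I = endM (c + stv a) I + d
      rw [← ih, add_right_comm]
    | inr κ => exact ih _

theorem mo_add (v w : Fin m → ℤ) : (mo (v + w) : LM m) = mo v * mo w := by
  unfold mo
  rw [AddMonoidAlgebra.single_mul_single, one_mul]

theorem mo_zero : (mo 0 : LM m) = 1 := rfl

theorem mo_pow (v : Fin m → ℤ) (n : ℕ) : (mo v : LM m) ^ n = mo (n • v) := by
  unfold mo
  rw [AddMonoidAlgebra.single_pow, one_pow]

theorem mo_unit (v : Fin m → ℤ) : IsUnit (mo v : LM m) := by
  refine IsUnit.of_mul_eq_one (mo (-v)) ?_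
  rw [← mo_add, add_neg_cancel, mo_zero]

theorem mo_mul_coeff (v : Fin m → ℤ) (F : LM m) (c : Fin m → ℤ) :
    (mo v * F).coeff c = F.coeff (c - v) := by
  unfold mo
  rw [AddMonoidAlgebra.coeff_single_mul_apply, one_mul]
  congr 1
  abel

theorem l01_single_sum (c : Fin m → ℤ) (l : List ((Fin m → ℤ) × Fin k)) :
    ((l.map (fun x => (x.1 + c, x.2))).map
      (fun x => (Pi.single x.2 (mo x.1) : Fin k → LM m))).sum =
    mo c • (l.map (fun x => (Pi.single x.2 (mo x.1) : Fin k → LM m))).sum := by
  induction l with
  | nil => simp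
  | cons x l ih =>
    simp only [List.map_cons, List.sum_cons]
    rw [ih, smul_add]
    congr 1
    rw [mo_add, mul_comm, ← smul_eq_mul, Pi.single_smul]

theorem vcM_append (I J : List (IM m k)) : vcM (I ++ J) = vcM I + mo (endM 0 I) • vcM J := by
  unfold vcM
  rw [posM_append, List.map_append, List.sum_append, ← l01_single_sum, ← posM_add, zero_add]

theorem sum_vcM_smul {M : Type*} [AddCommGroup M] [Module (LM m) M] (b : Fin k → M)
    (I : List (IM m k)) : ∑ κ, vcM I κ • b κ = ((posM 0 I).map (fun x => mo x.1 • b x.2)).sum := by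
  unfold vcM
  generalize posM 0 I = l
  induction l with
  | nil => simp
  | cons x l ih =>
    simp only [List.map_cons, List.sum_cons, Pi.add_apply, add_smul, Finset.sum_add_distrib]
    rw [ih]
    congr 1
    rw [Finset.sum_eq_single x.2]
    · rw [Pi.single_eq_same]
    · intro κ _ hκ
      rw [Pi.single_eq_of_ne hκ, zero_smul]
    · intro h
      exact absurd (Finset.mem_univ _) h

theorem l01_coeff (l : List ((Fin m → ℤ) × Fin k)) (κ : Fin k) (c : Fin m → ℤ) :
    (((l.map (fun x => (Pi.single x.2 (mo x.1) : Fin k → LM m))).sum κ).coeff c) =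
      ((l.filter (fun x => decide (x.1 = c))).map
        (fun x => if x.2 = κ then (1 : ℤ) else 0)).sum := by
  induction l with
  | nil => simp
  | cons x l ih =>
    simp only [List.map_cons, List.sum_cons, Pi.add_apply]
    have e1 : ((Pi.single x.2 (mo x.1) : Fin k → LM m) κ).coeff c =
        if x.1 = c then (if x.2 = κ then (1 : ℤ) else 0) else 0 := by
      by_cases h1 : x.2 = κ
      · rw [← h1, Pi.single_eq_same]
        unfold mo
        rw [AddMonoidAlgebra.coeff_single, Finsupp.single_apply]
        simp
      · rw [Pi.single_eq_of_ne (fun h => h1 h.symm)]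
        simp [h1]
    rw [AddMonoidAlgebra.coeff_add, Finsupp.add_apply, ih, e1]
    by_cases h2 : x.1 = c
    · simp [h2]
    · simp [h2]

theorem l01_sub (l : List ((Fin m → ℤ) × Fin k)) (u v : Fin k → ℤ) :
    (l.map (fun x => u x.2)).sum - (l.map (fun x => v x.2)).sum =
      (l.map (fun x => u x.2 - v x.2)).sum := by
  induction l with
  | nil => simp
  | cons x l ih =>
    simp only [List.map_cons, List.sum_cons]
    rw [← ih]
    ring

theorem l01_bound (I : List (IM m k)) : ∀ c : Fin m → ℤ, ∀ x ∈ posM c I, ∀ i,
    |x.1 i - c i| ≤ I.length := by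
  induction I with
  | nil =>
    intro c x hx
    simp [posM] at hx
  | cons a I ih =>
    intro c x hx i
    cases a with
    | inl a =>
      have hx' : x ∈ posM (c + stv a) I := hx
      have h1 := ih _ x hx' i
      have hm : |stv a i| ≤ 1 := by
        unfold stv
        by_cases h : i = a.1
        · rw [h, Pi.single_eq_same]
          split_ifs <;> simp
        · rw [Pi.single_eq_of_ne h]
          simp
      rw [Pi.add_apply] at h1
      simp only [List.length_cons, Nat.cast_add, Nat.cast_one]
      rw [abs_le] at h1 ⊢
      have hm1 := abs_le.1 hm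
      omega
    | inr κ =>
      have hx' : x ∈ (c, κ) :: posM c I := hx
      simp only [List.length_cons, Nat.cast_add, Nat.cast_one]
      rcases List.mem_cons.1 hx' with h | h
      · rw [h]
        simp only [sub_self, abs_zero]
        omega
      · have h1 := ih c x h i
        omega

theorem posM_bound (I : List (IM m k)) : ∀ x ∈ posM 0 I, ∀ i, |x.1 i| ≤ I.length := by
  intro x hx i
  have h := l01_bound I 0 x hx i
  simpa using h

theorem length_posM (c : Fin m → ℤ) (I : List (IM m k)) : (posM c I).length ≤ I.length := by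
  induction I generalizing c with
  | nil => exact le_rfl
  | cons a I ih =>
    cases a with
    | inl a =>
      show (posM (c + stv a) I).length ≤ I.length + 1
      exact (ih _).trans (Nat.le_succ _)
    | inr κ =>
      show (posM c I).length + 1 ≤ I.length + 1
      exact Nat.succ_le_succ (ih _)

theorem spM_coeff (I : List (IM m 2)) (c : Fin m → ℤ) : (spM I).coeff c =
    (((posM 0 I).filter (fun x => decide (x.1 = c))).map
      (fun x => if x.2 = 0 then (1 : ℤ) else -1)).sum := by
  have h1 : (spM I).coeff c = (vcM I 0).coeff c - (vcM I 1).coeff c := by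
    unfold spM
    rw [AddMonoidAlgebra.coeff_sub, Finsupp.sub_apply]
  rw [h1]
  unfold vcM
  rw [l01_coeff, l01_coeff]
  refine (l01_sub ((posM 0 I).filter (fun x => decide (x.1 = c)))
    (fun κ' => if κ' = 0 then (1 : ℤ) else 0) (fun κ' => if κ' = 1 then (1 : ℤ) else 0)).trans ?_
  congr 2
  funext x
  have : x.2 = 0 ∨ x.2 = 1 := by omega
  rcases this with h | h <;> simp [h]

theorem l01_filter (l : List ((Fin m → ℤ) × Fin 2)) (u : Fin 2 → ℤ) (φ : (Fin m → ℤ) → ℤ)
    (s : Finset (Fin m → ℤ)) (hs : ∀ x ∈ l, x.1 ∉ s →
      ((l.filter (fun y => decide (y.1 = x.1))).map (fun y => u y.2)).sum = 0) :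
    (l.map (fun x => u x.2 * φ x.1)).sum =
      ∑ v ∈ s, ((l.filter (fun x => decide (x.1 = v))).map (fun x => u x.2)).sum * φ v := by
  classical
  have key : ∀ (l : List ((Fin m → ℤ) × Fin 2)) (t : Finset (Fin m → ℤ)), (∀ x ∈ l, x.1 ∈ t) →
      (l.map (fun x => u x.2 * φ x.1)).sum =
      ∑ v ∈ t, ((l.filter (fun x => decide (x.1 = v))).map (fun x => u x.2)).sum * φ v := by
    intro l t
    induction l with
    | nil => intro _; simp
    | cons x l ih =>
      intro ht
      rw [List.map_cons, List.sum_cons, ih fun y hy => ht y (List.mem_cons_of_mem _ hy)]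
      have h1 : ∀ v ∈ t, (((x :: l).filter (fun x => decide (x.1 = v))).map
          (fun x => u x.2)).sum * φ v = (if x.1 = v then u x.2 * φ v else 0) +
          ((l.filter (fun x => decide (x.1 = v))).map (fun x => u x.2)).sum * φ v := by
        intro v _
        by_cases h : x.1 = v
        · rw [List.filter_cons, if_pos (by simpa using h), List.map_cons, List.sum_cons, if_pos h,
            add_mul]
        · rw [List.filter_cons, if_neg (by simpa using h), if_neg h, zero_add]
      rw [Finset.sum_congr rfl h1, Finset.sum_add_distrib, Finset.sum_ite_eq,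
        if_pos (ht x List.mem_cons_self)]
  rw [key l (s ∪ (l.map Prod.fst).toFinset) fun x hx => Finset.mem_union_right _
    (List.mem_toFinset.2 (List.mem_map_of_mem hx))]
  symm
  refine Finset.sum_subset Finset.subset_union_left fun v hv hvs => ?_
  rcases Finset.mem_union.1 hv with h | h
  · exact absurd h hvs
  · obtain ⟨x, hx, rfl⟩ := List.mem_map.1 (List.mem_toFinset.1 h)
    rw [hs x hx hvs, zero_mul]

theorem spM_sum (I : List (IM m 2)) (φ : (Fin m → ℤ) → ℤ) :
    ((posM 0 I).map (fun x => (if x.2 = 0 then (1 : ℤ) else -1) * φ x.1)).sum =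
      ∑ v ∈ (spM I).coeff.support, (spM I).coeff v * φ v := by
  rw [l01_filter (posM 0 I) (fun κ => if κ = 0 then (1 : ℤ) else -1) φ (spM I).coeff.support ?_]
  · refine Finset.sum_congr rfl fun v _ => ?_
    rw [spM_coeff]
  · intro x _ hx
    rw [Finsupp.notMem_support_iff, spM_coeff] at hx
    exact hx

theorem l01_norm (u : Fin k → ℤ) (hu : ∀ κ, (u κ).natAbs ≤ 1) (s : Finset (Fin m → ℤ))
    (l : List ((Fin m → ℤ) × Fin k)) :
    ∑ c ∈ s, (((l.filter (fun x => decide (x.1 = c))).map (fun x => u x.2)).sum).natAbs ≤
      l.length := by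
  induction l with
  | nil => simp
  | cons x l ih =>
    have h1 : ∀ c ∈ s, ((((x :: l).filter (fun x => decide (x.1 = c))).map
        (fun x => u x.2)).sum).natAbs ≤
        (if c = x.1 then 1 else 0) +
          (((l.filter (fun x => decide (x.1 = c))).map (fun x => u x.2)).sum).natAbs := by
      intro c _
      by_cases h : x.1 = c
      · have e : (x :: l).filter (fun x => decide (x.1 = c)) =
            x :: l.filter (fun x => decide (x.1 = c)) := by
          rw [List.filter_cons, if_pos (by simpa using h)]
        rw [e, List.map_cons, List.sum_cons, if_pos h.symm]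
        exact (Int.natAbs_add_le _ _).trans (Nat.add_le_add_right (hu _) _)
      · have e : (x :: l).filter (fun x => decide (x.1 = c)) =
            l.filter (fun x => decide (x.1 = c)) := by
          rw [List.filter_cons, if_neg (by simpa using h)]
        rw [e, if_neg (fun h' => h h'.symm), zero_add]
    refine (Finset.sum_le_sum h1).trans ?_
    rw [Finset.sum_add_distrib, List.length_cons, add_comm]
    refine Nat.add_le_add ih ?_
    rw [Finset.sum_ite_eq']
    split_ifs <;> omega

theorem nrm_spM (I : List (IM m 2)) : nrm (spM I) ≤ I.length := by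
  unfold nrm
  refine le_trans ?_ (length_posM 0 I)
  refine le_trans (le_of_eq ?_) (l01_norm (fun κ => if κ = 0 then (1 : ℤ) else -1) ?_
    (spM I).coeff.support (posM 0 I))
  · refine Finset.sum_congr rfl fun c _ => ?_
    rw [spM_coeff]
  · intro κ
    split_ifs <;> simp

theorem spM_support (I : List (IM m 2)) : ∀ c ∈ (spM I).coeff.support,
    ∃ x ∈ posM 0 I, x.1 = c := by
  intro c hc
  rw [Finsupp.mem_support_iff, spM_coeff] at hc
  by_contra hcon
  push Not at hcon
  apply hc
  have : (posM 0 I).filter (fun x => decide (x.1 = c)) = [] := by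
    rw [List.filter_eq_nil_iff]
    intro x hx
    simpa using hcon x hx
  rw [this]
  rfl

end

end Pool.Agent.WQL
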