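import Pool.Agent.Lib.MP_2da099_lc.QL.L01

/-!
# L02: substitution: copy of R2/I02.lean (`exists_subst`) with `Fin m → ℤ`.
-/

set_option autoImplicit false

namespace Pool.Agent.WQL

open Pool.Agent.Lib.PolyTime Pool.Agent.WPM Pool.Agent.WPR Function

section
variable {m : ℕ}

theorem l02_rep {k : ℕ} (a : Fin m × Bool) (n : ℕ) : ∀ c : Fin m → ℤ,
    posM c (List.replicate n (Sum.inl a : IM m k)) = [] ∧
    endM c (List.replicate n (Sum.inl a : IM m k)) = c + n • stv a := by
  induction n with
  | zero => intro c; simp [posM, endM]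
  | succ n ih =>
    intro c
    rw [List.replicate_succ]
    refine ⟨(ih _).1, ?_⟩
    rw [endM, (ih _).2, succ_nsmul']
    abel

/-- a path without tokens -/
theorem l02_path {k : ℕ} (v : Fin m → ℤ) :
    ∃ l : List (IM m k), ∀ c, posM c l = [] ∧ endM c l = c + v := by
  have hadd : ∀ v w : Fin m → ℤ, (∃ l : List (IM m k), ∀ c, posM c l = [] ∧ endM c l = c + v) →
      (∃ l : List (IM m k), ∀ c, posM c l = [] ∧ endM c l = c + w) →
      ∃ l : List (IM m k), ∀ c, posM c l = [] ∧ endM c l = c + (v + w) := by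
    rintro v w ⟨l, hl⟩ ⟨l', hl'⟩
    refine ⟨l ++ l', fun c => ⟨?_, ?_⟩⟩
    · rw [posM_append, (hl c).1, (hl' _).1, List.nil_append]
    · rw [endM_append, (hl c).2, (hl' _).2, add_assoc]
  have h1 : ∀ (i : Fin m) (a : ℤ), ∃ l : List (IM m k), ∀ c, posM c l = [] ∧
      endM c l = c + Pi.single i a := by
    intro i a
    rcases le_or_gt 0 a with ha | ha
    · refine ⟨List.replicate a.toNat (Sum.inl (i, true)), fun c => ?_⟩
      have h := l02_rep (k := k) (i, true) a.toNat c
      refine ⟨h.1, h.2.trans ?_⟩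
      congr 1
      have h2 : ((a.toNat : ℕ) : ℤ) = a := Int.toNat_of_nonneg ha
      have h3 : stv (i, true) = (Pi.single i 1 : Fin m → ℤ) := rfl
      rw [h3, ← Pi.single_smul, nsmul_eq_mul, h2, mul_one]
    · refine ⟨List.replicate (-a).toNat (Sum.inl (i, false)), fun c => ?_⟩
      have h := l02_rep (k := k) (i, false) (-a).toNat c
      refine ⟨h.1, h.2.trans ?_⟩
      congr 1
      have h2 : (((-a).toNat : ℕ) : ℤ) = -a := Int.toNat_of_nonneg (by omega)
      have h3 : stv (i, false) = (Pi.single i (-1) : Fin m → ℤ) := rfl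
      rw [h3, ← Pi.single_smul, nsmul_eq_mul, h2, mul_neg, mul_one, neg_neg]
  have h2 : v = ∑ i, Pi.single i (v i) := (Finset.univ_sum_single v).symm
  rw [h2]
  refine Finset.sum_induction _
    (fun v : Fin m → ℤ => ∃ l : List (IM m k), ∀ c, posM c l = [] ∧ endM c l = c + v)
    hadd ⟨[], fun c => ⟨rfl, by simp [endM]⟩⟩ (fun i _ => h1 i (v i))

/-- the value of the colours -/
noncomputable def l02_sg (κ : Fin 2) : LM m := if κ = 0 then 1 else -1

/-- signed sum -/
noncomputable def l02_ss (l : List ((Fin m → ℤ) × Fin 2)) : LM m :=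
  (l.map (fun x => mo x.1 * l02_sg x.2)).sum

theorem l02_ss_append (l l' : List ((Fin m → ℤ) × Fin 2)) :
    l02_ss (l ++ l') = l02_ss l + l02_ss l' := by
  unfold l02_ss
  rw [List.map_append, List.sum_append]

theorem l02_spM (I : List (IM m 2)) : spM I = l02_ss (posM 0 I) := by
  have h := sum_vcM_smul (M := LM m) l02_sg I
  rw [Fin.sum_univ_two] at h
  simp only [smul_eq_mul] at h
  unfold l02_ss
  rw [← h]
  unfold spM l02_sg
  simp
  ring

/-- closed list with given signed vector -/
theorem l02_token (b : LM m) : ∃ T : List (IM m 2), ∀ c, endM c T = c ∧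
    l02_ss (posM c T) = mo c * b := by
  have hzero : ∃ T : List (IM m 2), ∀ c, endM c T = c ∧ l02_ss (posM c T) = mo c * 0 :=
    ⟨[], fun c => ⟨rfl, by simp [posM, l02_ss]⟩⟩
  have hadd : ∀ b b' : LM m, (∃ T : List (IM m 2), ∀ c, endM c T = c ∧
      l02_ss (posM c T) = mo c * b) → (∃ T : List (IM m 2), ∀ c, endM c T = c ∧
      l02_ss (posM c T) = mo c * b') → ∃ T : List (IM m 2), ∀ c, endM c T = c ∧
      l02_ss (posM c T) = mo c * (b + b') := by
    rintro b b' ⟨T, hT⟩ ⟨T', hT'⟩
    refine ⟨T ++ T', fun c => ⟨?_, ?_⟩⟩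
    · rw [endM_append, (hT c).1, (hT' c).1]
    · rw [posM_append, l02_ss_append, (hT c).1, (hT c).2, (hT' c).2, mul_add]
  have hmono : ∀ (v : Fin m → ℤ) (κ : Fin 2), ∃ T : List (IM m 2), ∀ c, endM c T = c ∧
      l02_ss (posM c T) = mo c * (mo v * l02_sg κ) := by
    intro v κ
    obtain ⟨l, hl⟩ := l02_path (k := 2) v
    obtain ⟨l', hl'⟩ := l02_path (k := 2) (-v)
    refine ⟨l ++ (Sum.inr κ :: l'), fun c => ⟨?_, ?_⟩⟩
    · rw [endM_append, endM, (hl c).2, (hl' _).2]
      abel
    · rw [posM_append, posM, (hl c).1, (hl c).2, (hl' _).1]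
      simp only [l02_ss, List.nil_append, List.map_cons, List.map_nil, List.sum_cons,
        List.sum_nil, add_zero]
      rw [mo_add, mul_assoc]
  have hint : ∀ (v : Fin m → ℤ) (n : ℤ), ∃ T : List (IM m 2), ∀ c, endM c T = c ∧
      l02_ss (posM c T) = mo c * (n • mo v) := by
    intro v n
    induction n using Int.induction_on with
    | zero => simpa using hzero
    | succ n ih =>
      have h1 := hmono v 0
      have h2 : mo v * l02_sg 0 = mo v := by simp [l02_sg]
      rw [h2] at h1
      have h3 := hadd _ _ ih h1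
      rwa [← add_one_zsmul] at h3
    | pred n ih =>
      have h1 := hmono v 1
      have h2 : mo v * l02_sg 1 = -mo v := by simp [l02_sg]
      rw [h2] at h1
      have h3 := hadd _ _ ih h1
      have e : (-(n : ℤ) - 1) • mo v = -(n : ℤ) • mo v + -mo v := by
        rw [sub_smul, one_smul, sub_eq_add_neg]
      rw [e]
      exact h3
  induction b using AddMonoidAlgebra.induction_linear with
  | zero => exact hzero
  | add f g hf hg => exact hadd f g hf hg
  | single v n =>
    have h1 := hint v n
    have h2 : n • mo v = AddMonoidAlgebra.single v n := by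
      unfold mo
      rw [AddMonoidAlgebra.smul_single]
      simp
    rwa [h2] at h1

end

theorem exists_substM {m k : ℕ} (b : Fin k → LM m) :
    ∃ g : IM m k → List (IM m 2), ∀ I, spM (I.flatMap g) = ∑ κ, vcM I κ * b κ := by
  choose T hT using fun κ => l02_token (b κ)
  refine ⟨fun i => match i with
    | Sum.inl a => [Sum.inl a]
    | Sum.inr κ => T κ, fun I => ?_⟩
  set g : IM m k → List (IM m 2) := fun i => match i with
    | Sum.inl a => [Sum.inl a]
    | Sum.inr κ => T κ with hg
  have key : ∀ (I : List (IM m k)) (c : Fin m → ℤ), l02_ss (posM c (I.flatMap g)) =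
      ((posM c I).map (fun x => mo x.1 * b x.2)).sum := by
    intro I
    induction I with
    | nil => intro c; simp [posM, l02_ss]
    | cons i I ih =>
      intro c
      cases i with
      | inl a =>
        rw [List.flatMap_cons]
        exact ih (c + stv a)
      | inr κ =>
        rw [List.flatMap_cons]
        change l02_ss (posM c (T κ ++ I.flatMap g)) = _
        rw [posM_append, l02_ss_append, (hT κ c).1, (hT κ c).2, ih c]
        simp [posM]
  rw [l02_spM, key I 0]
  have h := sum_vcM_smul (M := LM m) b I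
  simp only [smul_eq_mul] at h
  exact h.symm

end Pool.Agent.WQL
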