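import Pool.Agent.Lib.MP_2da099_lc.QL.L01
import Pool.Agent.Lib.MP_2da099_lc.QL.R1
import Mathlib.RingTheory.Filtration

/-!
# R2: splitting a module.

`N1 = {x | ∀ h, Prime h → ∃ f, ¬ h ∣ f ∧ f • x ∈ N}` is a submodule (products of the `f`).  It is finitely generated
(Noetherian), so by `hN` there are uniform `d, K` with `(mo (d e_i) - 1) ^ K • x ∈ N` for all `x ∈ N1`
(`mo (d e_i) - 1 ∣ mo (d d' e_i) - 1`).  `J` = the ideal generated by the `(mo (d e_i) - 1) ^ K`; Artin-Rees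
(`Ideal.exists_pow_inf_eq_pow_smul`) gives `s` with `N1 ⊓ J ^ s • ⊤ ≤ J • N1 ≤ N`; `N2 = N ⊔ J ^ s • ⊤`, and
`N = N1 ⊓ N2` by the modular law.  The exponent for `N2` is `K * s`.
-/

set_option autoImplicit false

namespace Pool.Agent.WQL

open Pool.Agent.Lib.PolyTime Pool.Agent.WPM Pool.Agent.WPR Function

/-- the submodule of the elements killed by something outside every prime -/
def r2_N1 {m k : ℕ} (N : Submodule (LM m) (Fin k → LM m)) : Submodule (LM m) (Fin k → LM m) where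
  carrier := {x | ∀ h : LM m, Prime h → ∃ f, ¬ h ∣ f ∧ f • x ∈ N}
  zero_mem' := by
    intro h hh
    refine ⟨1, fun h1 => hh.not_isUnit (isUnit_of_dvd_one h1), ?_⟩
    rw [smul_zero]
    exact N.zero_mem
  add_mem' := by
    intro x y hx hy h hh
    obtain ⟨f, hf, hf'⟩ := hx h hh
    obtain ⟨g, hg, hg'⟩ := hy h hh
    refine ⟨f * g, fun h1 => (hh.dvd_or_dvd h1).elim hf hg, ?_⟩
    rw [smul_add]
    refine N.add_mem ?_ ?_
    · rw [mul_comm, mul_smul]
      exact N.smul_mem _ hf'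
    · rw [mul_smul]
      exact N.smul_mem _ hg'
  smul_mem' := by
    intro c x hx h hh
    obtain ⟨f, hf, hf'⟩ := hx h hh
    refine ⟨f, hf, ?_⟩
    rw [smul_smul, mul_comm, mul_smul]
    exact N.smul_mem _ hf'

theorem r2_mem {m k : ℕ} (N : Submodule (LM m) (Fin k → LM m)) (x : Fin k → LM m) :
    x ∈ r2_N1 N ↔ ∀ h : LM m, Prime h → ∃ f, ¬ h ∣ f ∧ f • x ∈ N := Iff.rfl

theorem r2_dvd {m : ℕ} (i : Fin m) (d e : ℕ) (K L : ℕ) (hKL : K ≤ L) :
    ((mo (Pi.single i (d : ℤ)) - 1 : LM m)) ^ K ∣ (mo (Pi.single i ((d * e : ℕ) : ℤ)) - 1) ^ L := by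
  have h1 : (mo (Pi.single i (d : ℤ)) - 1 : LM m) ∣ mo (Pi.single i ((d * e : ℕ) : ℤ)) - 1 := by
    have h2 : (mo (Pi.single i ((d * e : ℕ) : ℤ)) : LM m) = mo (Pi.single i (d : ℤ)) ^ e := by
      rw [mo_pow]
      congr 1
      ext j
      by_cases hj : j = i
      · subst hj
        simp only [Pi.single_eq_same, Pi.smul_apply, nsmul_eq_mul]
        push_cast
        ring
      · simp only [Pi.single_eq_of_ne hj, Pi.smul_apply, smul_zero]
    rw [h2]
    have h3 := sub_dvd_pow_sub_pow (mo (Pi.single i (d : ℤ)) : LM m) 1 e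
    rwa [one_pow] at h3
  exact (pow_dvd_pow _ hKL).trans (pow_dvd_pow_of_dvd h1 L)

theorem split_module {m k : ℕ} (N : Submodule (LM m) (Fin k → LM m))
    (hN : ∀ x, (∀ h : LM m, Prime h → ∃ f, ¬ h ∣ f ∧ f • x ∈ N) →
      ∃ d K : ℕ, 0 < d ∧ ∀ i : Fin m, (mo (Pi.single i (d : ℤ)) - 1) ^ K • x ∈ N) :
    ∃ (N1 N2 : Submodule (LM m) (Fin k → LM m)) (d K : ℕ), 0 < d ∧
      (∀ x, x ∈ N ↔ x ∈ N1 ∧ x ∈ N2) ∧
      (∀ (i : Fin m) (x : Fin k → LM m), (mo (Pi.single i (d : ℤ)) - 1) ^ K • x ∈ N2) ∧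
      ∀ x, (∀ h : LM m, Prime h → ∃ f, ¬ h ∣ f ∧ f • x ∈ N1) → x ∈ N1 := by
  classical
  have := noeth_LM m
  have hfg : (r2_N1 N).FG := IsNoetherian.noetherian _
  obtain ⟨S, hS⟩ := hfg
  -- uniform exponents
  have huni : ∃ d K : ℕ, 0 < d ∧ ∀ x ∈ S, ∀ i : Fin m, (mo (Pi.single i (d : ℤ)) - 1) ^ K • x ∈ N := by
    have hSm : ∀ x ∈ S, x ∈ r2_N1 N := by
      intro x hx
      rw [← hS]
      exact Submodule.subset_span hx
    clear hS
    induction S using Finset.induction_on with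
    | empty => exact ⟨1, 0, one_pos, by simp⟩
    | insert a S ha ih =>
      obtain ⟨d, K, hd, h1⟩ := ih (fun x hx => hSm x (Finset.mem_insert_of_mem hx))
      obtain ⟨d', K', hd', h2⟩ := hN a (hSm a (Finset.mem_insert_self _ _))
      refine ⟨d * d', K + K', Nat.mul_pos hd hd', ?_⟩
      intro x hx i
      rw [Finset.mem_insert] at hx
      rcases hx with rfl | hx
      · obtain ⟨c, hc⟩ := r2_dvd (m := m) i d' d K' (K + K') (by omega)
        rw [mul_comm d d', hc, mul_comm, mul_smul]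
        exact N.smul_mem _ (h2 i)
      · obtain ⟨c, hc⟩ := r2_dvd (m := m) i d d' K (K + K') (by omega)
        rw [hc, mul_comm, mul_smul]
        exact N.smul_mem _ (h1 x hx i)
  obtain ⟨d, K, hd, hdK⟩ := huni
  have hall : ∀ i : Fin m, ∀ x ∈ r2_N1 N, (mo (Pi.single i (d : ℤ)) - 1) ^ K • x ∈ N := by
    intro i x hx
    rw [← hS] at hx
    induction hx using Submodule.span_induction with
    | mem x hx => exact hdK x hx i
    | zero => rw [smul_zero]; exact N.zero_mem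
    | add x y _ _ hx hy => rw [smul_add]; exact N.add_mem hx hy
    | smul c x _ hx =>
      rw [smul_smul, mul_comm, mul_smul]
      exact N.smul_mem _ hx
  -- the ideal
  set J : Ideal (LM m) := Ideal.span (Set.range fun i : Fin m => (mo (Pi.single i (d : ℤ)) - 1 : LM m) ^ K) with hJ
  have hJN : J • r2_N1 N ≤ N := by
    rw [Submodule.smul_le]
    intro r hr x hx
    rw [hJ] at hr
    induction hr using Submodule.span_induction with
    | mem r hr =>
      obtain ⟨i, rfl⟩ := hr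
      exact hall i x hx
    | zero => rw [zero_smul]; exact N.zero_mem
    | add r s _ _ hr hs => rw [add_smul]; exact N.add_mem hr hs
    | smul c r _ hr =>
      rw [smul_eq_mul, mul_smul]
      exact N.smul_mem _ hr
  obtain ⟨s0, hs0⟩ := Ideal.exists_pow_inf_eq_pow_smul J (M := Fin k → LM m) (r2_N1 N)
  have hs1 : J ^ (s0 + 1) • (⊤ : Submodule (LM m) (Fin k → LM m)) ⊓ r2_N1 N ≤ N := by
    rw [hs0 (s0 + 1) (by omega)]
    have h1 : s0 + 1 - s0 = 1 := by omega
    rw [h1, pow_one]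
    exact (Submodule.smul_mono le_rfl inf_le_right).trans hJN
  have hNN1 : N ≤ r2_N1 N := by
    intro x hx h hh
    exact ⟨1, fun h1 => hh.not_isUnit (isUnit_of_dvd_one h1), by rw [one_smul]; exact hx⟩
  refine ⟨r2_N1 N, N ⊔ J ^ (s0 + 1) • ⊤, d, K * (s0 + 1), hd, ?_, ?_, ?_⟩
  · intro x
    constructor
    · intro hx
      exact ⟨hNN1 hx, (le_sup_left : N ≤ _) hx⟩
    · rintro ⟨hx1, hx2⟩
      rw [Submodule.mem_sup] at hx2
      obtain ⟨n, hn, y, hy, rfl⟩ := hx2
      have hy1 : y ∈ r2_N1 N := by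
        have h2 : y = (n + y) - n := by abel
        rw [h2]
        exact Submodule.sub_mem _ hx1 (hNN1 hn)
      exact N.add_mem hn (hs1 ⟨hy, hy1⟩)
  · intro i x
    refine (le_sup_right : _ ≤ N ⊔ J ^ (s0 + 1) • ⊤) ?_
    refine Submodule.smul_mem_smul ?_ Submodule.mem_top
    rw [pow_mul]
    have h1 : (mo (Pi.single i (d : ℤ)) - 1 : LM m) ^ K ∈ J := by
      rw [hJ]
      exact Ideal.subset_span (Set.mem_range_self i)
    exact Ideal.pow_mem_pow h1 _
  · intro x hx h hh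
    obtain ⟨f, hf, hfx⟩ := hx h hh
    obtain ⟨g, hg, hgx⟩ := hfx h hh
    refine ⟨g * f, fun h1 => (hh.dvd_or_dvd h1).elim hg hf, ?_⟩
    rw [mul_smul]
    exact hgx

end Pool.Agent.WQL
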