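import Pool.Agent.Lib.MP_2da099_lc.QL.R1

/-!
# R3: finitely many primes.

The elements `x` with `f • x ∈ N` for some `f ≠ 0` form a submodule; it is finitely generated, so there is `c ≠ 0` with
`c • x ∈ N` for all of them.  The `h i` are the prime factors of `c` and one more prime (`exists_prime_LM`).  If `x`
satisfies the condition for all `h i` then `x` is torsion modulo `N`, so `c • x ∈ N`; for a prime `h` not associated to
one of the `h i`, `¬ h ∣ c`; for `h` associated to `h i`, `¬ h i ∣ f` gives `¬ h ∣ f`; conclude by `hN`.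
-/

set_option autoImplicit false

namespace Pool.Agent.WQL

open Pool.Agent.Lib.PolyTime Pool.Agent.WPM Pool.Agent.WPR Function

/-- The elements which are torsion modulo a submodule. -/
def r3_tor {R M : Type*} [CommRing R] [IsDomain R] [AddCommGroup M] [Module R M]
    (N : Submodule R M) : Submodule R M where
  carrier := {x | ∃ f : R, f ≠ 0 ∧ f • x ∈ N}
  add_mem' := by
    rintro x y ⟨f, hf, hx⟩ ⟨g, hg, hy⟩
    refine ⟨f * g, mul_ne_zero hf hg, ?_⟩
    rw [smul_add]
    refine N.add_mem ?_ ?_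
    · rw [mul_comm, mul_smul]
      exact N.smul_mem _ hx
    · rw [mul_smul]
      exact N.smul_mem _ hy
  zero_mem' := ⟨1, one_ne_zero, by rw [smul_zero]; exact N.zero_mem⟩
  smul_mem' := by
    rintro a x ⟨f, hf, hx⟩
    refine ⟨f, hf, ?_⟩
    rw [smul_comm]
    exact N.smul_mem _ hx

theorem r3_mem {R M : Type*} [CommRing R] [IsDomain R] [AddCommGroup M] [Module R M]
    (N : Submodule R M) (x : M) : x ∈ r3_tor N ↔ ∃ f : R, f ≠ 0 ∧ f • x ∈ N := Iff.rfl

/-- One common denominator. -/
theorem r3_common {R M : Type*} [CommRing R] [IsDomain R] [IsNoetherianRing R] [AddCommGroup M]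
    [Module R M] [Module.Finite R M] (N : Submodule R M) :
    ∃ c : R, c ≠ 0 ∧ ∀ x ∈ r3_tor N, c • x ∈ N := by
  classical
  have : IsNoetherian R M := isNoetherian_of_isNoetherianRing_of_finite R M
  obtain ⟨S, hS⟩ := (IsNoetherian.noetherian (r3_tor N) : (r3_tor N).FG)
  have hmem : ∀ s ∈ S, ∃ f : R, f ≠ 0 ∧ f • s ∈ N := by
    intro s hs
    have : s ∈ r3_tor N := by
      rw [← hS]
      exact Submodule.subset_span hs
    exact this
  choose! f hf0 hf using hmem
  refine ⟨∏ s ∈ S, f s, Finset.prod_ne_zero_iff.2 hf0, ?_⟩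
  intro x hx
  rw [← hS] at hx
  induction hx using Submodule.span_induction with
  | mem s hs =>
    have hs' : s ∈ S := hs
    rw [← Finset.mul_prod_erase S f hs', mul_comm, mul_smul]
    exact N.smul_mem _ (hf s hs')
  | zero => rw [smul_zero]; exact N.zero_mem
  | add y z _ _ hy hz => rw [smul_add]; exact N.add_mem hy hz
  | smul a y _ hy => rw [smul_comm]; exact N.smul_mem _ hy

theorem loc_primes {m k : ℕ} (N : Submodule (LM m) (Fin k → LM m))
    (hN : ∀ x, (∀ h : LM m, Prime h → ∃ f, ¬ h ∣ f ∧ f • x ∈ N) → x ∈ N) :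
    ∃ (s : ℕ) (h : Fin s → LM m), (∀ i, Prime (h i)) ∧
      ∀ x, x ∈ N ↔ ∀ i, ∃ f, ¬ h i ∣ f ∧ f • x ∈ N := by
  classical
  have := noeth_LM m
  have := domain_LM m
  have := ufd_LM m
  obtain ⟨h0, hh0⟩ := exists_prime_LM m
  obtain ⟨c, hc0, hc⟩ := r3_common N
  let L : List (LM m) := h0 :: (UniqueFactorizationMonoid.factors c).toList
  have hL : ∀ h ∈ L, Prime h := by
    intro h hh
    rcases List.mem_cons.1 hh with rfl | hh
    · exact hh0
    · exact UniqueFactorizationMonoid.prime_of_factor h (Multiset.mem_toList.1 hh)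
  refine ⟨L.length, fun i => L.get i, fun i => hL _ (List.get_mem L i), ?_⟩
  intro x
  constructor
  · intro hx i
    refine ⟨1, ?_, by rw [one_smul]; exact hx⟩
    intro hd
    exact (hL _ (List.get_mem L i)).not_isUnit (isUnit_of_dvd_one hd)
  · intro hx
    have hx0 : ∃ f, ¬ h0 ∣ f ∧ f • x ∈ N := hx ⟨0, by simp [L]⟩
    obtain ⟨f0, hf0, hfx0⟩ := hx0
    have htor : x ∈ r3_tor N := (r3_mem N x).2 ⟨f0, fun h => hf0 (h ▸ dvd_zero _), hfx0⟩
    refine hN x fun h hh => ?_
    by_cases hd : h ∣ c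
    · obtain ⟨q, hq, hhq⟩ :=
        UniqueFactorizationMonoid.exists_mem_factors_of_dvd hc0 hh.irreducible hd
      have hqL : q ∈ L := List.mem_cons_of_mem _ (Multiset.mem_toList.2 hq)
      obtain ⟨i, hi⟩ := List.get_of_mem hqL
      obtain ⟨f, hf, hfx⟩ := hx i
      refine ⟨f, ?_, hfx⟩
      intro hdf
      apply hf
      change L.get i ∣ f
      rw [hi]
      exact hhq.dvd_iff_dvd_left.1 hdf
    · exact ⟨c, hd, hc x htor⟩

end Pool.Agent.WQL
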