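import Pool.Agent.Lib.MP_2da099_lc.QL.R1

/-!
# R4: tests over a discrete valuation ring.

`R = Localization.AtPrime (Ideal.span {h})` is a local Noetherian domain whose maximal ideal is generated by `h`, so a
principal ideal domain (`IsDiscreteValuationRing`, TFAE, or directly).  `N_R` = the submodule of `Fin k → R` generated
by the images of `N` (`b06_ext` in R2/B06 is the same construction); `F ∈ N_R ↔ ∃ f, ¬ h ∣ f ∧ f • F ∈ N`.
`(Fin k → R) ⧸ N_R` is a direct sum of copies of `R` and of `R ⧸ (h ^ e)` (see `pid_tests` in R2/B05 for this step over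
`K[X]`); the linear maps to the summands are given by vectors with entries in `R`; multiply them by a common
denominator (not divisible by `h`, a unit of `R`) to get entries in `LM m`.  `h ^ e ∣ y` in `R` iff in `LM m`,
for `y` in `LM m` (`h` prime); `LM m → R` is injective.
-/

set_option autoImplicit false

namespace Pool.Agent.WQL

open Pool.Agent.Lib.PolyTime Pool.Agent.WPM Pool.Agent.WPR Function

theorem r4_mem {R : Type} [CommRing R] (a b : R) : a ∈ (R ∙ b) ↔ b ∣ a := by
  rw [Submodule.mem_span_singleton]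
  constructor
  · rintro ⟨c, hc⟩
    exact ⟨c, by rw [← hc, smul_eq_mul, mul_comm]⟩
  · rintro ⟨c, hc⟩
    exact ⟨c, by rw [hc, smul_eq_mul, mul_comm]⟩

/-- tests over a principal ideal domain -/
theorem r4_pid {R : Type} [CommRing R] [IsDomain R] [IsPrincipalIdealRing R] {k : ℕ}
    (Q : Submodule R (Fin k → R)) :
    ∃ (a : ℕ) (α : Fin a → Fin k → R) (b : ℕ) (p : Fin b → R) (e : Fin b → ℕ)
      (β : Fin b → Fin k → R), (∀ i, Irreducible (p i)) ∧
      ∀ F : Fin k → R, F ∈ Q ↔ (∀ i, ∑ κ, F κ * α i κ = 0) ∧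
        ∀ i, p i ^ e i ∣ ∑ κ, F κ * β i κ := by
  classical
  obtain ⟨n, ι, _, p, hp, e, ⟨φ⟩⟩ :=
    Module.equiv_free_prod_directSum (R := R) (M := (Fin k → R) ⧸ Q)
  let G : (Fin k → R) →ₗ[R]
      (Fin n →₀ R) × DirectSum ι (fun i => R ⧸ (R ∙ (p i ^ e i))) :=
    φ.toLinearMap.comp Q.mkQ
  have hG : ∀ F, F ∈ Q ↔ G F = 0 := by
    intro F
    have h1 : G F = φ (Q.mkQ F) := rfl
    rw [h1, LinearEquiv.map_eq_zero_iff, Submodule.mkQ_apply, Submodule.Quotient.mk_eq_zero]
  let G1 : Fin n → (Fin k → R) →ₗ[R] R := fun i =>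
    (Finsupp.lapply i).comp ((LinearMap.fst _ _ _).comp G)
  let G2 : (i : ι) → (Fin k → R) →ₗ[R] (R ⧸ (R ∙ (p i ^ e i))) := fun i =>
    (DirectSum.component R ι _ i).comp ((LinearMap.snd _ _ _).comp G)
  have hG1 : ∀ i F, G1 i F = (G F).1 i := fun i F => rfl
  have hG2 : ∀ i F, G2 i F = (G F).2 i := fun i F => rfl
  have hcoord : ∀ F, G F = 0 ↔ (∀ i, G1 i F = 0) ∧ ∀ i, G2 i F = 0 := by
    intro F
    constructor
    · intro h
      refine ⟨fun i => ?_, fun i => ?_⟩
      · rw [hG1, h]; rfl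
      · rw [hG2, h]; rfl
    · rintro ⟨h1, h2⟩
      refine Prod.ext ?_ ?_
      · ext1 i
        exact (hG1 i F).symm.trans (h1 i)
      · refine DFinsupp.ext fun i => ?_
        exact (hG2 i F).symm.trans (h2 i)
  have hrep : ∀ (i : ι) (κ : Fin k), ∃ r : R,
      (Submodule.Quotient.mk r : R ⧸ (R ∙ (p i ^ e i))) = G2 i (Pi.single κ 1) :=
    fun i κ => Submodule.Quotient.mk_surjective _ _
  choose β hβ using hrep
  have hlin1 : ∀ i F, G1 i F = ∑ κ, F κ * G1 i (Pi.single κ 1) := by
    intro i F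
    rw [LinearMap.pi_apply_eq_sum_univ (G1 i) F]
    refine Finset.sum_congr rfl fun κ _ => ?_
    rw [smul_eq_mul]
    congr 2
    funext j
    rw [Pi.single_apply]
    simp only [eq_comm]
  have hlin2 : ∀ i F, G2 i F =
      (Submodule.Quotient.mk (∑ κ, F κ * β i κ) : R ⧸ (R ∙ (p i ^ e i))) := by
    intro i F
    rw [LinearMap.pi_apply_eq_sum_univ (G2 i) F]
    have h3 : (Submodule.Quotient.mk (∑ κ, F κ * β i κ) : R ⧸ (R ∙ (p i ^ e i))) =
        (R ∙ (p i ^ e i)).mkQ (∑ κ, F κ • β i κ) := rfl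
    rw [h3, map_sum]
    refine Finset.sum_congr rfl fun κ _ => ?_
    rw [map_smul]
    congr 1
    rw [Submodule.mkQ_apply, hβ]
    congr 1
    funext j
    rw [Pi.single_apply]
    simp only [eq_comm]
  have hzero2 : ∀ i F, G2 i F = 0 ↔ p i ^ e i ∣ ∑ κ, F κ * β i κ := by
    intro i F
    rw [hlin2, Submodule.Quotient.mk_eq_zero, r4_mem]
  let eq : ι ≃ Fin (Fintype.card ι) := Fintype.equivFin ι
  refine ⟨n, fun i κ => G1 i (Pi.single κ 1), Fintype.card ι, fun j => p (eq.symm j),
    fun j => e (eq.symm j), fun j κ => β (eq.symm j) κ, fun j => hp _, ?_⟩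
  intro F
  rw [hG, hcoord]
  refine and_congr ?_ ?_
  · refine forall_congr' fun i => ?_
    rw [hlin1 i F]
  · constructor
    · intro h j
      exact (hzero2 _ _).1 (h _)
    · intro h i
      rw [hzero2]
      have := h (eq i)
      simpa using this

section

variable {A : Type} [CommRing A] [IsDomain A] {h : A} {k : ℕ}

/-- the localised submodule -/
noncomputable def r4_ext (hP : (Ideal.span {h}).IsPrime) (N : Submodule A (Fin k → A)) :
    Submodule (Localization.AtPrime (Ideal.span {h})) (Fin k → Localization.AtPrime (Ideal.span {h})) where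
  carrier := {G | ∃ s : A, s ∉ Ideal.span {h} ∧ ∃ F ∈ N, ∀ κ,
    algebraMap A (Localization.AtPrime (Ideal.span {h})) s * G κ = algebraMap A _ (F κ)}
  add_mem' := by
    rintro G G' ⟨s, hs, F, hF, h1⟩ ⟨s', hs', F', hF', h1'⟩
    refine ⟨s * s', fun hm => (hP.mem_or_mem hm).elim hs hs', s' • F + s • F',
      N.add_mem (N.smul_mem _ hF) (N.smul_mem _ hF'), fun κ => ?_⟩
    simp only [Pi.add_apply, Pi.smul_apply, smul_eq_mul, map_add, map_mul]
    rw [← h1 κ, ← h1' κ]
    ring
  zero_mem' := ⟨1, fun hm => hP.ne_top ((Ideal.eq_top_iff_one _).2 hm), 0, N.zero_mem, fun κ => by simp⟩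
  smul_mem' := by
    rintro c G ⟨s, hs, F, hF, h1⟩
    obtain ⟨⟨b, t⟩, hbt⟩ := IsLocalization.surj (Ideal.span {h}).primeCompl c
    refine ⟨t * s, fun hm => (hP.mem_or_mem hm).elim t.2 hs, b • F, N.smul_mem _ hF, fun κ => ?_⟩
    simp only [Pi.smul_apply, smul_eq_mul, map_mul]
    rw [← h1 κ, ← hbt]
    ring

end

theorem r4_gen {A : Type} [CommRing A] [IsDomain A] [IsNoetherianRing A] {k : ℕ}
    (N : Submodule A (Fin k → A)) (h : A) (hp : Prime h) :
    ∃ (a : ℕ) (α : Fin a → Fin k → A) (b : ℕ) (e : Fin b → ℕ) (β : Fin b → Fin k → A),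
      ∀ F : Fin k → A, (∃ f, ¬ h ∣ f ∧ f • F ∈ N) ↔
        (∀ i, ∑ κ, F κ * α i κ = 0) ∧ ∀ i, h ^ e i ∣ ∑ κ, F κ * β i κ := by
  classical
  have hP : (Ideal.span {h}).IsPrime := (Ideal.span_singleton_prime hp.ne_zero).2 hp
  let R := Localization.AtPrime (Ideal.span {h})
  have hle : (Ideal.span {h}).primeCompl ≤ nonZeroDivisors A := (Ideal.span {h}).primeCompl_le_nonZeroDivisors
  have hdom : IsDomain R := IsLocalization.isDomain_localization hle
  have hnoe : IsNoetherianRing R := IsLocalization.isNoetherianRing (Ideal.span {h}).primeCompl R inferInstance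
  have hinj : Function.Injective (algebraMap A R) := IsLocalization.injective R hle
  have hmax : IsLocalRing.maximalIdeal R = Ideal.span {algebraMap A R h} := by
    rw [← Localization.AtPrime.map_eq_maximalIdeal, Ideal.map_span, Set.image_singleton]
  have hnf : ¬ IsField R := by
    intro hf
    have h1 := IsLocalRing.isField_iff_maximalIdeal_eq.1 hf
    rw [hmax, Ideal.span_singleton_eq_bot] at h1
    exact hp.ne_zero (hinj (h1.trans (map_zero _).symm))
  have hdvr : IsDiscreteValuationRing R := by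
    have htfae := IsDiscreteValuationRing.TFAE R hnf
    refine (htfae.out 0 4).2 ?_
    exact ⟨⟨algebraMap A R h, hmax⟩⟩
  have hirr : Irreducible (algebraMap A R h) :=
    (IsDiscreteValuationRing.irreducible_iff_uniformizer _).2 hmax
  have hunit : ∀ s : A, s ∉ Ideal.span {h} → IsUnit (algebraMap A R s) := fun s hs =>
    IsLocalization.map_units R (⟨s, hs⟩ : (Ideal.span {h}).primeCompl)
  have hden : ∀ v : Fin k → R, ∃ (s : A) (w : Fin k → A), s ∉ Ideal.span {h} ∧
      ∀ κ, algebraMap A R (w κ) = algebraMap A R s * v κ := by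
    intro v
    obtain ⟨s, hs⟩ := IsLocalization.exist_integer_multiples_of_finite (Ideal.span {h}).primeCompl v
    choose w hw using hs
    refine ⟨s, w, s.2, fun κ => ?_⟩
    rw [hw κ, Algebra.smul_def]
  have hdvd : ∀ (e : ℕ) (y : A), (algebraMap A R h) ^ e ∣ algebraMap A R y ↔ h ^ e ∣ y := by
    intro e y
    constructor
    · rintro ⟨c, hc⟩
      obtain ⟨⟨b, t⟩, hbt⟩ := IsLocalization.surj (Ideal.span {h}).primeCompl c
      have h1 : algebraMap A R (t * y) = algebraMap A R (h ^ e * b) := by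
        rw [map_mul, map_mul, hc, map_pow, ← hbt]
        ring
      have h2 := hinj h1
      have ht : ¬ h ∣ (t : A) := fun hd => t.2 (Ideal.mem_span_singleton.2 hd)
      exact hp.pow_dvd_of_dvd_mul_left e ht ⟨b, h2⟩
    · rintro ⟨c, rfl⟩
      rw [map_mul, map_pow]
      exact dvd_mul_right _ _
  obtain ⟨a, α, b, p, e, β, hpi, hmem⟩ := r4_pid (R := R) (r4_ext hP N)
  choose ca Aα hca hA using fun i => hden (α i)
  choose cb Bβ hcb hB using fun i => hden (β i)
  refine ⟨a, Aα, b, e, Bβ, fun F => ?_⟩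
  have h0 : (∃ f, ¬ h ∣ f ∧ f • F ∈ N) ↔ (fun κ => algebraMap A R (F κ)) ∈ r4_ext hP N := by
    constructor
    · rintro ⟨f, hf, hfN⟩
      refine ⟨f, fun hm => hf (Ideal.mem_span_singleton.1 hm), f • F, hfN, fun κ => ?_⟩
      rw [Pi.smul_apply, smul_eq_mul, map_mul]
    · rintro ⟨s, hs, F', hF', h1⟩
      refine ⟨s, fun hd => hs (Ideal.mem_span_singleton.2 hd), ?_⟩
      have h2 : s • F = F' := by
        funext κ
        refine hinj ?_
        rw [Pi.smul_apply, smul_eq_mul, map_mul]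
        exact h1 κ
      rw [h2]
      exact hF'
  have hsum : ∀ (s : A) (w : Fin k → A) (v : Fin k → R), (∀ κ, algebraMap A R (w κ) = algebraMap A R s * v κ) →
      algebraMap A R (∑ κ, F κ * w κ) = algebraMap A R s * ∑ κ, algebraMap A R (F κ) * v κ := by
    intro s w v hw
    rw [map_sum, Finset.mul_sum]
    refine Finset.sum_congr rfl fun κ _ => ?_
    rw [map_mul, hw κ]
    ring
  rw [h0, hmem]
  refine and_congr (forall_congr' fun i => ?_) (forall_congr' fun i => ?_)
  · have h1 := hsum _ _ _ (hA i)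
    constructor
    · intro h2
      refine hinj ?_
      rw [h1, h2, mul_zero, map_zero]
    · intro h2
      rw [h2, map_zero] at h1
      exact (mul_eq_zero.1 h1.symm).resolve_left (hunit _ (hca i)).ne_zero
  · have h1 := hsum _ _ _ (hB i)
    rw [← hdvd, h1, (hunit _ (hcb i)).dvd_mul_left]
    exact ((IsDiscreteValuationRing.associated_of_irreducible R (hpi i) hirr).pow_pow).dvd_iff_dvd_left

theorem dvr_tests {m k : ℕ} (N : Submodule (LM m) (Fin k → LM m)) (h : LM m) (hp : Prime h) :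
    ∃ (a : ℕ) (α : Fin a → Fin k → LM m) (b : ℕ) (e : Fin b → ℕ) (β : Fin b → Fin k → LM m),
      ∀ F : Fin k → LM m, (∃ f, ¬ h ∣ f ∧ f • F ∈ N) ↔
        (∀ i, ∑ κ, F κ * α i κ = 0) ∧ ∀ i, h ^ e i ∣ ∑ κ, F κ * β i κ := by
  have := domain_LM m
  have := noeth_LM m
  exact r4_gen N h hp

end Pool.Agent.WQL
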