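import Pool.Agent.Lib.MP_2da099_lc.QL.L06
import Pool.Agent.Lib.MP_2da099_lc.QL.L01
import Pool.Agent.Lib.MP_2da099_lc.R2.M01

/-!
# L04: coefficients of quotients.

`exists_generic` for the differences of the support of `h`: a functional `λ` injective on the support (so the extreme
terms of `h` for `λ` are single monomials), and for given `G` a functional `κ` which is injective on the support of `G`.
For `y` on the unit circle the term `a Y ^ c` goes to `a y ^ (κ c) X ^ (λ c - s)`; `factor_bound` (R2/M01) bounds the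
coefficients of the image of `G`, and `coeff_le_sup` (R2/M01) separates the coefficients of `G` with the same `λ`.
-/

set_option autoImplicit false

namespace Pool.Agent.WQL

open Pool.Agent.Lib.PolyTime Pool.Agent.WPM Pool.Agent.WPR Function
open Polynomial

theorem l04_fv_add {m : ℕ} (θ a b : Fin m → ℤ) : fv θ (a + b) = fv θ a + fv θ b := by
  simp only [fv, Pi.add_apply, mul_add, Finset.sum_add_distrib]

theorem l04_fv_sub {m : ℕ} (θ a b : Fin m → ℤ) : fv θ (a - b) = fv θ a - fv θ b := by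
  simp only [fv, Pi.sub_apply, mul_sub, Finset.sum_sub_distrib]

theorem l04_fv_le {m : ℕ} (θ c : Fin m → ℤ) (n : ℕ) (h : ∀ i, |c i| ≤ n) :
    |fv θ c| ≤ (∑ i, (θ i).natAbs : ℕ) * n := by
  unfold fv
  refine (Finset.abs_sum_le_sum_abs _ _).trans ?_
  push_cast
  rw [Finset.sum_mul]
  refine Finset.sum_le_sum fun i _ => ?_
  rw [abs_mul]
  exact mul_le_mul_of_nonneg_left (h i) (abs_nonneg _)

theorem l04_inj {m : ℕ} (S : Finset (Fin m → ℤ)) :
    ∃ μ : Fin m → ℤ, ∀ a ∈ S, ∀ b ∈ S, fv μ a = fv μ b → a = b := by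
  classical
  obtain ⟨μ, hμ⟩ := exists_generic (((S ×ˢ S).image fun p => p.1 - p.2).filter fun w => w ≠ 0)
    fun w hw => (Finset.mem_filter.1 hw).2
  refine ⟨μ, fun a ha b hb hab => ?_⟩
  by_contra hne
  refine hμ (a - b) ?_ (by rw [l04_fv_sub, hab, sub_self])
  rw [Finset.mem_filter, Finset.mem_image]
  exact ⟨⟨(a, b), Finset.mem_product.2 ⟨ha, hb⟩, rfl⟩, sub_ne_zero.2 hne⟩

/-- the specialization -/
noncomputable def l04_sp {m : ℕ} (lam kap : Fin m → ℤ) (y : ℂ) (s : ℤ) : LM m →+ ℂ[X] where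
  toFun F := F.coeff.sum fun c a => monomial ((fv lam c - s).toNat) ((a : ℂ) * y ^ (fv kap c))
  map_zero' := by
    rw [AddMonoidAlgebra.coeff_zero, Finsupp.sum_zero_index]
  map_add' := by
    intro F G
    rw [AddMonoidAlgebra.coeff_add]
    refine Finsupp.sum_add_index' (fun c => ?_) (fun c a b => ?_)
    · simp
    · rw [Int.cast_add, add_mul, map_add]

theorem l04_sp_apply {m : ℕ} (lam kap : Fin m → ℤ) (y : ℂ) (s : ℤ) (F : LM m) :
    l04_sp lam kap y s F = ∑ c ∈ F.coeff.support,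
      monomial ((fv lam c - s).toNat) ((F.coeff c : ℂ) * y ^ (fv kap c)) := rfl

theorem l04_sp_coeff {m : ℕ} (lam kap : Fin m → ℤ) (y : ℂ) (s : ℤ) (F : LM m) (i : ℕ) :
    (l04_sp lam kap y s F).coeff i = ∑ c ∈ F.coeff.support,
      if (fv lam c - s).toNat = i then (F.coeff c : ℂ) * y ^ (fv kap c) else 0 := by
  rw [l04_sp_apply, finsetSum_coeff]
  refine Finset.sum_congr rfl fun c _ => ?_
  rw [coeff_monomial]

theorem l04_sp_single {m : ℕ} (lam kap : Fin m → ℤ) (y : ℂ) (s : ℤ) (c : Fin m → ℤ) (a : ℤ) :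
    l04_sp lam kap y s (AddMonoidAlgebra.single c a) =
      monomial ((fv lam c - s).toNat) ((a : ℂ) * y ^ (fv kap c)) := by
  change (AddMonoidAlgebra.single c a : LM m).coeff.sum
    (fun c a => monomial ((fv lam c - s).toNat) ((a : ℂ) * y ^ (fv kap c))) = _
  rw [AddMonoidAlgebra.coeff_single]
  refine Finsupp.sum_single_index ?_
  simp

theorem l04_sp_mul {m : ℕ} (lam kap : Fin m → ℤ) (y : ℂ) (hy : y ≠ 0) (s t : ℤ) (h G : LM m)
    (hs : ∀ a ∈ h.coeff.support, s ≤ fv lam a) (ht : ∀ b ∈ G.coeff.support, t ≤ fv lam b) :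
    l04_sp lam kap y (s + t) (h * G) = l04_sp lam kap y s h * l04_sp lam kap y t G := by
  rw [AddMonoidAlgebra.mul_def]
  unfold Finsupp.sum
  rw [map_sum, l04_sp_apply, l04_sp_apply, Finset.sum_mul]
  refine Finset.sum_congr rfl fun a ha => ?_
  rw [map_sum, Finset.mul_sum]
  refine Finset.sum_congr rfl fun b hb => ?_
  rw [l04_sp_single, monomial_mul_monomial, l04_fv_add, l04_fv_add]
  have h1 := hs a ha
  have h2 := ht b hb
  have e1 : (fv lam a + fv lam b - (s + t)).toNat = (fv lam a - s).toNat + (fv lam b - t).toNat := by omega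
  rw [e1]
  congr 1
  rw [zpow_add₀ hy]
  push_cast
  ring

theorem l04_norm {y : ℂ} (hy : ‖y‖ = 1) (a k : ℤ) : ‖(a : ℂ) * y ^ k‖ = (a.natAbs : ℝ) := by
  rw [norm_mul, norm_zpow, hy, one_zpow, mul_one, Complex.norm_intCast, Nat.cast_natAbs, Int.cast_abs]

theorem l04_sum_le {m : ℕ} (lam kap : Fin m → ℤ) {y : ℂ} (hy : ‖y‖ = 1) (s : ℤ) (F : LM m) (M : ℕ) :
    ∑ i ∈ Finset.range (M + 1), ‖(l04_sp lam kap y s F).coeff i‖ ≤ nrm F := by
  classical
  have h1 : ∀ i ∈ Finset.range (M + 1), ‖(l04_sp lam kap y s F).coeff i‖ ≤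
      ∑ c ∈ F.coeff.support, if (fv lam c - s).toNat = i then ((F.coeff c).natAbs : ℝ) else 0 := by
    intro i _
    rw [l04_sp_coeff]
    refine (norm_sum_le _ _).trans (Finset.sum_le_sum fun c _ => ?_)
    split_ifs
    · exact (l04_norm hy _ _).le
    · rw [norm_zero]
  refine (Finset.sum_le_sum h1).trans ?_
  rw [Finset.sum_comm]
  unfold nrm
  rw [Nat.cast_sum]
  refine Finset.sum_le_sum fun c _ => ?_
  rw [Finset.sum_ite_eq]
  split_ifs
  · exact le_rfl
  · exact Nat.cast_nonneg _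

/-- the images of the coefficients of `h` -/
theorem l04_lead {m : ℕ} (lam kap : Fin m → ℤ) {y : ℂ} (hy : ‖y‖ = 1) (h : LM m) (a0 : Fin m → ℤ)
    (ha0 : a0 ∈ h.coeff.support) (hmin : ∀ a ∈ h.coeff.support, fv lam a0 ≤ fv lam a)
    (hinj : ∀ a ∈ h.coeff.support, ∀ b ∈ h.coeff.support, fv lam a = fv lam b → a = b) (d : ℕ)
    (hd : ∀ a ∈ h.coeff.support, fv lam a - fv lam a0 ≤ d) :
    1 ≤ ‖(l04_sp lam kap y (fv lam a0) h).leadingCoeff‖ ∧ (l04_sp lam kap y (fv lam a0) h).natDegree ≤ d ∧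
      l04_sp lam kap y (fv lam a0) h ≠ 0 := by
  classical
  have key : ∀ a ∈ h.coeff.support, (l04_sp lam kap y (fv lam a0) h).coeff ((fv lam a - fv lam a0).toNat) =
      (h.coeff a : ℂ) * y ^ (fv kap a) := by
    intro a ha
    rw [l04_sp_coeff, Finset.sum_eq_single a]
    · rw [if_pos rfl]
    · intro b hb hba
      rw [if_neg]
      intro h1
      have h2 := hmin a ha
      have h3 := hmin b hb
      exact hba (hinj b hb a ha (by omega))
    · intro h1
      exact absurd ha h1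
  have one : ∀ a ∈ h.coeff.support, (1 : ℝ) ≤ ‖(h.coeff a : ℂ) * y ^ (fv kap a)‖ := by
    intro a ha
    rw [l04_norm hy]
    have : 1 ≤ (h.coeff a).natAbs := by
      have := Finsupp.mem_support_iff.1 ha
      omega
    exact_mod_cast this
  have hne : l04_sp lam kap y (fv lam a0) h ≠ 0 := by
    intro h0
    have h1 := key a0 ha0
    rw [h0, coeff_zero] at h1
    have h2 := one a0 ha0
    rw [← h1, norm_zero] at h2
    linarith
  have hex : ∃ a ∈ h.coeff.support, (fv lam a - fv lam a0).toNat = (l04_sp lam kap y (fv lam a0) h).natDegree := by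
    by_contra hcon
    push Not at hcon
    have h1 : (l04_sp lam kap y (fv lam a0) h).leadingCoeff = 0 := by
      rw [leadingCoeff, l04_sp_coeff]
      exact Finset.sum_eq_zero fun c hc => if_neg (hcon c hc)
    exact hne (leadingCoeff_eq_zero.1 h1)
  obtain ⟨a, ha, hdeg⟩ := hex
  refine ⟨?_, ?_, hne⟩
  · rw [leadingCoeff, ← hdeg, key a ha]
    exact one a ha
  · rw [← hdeg]
    have := hd a ha
    omega

/-- the bound for the image of `G` -/
theorem l04_image {m : ℕ} (lam kap : Fin m → ℤ) {y : ℂ} (hy : ‖y‖ = 1) (h F G : LM m) (hF : F = h * G)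
    (a0 b0 : Fin m → ℤ) (ha0 : a0 ∈ h.coeff.support) (hmin : ∀ a ∈ h.coeff.support, fv lam a0 ≤ fv lam a)
    (hinj : ∀ a ∈ h.coeff.support, ∀ b ∈ h.coeff.support, fv lam a = fv lam b → a = b) (d : ℕ)
    (hd : ∀ a ∈ h.coeff.support, fv lam a - fv lam a0 ≤ d)
    (hminG : ∀ b ∈ G.coeff.support, fv lam b0 ≤ fv lam b) (M : ℕ)
    (hM : ∀ c ∈ F.coeff.support, fv lam c - (fv lam a0 + fv lam b0) ≤ M) (j : ℕ) :
    ‖(l04_sp lam kap y (fv lam b0) G).coeff j‖ ≤ ((M : ℝ) + 1) ^ d * nrm F := by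
  have hy0 : y ≠ 0 := by
    intro h0
    rw [h0, norm_zero] at hy
    exact zero_ne_one hy
  obtain ⟨h1, h2, h3⟩ := l04_lead lam kap hy h a0 ha0 hmin hinj d hd
  have hP : l04_sp lam kap y (fv lam a0 + fv lam b0) F =
      l04_sp lam kap y (fv lam a0) h * l04_sp lam kap y (fv lam b0) G := by
    rw [hF]
    exact l04_sp_mul lam kap y hy0 _ _ h G hmin hminG
  have hdegP : (l04_sp lam kap y (fv lam a0 + fv lam b0) F).natDegree ≤ M := by
    rw [l04_sp_apply]
    refine natDegree_sum_le_of_forall_le _ _ fun c hc => ?_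
    refine (natDegree_monomial_le _).trans ?_
    have := hM c hc
    omega
  have hfb := factor_bound _ _ _ M hdegP hP
  have hsumP := l04_sum_le lam kap hy (fv lam a0 + fv lam b0) F M
  have hM1 : (1 : ℝ) ≤ (M : ℝ) + 1 := by
    have : (0 : ℝ) ≤ M := Nat.cast_nonneg M
    linarith
  have hsumA : ∑ i ∈ Finset.range (M + 1), ‖(l04_sp lam kap y (fv lam b0) G).coeff i‖ ≤ ((M : ℝ) + 1) ^ d * nrm F := by
    have h4 : 0 ≤ ∑ i ∈ Finset.range (M + 1), ‖(l04_sp lam kap y (fv lam b0) G).coeff i‖ :=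
      Finset.sum_nonneg fun _ _ => norm_nonneg _
    have h5 : ∑ i ∈ Finset.range (M + 1), ‖(l04_sp lam kap y (fv lam b0) G).coeff i‖ ≤
        ‖(l04_sp lam kap y (fv lam a0) h).leadingCoeff‖ *
          ∑ i ∈ Finset.range (M + 1), ‖(l04_sp lam kap y (fv lam b0) G).coeff i‖ := by
      nlinarith
    refine h5.trans (hfb.trans ?_)
    have h6 : ((M : ℝ) + 1) ^ (l04_sp lam kap y (fv lam a0) h).natDegree ≤ ((M : ℝ) + 1) ^ d :=
      pow_le_pow_right₀ hM1 h2
    exact mul_le_mul h6 hsumP (Finset.sum_nonneg fun _ _ => norm_nonneg _) (by positivity)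
  refine le_trans ?_ hsumA
  by_cases hj : j ≤ M
  · exact Finset.single_le_sum (f := fun i => ‖(l04_sp lam kap y (fv lam b0) G).coeff i‖)
      (fun i _ => norm_nonneg _) (Finset.mem_range.2 (by omega))
  · have h4 : (l04_sp lam kap y (fv lam b0) G).coeff j = 0 := by
      by_contra hne
      have hA0 : l04_sp lam kap y (fv lam b0) G ≠ 0 := fun h0 => hne (by rw [h0, coeff_zero])
      have h5 : (l04_sp lam kap y (fv lam a0 + fv lam b0) F).natDegree =
          (l04_sp lam kap y (fv lam a0) h).natDegree + (l04_sp lam kap y (fv lam b0) G).natDegree := by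
        rw [hP, natDegree_mul h3 hA0]
      have h6 := le_natDegree_of_ne_zero hne
      omega
    rw [h4, norm_zero]
    exact Finset.sum_nonneg fun _ _ => norm_nonneg _

/-- the corner of a product -/
theorem l04_corner {m : ℕ} (lam : Fin m → ℤ) (h G : LM m) (a0 b0 : Fin m → ℤ)
    (ha0 : a0 ∈ h.coeff.support) (hb0 : b0 ∈ G.coeff.support)
    (hmin : ∀ a ∈ h.coeff.support, fv lam a0 ≤ fv lam a)
    (hinj : ∀ a ∈ h.coeff.support, ∀ b ∈ h.coeff.support, fv lam a = fv lam b → a = b)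
    (hminG : ∀ b ∈ G.coeff.support, fv lam b0 ≤ fv lam b) : a0 + b0 ∈ (h * G).coeff.support := by
  classical
  rw [Finsupp.mem_support_iff, AddMonoidAlgebra.coeff_mul]
  have h1 : (h.coeff.sum fun m₁ r₁ => G.coeff.sum fun m₂ r₂ => if m₁ + m₂ = a0 + b0 then r₁ * r₂ else 0) =
      h.coeff a0 * G.coeff b0 := by
    unfold Finsupp.sum
    rw [Finset.sum_eq_single a0]
    · change (∑ b ∈ G.coeff.support, if a0 + b = a0 + b0 then h.coeff a0 * G.coeff b else 0) = _
      rw [Finset.sum_eq_single b0]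
      · rw [if_pos rfl]
      · intro b hb hne
        rw [if_neg]
        intro h2
        exact hne (add_left_cancel h2)
      · intro h2
        exact absurd hb0 h2
    · intro a ha hne
      refine Finset.sum_eq_zero fun b hb => if_neg ?_
      intro h2
      have h3 : fv lam a + fv lam b = fv lam a0 + fv lam b0 := by
        rw [← l04_fv_add, ← l04_fv_add, h2]
      have h4 := hmin a ha
      have h5 := hminG b hb
      exact hne (hinj a ha a0 ha0 (by omega))
    · intro h2
      exact absurd ha0 h2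
  rw [h1]
  exact mul_ne_zero (Finsupp.mem_support_iff.1 ha0) (Finsupp.mem_support_iff.1 hb0)

theorem quot_boundM {m : ℕ} (h : LM m) (hh : h ≠ 0) : ∃ C : ℕ, ∀ (n : ℕ) (F G : LM m),
    F = h * G → (∀ c ∈ F.coeff.support, ∀ i, |c i| ≤ n) →
    ∀ c, (G.coeff c).natAbs ≤ C * (n + 1) ^ C * nrm F := by
  classical
  obtain ⟨lam, hinj⟩ := l04_inj h.coeff.support
  have hsupp : h.coeff.support.Nonempty := by
    rw [Finsupp.support_nonempty_iff]
    intro h0
    exact hh (AddMonoidAlgebra.coeff_injective h0)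
  obtain ⟨a0, ha0, hmin⟩ := Finset.exists_min_image h.coeff.support (fun a => fv lam a) hsupp
  obtain ⟨d, hd⟩ : ∃ d : ℕ, ∀ a ∈ h.coeff.support, fv lam a - fv lam a0 ≤ d := by
    obtain ⟨a1, _, hmax⟩ := Finset.exists_max_image h.coeff.support (fun a => fv lam a) hsupp
    refine ⟨(fv lam a1 - fv lam a0).toNat, fun a ha => ?_⟩
    have := hmax a ha
    omega
  obtain ⟨L, hL⟩ : ∃ L : ℕ, L = ∑ i, (lam i).natAbs := ⟨_, rfl⟩
  refine ⟨(2 * L + 1) ^ d + d, ?_⟩
  intro n F G hF hn c
  by_cases hc : G.coeff c = 0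
  · rw [hc]
    simp
  have hcs : c ∈ G.coeff.support := Finsupp.mem_support_iff.2 hc
  have hGne : G.coeff.support.Nonempty := ⟨c, hcs⟩
  obtain ⟨kap, hkap⟩ := l04_inj G.coeff.support
  obtain ⟨b0, hb0, hminG⟩ := Finset.exists_min_image G.coeff.support (fun a => fv lam a) hGne
  obtain ⟨b1, hb1, hminK⟩ := Finset.exists_min_image G.coeff.support (fun a => fv kap a) hGne
  -- the range of the functional on the support of `F`
  have hlamF : ∀ x ∈ F.coeff.support, |fv lam x| ≤ L * n := by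
    intro x hx
    have := l04_fv_le lam x n (hn x hx)
    rw [hL]
    exact_mod_cast this
  have hcor : a0 + b0 ∈ F.coeff.support := by
    rw [hF]
    exact l04_corner lam h G a0 b0 ha0 hb0 hmin hinj hminG
  have hM : ∀ x ∈ F.coeff.support, fv lam x - (fv lam a0 + fv lam b0) ≤ ((2 * L * n : ℕ) : ℤ) := by
    intro x hx
    have h1 := (abs_le.1 (hlamF x hx)).2
    have h2 := (abs_le.1 (hlamF _ hcor)).1
    rw [l04_fv_add] at h2
    push_cast
    nlinarith
  -- the polynomial in `y`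
  obtain ⟨j, hj⟩ : ∃ j : ℕ, j = (fv lam c - fv lam b0).toNat := ⟨_, rfl⟩
  let B : ℂ[X] := ∑ b ∈ G.coeff.support, if (fv lam b - fv lam b0).toNat = j then
    monomial ((fv kap b - fv kap b1).toNat) ((G.coeff b : ℂ)) else 0
  have hBcoeff : B.coeff ((fv kap c - fv kap b1).toNat) = (G.coeff c : ℂ) := by
    change (∑ b ∈ G.coeff.support, if (fv lam b - fv lam b0).toNat = j then
      monomial ((fv kap b - fv kap b1).toNat) ((G.coeff b : ℂ)) else 0 : ℂ[X]).coeff _ = _
    rw [finsetSum_coeff, Finset.sum_eq_single c]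
    · rw [if_pos hj.symm, coeff_monomial, if_pos rfl]
    · intro b hb hbc
      split_ifs
      · rw [coeff_monomial, if_neg]
        intro h1
        have h2 := hminK b hb
        have h3 := hminK c hcs
        exact hbc (hkap b hb c hcs (by omega))
      · exact coeff_zero _
    · intro h1
      exact absurd hcs h1
  have hBsup : ∀ y : ℂ, ‖y‖ = 1 → ‖B.eval y‖ ≤ (((2 * L * n : ℕ) : ℝ) + 1) ^ d * nrm F := by
    intro y hy
    have hy0 : y ≠ 0 := by
      intro h0
      rw [h0, norm_zero] at hy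
      exact zero_ne_one hy
    have h1 : y ^ (fv kap b1) * B.eval y = (l04_sp lam kap y (fv lam b0) G).coeff j := by
      rw [l04_sp_coeff]
      change y ^ (fv kap b1) * (∑ b ∈ G.coeff.support, if (fv lam b - fv lam b0).toNat = j then
        monomial ((fv kap b - fv kap b1).toNat) ((G.coeff b : ℂ)) else 0 : ℂ[X]).eval y = _
      rw [eval_finsetSum, Finset.mul_sum]
      refine Finset.sum_congr rfl fun b hb => ?_
      split_ifs
      · rw [eval_monomial]
        have h2 := hminK b hb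
        have h3 : fv kap b = fv kap b1 + ((fv kap b - fv kap b1).toNat : ℤ) := by omega
        have h4 : y ^ (fv kap b) = y ^ (fv kap b1) * y ^ ((fv kap b - fv kap b1).toNat) := by
          conv_lhs => rw [h3]
          rw [zpow_add₀ hy0, zpow_natCast]
        rw [h4]
        ring
      · rw [eval_zero, mul_zero]
    have h2 := l04_image lam kap hy h F G hF a0 b0 ha0 hmin hinj d hd hminG (2 * L * n) hM j
    rw [← h1, norm_mul, norm_zpow, hy, one_zpow, one_mul] at h2
    exact h2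
  have h1 := coeff_le_sup B _ hBsup ((fv kap c - fv kap b1).toNat)
  rw [hBcoeff, Complex.norm_intCast, ← Int.cast_abs, Int.abs_eq_natAbs, Int.cast_natCast] at h1
  have h2 : (G.coeff c).natAbs ≤ (2 * L * n + 1) ^ d * nrm F := by exact_mod_cast h1
  refine h2.trans (Nat.mul_le_mul_right _ ?_)
  calc (2 * L * n + 1) ^ d ≤ ((2 * L + 1) * (n + 1)) ^ d := Nat.pow_le_pow_left (by nlinarith) d
    _ = (2 * L + 1) ^ d * (n + 1) ^ d := mul_pow _ _ _
    _ ≤ ((2 * L + 1) ^ d + d) * (n + 1) ^ ((2 * L + 1) ^ d + d) := by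
      refine Nat.mul_le_mul (by omega) (Nat.pow_le_pow_right (by omega) (by omega))

end Pool.Agent.WQL
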