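import Pool.Agent.Lib.MP_2da099_lc.QL.Defs

/-!
# Q01: quasi-linear time: copy of R2/P10.lean with `lg`.

`lg n = Nat.log 2 (n + 2) ≥ 1`.  `lg_mul`: `c (n + 1) + 2 ≤ (c + 1) (n + 2)`, `Nat.log_mul`-type bound, `lg n ≥ 1`.
`QL.comp`: `T (f w) ≤ C (|f w| + 1) lg |f w| ^ C` and `lg_mul`.  `QL.flatMap`: `ct_flatMapFin`.
-/

set_option autoImplicit false

namespace Pool.Agent.WQL

open Pool.Agent.Lib.PolyTime Pool.Agent.WPM Pool.Agent.WPR Function

section
variable {ι ι' : Type} [Enc ι] [Finite ι] [Enc ι'] [Finite ι']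

theorem lg_pos (n : ℕ) : 1 ≤ lg n := Nat.log_pos (by norm_num) (by omega)

theorem lg_mono {a b : ℕ} (h : a ≤ b) : lg a ≤ lg b := Nat.log_mono_right (by omega)

theorem lg_mul (c : ℕ) : ∃ C : ℕ, ∀ n, lg (c * (n + 1)) ≤ C * lg n := by
  refine ⟨c + 2, fun n => ?_⟩
  have h1 : n + 2 < 2 ^ (lg n + 1) := Nat.lt_pow_succ_log_self (by norm_num) _
  have h2 : c + 1 < 2 ^ (c + 1) := Nat.lt_two_pow_self
  have h3 : c * (n + 1) + 2 < 2 ^ (c + 1 + (lg n + 1)) := by
    rw [pow_add]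
    calc c * (n + 1) + 2 ≤ (c + 1) * (n + 2) := by
          have e : (c + 1) * (n + 2) = c * (n + 1) + 2 + (c + n) := by ring
          omega
      _ < 2 ^ (c + 1) * 2 ^ (lg n + 1) := Nat.mul_lt_mul'' h2 h1
  have h4 : lg (c * (n + 1)) < c + 1 + (lg n + 1) := Nat.log_lt_of_lt_pow (by omega) h3
  have h5 := lg_pos n
  have h6 : (c + 1) * 1 ≤ (c + 1) * lg n := Nat.mul_le_mul_left _ h5
  have e : (c + 2) * lg n = (c + 1) * lg n + lg n := by ring
  omega

theorem QL_of_ct {f : List ι → Bool} {T : List ι → ℕ} (hf : CT f T) (C : ℕ)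
    (hT : ∀ w, T w ≤ C * (w.length + 1) * lg w.length ^ C) : QL (fun w => f w = true) :=
  ⟨f, T, C, hf, fun _ => Iff.rfl, hT⟩

theorem QL.congr {Z Z' : List ι → Prop} (h : QL Z) (e : ∀ w, Z w ↔ Z' w) : QL Z' := by
  obtain ⟨f, T, C, h1, h2, h3⟩ := h
  exact ⟨f, T, C, h1, fun w => (h2 w).trans (e w), h3⟩

theorem q01_up {a b K : ℕ} (n : ℕ) (ha : a ≤ K) (hb : b ≤ K) :
    a * (n + 1) * lg n ^ b ≤ K * (n + 1) * lg n ^ K :=
  Nat.mul_le_mul (Nat.mul_le_mul_right _ ha) (Nat.pow_le_pow_right (lg_pos n) hb)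

theorem q01_add {a b K : ℕ} (n d : ℕ) (hb : b ≤ K) :
    a * (n + 1) * lg n ^ b + d * (n + 1) * lg n ^ K ≤ (a + d) * (n + 1) * lg n ^ K := by
  have h := q01_up (a := a) (b := b) (K := b) n
  have h1 : a * (n + 1) * lg n ^ b ≤ a * (n + 1) * lg n ^ K :=
    Nat.mul_le_mul_left _ (Nat.pow_le_pow_right (lg_pos n) hb)
  have e : (a + d) * (n + 1) * lg n ^ K = a * (n + 1) * lg n ^ K + d * (n + 1) * lg n ^ K := by ring
  omega

theorem q01_lin (κ n : ℕ) : κ * (n + 1) ≤ κ * (n + 1) * lg n ^ 0 := by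
  rw [pow_zero, mul_one]

theorem QL_true : QL (fun _ : List ι => True) := by
  obtain ⟨κ, hκ⟩ := size_list_fin ι
  exact ⟨fun _ => true, _, κ, CT.const true, fun w => by simp, fun w =>
    ((hκ w).trans (q01_lin κ _)).trans (q01_up _ le_rfl (Nat.zero_le _))⟩

theorem QL.and {Z Z' : List ι → Prop} (h : QL Z) (h' : QL Z') : QL (fun w => Z w ∧ Z' w) := by
  obtain ⟨f, T, C, h1, h2, h3⟩ := h
  obtain ⟨f', T', C', h1', h2', h3'⟩ := h'
  obtain ⟨κ, hκ⟩ := size_list_fin ι
  have hp : CT (fun w => (f w, f' w)) (fun w => size w + T w + T' w) := CT.pair h1 h1'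
  have hc : CT (fun x : Bool × Bool => x.1 && x.2) (fun _ => 0) := CT.fin _
  have := hc.comp hp
  refine ⟨fun w => f w && f' w, _, κ + C + C', this, fun w => ?_, fun w => ?_⟩
  · show (f w && f' w) = true ↔ _
    rw [Bool.and_eq_true, h2 w, h2' w]
  · have a1 := (hκ w).trans (q01_lin κ w.length)
    have a2 := h3 w
    have a3 := h3' w
    show size w + T w + T' w + 0 ≤ (κ + C + C') * (w.length + 1) * lg w.length ^ (κ + C + C')
    have b1 : κ * (w.length + 1) * lg w.length ^ 0 ≤ κ * (w.length + 1) * lg w.length ^ (κ + C + C') :=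
      Nat.mul_le_mul_left _ (Nat.pow_le_pow_right (lg_pos _) (by omega))
    have b2 : C * (w.length + 1) * lg w.length ^ C ≤ C * (w.length + 1) * lg w.length ^ (κ + C + C') :=
      Nat.mul_le_mul_left _ (Nat.pow_le_pow_right (lg_pos _) (by omega))
    have b3 : C' * (w.length + 1) * lg w.length ^ C' ≤ C' * (w.length + 1) * lg w.length ^ (κ + C + C') :=
      Nat.mul_le_mul_left _ (Nat.pow_le_pow_right (lg_pos _) (by omega))
    have e : (κ + C + C') * (w.length + 1) * lg w.length ^ (κ + C + C') =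
      κ * (w.length + 1) * lg w.length ^ (κ + C + C') + C * (w.length + 1) * lg w.length ^ (κ + C + C') +
      C' * (w.length + 1) * lg w.length ^ (κ + C + C') := by ring
    omega

theorem QL_forall (m : ℕ) (Z : Fin m → List ι → Prop) (h : ∀ i, QL (Z i)) :
    QL (fun w => ∀ i, Z i w) := by
  induction m with
  | zero => exact QL_true.congr (fun w => ⟨fun _ i => i.elim0, fun _ => trivial⟩)
  | succ m ih =>
    have h1 := ih (fun i => Z i.succ) (fun i => h i.succ)
    exact ((h 0).and h1).congr (fun w => (Fin.forall_fin_succ (P := fun i => Z i w)).symm)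

theorem QL.comp {Z : List ι → Prop} (h : QL Z) {f : List ι' → List ι} (C : ℕ)
    (hf : CT f (fun w => w.length)) (hl : ∀ w, (f w).length ≤ C * (w.length + 1)) :
    QL (fun w => Z (f w)) := by
  obtain ⟨f₀, T, C₀, h1, h2, h3⟩ := h
  obtain ⟨C₁, hC₁⟩ := lg_mul C
  refine ⟨fun w => f₀ (f w), _, 1 + C₀ * (C + 1) * C₁ ^ C₀ + C₀, h1.comp hf, fun w => h2 (f w), fun w => ?_⟩
  have a1 := h3 (f w)
  have a2 := hl w
  have a3 : (f w).length + 1 ≤ (C + 1) * (w.length + 1) := by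
    have e : (C + 1) * (w.length + 1) = C * (w.length + 1) + (w.length + 1) := by ring
    omega
  have a4 : lg (f w).length ≤ C₁ * lg w.length := (lg_mono a2).trans (hC₁ _)
  have a5 : C₀ * ((f w).length + 1) * lg (f w).length ^ C₀ ≤
      C₀ * ((C + 1) * (w.length + 1)) * (C₁ * lg w.length) ^ C₀ :=
    Nat.mul_le_mul (Nat.mul_le_mul_left _ a3) (Nat.pow_le_pow_left a4 _)
  have e1 : C₀ * ((C + 1) * (w.length + 1)) * (C₁ * lg w.length) ^ C₀ =
      (C₀ * (C + 1) * C₁ ^ C₀) * (w.length + 1) * lg w.length ^ C₀ := by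
    rw [mul_pow]
    ring
  have b0 := lg_pos w.length
  set K := 1 + C₀ * (C + 1) * C₁ ^ C₀ + C₀ with hK
  have b1 : (C₀ * (C + 1) * C₁ ^ C₀) * (w.length + 1) * lg w.length ^ C₀ ≤
      (C₀ * (C + 1) * C₁ ^ C₀) * (w.length + 1) * lg w.length ^ K :=
    Nat.mul_le_mul_left _ (Nat.pow_le_pow_right b0 (by omega))
  have b2 : 1 * (w.length + 1) * 1 ≤ 1 * (w.length + 1) * lg w.length ^ K :=
    Nat.mul_le_mul_left _ (Nat.one_le_pow _ _ b0)
  show w.length + T (f w) ≤ K * (w.length + 1) * lg w.length ^ K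
  have b3 : (1 + C₀ * (C + 1) * C₁ ^ C₀) * (w.length + 1) * lg w.length ^ K ≤
      K * (w.length + 1) * lg w.length ^ K :=
    Nat.mul_le_mul_right _ (Nat.mul_le_mul_right _ (by omega))
  have e2 : (1 + C₀ * (C + 1) * C₁ ^ C₀) * (w.length + 1) * lg w.length ^ K =
      1 * (w.length + 1) * lg w.length ^ K +
      (C₀ * (C + 1) * C₁ ^ C₀) * (w.length + 1) * lg w.length ^ K := by ring
  omega

theorem QL.flatMap {Z : List ι → Prop} (h : QL Z) (g : ι' → List ι) :
    QL (fun w => Z (w.flatMap g)) := by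
  obtain ⟨κ, hκ⟩ : ∃ κ : ℕ, ∀ i, (g i).length ≤ κ := by
    classical
    let _ := Fintype.ofFinite ι'
    exact ⟨Finset.univ.sup (fun i : ι' => (g i).length), fun i =>
      Finset.le_sup (f := fun i : ι' => (g i).length) (Finset.mem_univ i)⟩
  refine h.comp κ (ct_flatMapFin g) (fun w => ?_)
  have : ∀ w : List ι', (w.flatMap g).length ≤ κ * w.length := by
    intro w
    induction w with
    | nil => simp
    | cons a w ih =>
      rw [List.flatMap_cons, List.length_append, List.length_cons]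
      have := hκ a
      have e : κ * (w.length + 1) = κ * w.length + κ := by ring
      omega
  exact (this w).trans (Nat.mul_le_mul_left _ (Nat.le_succ _))

end

end Pool.Agent.WQL
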