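import Pool.Agent.Lib.MP_2da099_lc.QL.L03
import Pool.Agent.Lib.MP_2da099_lc.QL.L04
import Pool.Agent.Lib.MP_2da099_lc.QL.Q01

/-!
# L05: the rounding theorem (the key point).

`e = 0`: `D = S = T = r = 0`, `p = 2`, both sides are true (`rnd` of 0 is 0).  `e ≥ 1`: `H = h ^ e`, `p` a prime,
`p ≥ N0`, `p ≥ 3`, `p ≥ 2 * nrm H ^ 2` (`H ≠ 0`, so `nrm H ≥ 1`), `dl p H = H ^ p + p r` (`dl_congr`), `D = dl p H`,
`S = H ^ (p - 1)`, `T = p r`.  By induction, with `W = itB .. k 1`, `D ^ k F = itB .. k 0`, `r ^ k F = itB .. k 2`: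
`D ^ k F = H * W + p ^ k r ^ k F`.
`←`: `H * (..) + r ^ (k+1) F = 0` gives `H ∣ r ^ (k+1) F`; `h ∤ r` (otherwise `h ∣ dl p H = (dl p h) ^ e`, so
`h ∣ dl p h`, a contradiction to `hdl`), so `h ^ e ∣ F` (`Prime.pow_dvd_of_dvd_mul_left`).
`→`: `F = H G`: `H * W_{k+1} = D ^ (k+1) H G - p ^ (k+1) r ^ (k+1) H G`, cancel `H` (domain):
`W_{k+1} = D ^ (k+1) G - p ^ (k+1) r ^ (k+1) G`.  All coefficients of `D ^ (k+1) G` are at most
`nrm H ^ (k+1) * C (n+1) ^ C * n ≤ p ^ k` in absolute value (`nrm_dl`, `nrm_pow`, `coeff_mul_leM`, `quot_boundM`;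
`p ^ k ≥ 2 ^ k * nrm H ^ (2 k)`, `k ≥ c lg n ≥ 1`), so `0 ≤ a + p ^ k < p ^ (k+1)` and
`rnd p k W_{k+1} = - r ^ (k+1) G` coefficientwise (`Int.add_mul_ediv_left`), and the right side is
`- H r ^ (k+1) G + r ^ (k+1) F = 0`.
-/

set_option autoImplicit false

namespace Pool.Agent.WQL

open Pool.Agent.Lib.PolyTime Pool.Agent.WPM Pool.Agent.WPR Function

private theorem l05_natmul {m : ℕ} (a : ℕ) (F : LM m) (c : Fin m → ℤ) :
    ((a : LM m) * F).coeff c = a * F.coeff c := by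
  rw [← nsmul_eq_mul, AddMonoidAlgebra.coeff_smul, Finsupp.smul_apply, nsmul_eq_mul]

private theorem l05_rnd_coeff {m : ℕ} (p k : ℕ) (F : LM m) (c : Fin m → ℤ) :
    (rnd p k F).coeff c = if F.coeff c = 0 then 0 else (F.coeff c + (p : ℤ) ^ k) / (p : ℤ) ^ (k + 1) := rfl

/-- rounding -/
private theorem l05_round {p k : ℕ} (hp : 3 ≤ p) {x y : ℤ} (hx : x.natAbs ≤ p ^ k) :
    (if x - (p : ℤ) ^ (k + 1) * y = 0 then 0 else (x - (p : ℤ) ^ (k + 1) * y + (p : ℤ) ^ k) / (p : ℤ) ^ (k + 1)) = -y := by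
  have hp0 : (0 : ℤ) < (p : ℤ) ^ k := by positivity
  have hx1 : |x| ≤ (p : ℤ) ^ k := by
    rw [Int.abs_eq_natAbs]
    exact_mod_cast hx
  obtain ⟨h1, h2⟩ := abs_le.1 hx1
  have h3 : 3 * (p : ℤ) ^ k ≤ (p : ℤ) ^ (k + 1) := by
    rw [pow_succ, mul_comm]
    exact mul_le_mul_of_nonneg_left (by exact_mod_cast hp) hp0.le
  split_ifs with h
  · have h4 : x = (p : ℤ) ^ (k + 1) * y := by linarith
    by_contra hy
    have hy0 : y ≠ 0 := fun h0 => hy (by rw [h0, neg_zero])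
    have h5 : 1 ≤ |y| := Int.one_le_abs hy0
    have h6 : |x| = (p : ℤ) ^ (k + 1) * |y| := by
      rw [h4, abs_mul, abs_of_pos (by positivity)]
    nlinarith
  · have e : x - (p : ℤ) ^ (k + 1) * y + (p : ℤ) ^ k = (x + (p : ℤ) ^ k) + (p : ℤ) ^ (k + 1) * (-y) := by ring
    rw [e, Int.add_mul_ediv_left _ _ (by positivity), Int.ediv_eq_zero_of_lt (by linarith) (by linarith), zero_add]

private theorem l05_itB {m : ℕ} (D S T r F : LM m) (k : ℕ) :
    itB D S T r F k 0 = D ^ k * F ∧ itB D S T r F k 2 = r ^ k * F := by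
  induction k with
  | zero => exact ⟨by simp [itB], by simp [itB]⟩
  | succ k ih =>
    refine ⟨?_, ?_⟩
    · show D * itB D S T r F k 0 = _
      rw [ih.1, pow_succ']
      ring
    · show r * itB D S T r F k 2 = _
      rw [ih.2, pow_succ']
      ring

private theorem l05_W {m : ℕ} {H u F : LM m} {p : ℕ} (hp : 1 ≤ p) {D : LM m} (hD : D = H ^ p + (p : LM m) * u) (k : ℕ) :
    D ^ k * F = H * itB D (H ^ (p - 1)) ((p : LM m) * u) u F k 1 + (p : LM m) ^ k * (u ^ k * F) := by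
  induction k with
  | zero =>
    show D ^ 0 * F = H * 0 + _
    simp
  | succ k ih =>
    have h0 := (l05_itB D (H ^ (p - 1)) ((p : LM m) * u) u F k).1
    show D ^ (k + 1) * F = H * (H ^ (p - 1) * itB D (H ^ (p - 1)) ((p : LM m) * u) u F k 0 +
      (p : LM m) * u * itB D (H ^ (p - 1)) ((p : LM m) * u) u F k 1) + _
    rw [h0]
    have h1 : H ^ p = H * H ^ (p - 1) := by
      rw [← pow_succ']
      congr 1
      omega
    have h2 : D ^ (k + 1) * F = (H * H ^ (p - 1)) * (D ^ k * F) + (p : LM m) * u * (D ^ k * F) := by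
      rw [pow_succ']
      conv_lhs => rw [hD]
      rw [← h1]
      conv_rhs => rw [hD]
      ring
    rw [h2]
    conv_lhs => rw [ih]
    conv_rhs => rw [ih]
    ring

private theorem l05_lg (C : ℕ) (n k : ℕ) (hk : (C + 2 * (C + 1)) * lg n ≤ k) :
    C * (n + 1) ^ C * n ≤ 2 ^ k := by
  have h1 : n + 1 ≤ 2 ^ (2 * lg n) := by
    have h2 : n + 2 < 2 ^ (lg n + 1) := Nat.lt_pow_succ_log_self (by norm_num) _
    have h3 : 2 ^ (lg n + 1) ≤ 2 ^ (2 * lg n) := Nat.pow_le_pow_right (by norm_num) (by have := lg_pos n; omega)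
    omega
  have h4 : C ≤ 2 ^ (C * lg n) := by
    have h5 : C < 2 ^ C := Nat.lt_two_pow_self
    have h6 : 2 ^ C ≤ 2 ^ (C * lg n) := Nat.pow_le_pow_right (by norm_num) (Nat.le_mul_of_pos_right _ (lg_pos n))
    omega
  calc C * (n + 1) ^ C * n ≤ 2 ^ (C * lg n) * (n + 1) ^ C * (n + 1) := by
        exact Nat.mul_le_mul (Nat.mul_le_mul_right _ h4) (Nat.le_succ n)
    _ = 2 ^ (C * lg n) * (n + 1) ^ (C + 1) := by rw [pow_succ]; ring
    _ ≤ 2 ^ (C * lg n) * (2 ^ (2 * lg n)) ^ (C + 1) := Nat.mul_le_mul_left _ (Nat.pow_le_pow_left h1 _)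
    _ = 2 ^ ((C + 2 * (C + 1)) * lg n) := by
        rw [← pow_mul, ← pow_add]
        congr 1
        ring
    _ ≤ 2 ^ k := Nat.pow_le_pow_right (by norm_num) hk

theorem round_iff {m : ℕ} (h : LM m) (hp : Prime h)
    (hdl : ∃ N0 : ℕ, ∀ N, N0 ≤ N → ¬ h ∣ dl N h) (e : ℕ) :
    ∃ (p : ℕ) (D S T r : LM m) (c : ℕ), 2 ≤ p ∧ ∀ (n k : ℕ) (F : LM m), nrm F ≤ n →
      (∀ v ∈ F.coeff.support, ∀ i, |v i| ≤ n) → c * lg n ≤ k →
      (h ^ e ∣ F ↔ h ^ e * rnd p k (itB D S T r F (k + 1) 1) + itB D S T r F (k + 1) 2 = 0) := by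
  classical
  rcases Nat.eq_zero_or_pos e with he | he
  · subst he
    refine ⟨2, 0, 0, 0, 0, 0, le_refl _, fun n k F _ _ _ => ?_⟩
    have h1 : itB (0 : LM m) 0 0 0 F (k + 1) 1 = 0 := by
      show (0 : LM m) * itB (0 : LM m) 0 0 0 F k 0 + 0 * itB (0 : LM m) 0 0 0 F k 1 = 0
      rw [zero_mul, zero_mul, add_zero]
    have h2 : itB (0 : LM m) 0 0 0 F (k + 1) 2 = 0 := by
      show (0 : LM m) * itB (0 : LM m) 0 0 0 F k 2 = 0
      rw [zero_mul]
    have h3 : rnd 2 k (0 : LM m) = 0 := by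
      ext c
      rw [l05_rnd_coeff]
      simp
    rw [h1, h2, h3]
    simp
  · obtain ⟨N0, hN0⟩ := hdl
    set H : LM m := h ^ e with hH
    have hH0 : H ≠ 0 := pow_ne_zero _ hp.ne_zero
    have hnH : 1 ≤ nrm H := by
      by_contra hc
      have h0 : nrm H = 0 := by omega
      refine hH0 ?_
      ext c
      have h1 := coeff_le_nrm H c
      rw [h0] at h1
      have : (H.coeff c).natAbs = 0 := by omega
      rw [Int.natAbs_eq_zero.1 this]
      rfl
    obtain ⟨C, hC⟩ := quot_boundM H hH0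
    obtain ⟨p, hpge, hpp⟩ := Nat.exists_infinite_primes (N0 + 3 + 2 * nrm H ^ 2)
    obtain ⟨u, hu⟩ := dl_congr p hpp H
    have hp3 : 3 ≤ p := by omega
    refine ⟨p, dl p H, H ^ (p - 1), (p : LM m) * u, u, (C + 2 * (C + 1)) + 1, by omega, ?_⟩
    intro n k F hF hsupp hk
    have hW := l05_W (F := F) (by omega : 1 ≤ p) hu (k + 1)
    have hb2 := (l05_itB (dl p H) (H ^ (p - 1)) ((p : LM m) * u) u F (k + 1)).2
    rw [hb2]
    set W : LM m := itB (dl p H) (H ^ (p - 1)) ((p : LM m) * u) u F (k + 1) 1 with hWdef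
    have hlg := lg_pos n
    have hk1 : 1 ≤ k := by
      have : 1 * 1 ≤ (C + 2 * (C + 1) + 1) * lg n := Nat.mul_le_mul (by omega) hlg
      omega
    constructor
    · rintro ⟨G, hG⟩
      have h1 : W = dl p H ^ (k + 1) * G - (p : LM m) ^ (k + 1) * (u ^ (k + 1) * G) := by
        have h2 : H * W = H * (dl p H ^ (k + 1) * G - (p : LM m) ^ (k + 1) * (u ^ (k + 1) * G)) := by
          rw [hG] at hW
          linear_combination (-1 : LM m) * hW
        exact mul_left_cancel₀ hH0 h2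
      have hbd : ∀ c, ((dl p H ^ (k + 1) * G).coeff c).natAbs ≤ p ^ k := by
        intro c
        have h2 : ∀ c, (G.coeff c).natAbs ≤ C * (n + 1) ^ C * n := fun c =>
          (hC n F G hG hsupp c).trans (Nat.mul_le_mul_left _ hF)
        have h3 := coeff_mul_leM (dl p H ^ (k + 1)) G _ h2 c
        have h4 : nrm (dl p H ^ (k + 1)) ≤ nrm H ^ (k + 1) :=
          (nrm_pow _ _).trans (Nat.pow_le_pow_left (nrm_dl H p) _)
        have h5 : C * (n + 1) ^ C * n ≤ 2 ^ k := l05_lg C n k (by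
          have : (C + 2 * (C + 1)) * lg n ≤ (C + 2 * (C + 1) + 1) * lg n := Nat.mul_le_mul_right _ (by omega)
          omega)
        calc ((dl p H ^ (k + 1) * G).coeff c).natAbs ≤ nrm (dl p H ^ (k + 1)) * (C * (n + 1) ^ C * n) := h3
          _ ≤ nrm H ^ (k + 1) * 2 ^ k := Nat.mul_le_mul h4 h5
          _ ≤ nrm H ^ (2 * k) * 2 ^ k := Nat.mul_le_mul_right _ (Nat.pow_le_pow_right hnH (by omega))
          _ = (2 * nrm H ^ 2) ^ k := by rw [mul_pow, ← pow_mul]; ring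
          _ ≤ p ^ k := Nat.pow_le_pow_left (by omega) k
      have hr : rnd p k W = -(u ^ (k + 1) * G) := by
        ext c
        rw [l05_rnd_coeff, h1]
        have e1 : (dl p H ^ (k + 1) * G - (p : LM m) ^ (k + 1) * (u ^ (k + 1) * G)).coeff c =
            (dl p H ^ (k + 1) * G).coeff c - (p : ℤ) ^ (k + 1) * (u ^ (k + 1) * G).coeff c := by
          rw [AddMonoidAlgebra.coeff_sub, Finsupp.sub_apply, ← Nat.cast_pow, l05_natmul]
          push_cast
          rfl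
        rw [e1, l05_round hp3 (hbd c), AddMonoidAlgebra.coeff_neg, Finsupp.neg_apply]
      rw [hr, hG]
      ring
    · intro h1
      have h2 : ¬ h ∣ u := by
        intro h3
        have h4 : h ∣ dl p H := by
          rw [hu]
          refine dvd_add ?_ (h3.mul_left _)
          exact dvd_pow (hH ▸ dvd_pow_self h (by omega)) (by omega)
        rw [hH, map_pow] at h4
        exact hN0 p (by omega) (hp.dvd_of_dvd_pow h4)
      have h3 : H ∣ u ^ (k + 1) * F := ⟨-rnd p k W, by linear_combination h1⟩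
      exact hp.pow_dvd_of_dvd_mul_left e (fun h4 => h2 (hp.dvd_of_dvd_pow h4)) h3

end Pool.Agent.WQL
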