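import Pool.Agent.Lib.MP_2da099_lc.QL.Defs
import Mathlib.Algebra.CharP.Lemmas
import Mathlib.Algebra.MonoidAlgebra.Support
import Mathlib.FieldTheory.Finite.Basic

/-!
# L03: norms and the Frobenius congruence: copy of R2/M04.lean (and `M05_norm_pow`) with `Fin m → ℤ`.
-/

set_option autoImplicit false

namespace Pool.Agent.WQL

open Pool.Agent.Lib.PolyTime Pool.Agent.WPM Pool.Agent.WPR Function

section
variable {m : ℕ}

theorem l03_nrm_eq (F : LM m) (S : Finset (Fin m → ℤ)) (h : F.coeff.support ⊆ S) :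
    nrm F = ∑ c ∈ S, (F.coeff c).natAbs := by
  unfold nrm
  refine Finset.sum_subset h (fun c _ hc => ?_)
  rw [Finsupp.notMem_support_iff.1 hc]
  rfl

theorem l03_sum_le (F : LM m) (S : Finset (Fin m → ℤ)) :
    ∑ c ∈ S, (F.coeff c).natAbs ≤ nrm F := by
  classical
  rw [l03_nrm_eq F (F.coeff.support ∪ S) Finset.subset_union_left]
  exact Finset.sum_le_sum_of_subset Finset.subset_union_right

theorem l03_nrm_zero : nrm (0 : LM m) = 0 := by
  unfold nrm
  simp

theorem l03_nrm_single (c : Fin m → ℤ) (a : ℤ) :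
    nrm (AddMonoidAlgebra.single c a : LM m) ≤ a.natAbs := by
  classical
  have hs : (AddMonoidAlgebra.single c a : LM m).coeff.support ⊆ {c} := by
    rw [AddMonoidAlgebra.coeff_single]
    exact Finsupp.support_single_subset
  rw [l03_nrm_eq _ _ hs, Finset.sum_singleton, AddMonoidAlgebra.coeff_single,
    Finsupp.single_eq_same]

theorem l03_coeff_mul (F G : LM m) (c : Fin m → ℤ) :
    (F * G).coeff c = ∑ a ∈ F.coeff.support, F.coeff a * G.coeff (-a + c) := by
  rw [AddMonoidAlgebra.coeff_mul_apply_left]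
  rfl

theorem coeff_le_nrm (F : LM m) (c : Fin m → ℤ) : (F.coeff c).natAbs ≤ nrm F := by
  have h := l03_sum_le F {c}
  simpa using h

theorem nrm_add (F G : LM m) : nrm (F + G) ≤ nrm F + nrm G := by
  classical
  have hs : (F + G).coeff.support ⊆ F.coeff.support ∪ G.coeff.support := by
    rw [AddMonoidAlgebra.coeff_add]
    exact Finsupp.support_add
  rw [l03_nrm_eq (F + G) _ hs, l03_nrm_eq F (F.coeff.support ∪ G.coeff.support)
    Finset.subset_union_left, l03_nrm_eq G (F.coeff.support ∪ G.coeff.support)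
    Finset.subset_union_right, ← Finset.sum_add_distrib]
  refine Finset.sum_le_sum (fun c _ => ?_)
  rw [AddMonoidAlgebra.coeff_add, Finsupp.add_apply]
  exact Int.natAbs_add_le _ _

theorem l03_nrm_sum {ι : Type*} (s : Finset ι) (f : ι → LM m) :
    nrm (∑ i ∈ s, f i) ≤ ∑ i ∈ s, nrm (f i) := by
  classical
  induction s using Finset.induction_on with
  | empty => simp [l03_nrm_zero]
  | insert a s ha ih =>
    rw [Finset.sum_insert ha, Finset.sum_insert ha]
    exact le_trans (nrm_add _ _) (Nat.add_le_add_left ih _)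

theorem nrm_mul (F G : LM m) : nrm (F * G) ≤ nrm F * nrm G := by
  classical
  unfold nrm
  rw [Finset.sum_mul]
  calc ∑ c ∈ (F * G).coeff.support, ((F * G).coeff c).natAbs
      ≤ ∑ c ∈ (F * G).coeff.support, ∑ a ∈ F.coeff.support,
          (F.coeff a).natAbs * (G.coeff (-a + c)).natAbs := by
        refine Finset.sum_le_sum (fun c _ => ?_)
        rw [l03_coeff_mul]
        refine le_trans (Int.natAbs_sum_le _ _) (Finset.sum_le_sum (fun a _ => ?_))
        rw [Int.natAbs_mul]
    _ = ∑ a ∈ F.coeff.support, (F.coeff a).natAbs *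
          ∑ c ∈ (F * G).coeff.support, (G.coeff (-a + c)).natAbs := by
        rw [Finset.sum_comm]
        refine Finset.sum_congr rfl (fun a _ => ?_)
        rw [Finset.mul_sum]
    _ ≤ ∑ a ∈ F.coeff.support, (F.coeff a).natAbs * nrm G := by
        refine Finset.sum_le_sum (fun a _ => Nat.mul_le_mul_left _ ?_)
        have h1 : ∑ c ∈ (F * G).coeff.support, (G.coeff (-a + c)).natAbs
            = ∑ c ∈ (F * G).coeff.support.image (fun c => -a + c), (G.coeff c).natAbs := by
          rw [Finset.sum_image (fun x _ y _ h => add_left_cancel h)]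
        rw [h1]
        exact l03_sum_le G _

theorem nrm_pow (F : LM m) (n : ℕ) : nrm (F ^ n) ≤ nrm F ^ n := by
  induction n with
  | zero =>
    rw [pow_zero, pow_zero]
    unfold nrm
    rw [AddMonoidAlgebra.one_def, AddMonoidAlgebra.coeff_single]
    refine (Finset.sum_le_sum_of_subset (Finsupp.support_single_subset)).trans ?_
    simp
  | succ n ih =>
    rw [pow_succ, pow_succ]
    exact (nrm_mul _ _).trans (Nat.mul_le_mul_right _ ih)

theorem nrm_dl (F : LM m) (q : ℕ) : nrm (dl q F) ≤ nrm F := by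
  have h1 : dl q F = ∑ a ∈ F.coeff.support, (AddMonoidAlgebra.single (q • a) (F.coeff a) : LM m) := by
    have h2 : F = ∑ a ∈ F.coeff.support, (AddMonoidAlgebra.single a (F.coeff a) : LM m) :=
      (AddMonoidAlgebra.sum_coeff_single F).symm
    conv_lhs => rw [h2]
    rw [map_sum]
    refine Finset.sum_congr rfl (fun a _ => ?_)
    exact AddMonoidAlgebra.mapDomain_single
  rw [h1]
  refine le_trans (l03_nrm_sum _ _) ?_
  unfold nrm
  exact Finset.sum_le_sum (fun a _ => l03_nrm_single _ _)

theorem coeff_mul_leM (F G : LM m) (B : ℕ) (hB : ∀ c, (G.coeff c).natAbs ≤ B) (c : Fin m → ℤ) :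
    ((F * G).coeff c).natAbs ≤ nrm F * B := by
  rw [l03_coeff_mul]
  refine le_trans (Int.natAbs_sum_le _ _) ?_
  unfold nrm
  rw [Finset.sum_mul]
  refine Finset.sum_le_sum (fun a _ => ?_)
  rw [Int.natAbs_mul]
  exact Nat.mul_le_mul_left _ (hB _)

theorem dl_mo (q : ℕ) (v : Fin m → ℤ) : (dl q (mo v) : LM m) = mo (q • v) :=
  AddMonoidAlgebra.mapDomain_single

theorem dl_congr (p : ℕ) (hp : p.Prime) (h : LM m) :
    ∃ u : LM m, dl p h = h ^ p + (p : LM m) * u := by
  induction h using AddMonoidAlgebra.induction_linear with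
  | zero => exact ⟨0, by rw [map_zero, zero_pow hp.ne_zero, mul_zero, add_zero]⟩
  | add f g hf hg =>
    obtain ⟨u, hu⟩ := hf
    obtain ⟨v, hv⟩ := hg
    obtain ⟨w, hw⟩ := exists_add_pow_prime_eq hp f g
    refine ⟨u + v - f * g * w, ?_⟩
    rw [map_add, hu, hv, hw]
    ring
  | single c a =>
    have : Fact p.Prime := ⟨hp⟩
    have h1 : ((a ^ p - a : ℤ) : ZMod p) = 0 := by
      push_cast
      rw [ZMod.pow_card, sub_self]
    have h2 : (p : ℤ) ∣ a ^ p - a := (ZMod.intCast_zmod_eq_zero_iff_dvd _ _).1 h1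
    obtain ⟨b, hb⟩ := h2
    refine ⟨AddMonoidAlgebra.single (p • c) (-b), ?_⟩
    have h3 : dl p (AddMonoidAlgebra.single c a : LM m) = AddMonoidAlgebra.single (p • c) a :=
      AddMonoidAlgebra.mapDomain_single
    rw [h3, AddMonoidAlgebra.single_pow, AddMonoidAlgebra.natCast_def,
      AddMonoidAlgebra.single_mul_single, zero_add, ← AddMonoidAlgebra.single_add]
    congr 1
    linarith

end

end Pool.Agent.WQL
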