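import Pool.Agent.Lib.MP_2da099_lc.QL.Defs

/-!
# L06: generic functionals and edges.

`exists_generic`: `μ = (1, M, M ^ 2, ..)` with `M` larger than `2 max |w i|`; or induction on the finite set `W`
(`μ + t ν` for large `t`).
`exists_edgeM`: `η` generic for the differences of `S` (so injective on `S`), `c0` the point with the smallest `η`.
`S` has at least 3 points not on a line.  Choose `μ` generic for the finite set of the nonzero vectors among
`η(c1 - c0) (c - c') - η(c - c') (c1 - c0)` (`c1, c, c' ∈ S`); let `c1 ≠ c0` minimise the slope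
`μ(c - c0) / η(c - c0)`, and `θ = η(c1 - c0) μ - μ(c1 - c0) η`: `θ(c - c0) ≥ 0` on `S`, `= 0` for `c0, c1`, and
`θ(c - c') = μ(η(c1 - c0)(c - c') - η(c - c')(c1 - c0))` vanishes only if `c - c'` is a rational multiple of `c1 - c0`.
`u` = the primitive vector of `c1 - c0` (divide by the gcd of the coordinates): an integer vector which is a
rational multiple of `c1 - c0` is an integer multiple of `u`.  `η u ≠ 0` since `η(c1 - c0) > 0`.
-/

set_option autoImplicit false

namespace Pool.Agent.WQL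

open Pool.Agent.Lib.PolyTime Pool.Agent.WPM Pool.Agent.WPR Function

private theorem l06_fv_add_left {m : ℕ} (a b c : Fin m → ℤ) : fv (a + b) c = fv a c + fv b c := by
  simp only [fv, Pi.add_apply, add_mul, Finset.sum_add_distrib]

private theorem l06_fv_smul_left {m : ℕ} (t : ℤ) (a c : Fin m → ℤ) :
    fv (t • a) c = t * fv a c := by
  simp only [fv, Pi.smul_apply, smul_eq_mul, mul_assoc, Finset.mul_sum]

private theorem l06_fv_sub_left {m : ℕ} (a b c : Fin m → ℤ) : fv (a - b) c = fv a c - fv b c := by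
  simp only [fv, Pi.sub_apply, sub_mul, Finset.sum_sub_distrib]

private theorem l06_fv_sub_right {m : ℕ} (a b c : Fin m → ℤ) : fv a (b - c) = fv a b - fv a c := by
  simp only [fv, Pi.sub_apply, mul_sub, Finset.sum_sub_distrib]

private theorem l06_fv_smul_right {m : ℕ} (t : ℤ) (a c : Fin m → ℤ) :
    fv a (t • c) = t * fv a c := by
  simp only [fv, Pi.smul_apply, smul_eq_mul, Finset.mul_sum]
  exact Finset.sum_congr rfl fun i _ => by ring

theorem exists_generic {m : ℕ} (W : Finset (Fin m → ℤ)) (hW : ∀ w ∈ W, w ≠ 0) :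
    ∃ μ : Fin m → ℤ, ∀ w ∈ W, fv μ w ≠ 0 := by
  classical
  induction W using Finset.induction_on with
  | empty => exact ⟨0, fun w hw => absurd hw (Finset.notMem_empty w)⟩
  | insert w W hw ih =>
    obtain ⟨μ, hμ⟩ := ih fun v hv => hW v (Finset.mem_insert_of_mem hv)
    have hw0 : w ≠ 0 := hW w (Finset.mem_insert_self w W)
    obtain ⟨i, hi⟩ : ∃ i, w i ≠ 0 := by
      by_contra h
      push Not at h
      exact hw0 (funext h)
    have hν : fv (Pi.single i (1 : ℤ)) w = w i := by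
      simp only [fv, Pi.single_apply, ite_mul, one_mul, zero_mul]
      simp
    obtain ⟨t, ht⟩ := Infinite.exists_notMem_finset
      ((insert w W).image (fun v => (-(fv μ v)) / (fv (Pi.single i (1 : ℤ)) v)))
    refine ⟨μ + t • Pi.single i (1 : ℤ), ?_⟩
    intro v hv h
    rw [l06_fv_add_left, l06_fv_smul_left] at h
    by_cases h0 : fv (Pi.single i (1 : ℤ)) v = 0
    · rw [h0, mul_zero, add_zero] at h
      rcases Finset.mem_insert.1 hv with rfl | hv
      · exact hi (hν ▸ h0)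
      · exact hμ v hv h
    · apply ht
      rw [Finset.mem_image]
      refine ⟨v, hv, ?_⟩
      have h1 : -(fv μ v) = t * fv (Pi.single i (1 : ℤ)) v := by linarith
      rw [h1]
      exact Int.mul_ediv_cancel t h0

/-- the primitive vector -/
private theorem l06_prim {m : ℕ} (d : Fin m → ℤ) (hd : d ≠ 0) :
    ∃ (g : ℤ) (u : Fin m → ℤ), g ≠ 0 ∧ d = g • u ∧
      ∀ (a b : ℤ) (v : Fin m → ℤ), a ≠ 0 → a • v = b • d → ∃ j : ℤ, v = j • u := by
  classical
  obtain ⟨i, hi⟩ : ∃ i, d i ≠ 0 := by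
    by_contra h
    push Not at h
    exact hd (funext h)
  obtain ⟨u, hu, hu1⟩ := Finset.extract_gcd (s := (Finset.univ : Finset (Fin m))) d
    ⟨i, Finset.mem_univ i⟩
  refine ⟨Finset.univ.gcd d, u, ?_, ?_, ?_⟩
  · intro h
    exact hi (by rw [hu i (Finset.mem_univ i), h, zero_mul])
  · funext k
    rw [Pi.smul_apply, smul_eq_mul]
    exact hu k (Finset.mem_univ k)
  · intro a b v ha h
    have h1 : ∀ k, a * v k = (b * Finset.univ.gcd d) * u k := by
      intro k
      have h2 := congrFun h k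
      rw [Pi.smul_apply, Pi.smul_apply, smul_eq_mul, smul_eq_mul, hu k (Finset.mem_univ k)] at h2
      rw [h2]
      ring
    have h3 : a ∣ b * Finset.univ.gcd d := by
      have h4 : a ∣ Finset.univ.gcd (fun k => (b * Finset.univ.gcd d) * u k) := by
        apply Finset.dvd_gcd
        intro k _
        exact ⟨v k, (h1 k).symm⟩
      rw [Finset.gcd_mul_left, hu1, mul_one] at h4
      exact (dvd_normalize_iff).1 h4
    obtain ⟨j, hj⟩ := h3
    refine ⟨j, ?_⟩
    funext k
    have h5 := h1 k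
    rw [hj, mul_assoc] at h5
    rw [Pi.smul_apply, smul_eq_mul]
    exact mul_left_cancel₀ ha h5

theorem exists_edgeM {m : ℕ} (S : Finset (Fin m → ℤ)) (hS : ¬ FlatM S) :
    ∃ (θ η u : Fin m → ℤ) (t : ℤ), (∀ c ∈ S, t ≤ fv θ c) ∧
      (∃ c ∈ S, ∃ c' ∈ S, c ≠ c' ∧ fv θ c = t ∧ fv θ c' = t) ∧ (∃ c ∈ S, fv θ c ≠ t) ∧
      fv θ u = 0 ∧ fv η u ≠ 0 ∧
      ∀ c ∈ S, ∀ c' ∈ S, fv θ c = fv θ c' → ∃ j : ℤ, c - c' = j • u := by
  classical
  -- `η`
  obtain ⟨η, hη⟩ := exists_generic (((S ×ˢ S).image (fun x => x.1 - x.2)).filter (· ≠ 0))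
    (fun w hw => (Finset.mem_filter.1 hw).2)
  have hη' : ∀ c ∈ S, ∀ c' ∈ S, c ≠ c' → fv η (c - c') ≠ 0 := by
    intro c hc c' hc' hne
    apply hη
    rw [Finset.mem_filter]
    exact ⟨Finset.mem_image.2 ⟨(c, c'), Finset.mem_product.2 ⟨hc, hc'⟩, rfl⟩, sub_ne_zero.2 hne⟩
  have hSne : S.Nonempty := by
    rw [Finset.nonempty_iff_ne_empty]
    rintro rfl
    exact hS ⟨0, fun c hc => absurd hc (Finset.notMem_empty c)⟩
  obtain ⟨c0, hc0, hmin⟩ := Finset.exists_min_image S (fv η) hSne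
  have hpos : ∀ c ∈ S, c ≠ c0 → 0 < fv η (c - c0) := by
    intro c hc hne
    have h1 := hmin c hc
    have h2 := hη' c hc c0 hc0 hne
    rw [l06_fv_sub_right] at h2 ⊢
    omega
  have hSe : (S.erase c0).Nonempty := by
    rw [Finset.nonempty_iff_ne_empty]
    intro h
    apply hS
    refine ⟨0, fun c hc c' hc' => ⟨0, ?_⟩⟩
    have h1 : ∀ c ∈ S, c = c0 := by
      intro c hc
      by_contra hne
      have : c ∈ S.erase c0 := Finset.mem_erase.2 ⟨hne, hc⟩
      rw [h] at this
      exact absurd this (Finset.notMem_empty c)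
    rw [h1 c hc, h1 c' hc', sub_self, smul_zero]
  -- `μ`
  obtain ⟨μ, hμ⟩ := exists_generic
    (((S ×ˢ (S ×ˢ S)).image (fun x =>
      fv η (x.1 - c0) • (x.2.1 - x.2.2) - fv η (x.2.1 - x.2.2) • (x.1 - c0))).filter (· ≠ 0))
    (fun w hw => (Finset.mem_filter.1 hw).2)
  obtain ⟨c1, hc1, hslope⟩ := Finset.exists_min_image (S.erase c0)
    (fun c => (fv μ (c - c0) : ℚ) / (fv η (c - c0) : ℚ)) hSe
  rw [Finset.mem_erase] at hc1
  have hp1 : 0 < fv η (c1 - c0) := hpos c1 hc1.2 hc1.1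
  obtain ⟨g, u, hg, hd, hprim⟩ := l06_prim (c1 - c0) (sub_ne_zero.2 hc1.1)
  set θ : Fin m → ℤ := fv η (c1 - c0) • μ - fv μ (c1 - c0) • η with hθ
  have hθv : ∀ v : Fin m → ℤ, fv θ v = fv η (c1 - c0) * fv μ v - fv μ (c1 - c0) * fv η v := by
    intro v
    rw [hθ, l06_fv_sub_left, l06_fv_smul_left, l06_fv_smul_left]
  have hθd : fv θ (c1 - c0) = 0 := by
    rw [hθv]
    ring
  have hmul : ∀ c ∈ S, ∀ c' ∈ S, fv θ c = fv θ c' → ∃ j : ℤ, c - c' = j • u := by
    intro c hc c' hc' h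
    have h1 : fv μ (fv η (c1 - c0) • (c - c') - fv η (c - c') • (c1 - c0)) = 0 := by
      have h2 : fv θ (c - c') = 0 := by
        rw [l06_fv_sub_right, h, sub_self]
      rw [hθv] at h2
      rw [l06_fv_sub_right, l06_fv_smul_right, l06_fv_smul_right]
      linarith
    have h3 : fv η (c1 - c0) • (c - c') - fv η (c - c') • (c1 - c0) = 0 := by
      by_contra hne
      refine hμ _ ?_ h1
      rw [Finset.mem_filter]
      exact ⟨Finset.mem_image.2 ⟨(c1, (c, c')),
        Finset.mem_product.2 ⟨hc1.2, Finset.mem_product.2 ⟨hc, hc'⟩⟩, rfl⟩, hne⟩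
    exact hprim _ _ _ hp1.ne' (sub_eq_zero.1 h3)
  refine ⟨θ, η, u, fv θ c0, ?_, ?_, ?_, ?_, ?_, hmul⟩
  · intro c hc
    by_cases hne : c = c0
    · rw [hne]
    · have h1 := hslope c (Finset.mem_erase.2 ⟨hne, hc⟩)
      have h2 := hpos c hc hne
      have h3 : (0 : ℚ) < (fv η (c1 - c0) : ℚ) := by exact_mod_cast hp1
      have h4 : (0 : ℚ) < (fv η (c - c0) : ℚ) := by exact_mod_cast h2
      rw [div_le_div_iff₀ h3 h4] at h1
      have h5 : fv μ (c1 - c0) * fv η (c - c0) ≤ fv μ (c - c0) * fv η (c1 - c0) := by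
        exact_mod_cast h1
      have h6 : 0 ≤ fv θ (c - c0) := by
        rw [hθv]
        linarith
      rw [l06_fv_sub_right] at h6
      linarith
  · refine ⟨c0, hc0, c1, hc1.2, fun h => hc1.1 h.symm, rfl, ?_⟩
    rw [l06_fv_sub_right] at hθd
    linarith
  · by_contra h
    push Not at h
    apply hS
    refine ⟨u, fun c hc c' hc' => hmul c hc c' hc' ?_⟩
    rw [h c hc, h c' hc']
  · rw [hd, l06_fv_smul_right] at hθd
    exact (mul_eq_zero.1 hθd).resolve_left hg
  · intro h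
    rw [hd, l06_fv_smul_right, h, mul_zero] at hp1
    exact lt_irrefl _ hp1

end Pool.Agent.WQL
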