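import Pool.Agent.Lib.MP_2da099_lc.QL.L01
import Pool.Agent.Lib.MP_2da099_lc.QL.L03
import Pool.Agent.Lib.MP_2da099_lc.QL.L06

/-!
# L07: no divisibility after a dilation, non-flat case.

`exists_edgeM` for the support of `h`.  For `x, y ∈ ℂˣ` the point `z i = x ^ (θ i) y ^ (η i)` gives a ring homomorphism
`LM m → ℂ`, `Y^v ↦ x ^ (θ v) y ^ (η v)`, and `dl N h` at `(x, y)` is `h` at `(x ^ N, y ^ N)`.  After multiplication by a
monomial, `h` at `(x, y)` is `nb01_ev x y P` with `P ∈ ℂ[Y][X]`, `P.coeff 0 ≠ 0` the edge polynomial, which has two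
different terms, so a nonzero root `α` (`nb03_root`).  `C (X - C α) ∤ P`: otherwise `P(X, α) = 0`, i.e. for every level
`j` of `θ` the sum of `h.coeff c * α ^ (η c)` over `c ∈ S`, `θ c = j`, is 0; the points of a level are
`c_j + i u`, so `Σ_i h.coeff (c_j + i u) γ ^ i = 0` with `γ = α ^ (η u) ≠ 0`; `γ` is algebraic, let `g` be as in
`nb03_minpoly`; `g` divides all the polynomials of the levels, so `g(Y^u)` (ring homomorphism `ℤ[X] → LM m`,
`X ↦ mo u`) divides `h`; as `h` is prime, `h ∣ g(Y^u)` or `g(Y^u)` is a unit; `h` has terms on two different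
levels of `θ`, `g(Y^u)` only on the level 0 (`LM m` is a domain, look at the extreme levels): the first is
impossible; the second: evaluate at a point with `z^u = γ`... (a unit does not vanish there; `η u ≠ 0`, take
`z = α ^ η`).  Then `nb03_strong` gives `N0` and for `N ≥ N0` nonzero `x, y` with `h = 0` at `(x, y)` and `h ≠ 0` at
`(x ^ N, y ^ N)`.
-/

set_option autoImplicit false

namespace Pool.Agent.WQL

open Pool.Agent.Lib.PolyTime Pool.Agent.WPM Pool.Agent.WPR Function Polynomial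

section
variable {m : ℕ}

theorem l07_fv_add (θ a b : Fin m → ℤ) : fv θ (a + b) = fv θ a + fv θ b := by
  unfold fv
  rw [← Finset.sum_add_distrib]
  refine Finset.sum_congr rfl fun i _ => ?_
  rw [Pi.add_apply, mul_add]

theorem l07_fv_zero (θ : Fin m → ℤ) : fv θ 0 = 0 := by
  unfold fv
  simp

theorem l07_fv_nsmul (θ : Fin m → ℤ) (n : ℕ) (a : Fin m → ℤ) :
    fv θ (n • a) = (n : ℤ) * fv θ a := by
  unfold fv
  rw [Finset.mul_sum]
  refine Finset.sum_congr rfl fun i _ => ?_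
  rw [Pi.smul_apply, nsmul_eq_mul]
  ring

theorem l07_fv_zsmul (θ : Fin m → ℤ) (n : ℤ) (a : Fin m → ℤ) :
    fv θ (n • a) = n * fv θ a := by
  unfold fv
  rw [Finset.mul_sum]
  refine Finset.sum_congr rfl fun i _ => ?_
  rw [Pi.smul_apply, smul_eq_mul]
  ring

/-- the character -/
noncomputable def l07_chi (θ η : Fin m → ℤ) (x y : ℂˣ) : Multiplicative (Fin m → ℤ) →* ℂ where
  toFun v := ((x ^ (fv θ (Multiplicative.toAdd v)) * y ^ (fv η (Multiplicative.toAdd v)) : ℂˣ) : ℂ)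
  map_one' := by
    rw [toAdd_one, l07_fv_zero, l07_fv_zero]
    simp
  map_mul' u v := by
    rw [← Units.val_mul]
    congr 1
    rw [toAdd_mul, l07_fv_add, l07_fv_add, zpow_add, zpow_add]
    exact mul_mul_mul_comm _ _ _ _

/-- evaluation -/
noncomputable def l07_ev (θ η : Fin m → ℤ) (x y : ℂˣ) : LM m →+* ℂ :=
  (AddMonoidAlgebra.lift ℤ ℂ (Fin m → ℤ) (l07_chi θ η x y)).toRingHom

theorem l07_ev_single (θ η : Fin m → ℤ) (x y : ℂˣ) (v : Fin m → ℤ) (r : ℤ) :
    l07_ev θ η x y (AddMonoidAlgebra.single v r) =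
      (r : ℂ) * ((x ^ fv θ v * y ^ fv η v : ℂˣ) : ℂ) := by
  have h : l07_ev θ η x y (AddMonoidAlgebra.single v r) =
      r • l07_chi θ η x y (Multiplicative.ofAdd v) := AddMonoidAlgebra.lift_single _ _ _
  rw [h, zsmul_eq_mul]
  rfl

theorem l07_ev_mo (θ η : Fin m → ℤ) (x y : ℂˣ) (v : Fin m → ℤ) :
    l07_ev θ η x y (mo v) = ((x ^ fv θ v * y ^ fv η v : ℂˣ) : ℂ) := by
  unfold mo
  rw [l07_ev_single, Int.cast_one, one_mul]

theorem l07_sum (h : LM m) :
    h = ∑ c ∈ h.coeff.support, (AddMonoidAlgebra.single c (h.coeff c) : LM m) :=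
  (AddMonoidAlgebra.sum_coeff_single h).symm

theorem l07_ev_sum (θ η : Fin m → ℤ) (x y : ℂˣ) (h : LM m) :
    l07_ev θ η x y h = ∑ c ∈ h.coeff.support,
      (h.coeff c : ℂ) * ((x ^ fv θ c * y ^ fv η c : ℂˣ) : ℂ) := by
  conv_lhs => rw [l07_sum h]
  rw [map_sum]
  exact Finset.sum_congr rfl fun c _ => l07_ev_single _ _ _ _ _ _

theorem l07_ext {S : Type*} [CommRing S] {f g : LM m →+* S} (h : ∀ v, f (mo v) = g (mo v)) :
    f = g := by
  refine AddMonoidAlgebra.ringHom_ext (fun r => ?_) (fun v => h v)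
  have e : (AddMonoidAlgebra.single 0 r : LM m) = ((r : ℤ) : LM m) := rfl
  rw [e, map_intCast, map_intCast]

theorem l07_ev_dl (θ η : Fin m → ℤ) (N : ℕ) (x y : ℂˣ) (f : LM m) :
    l07_ev θ η x y (dl N f) = l07_ev θ η (x ^ N) (y ^ N) f := by
  have h : (l07_ev θ η x y).comp (dl N) = l07_ev θ η (x ^ N) (y ^ N) := by
    refine l07_ext fun v => ?_
    rw [RingHom.comp_apply, dl_mo, l07_ev_mo, l07_ev_mo, l07_fv_nsmul, l07_fv_nsmul]
    rw [zpow_mul, zpow_mul, zpow_natCast, zpow_natCast]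
  rw [← h]
  rfl

/-- the polynomial in two variables -/
noncomputable def l07_P (h : LM m) (θ η : Fin m → ℤ) (t n : ℤ) : Polynomial (Polynomial ℤ) :=
  ∑ c ∈ h.coeff.support,
    C (C (h.coeff c) * X ^ (fv η c + n).toNat) * X ^ (fv θ c - t).toNat

theorem l07_P_coeff (h : LM m) (θ η : Fin m → ℤ) (t n : ℤ) (i : ℕ) :
    (l07_P h θ η t n).coeff i = ∑ c ∈ h.coeff.support,
      if (fv θ c - t).toNat = i then C (h.coeff c) * X ^ (fv η c + n).toNat else 0 := by
  unfold l07_P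
  rw [finsetSum_coeff]
  refine Finset.sum_congr rfl fun c _ => ?_
  rw [coeff_C_mul_X_pow]
  by_cases hc : (fv θ c - t).toNat = i
  · rw [if_pos hc, if_pos hc.symm]
  · rw [if_neg hc, if_neg (fun h => hc h.symm)]

theorem l07_P_coeff2 (h : LM m) (θ η : Fin m → ℤ) (t n : ℤ) (i j : ℕ) :
    ((l07_P h θ η t n).coeff i).coeff j = ∑ c ∈ h.coeff.support,
      if (fv θ c - t).toNat = i ∧ (fv η c + n).toNat = j then h.coeff c else 0 := by
  rw [l07_P_coeff, finsetSum_coeff]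
  refine Finset.sum_congr rfl fun c _ => ?_
  by_cases hc : (fv θ c - t).toNat = i
  · rw [if_pos hc, coeff_C_mul_X_pow]
    by_cases hd : (fv η c + n).toNat = j
    · rw [if_pos hd.symm, if_pos ⟨hc, hd⟩]
    · rw [if_neg (fun h => hd h.symm), if_neg (fun h => hd h.2)]
  · rw [if_neg hc, if_neg (fun h => hc h.1), coeff_zero]

theorem l07_ev_P (h : LM m) (θ η : Fin m → ℤ) (t n : ℤ)
    (ht : ∀ c ∈ h.coeff.support, t ≤ fv θ c) (hn : ∀ c ∈ h.coeff.support, 0 ≤ fv η c + n)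
    (x y : ℂˣ) : nb01_ev (x : ℂ) (y : ℂ) (nb03_c (l07_P h θ η t n)) =
      ((x ^ (-t) * y ^ n : ℂˣ) : ℂ) * l07_ev θ η x y h := by
  rw [l07_ev_sum, Finset.mul_sum]
  unfold l07_P
  rw [map_sum, map_sum]
  refine Finset.sum_congr rfl fun c hc => ?_
  have h1 := ht c hc
  have h2 := hn c hc
  have e1 : ((x : ℂ)) ^ (fv θ c - t).toNat = ((x ^ (fv θ c - t) : ℂˣ) : ℂ) := by
    rw [← Units.val_pow_eq_pow_val, ← zpow_natCast, Int.toNat_of_nonneg (by omega)]
  have e2 : ((y : ℂ)) ^ (fv η c + n).toNat = ((y ^ (fv η c + n) : ℂˣ) : ℂ) := by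
    rw [← Units.val_pow_eq_pow_val, ← zpow_natCast, Int.toNat_of_nonneg h2]
  have e3 : nb01_ev (x : ℂ) (y : ℂ) (nb03_c (C (C (h.coeff c) * X ^ (fv η c + n).toNat) *
      X ^ (fv θ c - t).toNat)) =
      (h.coeff c : ℂ) * (y : ℂ) ^ (fv η c + n).toNat * (x : ℂ) ^ (fv θ c - t).toNat := by
    unfold nb03_c
    rw [coe_mapRingHom, Polynomial.map_mul, Polynomial.map_pow, map_X, map_C, map_mul, map_pow,
      nb01_ev_X, nb01_ev_C, coe_mapRingHom, Polynomial.map_mul, Polynomial.map_pow, map_X, map_C,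
      eval_mul, eval_pow, eval_X, eval_C, eq_intCast]
  rw [e3, e1, e2]
  have e4 : (x ^ (-t) * y ^ n) * (x ^ fv θ c * y ^ fv η c) =
      y ^ (fv η c + n) * x ^ (fv θ c - t) := by
    rw [zpow_add, zpow_sub, zpow_neg]
    ac_rfl
  rw [mul_left_comm, ← Units.val_mul, e4, Units.val_mul, mul_assoc]

/-- the substitution `X ↦ Y ^ u` -/
noncomputable def l07_rho (u : Fin m → ℤ) : ℤ[X] →+* LM m :=
  eval₂RingHom (Int.castRingHom (LM m)) (mo u)

theorem l07_rho_mon (u : Fin m → ℤ) (r : ℤ) (j : ℕ) :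
    l07_rho u (C r * X ^ j) = AddMonoidAlgebra.single (j • u) r := by
  unfold l07_rho
  rw [coe_eval₂RingHom, eval₂_mul, eval₂_C, eval₂_pow, eval₂_X, mo_pow]
  have e : (Int.castRingHom (LM m)) r = AddMonoidAlgebra.single 0 r := rfl
  rw [e]
  unfold mo
  rw [AddMonoidAlgebra.single_mul_single, zero_add, mul_one]

theorem l07_ev_rho (θ η u : Fin m → ℤ) (e : ℕ) (hu : fv θ u = 0) (he : fv η u = e) (x y : ℂˣ)
    (g : ℤ[X]) : l07_ev θ η x y (l07_rho u g) = aeval ((y : ℂ) ^ e) g := by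
  have h : (l07_ev θ η x y).comp (l07_rho u) =
      (aeval ((y : ℂ) ^ e) : ℤ[X] →ₐ[ℤ] ℂ).toRingHom := by
    refine Polynomial.ringHom_ext' (Subsingleton.elim _ _) ?_
    show l07_ev θ η x y (l07_rho u X) = aeval ((y : ℂ) ^ e) X
    unfold l07_rho
    rw [coe_eval₂RingHom, eval₂_X, l07_ev_mo, aeval_X, hu, he, zpow_zero, one_mul, zpow_natCast,
      Units.val_pow_eq_pow_val]
  exact RingHom.congr_fun h g

/-- one level -/
theorem l07_level (h : LM m) (θ η u : Fin m → ℤ) (t n : ℤ) (e : ℕ) (he0 : 0 < e)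
    (ht : ∀ c ∈ h.coeff.support, t ≤ fv θ c) (hn : ∀ c ∈ h.coeff.support, 0 ≤ fv η c + n)
    (he : fv η u = e)
    (hlev : ∀ c ∈ h.coeff.support, ∀ c' ∈ h.coeff.support, fv θ c = fv θ c' →
      ∃ j : ℤ, c - c' = j • u) (s : ℤ) (hs : ∃ c ∈ h.coeff.support, fv θ c = s) :
    ∃ (q : ℤ[X]) (w : Fin m → ℤ) (N : ℕ),
      (∑ c ∈ h.coeff.support with fv θ c = s,
        (AddMonoidAlgebra.single c (h.coeff c) : LM m)) = mo w * l07_rho u q ∧
      ∀ α : ℂ, aeval α ((l07_P h θ η t n).coeff (s - t).toNat) = α ^ N * aeval (α ^ e) q := by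
  classical
  set Ss := h.coeff.support.filter (fun c => fv θ c = s) with hSs
  have hne : Ss.Nonempty := by
    obtain ⟨c, hc, hcs⟩ := hs
    exact ⟨c, Finset.mem_filter.2 ⟨hc, hcs⟩⟩
  obtain ⟨c0, hc0, hmin⟩ := Finset.exists_min_image Ss (fun c => fv η c) hne
  obtain ⟨hc0S, hc0s⟩ := Finset.mem_filter.1 hc0
  have hj : ∀ c : Fin m → ℤ, ∃ j : ℕ, c ∈ Ss → c = c0 + j • u := by
    intro c
    by_cases hc : c ∈ Ss
    · obtain ⟨hcS, hcs⟩ := Finset.mem_filter.1 hc
      obtain ⟨j, hj⟩ := hlev c hcS c0 hc0S (by rw [hcs, hc0s])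
      have h1 : fv η c = fv η c0 + j * e := by
        have h2 : c = c0 + j • u := by rw [← hj]; abel
        conv_lhs => rw [h2]
        rw [l07_fv_add, l07_fv_zsmul, he]
      have h3 := hmin c hc
      have h4 : 0 ≤ j := by
        by_contra hneg
        push Not at hneg
        have : j * (e : ℤ) < 0 := mul_neg_of_neg_of_pos hneg (by exact_mod_cast he0)
        linarith
      refine ⟨j.toNat, fun _ => ?_⟩
      have h5 : ((j.toNat : ℕ) • u : Fin m → ℤ) = j • u := by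
        rw [← natCast_zsmul, Int.toNat_of_nonneg h4]
      rw [h5, ← hj]
      abel
    · exact ⟨0, fun hc' => absurd hc' hc⟩
  choose j hj using hj
  refine ⟨∑ c ∈ Ss, C (h.coeff c) * X ^ j c, c0, (fv η c0 + n).toNat, ?_, ?_⟩
  · rw [map_sum, Finset.mul_sum]
    refine Finset.sum_congr rfl fun c hc => ?_
    rw [l07_rho_mon]
    unfold mo
    rw [AddMonoidAlgebra.single_mul_single, one_mul, ← hj c hc]
  · intro α
    rw [l07_P_coeff, map_sum, map_sum, Finset.mul_sum, hSs, Finset.sum_filter]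
    refine Finset.sum_congr rfl fun c hc => ?_
    have h1 := ht c hc
    have h1' := ht c0 hc0S
    by_cases hcs : fv θ c = s
    · have hcSs : c ∈ Ss := Finset.mem_filter.2 ⟨hc, hcs⟩
      rw [if_pos (by rw [hcs]), if_pos hcs]
      simp only [map_mul, map_pow, aeval_X, aeval_C]
      have h2 : (fv η c + n).toNat = (fv η c0 + n).toNat + e * j c := by
        have h3 : fv η c = fv η c0 + (j c : ℤ) * e := by
          conv_lhs => rw [hj c hcSs]
          rw [l07_fv_add, l07_fv_nsmul, he]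
        have h4 := hn c hc
        have h5 := hn c0 hc0S
        zify
        rw [Int.toNat_of_nonneg h4, Int.toNat_of_nonneg h5, h3]
        ring
      rw [h2, pow_add, ← pow_mul]
      ring
    · rw [if_neg ?_, if_neg hcs, map_zero]
      intro h2
      apply hcs
      rw [hc0s] at h1'
      omega

theorem l07_not_dvd (h : LM m) (hp : Prime h) (θ η u : Fin m → ℤ) (t n : ℤ) (e : ℕ) (he0 : 0 < e)
    (ht : ∀ c ∈ h.coeff.support, t ≤ fv θ c) (hn : ∀ c ∈ h.coeff.support, 0 ≤ fv η c + n)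
    (hu : fv θ u = 0) (he : fv η u = e)
    (hlev : ∀ c ∈ h.coeff.support, ∀ c' ∈ h.coeff.support, fv θ c = fv θ c' →
      ∃ j : ℤ, c - c' = j • u) (α : ℂ) (hα : α ≠ 0) (i : ℕ) (hi : i ≠ 0)
    (h0s : ∃ c ∈ h.coeff.support, fv θ c = t)
    (h0 : (l07_P h θ η t n).coeff 0 ≠ 0) (hi0 : (l07_P h θ η t n).coeff i ≠ 0) :
    ¬ C (X - C α) ∣ nb03_c (l07_P h θ η t n) := by
  classical
  set P := l07_P h θ η t n with hPdef
  intro hdiv
  rw [C_dvd_iff_dvd_coeff] at hdiv
  have hco : ∀ k, aeval α (P.coeff k) = 0 := by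
    intro k
    have h1 := hdiv k
    rw [dvd_iff_isRoot, IsRoot.def] at h1
    unfold nb03_c at h1
    rw [coe_mapRingHom, coeff_map, coe_mapRingHom, eval_map] at h1
    rw [aeval_def]
    exact h1
  have hroot : ∀ s : ℤ, (∃ c ∈ h.coeff.support, fv θ c = s) → ∃ (q : ℤ[X]) (w : Fin m → ℤ),
      (∑ c ∈ h.coeff.support with fv θ c = s,
        (AddMonoidAlgebra.single c (h.coeff c) : LM m)) = mo w * l07_rho u q ∧
      aeval (α ^ e) q = 0 := by
    intro s hs
    obtain ⟨q, w, N, h1, h2⟩ := l07_level h θ η u t n e he0 ht hn he hlev s hs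
    refine ⟨q, w, h1, ?_⟩
    have h3 := h2 α
    rw [← hPdef, hco] at h3
    rcases mul_eq_zero.1 h3.symm with h4 | h4
    · exact absurd h4 (pow_ne_zero _ hα)
    · exact h4
  obtain ⟨q0, w0, hq0, hq0r⟩ := hroot t h0s
  have hq00 : q0 ≠ 0 := by
    intro hz
    rw [hz, map_zero, mul_zero] at hq0
    obtain ⟨c, hc, hct⟩ := h0s
    have h1 := congrArg (fun F : LM m => F.coeff c) hq0
    simp only [AddMonoidAlgebra.coeff_sum, Finsupp.finsetSum_apply, AddMonoidAlgebra.coeff_single,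
      AddMonoidAlgebra.coeff_zero, Finsupp.coe_zero, Pi.zero_apply] at h1
    rw [Finset.sum_eq_single c] at h1
    · rw [Finsupp.single_eq_same] at h1
      exact (Finsupp.mem_support_iff.1 hc) h1
    · intro b _ hb
      rw [Finsupp.single_apply, if_neg hb]
    · intro hc'
      exact absurd (Finset.mem_filter.2 ⟨hc, hct⟩) hc'
  obtain ⟨g, hg0, hgα, hg⟩ := nb03_minpoly (α ^ e) q0 hq00 hq0r
  have hgh : l07_rho u g ∣ h := by
    have h1 : h = ∑ s ∈ h.coeff.support.image (fv θ), ∑ c ∈ h.coeff.support with fv θ c = s,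
        (AddMonoidAlgebra.single c (h.coeff c) : LM m) := by
      conv_lhs => rw [l07_sum h]
      exact (Finset.sum_fiberwise_of_maps_to (fun c hc => Finset.mem_image_of_mem _ hc) _).symm
    rw [h1]
    refine Finset.dvd_sum fun s hs => ?_
    obtain ⟨c, hc, hcs⟩ := Finset.mem_image.1 hs
    obtain ⟨q, w, hq1, hq2⟩ := hroot s ⟨c, hc, hcs⟩
    rw [hq1]
    exact (map_dvd (l07_rho u) (hg q hq2)).mul_left _
  obtain ⟨K, hK⟩ := hgh
  have hinj : Function.Injective (Polynomial.map (Int.castRingHom ℂ)) :=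
    map_injective _ (RingHom.injective_int _)
  rcases hp.dvd_or_dvd (hK ▸ dvd_rfl : h ∣ l07_rho u g * K) with ⟨r, hr⟩ | ⟨r, hr⟩
  · -- evaluate at a good point
    have hz : ∀ q : ℤ[X], q ≠ 0 → q.map (Int.castRingHom ℂ) ≠ 0 := by
      intro q hq h
      apply hq
      apply hinj
      rw [h, Polynomial.map_zero]
    have hprod : (X : ℂ[X]) * ((expand ℤ e g).map (Int.castRingHom ℂ)) *
        ((P.coeff 0).map (Int.castRingHom ℂ)) * ((P.coeff i).map (Int.castRingHom ℂ)) ≠ 0 := by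
      exact mul_ne_zero (mul_ne_zero (mul_ne_zero X_ne_zero
        (hz _ ((expand_ne_zero he0).2 hg0))) (hz _ h0)) (hz _ hi0)
    obtain ⟨y, hy⟩ : ∃ y : ℂ, ((X : ℂ[X]) * ((expand ℤ e g).map (Int.castRingHom ℂ)) *
        ((P.coeff 0).map (Int.castRingHom ℂ)) * ((P.coeff i).map (Int.castRingHom ℂ))).eval y ≠ 0 := by
      by_contra hcon
      push Not at hcon
      exact hprod (Polynomial.funext fun y => by rw [hcon y, eval_zero])
    rw [eval_mul, eval_mul, eval_mul, eval_X] at hy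
    have hy3 := (mul_ne_zero_iff.1 hy).2
    have hy2 := (mul_ne_zero_iff.1 (mul_ne_zero_iff.1 hy).1).2
    have hy1 := (mul_ne_zero_iff.1 (mul_ne_zero_iff.1 (mul_ne_zero_iff.1 hy).1).1).2
    have hy0 := (mul_ne_zero_iff.1 (mul_ne_zero_iff.1 (mul_ne_zero_iff.1 hy).1).1).1
    have hcoef : ∀ k, ((nb03_c P).map (evalRingHom y)).coeff k =
        ((P.coeff k).map (Int.castRingHom ℂ)).eval y := by
      intro k
      unfold nb03_c
      rw [coeff_map, coe_mapRingHom, coeff_map]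
      rfl
    obtain ⟨x, hx0, hx⟩ := nb03_root ((nb03_c P).map (evalRingHom y)) 0 i
      (by rw [hcoef]; exact hy2) (by rw [hcoef]; exact hy3) (Ne.symm hi)
    have hev : nb01_ev x y (nb03_c P) = 0 := by
      rw [eval_map] at hx
      exact hx
    have hev2 := l07_ev_P h θ η t n ht hn (Units.mk0 x hx0) (Units.mk0 y hy0)
    rw [Units.val_mk0, Units.val_mk0, ← hPdef, hev] at hev2
    have hev3 : l07_ev θ η (Units.mk0 x hx0) (Units.mk0 y hy0) h = 0 := by
      rcases mul_eq_zero.1 hev2.symm with h4 | h4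
      · exact absurd h4 (Units.ne_zero _)
      · exact h4
    have h1 := congrArg (l07_ev θ η (Units.mk0 x hx0) (Units.mk0 y hy0)) hr
    rw [map_mul, hev3, zero_mul, l07_ev_rho θ η u e hu he, Units.val_mk0] at h1
    apply hy1
    rw [map_expand, expand_eval, eval_map]
    rw [aeval_def] at h1
    exact h1
  · have h1 : h * (1 - l07_rho u g * r) = 0 := by
      have : h = l07_rho u g * (h * r) := by
        rw [← hr]; exact hK
      calc h * (1 - l07_rho u g * r) = h - l07_rho u g * (h * r) := by ring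
        _ = 0 := by rw [← this, sub_self]
    rcases mul_eq_zero.1 h1 with h2 | h2
    · exact hp.ne_zero h2
    · have h3 := congrArg (l07_ev θ η 1 (Units.mk0 α hα)) h2
      rw [map_sub, map_mul, map_one, l07_ev_rho θ η u e hu he, Units.val_mk0, hgα, zero_mul,
        sub_zero, map_zero] at h3
      exact one_ne_zero h3

theorem l07_pos (S : Finset (Fin m → ℤ)) (hS : ¬ FlatM S) :
    ∃ (θ η u : Fin m → ℤ) (t : ℤ) (e : ℕ), (∀ c ∈ S, t ≤ fv θ c) ∧
      (∃ c ∈ S, ∃ c' ∈ S, c ≠ c' ∧ fv θ c = t ∧ fv θ c' = t) ∧ (∃ c ∈ S, fv θ c ≠ t) ∧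
      fv θ u = 0 ∧ fv η u = e ∧ 0 < e ∧
      ∀ c ∈ S, ∀ c' ∈ S, fv θ c = fv θ c' → ∃ j : ℤ, c - c' = j • u := by
  obtain ⟨θ, η, u, t, h1, h2, h3, h4, h5, h6⟩ := exists_edgeM S hS
  rcases lt_or_gt_of_ne h5 with h7 | h7
  · refine ⟨θ, η, -u, t, (-(fv η u)).toNat, h1, h2, h3, ?_, ?_, ?_, ?_⟩
    · have : -u = (-1 : ℤ) • u := by rw [neg_one_zsmul]
      rw [this, l07_fv_zsmul, h4, mul_zero]
    · have : -u = (-1 : ℤ) • u := by rw [neg_one_zsmul]
      rw [this, l07_fv_zsmul, Int.toNat_of_nonneg (by omega)]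
      ring
    · omega
    · intro c hc c' hc' hcc
      obtain ⟨j, hj⟩ := h6 c hc c' hc' hcc
      exact ⟨-j, by rw [hj, smul_neg, neg_smul, neg_neg]⟩
  · refine ⟨θ, η, u, t, (fv η u).toNat, h1, h2, h3, h4, ?_, ?_, h6⟩
    · rw [Int.toNat_of_nonneg (by omega)]
    · omega

end

theorem nbM {m : ℕ} (h : LM m) (hp : Prime h) (hflat : ¬ FlatM h.coeff.support) :
    ∃ N0 : ℕ, ∀ N, N0 ≤ N → ¬ h ∣ dl N h := by
  classical
  obtain ⟨θ, η, u, t, e, ht, ⟨c, hc, c', hc', hne, hct, hct'⟩, ⟨d, hd, hdt⟩, hu, he, he0, hlev⟩ :=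
    l07_pos _ hflat
  obtain ⟨n, hn⟩ : ∃ n : ℤ, ∀ c ∈ h.coeff.support, 0 ≤ fv η c + n := by
    refine ⟨∑ c ∈ h.coeff.support, |fv η c|, fun c hc => ?_⟩
    have h1 := Finset.single_le_sum (f := fun c => |fv η c|) (fun _ _ => abs_nonneg _) hc
    have h2 := neg_abs_le (fv η c)
    linarith
  set P := l07_P h θ η t n with hPdef
  -- coefficients
  have hcoef : ∀ a ∈ h.coeff.support,
      (P.coeff (fv θ a - t).toNat).coeff (fv η a + n).toNat = h.coeff a := by
    intro a ha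
    rw [hPdef, l07_P_coeff2, Finset.sum_eq_single a]
    · rw [if_pos ⟨rfl, rfl⟩]
    · intro b hb hba
      rw [if_neg]
      rintro ⟨h1, h2⟩
      apply hba
      have h3 := ht a ha
      have h4 := ht b hb
      have h5 := hn a ha
      have h6 := hn b hb
      have h7 : fv θ b = fv θ a := by omega
      have h8 : fv η b = fv η a := by omega
      obtain ⟨j, hj⟩ := hlev b hb a ha h7
      have h9 : b = a + j • u := by rw [← hj]; abel
      have h10 : fv η b = fv η a + j * e := by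
        conv_lhs => rw [h9]
        rw [l07_fv_add, l07_fv_zsmul, he]
      have h11 : j * (e : ℤ) = 0 := by linarith
      rcases mul_eq_zero.1 h11 with h12 | h12
      · rw [h9, h12, zero_smul, add_zero]
      · exfalso
        have : e = 0 := by exact_mod_cast h12
        omega
    · intro h1
      exact absurd ha h1
  have hmem : ∀ a ∈ h.coeff.support, h.coeff a ≠ 0 := fun a ha => Finsupp.mem_support_iff.1 ha
  have hcc := hcoef c hc
  have hcc' := hcoef c' hc'
  have hdd := hcoef d hd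
  rw [hct, sub_self, Int.toNat_zero] at hcc
  rw [hct', sub_self, Int.toNat_zero] at hcc'
  have hj : (fv η c + n).toNat ≠ (fv η c' + n).toNat := by
    intro h1
    have h2 := hn c hc
    have h3 := hn c' hc'
    have h4 : fv η c = fv η c' := by omega
    obtain ⟨j, hj⟩ := hlev c hc c' hc' (by rw [hct, hct'])
    apply hne
    have h9 : c = c' + j • u := by rw [← hj]; abel
    have h10 : fv η c = fv η c' + j * e := by
      conv_lhs => rw [h9]
      rw [l07_fv_add, l07_fv_zsmul, he]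
    have h11 : j * (e : ℤ) = 0 := by linarith
    rcases mul_eq_zero.1 h11 with h12 | h12
    · rw [h9, h12, zero_smul, add_zero]
    · exfalso
      have : e = 0 := by exact_mod_cast h12
      omega
  have hi : (fv θ d - t).toNat ≠ 0 := by
    have := ht d hd
    omega
  have hP0 : P.coeff 0 ≠ 0 := fun h1 => hmem c hc (by rw [← hcc, h1, coeff_zero])
  have hPi : P.coeff (fv θ d - t).toNat ≠ 0 := fun h1 => hmem d hd (by rw [← hdd, h1, coeff_zero])
  -- the root
  have hc0 : (nb03_c P).coeff 0 = (P.coeff 0).map (Int.castRingHom ℂ) := by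
    unfold nb03_c
    rw [coe_mapRingHom, coeff_map]
    rfl
  have hcast : ∀ k, (P.coeff 0).coeff k ≠ 0 → ((nb03_c P).coeff 0).coeff k ≠ 0 := by
    intro k hk
    rw [hc0, coeff_map]
    simpa using hk
  obtain ⟨α, hα, hroot⟩ := nb03_root ((nb03_c P).coeff 0) _ _
    (hcast _ (by rw [hcc]; exact hmem c hc)) (hcast _ (by rw [hcc']; exact hmem c' hc')) hj
  have hc00 : (nb03_c P).coeff 0 ≠ 0 := fun h1 =>
    hcast _ (by rw [hcc]; exact hmem c hc) (by rw [h1, coeff_zero])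
  obtain ⟨N0, hN0⟩ := nb03_strong (nb03_c P) α hα hc00 hroot
    (l07_not_dvd h hp θ η u t n e he0 ht hn hu he hlev α hα _ hi ⟨c, hc, hct⟩ hP0 hPi)
  refine ⟨N0, fun N hN hdiv => ?_⟩
  obtain ⟨x, y, hx0, hy0, h1, h2⟩ := hN0 N hN
  obtain ⟨r, hr⟩ := hdiv
  have hz : ∀ x' y' : ℂˣ, l07_ev θ η x' y' h = 0 ↔ nb01_ev (x' : ℂ) (y' : ℂ) (nb03_c P) = 0 := by
    intro x' y'
    rw [hPdef, l07_ev_P h θ η t n ht hn, mul_eq_zero]
    constructor
    · exact fun h => Or.inr h
    · rintro (h | h)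
      · exact absurd h (Units.ne_zero _)
      · exact h
  apply h2
  have h3 : l07_ev θ η (Units.mk0 x hx0) (Units.mk0 y hy0) h = 0 := (hz _ _).2 h1
  have h4 : l07_ev θ η (Units.mk0 x hx0 ^ N) (Units.mk0 y hy0 ^ N) h = 0 := by
    rw [← l07_ev_dl, hr, map_mul, h3, zero_mul]
  have h5 := (hz _ _).1 h4
  simpa using h5

end Pool.Agent.WQL
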