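import Pool.Agent.Lib.MP_2da099_lc.QL.L01
import Pool.Agent.Lib.MP_2da099_lc.QL.L03
import Mathlib.FieldTheory.Minpoly.IsIntegrallyClosed
import Mathlib.Analysis.Complex.Polynomial.Basic

/-!
# L08: no divisibility after a dilation, flat case.

`h = mo v0 * φ(mo u)` with `φ ∈ ℤ[X]`, `φ(0) ≠ 0` (choose the extreme point).  If `h ∣ dl N h`, evaluate at the points `z` with
`z ^ u = α`, `α` a root of `φ` in `ℂ`: `φ(α ^ N) = 0`.  So some root `α` satisfies `α ^ j = 1` with `j ≥ 1`.  Let `g` be the minimal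
polynomial of `α` over `ℤ`; `g ∣ φ` and `g ∣ X ^ j - 1`; `h` divides `g(mo u)` (prime; `g(mo u)` is not a unit) and
`h ∣ mo (j • u) - 1`, contradiction to `hcyc`.
-/

set_option autoImplicit false

namespace Pool.Agent.WQL

open Pool.Agent.Lib.PolyTime Pool.Agent.WPM Pool.Agent.WPR Function

/-- the character -/
noncomputable def l08_chi {m : ℕ} (z : Fin m → ℂˣ) : Multiplicative (Fin m → ℤ) →* ℂ where
  toFun v := ((∏ i, z i ^ (Multiplicative.toAdd v) i : ℂˣ) : ℂ)
  map_one' := by simp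
  map_mul' u v := by
    rw [← Units.val_mul]
    congr 1
    rw [← Finset.prod_mul_distrib]
    refine Finset.prod_congr rfl fun i _ => ?_
    rw [toAdd_mul, Pi.add_apply, zpow_add]

/-- evaluation -/
noncomputable def l08_ev {m : ℕ} (z : Fin m → ℂˣ) : LM m →+* ℂ :=
  (AddMonoidAlgebra.lift ℤ ℂ (Fin m → ℤ) (l08_chi z)).toRingHom

theorem l08_ev_mo {m : ℕ} (z : Fin m → ℂˣ) (v : Fin m → ℤ) :
    l08_ev z (mo v) = ((∏ i, z i ^ v i : ℂˣ) : ℂ) := by
  have h : l08_ev z (mo v) = (1 : ℤ) • l08_chi z (Multiplicative.ofAdd v) :=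
    AddMonoidAlgebra.lift_single _ _ _
  rw [h, one_smul]
  rfl

theorem l08_int {m : ℕ} (r : ℤ) : (AddMonoidAlgebra.single 0 r : LM m) = ((r : ℤ) : LM m) := rfl

theorem l08_ext {m : ℕ} {S : Type*} [CommRing S] {f g : LM m →+* S} (h : ∀ v, f (mo v) = g (mo v)) :
    f = g := by
  refine AddMonoidAlgebra.ringHom_ext (fun r => ?_) (fun v => h v)
  rw [l08_int, map_intCast, map_intCast]

theorem l08_ev_dl {m : ℕ} (N : ℕ) (z : Fin m → ℂˣ) (f : LM m) :
    l08_ev z (dl N f) = l08_ev (fun i => z i ^ N) f := by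
  have h : (l08_ev z).comp (dl N) = l08_ev (fun i => z i ^ N) := by
    refine l08_ext fun v => ?_
    rw [RingHom.comp_apply, dl_mo, l08_ev_mo, l08_ev_mo]
    congr 1
    refine Finset.prod_congr rfl fun i _ => ?_
    have e1 : (N • v) i = (N : ℤ) * v i := by simp
    rw [e1, zpow_mul, zpow_natCast]
  rw [← h]
  rfl

/-- substitution of `mo u` in a polynomial -/
noncomputable def l08_s {m : ℕ} (u : Fin m → ℤ) : Polynomial ℤ →+* LM m := (Polynomial.aeval (mo u) : Polynomial ℤ →ₐ[ℤ] LM m).toRingHom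

theorem l08_s_monomial {m : ℕ} (u : Fin m → ℤ) (n : ℕ) (a : ℤ) :
    l08_s u (Polynomial.monomial n a) = AddMonoidAlgebra.single (n • u) a := by
  have h1 : l08_s u (Polynomial.monomial n a) = a • (mo u : LM m) ^ n := by
    show Polynomial.aeval (mo u) (Polynomial.monomial n a) = _
    rw [Polynomial.aeval_monomial, ← Algebra.smul_def]
  rw [h1, mo_pow]
  unfold mo
  rw [AddMonoidAlgebra.smul_single, smul_eq_mul, mul_one]

theorem l08_ev_s {m : ℕ} (z : Fin m → ℂˣ) (u : Fin m → ℤ) (φ : Polynomial ℤ) :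
    l08_ev z (l08_s u φ) = Polynomial.aeval ((∏ i, z i ^ u i : ℂˣ) : ℂ) φ := by
  have h : (l08_ev z).comp (l08_s u) = (Polynomial.aeval ((∏ i, z i ^ u i : ℂˣ) : ℂ) : Polynomial ℤ →ₐ[ℤ] ℂ).toRingHom := by
    refine Polynomial.ringHom_ext' (Subsingleton.elim _ _) ?_
    show l08_ev z (Polynomial.aeval (mo u) Polynomial.X) = Polynomial.aeval _ Polynomial.X
    rw [Polynomial.aeval_X, Polynomial.aeval_X, l08_ev_mo]
  exact RingHom.congr_fun h φ

/-- a point with a given value -/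
theorem l08_point {m : ℕ} (u : Fin m → ℤ) (hu : u ≠ 0) (α : ℂ) (hα : α ≠ 0) :
    ∃ z : Fin m → ℂˣ, ((∏ i, z i ^ u i : ℂˣ) : ℂ) = α := by
  classical
  obtain ⟨i, hi⟩ : ∃ i, u i ≠ 0 := by
    by_contra h
    push Not at h
    exact hu (funext h)
  have hn : (u i).natAbs ≠ 0 := by omega
  -- a root
  obtain ⟨β, hβ⟩ := IsAlgClosed.exists_pow_nat_eq (k := ℂ) α (Nat.pos_of_ne_zero hn)
  have hβ0 : β ≠ 0 := by
    rintro rfl
    rw [zero_pow hn] at hβ
    exact hα hβ.symm
  have key : ∃ w : ℂˣ, ((w ^ u i : ℂˣ) : ℂ) = α := by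
    rcases le_total 0 (u i) with h | h
    · refine ⟨Units.mk0 β hβ0, ?_⟩
      have e1 : u i = ((u i).natAbs : ℤ) := by omega
      rw [e1, zpow_natCast, Units.val_pow_eq_pow_val, Units.val_mk0]
      exact hβ
    · refine ⟨(Units.mk0 β hβ0)⁻¹, ?_⟩
      have e1 : u i = -((u i).natAbs : ℤ) := by omega
      rw [e1, zpow_neg, inv_zpow, inv_inv, zpow_natCast, Units.val_pow_eq_pow_val, Units.val_mk0]
      simpa using hβ
  obtain ⟨w, hw⟩ := key
  refine ⟨Pi.mulSingle i w, ?_⟩
  rw [← hw]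
  congr 1
  rw [Finset.prod_eq_single i]
  · rw [Pi.mulSingle_eq_same]
  · intro b _ hb
    rw [Pi.mulSingle_eq_of_ne hb, one_zpow]
  · intro h
    exact absurd (Finset.mem_univ i) h

/-- the representation `h = mo v0 * φ(mo u)` -/
theorem l08_repr {m : ℕ} (h : LM m) (h0 : h ≠ 0) (u : Fin m → ℤ) (hu : u ≠ 0)
    (hS : ∀ c ∈ h.coeff.support, ∀ c' ∈ h.coeff.support, ∃ j : ℤ, c - c' = j • u) :
    ∃ (v0 : Fin m → ℤ) (φ : Polynomial ℤ), φ.coeff 0 ≠ 0 ∧ h = mo v0 * l08_s u φ := by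
  classical
  have hne : h.coeff.support.Nonempty := by
    rw [Finsupp.support_nonempty_iff]
    intro h1
    apply h0
    exact AddMonoidAlgebra.ext (by rw [h1]; rfl)
  obtain ⟨c0, hc0⟩ := hne
  choose! J hJ using hS
  -- exponents relative to c0
  obtain ⟨v0, hv0, hmin⟩ := Finset.exists_min_image h.coeff.support (fun c => J c c0) ⟨c0, hc0⟩
  have hinj : ∀ a b : ℤ, a • u = b • u → a = b := by
    intro a b hab
    obtain ⟨i, hi⟩ : ∃ i, u i ≠ 0 := by
      by_contra h
      push Not at h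
      exact hu (funext h)
    have h1 := congr_fun hab i
    simp only [Pi.smul_apply, smul_eq_mul] at h1
    exact mul_right_cancel₀ hi h1
  let n : (Fin m → ℤ) → ℕ := fun c => (J c c0 - J v0 c0).toNat
  have hn : ∀ c ∈ h.coeff.support, c = v0 + n c • u := by
    intro c hc
    have h1 := hJ c hc c0 hc0
    have h2 := hJ v0 hv0 c0 hc0
    have h3 := hmin c hc
    have h4 : ((n c : ℕ) : ℤ) = J c c0 - J v0 c0 := Int.toNat_of_nonneg (by linarith)
    have h5 : (n c) • u = ((n c : ℕ) : ℤ) • u := by rw [natCast_zsmul]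
    rw [h5, h4, sub_smul, ← h1, ← h2]
    abel
  refine ⟨v0, ∑ c ∈ h.coeff.support, Polynomial.monomial (n c) (h.coeff c), ?_, ?_⟩
  · rw [Polynomial.finsetSum_coeff, Finset.sum_eq_single_of_mem v0 hv0]
    · have h1 : n v0 = 0 := by
        show (J v0 c0 - J v0 c0).toNat = 0
        rw [sub_self]
        rfl
      rw [h1, Polynomial.coeff_monomial, if_pos rfl]
      exact Finsupp.mem_support_iff.1 hv0
    · intro c hc hcv
      rw [Polynomial.coeff_monomial, if_neg]
      intro h1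
      apply hcv
      rw [hn c hc, h1, zero_smul, add_zero]
  · rw [map_sum, Finset.mul_sum]
    conv_lhs => rw [← AddMonoidAlgebra.sum_coeff_single h]
    rw [Finsupp.sum]
    refine Finset.sum_congr rfl fun c hc => ?_
    rw [l08_s_monomial]
    unfold mo
    rw [AddMonoidAlgebra.single_mul_single, one_mul, ← hn c hc]

theorem nbFlat {m : ℕ} (h : LM m) (hp : Prime h) (hint : ∀ n : ℤ, n ≠ 0 → ¬ h ∣ (n : LM m))
    (hcyc : ∀ w : Fin m → ℤ, w ≠ 0 → ¬ h ∣ mo w - 1) (hflat : FlatM h.coeff.support) :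
    ∀ N : ℕ, 2 ≤ N → ¬ h ∣ dl N h := by
  classical
  intro N hN hdvd
  have hdom : IsDomain (LM m) := inferInstance
  obtain ⟨u, hu⟩ := hflat
  have h0 : h ≠ 0 := hp.ne_zero
  -- `u ≠ 0`
  have hu0 : u ≠ 0 := by
    rintro rfl
    have hne : h.coeff.support.Nonempty := by
      rw [Finsupp.support_nonempty_iff]
      intro h1
      apply h0
      exact AddMonoidAlgebra.ext (by rw [h1]; rfl)
    obtain ⟨c0, hc0⟩ := hne
    have h1 : h = mo c0 * ((h.coeff c0 : ℤ) : LM m) := by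
      conv_lhs => rw [← AddMonoidAlgebra.sum_coeff_single h]
      rw [Finsupp.sum, Finset.sum_eq_single_of_mem c0 hc0]
      · rw [← l08_int]
        unfold mo
        rw [AddMonoidAlgebra.single_mul_single, one_mul, add_zero]
      · intro c hc hcc
        exfalso
        apply hcc
        obtain ⟨j, hj⟩ := hu c hc c0 hc0
        rw [smul_zero] at hj
        exact sub_eq_zero.1 hj
    apply hint (h.coeff c0) (Finsupp.mem_support_iff.1 hc0)
    obtain ⟨w, hw⟩ := mo_unit c0
    refine ⟨((w⁻¹ : (LM m)ˣ) : LM m), ?_⟩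
    rw [← hw] at h1
    conv_rhs => rw [h1]
    rw [mul_comm (w : LM m), mul_assoc, Units.mul_inv, mul_one]
  obtain ⟨v0, φ, hφ0, hrep⟩ := l08_repr h h0 u hu0 hu
  have hφ : φ ≠ 0 := by
    rintro rfl
    simp at hφ0
  -- roots
  have hmap : φ.map (Int.castRingHom ℂ) ≠ 0 := by
    rw [Ne, Polynomial.map_eq_zero_iff (RingHom.injective_int _)]
    exact hφ
  have hroot0 : ∀ α : ℂ, Polynomial.aeval α φ = 0 → α ≠ 0 := by
    rintro α hα rfl
    rw [Polynomial.aeval_def, Polynomial.eval₂_at_zero] at hα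
    exact hφ0 (by simpa using hα)
  have hclosed : ∀ α : ℂ, Polynomial.aeval α φ = 0 → Polynomial.aeval (α ^ N) φ = 0 := by
    intro α hα
    obtain ⟨z, hz⟩ := l08_point u hu0 α (hroot0 α hα)
    have h1 : l08_ev z h = 0 := by
      rw [hrep, map_mul, l08_ev_s, hz, hα, mul_zero]
    obtain ⟨c, hc⟩ := hdvd
    have h2 : l08_ev z (dl N h) = 0 := by
      rw [hc, map_mul, h1, zero_mul]
    rw [l08_ev_dl, hrep, map_mul, l08_ev_s, l08_ev_mo] at h2
    have h3 := (mul_eq_zero.1 h2).resolve_left (Units.ne_zero _)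
    have h4 : ((∏ i, (z i ^ N) ^ u i : ℂˣ) : ℂ) = α ^ N := by
      rw [← hz, ← Units.val_pow_eq_pow_val, ← Finset.prod_pow]
      congr 1
      refine Finset.prod_congr rfl fun i _ => ?_
      rw [← zpow_natCast, ← zpow_natCast, zpow_comm]
    rwa [h4] at h3
  -- there is a root
  have hdeg : (φ.map (Int.castRingHom ℂ)).degree ≠ 0 := by
    intro hd
    rw [Polynomial.degree_map_eq_of_injective (RingHom.injective_int _)] at hd
    have h1 : φ = Polynomial.C (φ.coeff 0) := Polynomial.eq_C_of_degree_eq_zero hd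
    apply hint (φ.coeff 0) hφ0
    obtain ⟨w, hw⟩ := mo_unit v0
    refine ⟨((w⁻¹ : (LM m)ˣ) : LM m), ?_⟩
    have h2 : l08_s u φ = ((φ.coeff 0 : ℤ) : LM m) := by
      conv_lhs => rw [h1]
      rw [← Polynomial.monomial_zero_left, l08_s_monomial, zero_smul, l08_int]
    rw [h2, ← hw] at hrep
    rw [hrep, mul_comm (w : LM m), mul_assoc, Units.mul_inv, mul_one]
  obtain ⟨α, hα⟩ := IsAlgClosed.exists_root (φ.map (Int.castRingHom ℂ)) hdeg
  have hα' : Polynomial.aeval α φ = 0 := by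
    rw [Polynomial.IsRoot, Polynomial.eval_map] at hα
    exact hα
  have hiter : ∀ k : ℕ, Polynomial.aeval (α ^ (N ^ k)) φ = 0 := by
    intro k
    induction k with
    | zero => simpa using hα'
    | succ k ih =>
      have := hclosed _ ih
      rwa [← pow_mul, ← pow_succ] at this
  -- pigeonhole
  have hfin : ∃ a b : ℕ, a < b ∧ α ^ (N ^ a) = α ^ (N ^ b) := by
    have h1 : ∀ k : ℕ, α ^ (N ^ k) ∈ (φ.map (Int.castRingHom ℂ)).roots.toFinset := by
      intro k
      rw [Multiset.mem_toFinset, Polynomial.mem_roots hmap, Polynomial.IsRoot, Polynomial.eval_map]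
      exact hiter k
    have h2 : ¬ Function.Injective (fun k : ℕ => (⟨α ^ (N ^ k), h1 k⟩ : (φ.map (Int.castRingHom ℂ)).roots.toFinset)) :=
      not_injective_infinite_finite _
    rw [Function.Injective] at h2
    push Not at h2
    obtain ⟨a, b, hab, hne⟩ := h2
    have hab' : α ^ (N ^ a) = α ^ (N ^ b) := congr_arg Subtype.val hab
    rcases lt_or_gt_of_ne hne with h | h
    · exact ⟨a, b, h, hab'⟩
    · exact ⟨b, a, h, hab'.symm⟩
  obtain ⟨a, b, hab, hpow⟩ := hfin
  have hNab : N ^ a < N ^ b := Nat.pow_lt_pow_right (by omega) hab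
  set j := N ^ b - N ^ a with hj
  have hj0 : j ≠ 0 := by omega
  have hαne : α ≠ 0 := hroot0 α hα'
  have hαj : α ^ j = 1 := by
    have h1 : α ^ (N ^ a) * α ^ j = α ^ (N ^ a) * 1 := by
      rw [← pow_add, mul_one, hj]
      have : N ^ a + (N ^ b - N ^ a) = N ^ b := by omega
      rw [this, hpow]
    exact mul_left_cancel₀ (pow_ne_zero _ hαne) h1
  -- the minimal polynomial
  have hint' : IsIntegral ℤ α := by
    refine ⟨Polynomial.X ^ j - 1, Polynomial.monic_X_pow_sub_C (1 : ℤ) hj0, ?_⟩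
    rw [Polynomial.eval₂_sub, Polynomial.eval₂_X_pow, Polynomial.eval₂_one, hαj, sub_self]
  have hg1 : minpoly ℤ α ∣ φ := minpoly.isIntegrallyClosed_dvd hint' hα'
  have hg2 : minpoly ℤ α ∣ (Polynomial.X ^ j - 1 : Polynomial ℤ) := by
    refine minpoly.isIntegrallyClosed_dvd hint' ?_
    rw [map_sub, map_pow, Polynomial.aeval_X, map_one, hαj, sub_self]
  obtain ⟨ψ, hψ⟩ := hg1
  obtain ⟨z, hz⟩ := l08_point u hu0 α hαne
  have hnu : ¬ IsUnit (l08_s u (minpoly ℤ α)) := by
    intro hU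
    have h1 := hU.map (l08_ev z)
    rw [l08_ev_s, hz, minpoly.aeval] at h1
    exact not_isUnit_zero h1
  have hdv : h ∣ l08_s u (minpoly ℤ α) * l08_s u ψ := by
    rw [← map_mul, ← hψ]
    obtain ⟨w, hw⟩ := mo_unit v0
    refine ⟨((w⁻¹ : (LM m)ˣ) : LM m), ?_⟩
    rw [← hw] at hrep
    conv_rhs => rw [hrep]
    rw [mul_comm (w : LM m), mul_assoc, Units.mul_inv, mul_one]
  rcases hp.dvd_or_dvd hdv with h1 | h1
  · apply hcyc (j • u)
    · intro h2
      obtain ⟨i, hi⟩ : ∃ i, u i ≠ 0 := by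
        by_contra h
        push Not at h
        exact hu0 (funext h)
      have h3 := congr_fun h2 i
      simp only [Pi.smul_apply, Pi.zero_apply, nsmul_eq_mul, mul_eq_zero] at h3
      rcases h3 with h3 | h3
      · exact hj0 (by exact_mod_cast h3)
      · exact hi h3
    · refine h1.trans ?_
      have h2 : (mo (j • u) - 1 : LM m) = l08_s u (Polynomial.X ^ j - 1) := by
        rw [map_sub, map_pow, map_one]
        have h3 : l08_s u Polynomial.X = mo u := by
          show Polynomial.aeval (mo u) Polynomial.X = _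
          rw [Polynomial.aeval_X]
        rw [h3, mo_pow]
      rw [h2]
      exact map_dvd _ hg2
  · obtain ⟨c, hc⟩ := h1
    apply hnu
    have h2 : h * 1 = h * (mo v0 * l08_s u (minpoly ℤ α) * c) := by
      have h3 : h = mo v0 * (l08_s u (minpoly ℤ α) * (h * c)) := by
        rw [← hc, ← map_mul, ← hψ]
        exact hrep
      calc h * 1 = h := mul_one h
        _ = mo v0 * (l08_s u (minpoly ℤ α) * (h * c)) := h3
        _ = _ := by ring
    have h3 := mul_left_cancel₀ h0 h2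
    exact IsUnit.of_mul_eq_one (mo v0 * c) (by rw [h3]; ring)

end Pool.Agent.WQL
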