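import Pool.Agent.Lib.MP_2da099_lc.QL.Q11

/-!
# Q12: rounding and the final test.
-/

set_option autoImplicit false

namespace Pool.Agent.WQL

open Pool.Agent.Lib.PolyTime Pool.Agent.WPM Pool.Agent.WPR Function

/-! ### Bounds -/

section bounds
variable {ι : Type}

/-- quasi-linear bounds -/
def q12_B (T : List ι → ℕ) : Prop :=
  ∃ C : ℕ, ∀ I, T I ≤ C * ((I.length + 1) * lg I.length ^ C)

/-- polylogarithmic bounds -/
def q12_P (T : List ι → ℕ) : Prop := ∃ C : ℕ, ∀ I, T I ≤ C * lg I.length ^ C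

theorem q12_up {a b : ℕ} (n : ℕ) (h : a ≤ b) : a * lg n ^ a ≤ b * lg n ^ b :=
  Nat.mul_le_mul h (Nat.pow_le_pow_right (lg_pos n) h)

theorem q12_upB {a b : ℕ} (n : ℕ) (h : a ≤ b) :
    a * ((n + 1) * lg n ^ a) ≤ b * ((n + 1) * lg n ^ b) :=
  Nat.mul_le_mul h (Nat.mul_le_mul_left _ (Nat.pow_le_pow_right (lg_pos n) h))

theorem q12_P.mono {T T' : List ι → ℕ} (h : q12_P T) (hT : ∀ I, T' I ≤ T I) : q12_P T' := by
  obtain ⟨C, hC⟩ := h
  exact ⟨C, fun I => (hT I).trans (hC I)⟩

theorem q12_B.mono {T T' : List ι → ℕ} (h : q12_B T) (hT : ∀ I, T' I ≤ T I) : q12_B T' := by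
  obtain ⟨C, hC⟩ := h
  exact ⟨C, fun I => (hT I).trans (hC I)⟩

theorem q12_P.const (c : ℕ) : q12_P (fun _ : List ι => c) :=
  ⟨c, fun _ => Nat.le_mul_of_pos_right _ (Nat.pow_pos (lg_pos _))⟩

theorem q12_P.add {T T' : List ι → ℕ} (h : q12_P T) (h' : q12_P T') :
    q12_P (fun I => T I + T' I) := by
  obtain ⟨C, hC⟩ := h
  obtain ⟨C', hC'⟩ := h'
  refine ⟨C + C', fun I => ?_⟩
  have a1 := hC I
  have a2 := hC' I
  have a3 : C * lg I.length ^ C ≤ C * lg I.length ^ (C + C') :=
    Nat.mul_le_mul_left _ (Nat.pow_le_pow_right (lg_pos _) (by omega))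
  have a4 : C' * lg I.length ^ C' ≤ C' * lg I.length ^ (C + C') :=
    Nat.mul_le_mul_left _ (Nat.pow_le_pow_right (lg_pos _) (by omega))
  have e : (C + C') * lg I.length ^ (C + C') = C * lg I.length ^ (C + C') +
    C' * lg I.length ^ (C + C') := by ring
  show T I + T' I ≤ _
  omega

theorem q12_B.add {T T' : List ι → ℕ} (h : q12_B T) (h' : q12_B T') :
    q12_B (fun I => T I + T' I) := by
  obtain ⟨C, hC⟩ := h
  obtain ⟨C', hC'⟩ := h'
  refine ⟨C + C', fun I => ?_⟩
  have a1 := hC I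
  have a2 := hC' I
  have a3 : C * ((I.length + 1) * lg I.length ^ C) ≤
      C * ((I.length + 1) * lg I.length ^ (C + C')) :=
    Nat.mul_le_mul_left _ (Nat.mul_le_mul_left _ (Nat.pow_le_pow_right (lg_pos _) (by omega)))
  have a4 : C' * ((I.length + 1) * lg I.length ^ C') ≤
      C' * ((I.length + 1) * lg I.length ^ (C + C')) :=
    Nat.mul_le_mul_left _ (Nat.mul_le_mul_left _ (Nat.pow_le_pow_right (lg_pos _) (by omega)))
  have e : (C + C') * ((I.length + 1) * lg I.length ^ (C + C')) =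
    C * ((I.length + 1) * lg I.length ^ (C + C')) +
    C' * ((I.length + 1) * lg I.length ^ (C + C')) := by ring
  show T I + T' I ≤ _
  omega

theorem q12_B.mul {T T' : List ι → ℕ} (h : q12_B T) (h' : q12_P T') :
    q12_B (fun I => T I * T' I) := by
  obtain ⟨C, hC⟩ := h
  obtain ⟨C', hC'⟩ := h'
  refine ⟨C * C' + (C + C'), fun I => ?_⟩
  have a1 := Nat.mul_le_mul (hC I) (hC' I)
  refine a1.trans ?_
  have e : C * ((I.length + 1) * lg I.length ^ C) * (C' * lg I.length ^ C') =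
    C * C' * ((I.length + 1) * lg I.length ^ (C + C')) := by ring
  rw [e]
  exact Nat.mul_le_mul (by omega) (Nat.mul_le_mul_left _
    (Nat.pow_le_pow_right (lg_pos _) (by omega)))

theorem q12_P.mul {T T' : List ι → ℕ} (h : q12_P T) (h' : q12_P T') :
    q12_P (fun I => T I * T' I) := by
  obtain ⟨C, hC⟩ := h
  obtain ⟨C', hC'⟩ := h'
  refine ⟨C * C' + (C + C'), fun I => ?_⟩
  have a1 := Nat.mul_le_mul (hC I) (hC' I)
  refine a1.trans ?_
  have e : C * lg I.length ^ C * (C' * lg I.length ^ C') =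
    C * C' * lg I.length ^ (C + C') := by ring
  rw [e]
  exact Nat.mul_le_mul (by omega) (Nat.pow_le_pow_right (lg_pos _) (by omega))

theorem q12_P.B {T : List ι → ℕ} (h : q12_P T) : q12_B T := by
  obtain ⟨C, hC⟩ := h
  refine ⟨C, fun I => (hC I).trans (Nat.mul_le_mul_left _ ?_)⟩
  exact Nat.le_mul_of_pos_left _ (Nat.succ_pos _)

theorem q12_B.const (c : ℕ) : q12_B (fun _ : List ι => c) := (q12_P.const c).B

theorem q12_B.smul {T : List ι → ℕ} (c : ℕ) (h : q12_B T) : q12_B (fun I => c * T I) :=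
  (h.mul (q12_P.const c)).mono (fun I => by
    show c * T I ≤ T I * c
    rw [Nat.mul_comm])

theorem q12_P.smul {T : List ι → ℕ} (c : ℕ) (h : q12_P T) : q12_P (fun I => c * T I) :=
  (h.mul (q12_P.const c)).mono (fun I => by
    show c * T I ≤ T I * c
    rw [Nat.mul_comm])

theorem q12_lg_le (n : ℕ) : lg n ≤ n + 1 := by
  unfold lg
  have h : Nat.log 2 (n + 2) < n + 2 := Nat.log_lt_self 2 (by omega)
  omega

theorem q12_lg_pow (c k : ℕ) : ∃ C : ℕ, ∀ n, lg (c * (n + 1) ^ k) ≤ C * lg n := by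
  refine ⟨c + 3 + 2 * k, fun n => ?_⟩
  have h1 : n + 2 < 2 ^ (lg n + 1) := Nat.lt_pow_succ_log_self (by norm_num) _
  have h2 : c + 2 < 2 ^ (c + 2) := Nat.lt_two_pow_self
  have h3 : c * (n + 1) ^ k + 2 ≤ (c + 2) * (n + 2) ^ k := by
    have a1 : (n + 1) ^ k ≤ (n + 2) ^ k := Nat.pow_le_pow_left (by omega) k
    have a2 : 1 ≤ (n + 2) ^ k := Nat.one_le_pow _ _ (by omega)
    have a3 : c * (n + 1) ^ k ≤ c * (n + 2) ^ k := Nat.mul_le_mul_left _ a1
    have e : (c + 2) * (n + 2) ^ k = c * (n + 2) ^ k + 2 * (n + 2) ^ k := by ring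
    omega
  have h4 : (n + 2) ^ k ≤ (2 ^ (lg n + 1)) ^ k := Nat.pow_le_pow_left h1.le k
  have h5 : c * (n + 1) ^ k + 2 < 2 ^ (c + 2 + (lg n + 1) * k) := by
    rw [pow_add, pow_mul]
    calc c * (n + 1) ^ k + 2 ≤ (c + 2) * (n + 2) ^ k := h3
      _ ≤ (c + 2) * (2 ^ (lg n + 1)) ^ k := Nat.mul_le_mul_left _ h4
      _ < 2 ^ (c + 2) * (2 ^ (lg n + 1)) ^ k :=
        Nat.mul_lt_mul_of_pos_right h2 (by positivity)
  have h6 : lg (c * (n + 1) ^ k) < c + 2 + (lg n + 1) * k := Nat.log_lt_of_lt_pow (by omega) h5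
  have h7 := lg_pos n
  have h8 : (c + 3) * 1 ≤ (c + 3) * lg n := Nat.mul_le_mul_left _ h7
  have h9 : k * 1 ≤ k * lg n := Nat.mul_le_mul_left _ h7
  have e1 : (lg n + 1) * k = k * lg n + k := by ring
  have e2 : (c + 3 + 2 * k) * lg n = (c + 3) * lg n + 2 * (k * lg n) := by ring
  omega

theorem q12_B.lg {T : List ι → ℕ} (h : q12_B T) : q12_P (fun I => lg (T I)) := by
  obtain ⟨C, hC⟩ := h
  obtain ⟨C', hC'⟩ := q12_lg_pow C (C + 1)
  refine ⟨C' + 1, fun I => ?_⟩
  have h1 : T I ≤ C * (I.length + 1) ^ (C + 1) := by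
    refine (hC I).trans (Nat.mul_le_mul_left _ ?_)
    rw [pow_succ, Nat.mul_comm]
    exact Nat.mul_le_mul_right _ (Nat.pow_le_pow_left (q12_lg_le _) _)
  refine (lg_mono h1).trans ((hC' I.length).trans ?_)
  refine Nat.mul_le_mul (by omega) ?_
  calc WQL.lg I.length = WQL.lg I.length ^ 1 := (pow_one _).symm
    _ ≤ WQL.lg I.length ^ (C' + 1) := Nat.pow_le_pow_right (lg_pos _) (by omega)

end bounds

/-! ### Quasi-linear functions -/

section ql
variable {ι α β γ δ : Type} [Enc ι] [Finite ι] [Enc α] [Enc β] [Enc γ] [Enc δ]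

theorem q12_size_in : q12_B (fun I : List ι => size I) := by
  obtain ⟨κ, hκ⟩ := size_list_fin ι
  refine ⟨κ, fun I => (hκ I).trans (Nat.mul_le_mul_left _ ?_)⟩
  exact Nat.le_mul_of_pos_right _ (Nat.pow_pos (lg_pos _))

/-- functions computed in quasi-linear time -/
def q12_Q (g : List ι → α) : Prop := ∃ T, CT g T ∧ q12_B T

omit [Finite ι] in
theorem q12_Q.congr {g g' : List ι → α} (h : q12_Q g) (e : ∀ I, g I = g' I) : q12_Q g' := by
  obtain ⟨T, h1, h2⟩ := h
  exact ⟨T, h1.congr e, h2⟩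

theorem q12_Q.sz {g : List ι → α} (h : q12_Q g) : q12_B (fun I => size (g I)) := by
  obtain ⟨T, h1, h2⟩ := h
  obtain ⟨C, hC⟩ := h1.size_le
  exact (q12_size_in.add ((h2.add (q12_B.const 1)).smul C)).mono hC

omit [Finite ι] in
theorem q12_Q.compT {g : List ι → α} {f : α → β} {T : α → ℕ} (h : q12_Q g) (hf : CT f T)
    (hT : q12_B (fun I => T (g I))) : q12_Q (fun I => f (g I)) := by
  obtain ⟨S, h1, h2⟩ := h
  exact ⟨_, hf.comp h1, h2.add hT⟩

theorem q12_Q.comp {g : List ι → α} {f : α → β} (h : q12_Q g) (hf : n03_LT f) :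
    q12_Q (fun I => f (g I)) := h.compT hf h.sz

theorem q12_Q.pair {g : List ι → α} {g' : List ι → β} (h : q12_Q g) (h' : q12_Q g') :
    q12_Q (fun I => (g I, g' I)) := by
  obtain ⟨T, h1, h2⟩ := h
  obtain ⟨T', h1', h2'⟩ := h'
  exact ⟨_, h1.pair h1', (q12_size_in.add h2).add h2'⟩

theorem q12_sum_size_env (l : List α) (e : δ) :
    (l.map (fun a => size (a, e))).sum ≤ size l + (l.length + 1) * (size e + 1) := by
  induction l with
  | nil => simp
  | cons a l ih =>
    rw [List.map_cons, List.sum_cons, List.length_cons, size_cons, size_prod]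
    have e1 : (l.length + 1 + 1) * (size e + 1) = (l.length + 1) * (size e + 1) +
      (size e + 1) := by ring
    show size a + size e + 1 + _ ≤ _
    omega

theorem q12_Q.map {g : List ι → List α} {e : List ι → δ} {f : α × δ → β} (hg : q12_Q g)
    (he : q12_Q e) (hP : q12_P (fun I => size (e I))) (hf : n03_LT f) :
    q12_Q (fun I => (g I).map (fun y => f (y, e I))) := by
  have h1 := ct_mapEnv (f := f) (T := fun x => size x) hf
  have h2 : q12_Q (fun I => (g I, e I)) := hg.pair he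
  refine h2.compT h1 ?_
  have hlen : q12_B (fun I => (g I).length + 1) :=
    hg.sz.mono (fun I => p05_length_le (g I))
  have hS := hg.sz
  refine ((hS.add (hlen.mul hP)).add (hS.add (hlen.mul (hP.add (q12_P.const 1))))).mono
    (fun I => ?_)
  have := q12_sum_size_env (g I) (e I)
  exact Nat.add_le_add_left this _

theorem q12_mxs_le (l : List α) (K : ℕ) (h : ∀ a ∈ l, size a ≤ K) : mxs l ≤ K := by
  unfold mxs
  induction l with
  | nil => simp
  | cons a l ih =>
    rw [List.map_cons, List.foldr_cons]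
    exact max_le (h a (by simp)) (ih (fun b hb => h b (by simp [hb])))

end ql

/-! ### Rounding -/

section rounding
variable (p : ℕ) [hp : Fact (2 ≤ p)]

theorem q12_zdig_div (x : ℤ) (k : ℕ) :
    zdig p (x / (p : ℤ) ^ k) = ((zdig p x).1, (zdig p x).2.drop k) := by
  induction k generalizing x with
  | zero => rw [pow_zero, Int.ediv_one, List.drop_zero]
  | succ k ih =>
    have e : x / (p : ℤ) ^ (k + 1) = x / (p : ℤ) / (p : ℤ) ^ k := by
      rw [Int.ediv_ediv_of_nonneg (by positivity), pow_succ, mul_comm]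
    rw [e, ih, n04_zdig_div]
    simp only [List.drop_tail]

theorem q12_div : n03_LT (fun x : ZB p × ℕ => (ZB.mk (x.1.val / (p : ℤ) ^ x.2) : ZB p)) := by
  have h0 : n03_LT (fun x : ZB p × ℕ => zdig p x.1.val) :=
    n03_comp (g := fun x : ZB p => zdig p x.val) (n03_zdig p) n03_fst
  have h1 : n03_LT (fun x : ZB p × ℕ => (zdig p x.1.val).1) :=
    n03_comp (g := fun d : Bool × List (Fin p) => d.1) n03_fst h0
  have h2 : n03_LT (fun x : ZB p × ℕ => (zdig p x.1.val).2) :=
    n03_comp (g := fun d : Bool × List (Fin p) => d.2) n03_snd h0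
  have hd : n03_LT (fun x : ℕ × List (Fin p) => x.2.drop x.1) :=
    n03_of 1 ct_drop (fun x => by rw [size_prod, size_nat]; omega)
  have h3 : n03_LT (fun x : ZB p × ℕ => (zdig p x.1.val).2.drop x.2) :=
    n03_comp2 (h := fun x : ℕ × List (Fin p) => x.2.drop x.1) hd n03_snd h2
  refine CT.congr_enc (n03_pair h1 h3) (fun x => ?_)
  show enc (zdig p (x.1.val / (p : ℤ) ^ x.2)) = _
  rw [q12_zdig_div]

/-- the rounding of a value -/
def q12_r (k : ℕ) (a : ℤ) : ℤ :=
  if a = 0 then 0 else (a + (p : ℤ) ^ k) / (p : ℤ) ^ (k + 1)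

theorem q12_lt_r : n03_LT (fun x : ZB p × ℕ => (ZB.mk (q12_r p x.2 x.1.val) : ZB p)) := by
  have hc : n03_LT (fun x : ZB p × ℕ => decide (x.1 = 0)) :=
    n03_comp (g := fun x : ZB p => decide (x = 0)) (ct_zbzero p) n03_fst
  have h0 : n03_LT (fun _ : ZB p × ℕ => (0 : ZB p)) := n03_const 0
  have hpow : n03_LT (fun n : ℕ => (ZB.mk ((p : ℤ) ^ n) : ZB p)) :=
    n03_of 1 (ct_zbpow p) (fun n => by rw [size_nat]; omega)
  have h1 : n03_LT (fun x : ZB p × ℕ => (ZB.mk ((p : ℤ) ^ x.2) : ZB p)) :=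
    n03_comp (g := fun n : ℕ => (ZB.mk ((p : ℤ) ^ n) : ZB p)) hpow n03_snd
  have hlin : n03_LT (fun x : ZB p × ZB p => x.1 + (1 : ℤ) • x.2) :=
    n03_of 1 (ct_zblin p 1) (fun x => by rw [size_prod]; omega)
  have h2 : n03_LT (fun x : ZB p × ℕ => x.1 + (1 : ℤ) • (ZB.mk ((p : ℤ) ^ x.2) : ZB p)) :=
    n03_comp2 (h := fun x : ZB p × ZB p => x.1 + (1 : ℤ) • x.2) hlin n03_fst h1
  have hs : n03_LT (fun n : ℕ => n + 1) := n03_of 0 ct_succ (fun _ => Nat.zero_le _)
  have h3 : n03_LT (fun x : ZB p × ℕ => x.2 + 1) :=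
    n03_comp (g := fun n : ℕ => n + 1) hs n03_snd
  have h4 : n03_LT (fun x : ZB p × ℕ => (ZB.mk ((x.1 + (1 : ℤ) •
      (ZB.mk ((p : ℤ) ^ x.2) : ZB p)).val / (p : ℤ) ^ (x.2 + 1)) : ZB p)) :=
    n03_comp2 (h := fun x : ZB p × ℕ => (ZB.mk (x.1.val / (p : ℤ) ^ x.2) : ZB p)) (q12_div p) h2 h3
  refine CT.congr (n03_ite hc h0 h4) (fun x => ?_)
  unfold q12_r
  by_cases hx : x.1 = 0
  · have hx' : x.1.val = 0 := hx
    rw [if_pos (by simpa using hx), if_pos hx']
    rfl
  · have hx' : ¬ x.1.val = 0 := hx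
    rw [if_neg (by simpa using hx), if_neg hx', one_smul]
    rfl

/-- the rounding of an item: only the items with the index 1 are changed -/
def q12_ps (k : ℕ) (τ : Fin 3) (a : ℤ) : ℤ := if τ = 1 then q12_r p k a else a

/-- the rounding of an item -/
def q12_it (x : ((Fin 3 × List (ZB p)) × ZB p) × ℕ) : (Fin 3 × List (ZB p)) × ZB p :=
  (x.1.1, ZB.mk (q12_ps p x.2 x.1.1.1 x.1.2.val))

theorem q12_lt_it : n03_LT (q12_it p) := by
  have h1 : n03_LT (fun x : ((Fin 3 × List (ZB p)) × ZB p) × ℕ => x.1.1) :=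
    n03_comp (g := fun x : (Fin 3 × List (ZB p)) × ZB p => x.1) n03_fst n03_fst
  have h2 : n03_LT (fun x : ((Fin 3 × List (ZB p)) × ZB p) × ℕ => x.1.2) :=
    n03_comp (g := fun x : (Fin 3 × List (ZB p)) × ZB p => x.2) n03_snd n03_fst
  have h3 : n03_LT (fun x : ((Fin 3 × List (ZB p)) × ZB p) × ℕ => x.1.1.1) :=
    n03_comp (g := fun x : Fin 3 × List (ZB p) => x.1) n03_fst h1
  have h4 : n03_LT (fun x : ((Fin 3 × List (ZB p)) × ZB p) × ℕ => decide (x.1.1.1 = 1)) :=
    n03_comp (g := fun τ : Fin 3 => decide (τ = 1)) (n03_fin _) h3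
  have h5 : n03_LT (fun x : ((Fin 3 × List (ZB p)) × ZB p) × ℕ =>
      (ZB.mk (q12_r p x.2 x.1.2.val) : ZB p)) :=
    n03_comp2 (h := fun x : ZB p × ℕ => (ZB.mk (q12_r p x.2 x.1.val) : ZB p)) (q12_lt_r p) h2
      n03_snd
  refine CT.congr (n03_pair h1 (n03_ite h4 h5 h2)) (fun x => ?_)
  unfold q12_it q12_ps
  by_cases hx : x.1.1.1 = 1
  · rw [if_pos (by simpa using hx), if_pos hx]
  · rw [if_neg (by simpa using hx), if_neg hx]
    rfl

omit hp in
theorem q12_ps_zero (k : ℕ) (τ : Fin 3) : q12_ps p k τ 0 = 0 := by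
  unfold q12_ps q12_r
  simp

end rounding

/-! ### Meaning -/

section meaning
variable {p m : ℕ}

theorem q12_ksum_not {κ : Type} (l : List (κ × ZB p)) (c : κ) (h : c ∉ l.map Prod.fst) :
    ksum l c = 0 := by
  classical
  rw [q10b_ksum]
  refine List.sum_eq_zero (fun x hx => ?_)
  obtain ⟨y, hy, rfl⟩ := List.mem_map.1 hx
  rw [if_neg (fun hc => h (List.mem_map.2 ⟨y, hy, hc⟩))]

theorem q12_ksum_cons {κ : Type} (x : κ × ZB p) (l : List (κ × ZB p)) (c : κ) :
    ksum (x :: l) c = (open Classical in if x.1 = c then x.2.val else 0) + ksum l c := by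
  classical
  rw [q10b_ksum, q10b_ksum, List.map_cons, List.sum_cons]

theorem q12_ksum_map {κ : Type} (l : List (κ × ZB p)) (hl : (l.map Prod.fst).Nodup)
    (ψ : κ → ℤ → ℤ) (hψ : ∀ c, ψ c 0 = 0) (c : κ) :
    ksum (l.map (fun y => (y.1, (ZB.mk (ψ y.1 y.2.val) : ZB p)))) c = ψ c (ksum l c) := by
  classical
  induction l with
  | nil => simp [ksum, hψ]
  | cons x l ih =>
    rw [List.map_cons, List.nodup_cons] at hl
    rw [List.map_cons, q12_ksum_cons, q12_ksum_cons, ih hl.2]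
    by_cases hx : x.1 = c
    · have h1 : ksum l c = 0 := q12_ksum_not l c (hx ▸ hl.1)
      rw [if_pos hx, if_pos hx, h1, hψ, add_zero, add_zero, hx]
      rfl
    · rw [if_neg hx, if_neg hx, zero_add, zero_add]

theorem q12_all_zero {κ : Type} (l : List (κ × ZB p)) (hl : (l.map Prod.fst).Nodup) :
    (∀ y ∈ l, y.2 = 0) ↔ ∀ c, ksum l c = 0 := by
  classical
  induction l with
  | nil => simp [ksum]
  | cons x l ih =>
    rw [List.map_cons, List.nodup_cons] at hl
    constructor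
    · intro h c
      rw [q12_ksum_cons, (ih hl.2).1 (fun y hy => h y (by simp [hy])) c]
      have h1 : x.2.val = 0 := h x (by simp)
      rw [h1, ite_self, add_zero]
    · intro h
      have h1 := h x.1
      rw [q12_ksum_cons, if_pos rfl, q12_ksum_not l x.1 hl.1, add_zero] at h1
      have h2 : ∀ c, ksum l c = 0 := by
        intro c
        have h3 := h c
        rw [q12_ksum_cons] at h3
        by_cases hc : x.1 = c
        · rw [← hc]
          exact q12_ksum_not l x.1 hl.1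
        · rwa [if_neg hc, zero_add] at h3
      intro y hy
      rcases List.mem_cons.1 hy with rfl | hy
      · exact h1
      · exact (ih hl.2).2 h2 y hy

theorem q12_den_zero {s ρ : ℕ} {I : List (IM m 2)} {l : SL p s} {F : Fin s → LM m}
    (hn : near ρ I l) (hd : den l F) : (∀ c, ksum l c = 0) ↔ ∀ τ, F τ = 0 := by
  constructor
  · intro h τ
    ext v
    rw [hd τ v, h]
    simp
  · intro h c
    by_cases hc : c ∈ l.map Prod.fst
    · obtain ⟨y, hy, rfl⟩ := List.mem_map.1 hc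
      obtain ⟨v, hv, _⟩ := hn y hy
      have h1 := hd y.1.1 v
      rw [← hv] at h1
      rw [← h1, h]
      simp
    · exact q12_ksum_not l c hc

end meaning

/-! ### The test -/

theorem q12_mem_size {α : Type} [Enc α] (l : List α) (a : α) (h : a ∈ l) : size a ≤ size l := by
  induction l with
  | nil => simp at h
  | cons b l ih =>
    rw [size_cons]
    rcases List.mem_cons.1 h with rfl | h
    · omega
    · have := ih h
      omega

theorem q12_apo_size {p s : ℕ} [Fact (2 ≤ p)]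
    (op : Fin s → List (Fin s × (List (List ℤ) × ℤ))) :
    ∃ C : ℕ, ∀ (l : SL p s) (K : ℕ), (∀ y ∈ l, size y ≤ K) →
      ∀ z ∈ apo op l, size z ≤ C * (K + 1) := by
  obtain ⟨C, hC⟩ := (ct_apo (β := p) op).size_le
  refine ⟨3 * C + 2, fun l K h z hz => ?_⟩
  obtain ⟨y, hy, hz⟩ := List.mem_flatMap.1 hz
  have h1 : z ∈ apo op [y] := by
    unfold apo
    rw [List.flatMap_cons, List.flatMap_nil, List.append_nil]
    exact hz
  have h2 := q12_mem_size _ z h1
  have h3 := hC [y]
  rw [size_cons, size_nil] at h3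
  have h4 := h y hy
  have h5 : C * (size y + 1 + 1 + 1) ≤ C * (3 * (K + 1)) := Nat.mul_le_mul_left _ (by omega)
  have e : (3 * C + 2) * (K + 1) = C * (3 * (K + 1)) + 2 * (K + 1) := by ring
  omega

theorem q12_lt_all {p s : ℕ} [Fact (2 ≤ p)] :
    n03_LT (fun l : SL p s => l.all (fun y => decide (y.2 = 0))) := by
  have h0 : n03_LT (fun y : (Fin s × List (ZB p)) × ZB p => decide (y.2 = 0)) :=
    n03_comp (g := fun x : ZB p => decide (x = 0)) (ct_zbzero p) n03_snd
  refine n03_of 2 (ct_all (p := fun y : (Fin s × List (ZB p)) × ZB p => decide (y.2 = 0))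
    (T := fun y => size y) h0) (fun l => ?_)
  have := p05_sum_size_le l
  show size l + (l.map (fun y => size y)).sum ≤ _
  omega

theorem QL_B {m : ℕ} (p : ℕ) [Fact (2 ≤ p)] (D S T r H : LM m) (c : ℕ) :
    ∃ κ : ℕ → ℕ, (∀ n, c * lg n ≤ κ n) ∧ QL (fun I : List (IM m 2) =>
      H * rnd p (κ I.length) (itB D S T r (spM I) (κ I.length + 1) 1) +
        itB D S T r (spM I) (κ I.length + 1) 2 = 0) := by
  classical
  obtain ⟨κ, hκ1, ⟨K, hκ2⟩, hκ3⟩ := exists_log c
  refine ⟨κ, hκ1, ?_⟩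
  have hκc : CT (fun I : List (IM m 2) => κ I.length) (fun I => (I.length + 1) * lg I.length) :=
    hκ3 (IM m 2)
  obtain ⟨f, Cf, hf1, hf2, hf3, hf4, hf5, hf6⟩ := exists_iter (m := m) p D S T r
    (fun n => κ n + 1) ⟨K + 1, fun n => by
      have h1 := hκ2 n
      have h2 := lg_pos n
      have e : (K + 1) * lg n = K * lg n + lg n := by ring
      show κ n + 1 ≤ _
      omega⟩ (by
      refine (ct_succ.comp hκc).mono 1 (fun I => ?_)
      show (I.length + 1) * lg I.length + 0 ≤ _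
      omega)
  -- the operator
  let Mx : Fin 3 → Fin 3 → LM m := fun τ => if τ = 0 then ![0, H, 1] else 0
  obtain ⟨op, R, hop⟩ := exists_op (β := p) Mx
  -- the list after rounding and the list after the operator
  let l1 : List (IM m 2) → SL p 3 := fun I => (f I).map (fun y => q12_it p (y, κ I.length))
  let l2 : List (IM m 2) → SL p 3 := fun I => apo op (l1 I)
  let F1 : List (IM m 2) → Fin 3 → LM m := fun I =>
    ![itB D S T r (spM I) (κ I.length + 1) 0,
      rnd p (κ I.length) (itB D S T r (spM I) (κ I.length + 1) 1),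
      itB D S T r (spM I) (κ I.length + 1) 2]
  have hnear1 : ∀ I, near (Cf * lg I.length) I (l1 I) := by
    intro I y hy
    obtain ⟨z, hz, rfl⟩ := List.mem_map.1 hy
    exact hf2 I z hz
  have hden1 : ∀ I, den (l1 I) (F1 I) := by
    intro I τ v
    have h1 := q12_ksum_map (f I) (hf4 I) (fun (c : Fin 3 × List (ZB p)) a =>
      q12_ps p (κ I.length) c.1 a) (fun c => q12_ps_zero p _ _) (τ, pl v)
    have h2 : l1 I = (f I).map (fun y => (y.1, (ZB.mk (q12_ps p (κ I.length) y.1.1 y.2.val) :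
      ZB p))) := rfl
    rw [h2, h1, ← hf3 I τ v]
    fin_cases τ
    · rfl
    · rfl
    · rfl
  have hdn : ∀ I, near (Cf * lg I.length + R) I (l2 I) ∧
      den (l2 I) (fun τ => ∑ τ', Mx τ τ' * F1 I τ') :=
    fun I => hop _ I (l1 I) (F1 I) (hnear1 I) (hden1 I)
  have hzero : ∀ I, (∀ c, ksum (l2 I) c = 0) ↔
      H * rnd p (κ I.length) (itB D S T r (spM I) (κ I.length + 1) 1) +
        itB D S T r (spM I) (κ I.length + 1) 2 = 0 := by
    intro I
    rw [q12_den_zero (hdn I).1 (hdn I).2]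
    have e0 : ∑ τ', Mx 0 τ' * F1 I τ' = H * rnd p (κ I.length)
        (itB D S T r (spM I) (κ I.length + 1) 1) + itB D S T r (spM I) (κ I.length + 1) 2 := by
      rw [Fin.sum_univ_three]
      show (0 : LM m) * _ + H * _ + 1 * _ = _
      rw [zero_mul, zero_add, one_mul]
      rfl
    constructor
    · intro h
      rw [← e0]
      exact h 0
    · intro h τ
      by_cases hτ : τ = 0
      · subst hτ
        rw [e0]
        exact h
      · show ∑ τ', Mx τ τ' * F1 I τ' = 0
        have e1 : Mx τ = 0 := if_neg hτ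
        simp [e1]
  -- sizes
  obtain ⟨c1, hc1⟩ := (q12_lt_it p).size_le
  obtain ⟨c2, hc2⟩ := q12_apo_size (p := p) op
  have hs1 : ∀ I, ∀ y ∈ l1 I, size y ≤ (Cf + 2 * K + 2 + c1 * (Cf + 2 * K + 3)) * lg I.length := by
    intro I y hy
    obtain ⟨z, hz, rfl⟩ := List.mem_map.1 hy
    have a1 := hc1 (z, κ I.length)
    have a2 := hf6 I z hz
    have a3 := hκ2 I.length
    have a4 := lg_pos I.length
    have a5 : size (z, κ I.length) = size z + (2 * κ I.length + 1) + 1 := by
      rw [size_prod, size_nat]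
    have e1 : (Cf + 2 * K + 2) * lg I.length =
      Cf * lg I.length + 2 * (K * lg I.length) + 2 * lg I.length := by ring
    have a6 : size (z, κ I.length) ≤ (Cf + 2 * K + 2) * lg I.length := by omega
    have a7 : size (z, κ I.length) + 1 ≤ (Cf + 2 * K + 3) * lg I.length := by
      have e2 : (Cf + 2 * K + 3) * lg I.length = (Cf + 2 * K + 2) * lg I.length + lg I.length := by
        ring
      omega
    have a8 := Nat.mul_le_mul_left c1 a7
    have e3 : (Cf + 2 * K + 2 + c1 * (Cf + 2 * K + 3)) * lg I.length =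
      (Cf + 2 * K + 2) * lg I.length + c1 * ((Cf + 2 * K + 3) * lg I.length) := by ring
    rw [e3]
    exact a1.trans (Nat.add_le_add a6 a8)
  set c5 := Cf + 2 * K + 2 + c1 * (Cf + 2 * K + 3) with hc5
  have hs2 : ∀ I, ∀ z ∈ l2 I, size z ≤ c2 * (c5 + 1) * lg I.length := by
    intro I z hz
    have a1 := hc2 (l1 I) (c5 * lg I.length) (hs1 I) z hz
    refine a1.trans ?_
    have a4 := lg_pos I.length
    rw [Nat.mul_assoc]
    refine Nat.mul_le_mul_left _ ?_
    have e : (c5 + 1) * lg I.length = c5 * lg I.length + lg I.length := by ring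
    omega
  obtain ⟨lam, hlam1, ⟨L, hlam2⟩, hlam3⟩ := exists_log (c2 * (c5 + 1))
  obtain ⟨fn, hfn1, hfn2, hfn3, hfn4⟩ := exists_norm (Fin 3 × List (ZB p)) p
  -- costs
  have qf : q12_Q f := ⟨_, hf1, ⟨Cf + 1, fun I => by
    show (I.length + 1) * lg I.length ^ Cf ≤ (Cf + 1) * ((I.length + 1) * lg I.length ^ (Cf + 1))
    calc (I.length + 1) * lg I.length ^ Cf ≤ (I.length + 1) * lg I.length ^ (Cf + 1) :=
          Nat.mul_le_mul_left _ (Nat.pow_le_pow_right (lg_pos _) (by omega))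
      _ ≤ _ := Nat.le_mul_of_pos_left _ (Nat.succ_pos _)⟩⟩
  have qk : q12_Q (fun I : List (IM m 2) => κ I.length) := ⟨_, hκc, ⟨1, fun I => by
    rw [pow_one, one_mul]⟩⟩
  have pk : q12_P (fun I : List (IM m 2) => size (κ I.length)) := by
    refine ⟨2 * K + 1, fun I => ?_⟩
    have a1 := hκ2 I.length
    have a2 := lg_pos I.length
    have a3 : lg I.length ^ 1 ≤ lg I.length ^ (2 * K + 1) :=
      Nat.pow_le_pow_right (lg_pos _) (by omega)
    have a4 := Nat.mul_le_mul_left (2 * K + 1) a3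
    rw [pow_one] at a4
    have e : (2 * K + 1) * lg I.length = 2 * (K * lg I.length) + lg I.length := by ring
    show size (κ I.length) ≤ _
    rw [size_nat]
    omega
  have q1 : q12_Q l1 := q12_Q.map qf qk pk (q12_lt_it p)
  have q2 : q12_Q l2 := q1.comp (f := fun l : SL p 3 => apo op l) (ct_apo op)
  have ql : q12_Q (fun I : List (IM m 2) => lam I.length) := ⟨_, hlam3 (IM m 2), ⟨1, fun I => by
    rw [pow_one, one_mul]⟩⟩
  have pl1 : q12_P (fun I : List (IM m 2) => lam I.length + 1) := by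
    refine ⟨L + 1, fun I => ?_⟩
    have a1 := hlam2 I.length
    have a2 := lg_pos I.length
    have a3 : lg I.length ^ 1 ≤ lg I.length ^ (L + 1) :=
      Nat.pow_le_pow_right (lg_pos _) (by omega)
    have a4 := Nat.mul_le_mul_left (L + 1) a3
    rw [pow_one] at a4
    have e : (L + 1) * lg I.length = L * lg I.length + lg I.length := by ring
    show lam I.length + 1 ≤ _
    omega
  have q3 : q12_Q (fun I : List (IM m 2) => (lam I.length, l2 I)) := ql.pair q2
  have blen : q12_B (fun I : List (IM m 2) => (l2 I).length + 1) :=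
    q2.sz.mono (fun I => p05_length_le (l2 I))
  have blen0 : q12_B (fun I : List (IM m 2) => (l2 I).length) :=
    blen.mono (fun I => Nat.le_succ _)
  have pm : q12_P (fun I : List (IM m 2) => mxs (l2 I)) := by
    refine ⟨c2 * (c5 + 1) + 1, fun I => ?_⟩
    refine (q12_mxs_le _ _ (hs2 I)).trans ?_
    refine Nat.mul_le_mul (by omega) ?_
    calc lg I.length = lg I.length ^ 1 := (pow_one _).symm
      _ ≤ _ := Nat.pow_le_pow_right (lg_pos _) (by omega)
  have q4 : q12_Q (fun I : List (IM m 2) => fn (lam I.length, l2 I)) := by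
    refine q3.compT hfn1 ?_
    have h := (blen.mul (pm.add blen0.lg)).mul pl1
    refine h.mono (fun I => ?_)
    show (lam I.length + 1) * (((l2 I).length + 1) * (mxs (l2 I) + lg (l2 I).length)) ≤
      ((l2 I).length + 1) * (mxs (l2 I) + lg (l2 I).length) * (lam I.length + 1)
    rw [Nat.mul_comm]
  have q5 : q12_Q (fun I : List (IM m 2) => (fn (lam I.length, l2 I)).all
      (fun y => decide (y.2 = 0))) :=
    q4.comp (f := fun l : SL p 3 => l.all (fun y => decide (y.2 = 0))) q12_lt_all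
  obtain ⟨T5, hT5, C5, hC5⟩ := q5
  refine ⟨_, T5, C5, hT5, fun I => ?_, fun I => ?_⟩
  · have hnd : ((fn (lam I.length, l2 I)).map Prod.fst).Nodup := by
      refine hfn4 _ (fun y hy => ?_)
      have a1 := hs2 I y hy
      have a2 := hlam1 I.length
      have a3 : size y = size y.1 + size y.2 + 1 := size_prod y
      show size y.1 ≤ lam I.length
      omega
    refine Iff.trans ?_ (hzero I)
    rw [List.all_eq_true]
    have e1 : (∀ y ∈ fn (lam I.length, l2 I), decide (y.2 = 0) = true) ↔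
        ∀ y ∈ fn (lam I.length, l2 I), y.2 = 0 := by simp only [decide_eq_true_iff]
    rw [e1, q12_all_zero _ hnd]
    refine forall_congr' (fun c => ?_)
    rw [hfn2]
  · rw [Nat.mul_assoc]
    exact hC5 I

end Pool.Agent.WQL
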