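import Pool.Agent.Lib.MP_2da099_lc.QL.L01

/-!
# L10: moments.

Let `q v = v i / w i`, `key v = v - q v • w`: `key (v + w) = key v`, `q (v + w) = q v + 1`.  Let
`S α F c = Σ_{v ∈ supp F, key v = c} F v * choose (q v) α` (additive in `F`; define it with `Finsupp.sum`).
`S α ((mo w - 1) * F) c = S (α - 1) F c` for `α ≥ 1` and `0` for `α = 0` (`Ring.choose (q + 1) (a + 1) = choose q a +
choose q (a + 1)`).  If `S 0 F = 0` then `(mo w - 1) ∣ F`: modulo `mo w - 1`, `F = Σ_v F v mo v ≡ Σ_v F v mo (key v) =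
Σ_c (S 0 F c) mo c = 0`.  Induction on `e` for all `F`; `mo w - 1` is not a zero divisor (`LM m` is a domain,
`w ≠ 0`).
-/

set_option autoImplicit false

namespace Pool.Agent.WQL

open Pool.Agent.Lib.PolyTime Pool.Agent.WPM Pool.Agent.WPR Function

/-- the key of a vector -/
def l10_key {m : ℕ} (w : Fin m → ℤ) (i : Fin m) (v : Fin m → ℤ) : Fin m → ℤ := v - (v i / w i) • w

/-- the moments -/
noncomputable def l10_S {m : ℕ} (w : Fin m → ℤ) (i : Fin m) (α : ℕ) (c : Fin m → ℤ) : LM m →+ ℤ :=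
  (Finsupp.liftAddHom (fun v : Fin m → ℤ =>
    if l10_key w i v = c then AddMonoidHom.mulRight (Ring.choose (v i / w i) α) else 0)).comp
    (AddMonoidAlgebra.coeffAddEquiv (R := ℤ) (M := Fin m → ℤ)).toAddMonoidHom

theorem l10_S_apply {m : ℕ} (w : Fin m → ℤ) (i : Fin m) (α : ℕ) (c : Fin m → ℤ) (F : LM m) :
    l10_S w i α c F = ∑ v ∈ F.coeff.support.filter (fun v => v - (v i / w i) • w = c),
        F.coeff v * Ring.choose (v i / w i) α := by
  rw [Finset.sum_filter]
  show (Finsupp.liftAddHom _) F.coeff = _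
  rw [Finsupp.liftAddHom_apply, Finsupp.sum]
  refine Finset.sum_congr rfl fun v _ => ?_
  unfold l10_key
  split_ifs
  · rw [AddMonoidHom.mulRight_apply]
  · rfl

theorem l10_S_single {m : ℕ} (w : Fin m → ℤ) (i : Fin m) (α : ℕ) (c v : Fin m → ℤ) (a : ℤ) :
    l10_S w i α c (AddMonoidAlgebra.single v a) =
      if l10_key w i v = c then a * Ring.choose (v i / w i) α else 0 := by
  show (Finsupp.liftAddHom _) (AddMonoidAlgebra.single v a).coeff = _
  rw [AddMonoidAlgebra.coeff_single, Finsupp.liftAddHom_apply_single]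
  split_ifs
  · rw [AddMonoidHom.mulRight_apply]
  · rfl

theorem l10_div {m : ℕ} {w : Fin m → ℤ} {i : Fin m} (hw : 0 < w i) (v : Fin m → ℤ) :
    (w + v) i / w i = v i / w i + 1 := by
  rw [Pi.add_apply, add_comm (w i) (v i), Int.add_ediv_of_dvd_right (dvd_refl _), Int.ediv_self hw.ne']

theorem l10_key_add {m : ℕ} {w : Fin m → ℤ} {i : Fin m} (hw : 0 < w i) (v : Fin m → ℤ) :
    l10_key w i (w + v) = l10_key w i v := by
  unfold l10_key
  rw [l10_div hw, add_smul, one_smul]
  abel

theorem l10_mul_succ {m : ℕ} {w : Fin m → ℤ} {i : Fin m} (hw : 0 < w i) (α : ℕ) (c : Fin m → ℤ)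
    (F : LM m) : l10_S w i (α + 1) c (mo w * F) = l10_S w i (α + 1) c F + l10_S w i α c F := by
  induction F using AddMonoidAlgebra.induction with
  | zero => simp only [mul_zero, map_zero, add_zero]
  | single_add v a F _ _ ih =>
    rw [mul_add, map_add, map_add, map_add, ih, mo, AddMonoidAlgebra.single_mul_single, one_mul,
      l10_S_single, l10_S_single, l10_S_single, l10_key_add hw, l10_div hw, Ring.choose_succ_succ]
    split_ifs <;> ring

theorem l10_mul_zero {m : ℕ} {w : Fin m → ℤ} {i : Fin m} (hw : 0 < w i) (c : Fin m → ℤ)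
    (F : LM m) : l10_S w i 0 c (mo w * F) = l10_S w i 0 c F := by
  induction F using AddMonoidAlgebra.induction with
  | zero => rw [mul_zero]
  | single_add v a F _ _ ih =>
    rw [mul_add, map_add, map_add, ih, mo, AddMonoidAlgebra.single_mul_single, one_mul,
      l10_S_single, l10_S_single, l10_key_add hw, Ring.choose_zero_right, Ring.choose_zero_right]

theorem l10_step {m : ℕ} {w : Fin m → ℤ} {i : Fin m} (hw : 0 < w i) (α : ℕ) (c : Fin m → ℤ)
    (F : LM m) : l10_S w i (α + 1) c ((mo w - 1) * F) = l10_S w i α c F := by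
  rw [sub_mul, one_mul, map_sub, l10_mul_succ hw]
  ring

theorem l10_base {m : ℕ} {w : Fin m → ℤ} {i : Fin m} (hw : 0 < w i) (c : Fin m → ℤ)
    (F : LM m) : l10_S w i 0 c ((mo w - 1) * F) = 0 := by
  rw [sub_mul, one_mul, map_sub, l10_mul_zero hw, sub_self]

theorem l10_dvd_nat {m : ℕ} (w : Fin m → ℤ) (n : ℕ) : (mo w - 1 : LM m) ∣ mo ((n : ℤ) • w) - 1 := by
  have h := sub_one_dvd_pow_sub_one (mo w : LM m) n
  rw [mo_pow] at h
  rwa [natCast_zsmul]

theorem l10_dvd_int {m : ℕ} (w : Fin m → ℤ) (n : ℤ) : (mo w - 1 : LM m) ∣ mo (n • w) - 1 := by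
  obtain ⟨k, rfl | rfl⟩ := n.eq_nat_or_neg
  · exact l10_dvd_nat w k
  · have h : (mo (-(k : ℤ) • w) - 1 : LM m) = -(mo (-(k : ℤ) • w) * (mo ((k : ℤ) • w) - 1)) := by
      rw [mul_sub, ← mo_add, mul_one, ← add_smul, neg_add_cancel, zero_smul, mo_zero]
      ring
    rw [h]
    exact (Dvd.dvd.mul_left (l10_dvd_nat w k) _).neg_right

theorem l10_dvd_single {m : ℕ} (w : Fin m → ℤ) (i : Fin m) (v : Fin m → ℤ) (a : ℤ) :
    (mo w - 1 : LM m) ∣ AddMonoidAlgebra.single v a - AddMonoidAlgebra.single (l10_key w i v) a := by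
  have h : (AddMonoidAlgebra.single v a - AddMonoidAlgebra.single (l10_key w i v) a : LM m) =
      AddMonoidAlgebra.single (l10_key w i v) a * (mo ((v i / w i) • w) - 1) := by
    rw [mul_sub, mul_one, mo, AddMonoidAlgebra.single_mul_single, mul_one]
    congr 2
    unfold l10_key
    abel
  rw [h]
  exact Dvd.dvd.mul_left (l10_dvd_int w _) _

/-- the polynomial of the moments of order zero -/
theorem l10_red {m : ℕ} (w : Fin m → ℤ) (i : Fin m) (F : LM m) : ∃ G : LM m,
    (mo w - 1 : LM m) ∣ F - G ∧ ∀ c, G.coeff c = l10_S w i 0 c F := by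
  induction F using AddMonoidAlgebra.induction with
  | zero => exact ⟨0, by rw [sub_zero]; exact dvd_zero _, fun c => by rw [map_zero]; rfl⟩
  | single_add v a F _ _ ih =>
    obtain ⟨G, h1, h2⟩ := ih
    refine ⟨AddMonoidAlgebra.single (l10_key w i v) a + G, ?_, fun c => ?_⟩
    · rw [add_sub_add_comm]
      exact dvd_add (l10_dvd_single w i v a) h1
    · rw [AddMonoidAlgebra.coeff_add, Finsupp.add_apply, h2, map_add, l10_S_single,
        AddMonoidAlgebra.coeff_single, Finsupp.single_apply, Ring.choose_zero_right, mul_one]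

theorem l10_dvd {m : ℕ} (w : Fin m → ℤ) (i : Fin m) (F : LM m)
    (h : ∀ c, l10_S w i 0 c F = 0) : (mo w - 1 : LM m) ∣ F := by
  obtain ⟨G, h1, h2⟩ := l10_red w i F
  have hG : G = 0 := by
    ext c
    rw [h2, h]
    rfl
  rwa [hG, sub_zero] at h1

theorem l10_iff {m : ℕ} (w : Fin m → ℤ) (i : Fin m) (hw : 0 < w i) (e : ℕ) (F : LM m) :
    (mo w - 1) ^ e ∣ F ↔ ∀ c : Fin m → ℤ, ∀ α < e, l10_S w i α c F = 0 := by
  induction e generalizing F with
  | zero =>
    constructor
    · intro _ c α hα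
      omega
    · intro _
      rw [pow_zero]
      exact one_dvd _
  | succ e ih =>
    have hne : (mo w - 1 : LM m) ≠ 0 := by
      intro h0
      have h1 := congrArg (fun G : LM m => G.coeff w) h0
      have h2 : (0 : Fin m → ℤ) ≠ w := by
        intro h
        rw [← h] at hw
        exact lt_irrefl _ hw
      have h3 : (mo w - 1 : LM m).coeff w = 1 := by
        rw [← mo_zero, mo, mo, AddMonoidAlgebra.coeff_sub, Finsupp.sub_apply,
          AddMonoidAlgebra.coeff_single, AddMonoidAlgebra.coeff_single, Finsupp.single_eq_same,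
          Finsupp.single_eq_of_ne h2.symm, sub_zero]
      rw [h3] at h1
      exact one_ne_zero h1
    constructor
    · rintro ⟨H, rfl⟩ c α hα
      rw [pow_succ', mul_assoc]
      cases α with
      | zero => exact l10_base hw c _
      | succ α =>
        rw [l10_step hw]
        exact (ih ((mo w - 1) ^ e * H)).1 (dvd_mul_right _ _) c α (by omega)
    · intro h
      obtain ⟨G, hG⟩ := l10_dvd w i F (fun c => h c 0 (by omega))
      rw [hG, pow_succ']
      refine mul_dvd_mul_left _ ((ih G).2 fun c α hα => ?_)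
      rw [← l10_step hw, ← hG]
      exact h c (α + 1) (by omega)

theorem cyc_moments {m : ℕ} (w : Fin m → ℤ) (i : Fin m) (hw : 0 < w i) (e : ℕ) (F : LM m) :
    (mo w - 1) ^ e ∣ F ↔ ∀ c : Fin m → ℤ, ∀ α < e,
      ∑ v ∈ F.coeff.support.filter (fun v => v - (v i / w i) • w = c),
        F.coeff v * Ring.choose (v i / w i) α = 0 := by
  rw [l10_iff w i hw e F]
  refine forall_congr' fun c => forall_congr' fun α => forall_congr' fun _ => ?_
  rw [l10_S_apply]

end Pool.Agent.WQL
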