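import Pool.Agent.Lib.MP_2da099_lc.QL.Q09
import Pool.Agent.Lib.MP_2da099_lc.QL.L01
import Pool.Agent.Lib.MP_2da099_lc.QL.L10

/-!
# T3: divisors of `Y ^ w - 1`.

Choose `i` with `w i ≠ 0`; if `w i < 0` replace `w` by `-w` (`mo (-w) - 1 = - mo (-w) * (mo w - 1)`).  For each `α < e` use
`QL_chart` (`QL_forall`) with `E = 0`, `σ = [0, w i)` (`S v = v i mod w i`), `X v` = the list of `choose (q v) a`, `a ≤ α`
(the first one is `1`) followed by the coordinates of `key v = v - q v • w`; `key v` = the coordinates;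
`val κ v = ± choose (q v) α`.  A move changes the residue, `q` changes by a constant `κ` (depending only on the residue
and on the move; `choose (q + κ) a = Σ_b choose q b choose κ (a - b)`) and the key changes by a constant.
-/

set_option autoImplicit false

namespace Pool.Agent.WQL

open Pool.Agent.Lib.PolyTime Pool.Agent.WPM Pool.Agent.WPR Function

section t3

/-- Linear on the set `P` in terms of the functions `x`. -/
def t3_Lin {V τ : Type} [Fintype τ] (P : V → Prop) (x : V → τ → ℤ) (g : V → ℤ) : Prop :=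
  ∃ c : τ → ℤ, ∀ v, P v → g v = ∑ u, c u * x v u

theorem t3_Lin.add {V τ : Type} [Fintype τ] {P : V → Prop} {x : V → τ → ℤ} {g h : V → ℤ}
    (hg : t3_Lin P x g) (hh : t3_Lin P x h) : t3_Lin P x (fun v => g v + h v) := by
  obtain ⟨c, hc⟩ := hg
  obtain ⟨d, hd⟩ := hh
  refine ⟨fun u => c u + d u, fun v hv => ?_⟩
  simp only [hc v hv, hd v hv, add_mul, Finset.sum_add_distrib]

theorem t3_Lin.smul {V τ : Type} [Fintype τ] {P : V → Prop} {x : V → τ → ℤ} {g : V → ℤ}
    (a : ℤ) (hg : t3_Lin P x g) : t3_Lin P x (fun v => a * g v) := by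
  obtain ⟨c, hc⟩ := hg
  refine ⟨fun u => a * c u, fun v hv => ?_⟩
  simp only [hc v hv, Finset.mul_sum, mul_assoc]

theorem t3_Lin.proj {V τ : Type} [Fintype τ] {P : V → Prop} {x : V → τ → ℤ} (t : τ) :
    t3_Lin P x (fun v => x v t) := by
  classical
  refine ⟨fun u => if u = t then 1 else 0, fun v _ => ?_⟩
  simp [Finset.sum_ite_eq']

theorem t3_Lin.sum {V τ κ : Type} [Fintype τ] {P : V → Prop} {x : V → τ → ℤ} (s : Finset κ)
    {g : κ → V → ℤ} (hg : ∀ k ∈ s, t3_Lin P x (g k)) : t3_Lin P x (fun v => ∑ k ∈ s, g k v) := by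
  classical
  induction s using Finset.induction_on with
  | empty => exact ⟨fun _ => 0, fun v _ => by simp⟩
  | insert a s ha ih =>
    simp only [Finset.sum_insert ha]
    exact (hg a (Finset.mem_insert_self _ _)).add
      (ih (fun k hk => hg k (Finset.mem_insert_of_mem hk)))

theorem t3_Lin.congr {V τ : Type} [Fintype τ] {P : V → Prop} {x : V → τ → ℤ} {g h : V → ℤ}
    (hg : t3_Lin P x g) (e : ∀ v, P v → h v = g v) : t3_Lin P x h := by
  obtain ⟨c, hc⟩ := hg
  exact ⟨c, fun v hv => by rw [e v hv, hc v hv]⟩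

theorem t3_dt_ofFn {N : ℕ} (c y : Fin N → ℤ) :
    dt (List.ofFn c) (List.ofFn y) = ∑ t, c t * y t := by
  unfold dt
  rw [← List.sum_ofFn]
  congr 1
  apply List.ext_getElem
  · simp
  · intro n h1 h2
    simp

theorem t3_filter_sum {α : Type} (p : α → Bool) (f : α → ℤ) (l : List α) :
    ((l.filter p).map f).sum = (l.map (fun x => if p x = true then f x else 0)).sum := by
  induction l with
  | nil => simp
  | cons a l ih =>
    by_cases h : p a = true
    · simp [h, ih]
    · simp [h, ih]

/-- The key test with vectors indexed by a finite type. -/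
theorem t3_chart {m k p : ℕ} {σ τ : Type} [Finite σ] [Fintype τ] (S : (Fin m → ℤ) → σ)
    (x : (Fin m → ℤ) → τ → ℤ)
    (hS : ∀ (s : σ) (a : Fin m × Bool), ∃ s' : σ, ∀ v, S v = s → S (v + stv a) = s')
    (hx : ∀ (s : σ) (a : Fin m × Bool) (t : τ),
      t3_Lin (fun v => S v = s) x (fun v => x (v + stv a) t))
    (hX : ∃ C : ℕ, ∀ (n : ℕ) (v : Fin m → ℤ), (∀ i, |v i| ≤ n) →
      ∀ t, (x v t).natAbs ≤ C * (n + 1) ^ C)
    (key : (Fin m → ℤ) → Fin p → ℤ)
    (hkey : ∀ s l, t3_Lin (fun v => S v = s) x (fun v => key v l))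
    (val : Fin k → (Fin m → ℤ) → ℤ)
    (hval : ∀ s κ, t3_Lin (fun v => S v = s) x (fun v => val κ v))
    (E : ℕ) :
    QL (fun I : List (IM m k) => ∀ c : Fin p → ℤ, (E : ℤ) ∣
      (((posM 0 I).filter (fun x => decide (key x.1 = c))).map (fun x => val x.2 x.1)).sum) := by
  classical
  obtain ⟨N, ⟨eN⟩⟩ : ∃ N : ℕ, Nonempty (τ ≃ Fin N) := ⟨Fintype.card τ, ⟨Fintype.equivFin τ⟩⟩
  have key0 : ∀ (s : σ) (g : (Fin m → ℤ) → ℤ), t3_Lin (fun v => S v = s) x g →
      ∃ w : List ℤ, ∀ v, S v = s → g v = dt w (List.ofFn (fun t : Fin N => x v (eN.symm t))) := by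
    rintro s g ⟨c, hc⟩
    refine ⟨List.ofFn (fun t => c (eN.symm t)), fun v hv => ?_⟩
    rw [t3_dt_ofFn, hc v hv]
    exact (Equiv.sum_comp eN.symm (fun u => c u * x v u)).symm
  have key1 : ∀ (s : σ) {q : ℕ} (g : (Fin m → ℤ) → Fin q → ℤ),
      (∀ l, t3_Lin (fun v => S v = s) x (fun v => g v l)) →
      ∃ rows : List (List ℤ), ∀ v, S v = s →
        List.ofFn (g v) = lm rows (List.ofFn (fun t : Fin N => x v (eN.symm t))) := by
    intro s q g hg
    choose w hw using fun l => key0 s (fun v => g v l) (hg l)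
    refine ⟨List.ofFn w, fun v hv => ?_⟩
    unfold lm
    rw [List.map_ofFn]
    congr 1
    funext l
    exact hw l v hv
  have h := QL_chart (m := m) (k := k) (σ := σ) S
    (fun v => List.ofFn (fun t : Fin N => x v (eN.symm t))) N (fun v => by simp)
    (by
      intro s a
      obtain ⟨s', hs'⟩ := hS s a
      obtain ⟨rows, hr⟩ := key1 s (fun v (t : Fin N) => x (v + stv a) (eN.symm t))
        (fun l => hx s a (eN.symm l))
      exact ⟨s', rows, fun v hv => ⟨hs' v hv, hr v hv⟩⟩)
    (by
      obtain ⟨C, hC⟩ := hX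
      refine ⟨C, fun n v hv y hy => ?_⟩
      rw [List.mem_ofFn] at hy
      obtain ⟨t, rfl⟩ := hy
      exact hC n v hv _)
    (fun v => List.ofFn (key v))
    (by
      intro s
      exact key1 s key (hkey s))
    val
    (by
      intro s κ
      exact key0 s (fun v => val κ v) (hval s κ))
    E
  refine h.congr (fun I => ?_)
  constructor
  · intro hh c
    have := hh (List.ofFn c)
    simpa [List.ofFn_inj] using this
  · intro hh c
    by_cases hc : ∃ c' : Fin p → ℤ, List.ofFn c' = c
    · obtain ⟨c', rfl⟩ := hc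
      simpa [List.ofFn_inj] using hh c'
    · have : (posM 0 I).filter (fun x => decide (List.ofFn (key x.1) = c)) = [] := by
        rw [List.filter_eq_nil_iff]
        intro a _ ha
        exact hc ⟨_, of_decide_eq_true ha⟩
      rw [this]
      simp

theorem t3_choose_bound (a n : ℕ) (q : ℤ) (hq : |q| ≤ n) :
    |Ring.choose q a| ≤ ((n : ℤ) + 1) ^ a := by
  induction a generalizing n q with
  | zero => simp
  | succ a iha =>
    induction n generalizing q with
    | zero =>
      have : q = 0 := by simpa using hq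
      subst this
      rw [Ring.choose_zero_succ]
      simp
    | succ n ihn =>
      push_cast at hq ⊢
      rcases lt_or_ge |q| ((n : ℤ) + 1) with h | h
      · have h1 := ihn q (by omega)
        refine h1.trans (pow_le_pow_left₀ (by positivity) (by linarith) _)
      · have h2 : |q| = n + 1 := le_antisymm hq h
        rcases le_total 0 q with h0 | h0
        · rw [abs_of_nonneg h0] at h2
          have e : q = (q - 1) + 1 := by ring
          rw [e, Ring.choose_succ_succ]
          have hq1 : |q - 1| ≤ (n : ℤ) := by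
            rw [h2]; simp
          have h3 := iha n (q - 1) hq1
          have h4 := ihn (q - 1) hq1
          calc |Ring.choose (q - 1) a + Ring.choose (q - 1) (a + 1)|
              ≤ |Ring.choose (q - 1) a| + |Ring.choose (q - 1) (a + 1)| := abs_add_le _ _
            _ ≤ ((n : ℤ) + 1) ^ a + ((n : ℤ) + 1) ^ (a + 1) := add_le_add h3 h4
            _ = ((n : ℤ) + 1) ^ a * ((n : ℤ) + 1 + 1) := by ring
            _ ≤ ((n : ℤ) + 1 + 1) ^ a * ((n : ℤ) + 1 + 1) := by
              have := pow_le_pow_left₀ (by positivity : (0 : ℤ) ≤ (n : ℤ) + 1)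
                (by linarith : (n : ℤ) + 1 ≤ (n : ℤ) + 1 + 1) a
              exact mul_le_mul_of_nonneg_right this (by positivity)
            _ = ((n : ℤ) + 1 + 1) ^ (a + 1) := by ring
        · rw [abs_of_nonpos h0] at h2
          have h3 := iha (n + 1) q (by push_cast; rw [abs_of_nonpos h0]; omega)
          have h4 := ihn (q + 1) (by rw [abs_of_nonpos (by omega)]; omega)
          have e := Ring.choose_succ_succ q a
          have e2 : Ring.choose q (a + 1) = Ring.choose (q + 1) (a + 1) - Ring.choose q a := by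
            rw [e]; ring
          rw [e2]
          push_cast at h3
          calc |Ring.choose (q + 1) (a + 1) - Ring.choose q a|
              ≤ |Ring.choose (q + 1) (a + 1)| + |Ring.choose q a| := abs_sub _ _
            _ ≤ ((n : ℤ) + 1) ^ (a + 1) + ((n : ℤ) + 1 + 1) ^ a := add_le_add h4 h3
            _ = ((n : ℤ) + 1) ^ a * ((n : ℤ) + 1) + ((n : ℤ) + 1 + 1) ^ a := by ring
            _ ≤ ((n : ℤ) + 1 + 1) ^ a * ((n : ℤ) + 1) + ((n : ℤ) + 1 + 1) ^ a := by
              have := pow_le_pow_left₀ (by positivity : (0 : ℤ) ≤ (n : ℤ) + 1)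
                (by linarith : (n : ℤ) + 1 ≤ (n : ℤ) + 1 + 1) a
              have := mul_le_mul_of_nonneg_right this (by positivity : (0 : ℤ) ≤ (n : ℤ) + 1)
              linarith
            _ = ((n : ℤ) + 1 + 1) ^ (a + 1) := by ring

/-- The change of the quotient and of the residue under a step depends only on the residue. -/
theorem t3_step (d : ℤ) (hd : 0 < d) (r δ : ℤ) :
    ∃ κ r' : ℤ, 0 ≤ r' ∧ r' < d ∧ ∀ y : ℤ, y % d = r → (y + δ) / d = y / d + κ ∧ (y + δ) % d = r' := by
  refine ⟨(r + δ) / d, (r + δ) % d, Int.emod_nonneg _ hd.ne', Int.emod_lt_of_pos _ hd, ?_⟩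
  intro y hy
  have e : y + δ = (r + δ) + d * (y / d) := by
    have := Int.emod_add_mul_ediv y d
    rw [hy] at this
    linarith
  constructor
  · rw [e, Int.add_mul_ediv_left _ _ hd.ne']
    ring
  · rw [e, Int.add_mul_emod_self_left]

theorem t3_main {m : ℕ} (w : Fin m → ℤ) (i : Fin m) (hw : 0 < w i) (e : ℕ) :
    QL (fun I : List (IM m 2) => (mo w - 1) ^ e ∣ spM I) := by
  classical
  have hα : ∀ α : Fin e, QL (fun I : List (IM m 2) => ∀ c : Fin m → ℤ, ((0 : ℕ) : ℤ) ∣
      (((posM 0 I).filter (fun x => decide (x.1 - (x.1 i / w i) • w = c))).map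
        (fun x => (if x.2 = 0 then (1 : ℤ) else -1) * Ring.choose (x.1 i / w i) (α : ℕ))).sum) := by
    intro α
    -- the state and the vector
    refine t3_chart (m := m) (k := 2) (p := m) (σ := Set.Ico (0 : ℤ) (w i))
      (τ := Fin (α.val + 1) ⊕ Fin m)
      (fun v => ⟨v i % w i, Int.emod_nonneg _ hw.ne', Int.emod_lt_of_pos _ hw⟩)
      (fun v t => Sum.elim (fun a : Fin (α.val + 1) => Ring.choose (v i / w i) (a : ℕ))
        (fun l => (v - (v i / w i) • w) l) t)
      ?_ ?_ ?_ (fun v => v - (v i / w i) • w) ?_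
      (fun κ v => (if κ = 0 then (1 : ℤ) else -1) * Ring.choose (v i / w i) (α : ℕ)) ?_ 0
    · rintro ⟨s, hs⟩ a
      obtain ⟨κ, r', h0, h1, h2⟩ := t3_step (w i) hw s (stv a i)
      refine ⟨⟨r', h0, h1⟩, fun v hv => ?_⟩
      have hv' : v i % w i = s := congrArg Subtype.val hv
      exact Subtype.ext (h2 _ hv').2
    · rintro ⟨s, hs⟩ a t
      obtain ⟨κ, r', h0, h1, h2⟩ := t3_step (w i) hw s (stv a i)
      rcases t with b | l
      · -- choose
        simp only [Sum.elim_inl]
        refine t3_Lin.congr (t3_Lin.sum (Finset.antidiagonal (b : ℕ))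
          (g := fun ij v => Ring.choose κ ij.2 * Ring.choose (v i / w i) ij.1) ?_) ?_
        · intro ij hij
          refine t3_Lin.smul _ ?_
          have hlt : ij.1 < α.val + 1 := by
            have := Finset.mem_antidiagonal.mp hij
            have := b.2
            omega
          exact t3_Lin.proj (Sum.inl (⟨ij.1, hlt⟩ : Fin (α.val + 1)))
        · intro v hv
          have hv' : v i % w i = s := congrArg Subtype.val hv
          have h3 : (v + stv a) i / w i = v i / w i + κ := (h2 _ hv').1
          rw [h3, Ring.add_choose_eq _ (Commute.all _ _)]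
          exact Finset.sum_congr rfl (fun ij _ => mul_comm _ _)
      · -- key
        simp only [Sum.elim_inr]
        refine t3_Lin.congr (t3_Lin.add (t3_Lin.proj (Sum.inr l))
          (t3_Lin.smul ((stv a - κ • w) l) (t3_Lin.proj (Sum.inl (⟨0, by omega⟩ : Fin (α.val + 1)))))) ?_
        intro v hv
        have hv' : v i % w i = s := congrArg Subtype.val hv
        have h3 : (v + stv a) i / w i = v i / w i + κ := (h2 _ hv').1
        rw [h3]
        simp only [Sum.elim_inr, Sum.elim_inl, Ring.choose_zero_right, mul_one]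
        simp only [Pi.sub_apply, Pi.add_apply, Pi.smul_apply, smul_eq_mul]
        ring
    · -- bounds
      set W : ℕ := ∑ l, (w l).natAbs with hW
      refine ⟨α.val + W + 2, fun n v hv t => ?_⟩
      have hq : |v i / w i| ≤ (n : ℤ) := (Int.abs_ediv_le_abs _ _).trans (hv i)
      have hn1 : 1 ≤ n + 1 := Nat.le_add_left _ _
      rcases t with b | l
      · simp only [Sum.elim_inl]
        have h := t3_choose_bound (b : ℕ) n _ hq
        have h' : (Ring.choose (v i / w i) (b : ℕ)).natAbs ≤ (n + 1) ^ (b : ℕ) := by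
          zify
          exact h
        calc (Ring.choose (v i / w i) (b : ℕ)).natAbs ≤ (n + 1) ^ (b : ℕ) := h'
          _ ≤ (n + 1) ^ (α.val + W + 2) := Nat.pow_le_pow_right hn1 (by have := b.2; omega)
          _ ≤ (α.val + W + 2) * (n + 1) ^ (α.val + W + 2) := Nat.le_mul_of_pos_left _ (by omega)
      · simp only [Sum.elim_inr, Pi.sub_apply, Pi.smul_apply, smul_eq_mul]
        have hwl : (w l).natAbs ≤ W := Finset.single_le_sum (f := fun l => (w l).natAbs)
          (fun _ _ => Nat.zero_le _) (Finset.mem_univ l)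
        have h1 : (v l - v i / w i * w l).natAbs ≤ (v l).natAbs + (v i / w i).natAbs * (w l).natAbs := by
          calc (v l - v i / w i * w l).natAbs ≤ (v l).natAbs + (v i / w i * w l).natAbs :=
                Int.natAbs_sub_le _ _
            _ = _ := by rw [Int.natAbs_mul]
        have h2 : (v l).natAbs ≤ n := by have := hv l; zify; exact this
        have h3 : (v i / w i).natAbs ≤ n := by zify; exact hq
        calc (v l - v i / w i * w l).natAbs ≤ (v l).natAbs + (v i / w i).natAbs * (w l).natAbs := h1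
          _ ≤ n + n * W := add_le_add h2 (Nat.mul_le_mul h3 hwl)
          _ ≤ (α.val + W + 2) * (n + 1) := by nlinarith
          _ ≤ (α.val + W + 2) * (n + 1) ^ (α.val + W + 2) :=
            Nat.mul_le_mul_left _ (Nat.le_self_pow (by omega) _)
    · rintro ⟨s, hs⟩ l
      exact t3_Lin.proj (Sum.inr l)
    · rintro ⟨s, hs⟩ κ
      exact t3_Lin.smul _ (t3_Lin.proj (Sum.inl (⟨α.val, by omega⟩ : Fin (α.val + 1))))
  refine (QL_forall e _ hα).congr (fun I => ?_)
  rw [cyc_moments w i hw e (spM I)]
  have hkey : ∀ (α : ℕ) (c : Fin m → ℤ),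
      (((posM 0 I).filter (fun x => decide (x.1 - (x.1 i / w i) • w = c))).map
        (fun x => (if x.2 = 0 then (1 : ℤ) else -1) * Ring.choose (x.1 i / w i) α)).sum =
      ∑ v ∈ (spM I).coeff.support.filter (fun v => v - (v i / w i) • w = c),
        (spM I).coeff v * Ring.choose (v i / w i) α := by
    intro α c
    rw [t3_filter_sum, Finset.sum_filter]
    have h := spM_sum I (fun v => if v - (v i / w i) • w = c then Ring.choose (v i / w i) α else 0)
    calc _ = ((posM 0 I).map (fun x => (if x.2 = 0 then (1 : ℤ) else -1) *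
          (fun v : Fin m → ℤ => if v - (v i / w i) • w = c then Ring.choose (v i / w i) α else 0)
            x.1)).sum := by
          congr 1
          apply List.map_congr_left
          intro x _
          by_cases hx : x.1 - (x.1 i / w i) • w = c
          · simp
          · simp
      _ = _ := h
      _ = _ := by
          refine Finset.sum_congr rfl (fun v _ => ?_)
          by_cases hx : v - (v i / w i) • w = c
          · simp
          · simp
  constructor
  · intro h c α hα
    have := h ⟨α, hα⟩ c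
    rw [hkey] at this
    simpa using this
  · intro h α c
    rw [hkey, h c α.val α.2]
    simp

end t3

theorem QL_cyc {m : ℕ} (w : Fin m → ℤ) (hw : w ≠ 0) (e : ℕ) :
    QL (fun I : List (IM m 2) => (mo w - 1) ^ e ∣ spM I) := by
  obtain ⟨i, hi⟩ : ∃ i, w i ≠ 0 := by
    by_contra h
    push Not at h
    exact hw (funext h)
  rcases lt_or_gt_of_ne hi with h | h
  · have h1 : 0 < (-w) i := by simpa using h
    refine (t3_main (-w) i h1 e).congr (fun I => ?_)
    have e1 : (mo (-w) - 1 : LM m) = -(mo (-w)) * (mo w - 1) := by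
      have : (mo (-w) : LM m) * mo w = 1 := by
        rw [← mo_add, neg_add_cancel, mo_zero]
      linear_combination this
    have hu : IsUnit ((-(mo (-w)) : LM m) ^ e) := ((mo_unit (-w)).neg).pow e
    rw [e1, mul_pow]
    exact hu.mul_left_dvd
  · exact t3_main w i h e

end Pool.Agent.WQL
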