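import Pool.Agent.Lib.MP_2da099_lc.QL.T1
import Pool.Agent.Lib.MP_2da099_lc.QL.T3
import Pool.Agent.Lib.MP_2da099_lc.QL.L02
import Pool.Agent.Lib.MP_2da099_lc.QL.L05
import Pool.Agent.Lib.MP_2da099_lc.QL.L07
import Pool.Agent.Lib.MP_2da099_lc.QL.L08
import Pool.Agent.Lib.MP_2da099_lc.QL.Q12
import Pool.Agent.Lib.MP_2da099_lc.QL.R1

/-!
# T4: all primes.

(i) `h ∣ n`, `n ≠ 0` an integer: `h` divides a prime number `p`; `p` is prime in `LM m` (the quotient is
`AddMonoidAlgebra (ZMod p)`, a domain; or coefficientwise) so `h` and `p` are associated; `QL_int (p ^ e)`.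
(ii) `h ∣ mo w - 1`, `w ≠ 0`: `mo w - 1 = h g`, `h ^ e ∣ F ↔ (mo w - 1) ^ e ∣ F * g ^ e`; `exists_substM` with
`b = ![g ^ e, - g ^ e]`, `QL_cyc`, `QL.flatMap`.
(iii) otherwise `nbM` or `nbFlat`, `round_iff`, `QL_B` with `F = spM I`, `n = I.length` (`nrm_spM`, `posM_bound`,
`spM_support`).
-/

set_option autoImplicit false

namespace Pool.Agent.WQL

open Pool.Agent.Lib.PolyTime Pool.Agent.WPM Pool.Agent.WPR Function

theorem t4_div {m : ℕ} (E : ℕ) (y : LM m) (h : ∀ c, ((y.coeff c : ℤ) : ZMod E) = 0) : (E : LM m) ∣ y := by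
  refine ⟨AddMonoidAlgebra.ofCoeff (y.coeff.mapRange (fun z => z / (E : ℤ)) (by simp)), ?_⟩
  symm
  rw [← nsmul_eq_mul]
  apply AddMonoidAlgebra.coeff_injective
  rw [AddMonoidAlgebra.coeff_smul]
  ext c
  rw [Finsupp.smul_apply, AddMonoidAlgebra.coeff_ofCoeff, Finsupp.mapRange_apply, nsmul_eq_mul]
  exact Int.mul_ediv_cancel' ((ZMod.intCast_zmod_eq_zero_iff_dvd _ _).mp (h c))

theorem t4_prime_nat {m p : ℕ} (hp : p.Prime) : Prime ((p : ℕ) : LM m) := by
  have : Fact p.Prime := ⟨hp⟩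
  let φ : LM m →+* AddMonoidAlgebra (ZMod p) (Fin m → ℤ) :=
    AddMonoidAlgebra.mapRingHom (Fin m → ℤ) (Int.castRingHom (ZMod p))
  have hφ : ∀ y, φ y = 0 → (p : LM m) ∣ y := fun y hy => t4_div p y fun c => by
    have h1 : (φ y).coeff c = ((y.coeff c : ℤ) : ZMod p) :=
      AddMonoidAlgebra.coeff_mapRingHom (Int.castRingHom (ZMod p)) y c
    rw [← h1, hy]
    rfl
  have hφp : φ (p : LM m) = 0 := by
    rw [map_natCast]
    have h1 : ((p : ℕ) : AddMonoidAlgebra (ZMod p) (Fin m → ℤ)) =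
        algebraMap (ZMod p) (AddMonoidAlgebra (ZMod p) (Fin m → ℤ)) (p : ZMod p) := by
      rw [map_natCast]
    rw [h1, ZMod.natCast_self, map_zero]
  refine ⟨?_, ?_, ?_⟩
  · intro h0
    have h1 : ((p : ℕ) : LM m).coeff 0 = (p : ℤ) := by
      rw [AddMonoidAlgebra.coeff_natCast, Finsupp.single_apply, if_pos rfl]
    rw [h0] at h1
    have h2 : (0 : ℤ) = (p : ℤ) := h1
    exact hp.ne_zero (by exact_mod_cast h2.symm)
  · intro h
    have h1 := h.map φ
    rw [hφp] at h1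
    exact not_isUnit_zero h1
  · intro a b hab
    have h1 : φ a * φ b = 0 := by
      obtain ⟨c, hc⟩ := hab
      rw [← map_mul, hc, map_mul, hφp, zero_mul]
    rcases mul_eq_zero.1 h1 with h | h
    · exact Or.inl (hφ a h)
    · exact Or.inr (hφ b h)

theorem t4_int {m : ℕ} {h : LM m} (hp : Prime h) {n : ℤ} (hn : n ≠ 0) (hd : h ∣ (n : LM m)) :
    ∃ p : ℕ, Associated h ((p : ℕ) : LM m) := by
  have h1 : ∀ k : ℕ, k ≠ 0 → h ∣ ((k : ℕ) : LM m) → ∃ p : ℕ, p.Prime ∧ h ∣ ((p : ℕ) : LM m) := by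
    intro k
    induction k using Nat.strong_induction_on with
    | _ k ih =>
      intro hk hdk
      have hk1 : k ≠ 1 := by
        rintro rfl
        rw [Nat.cast_one] at hdk
        exact hp.not_unit (isUnit_of_dvd_one hdk)
      obtain ⟨q, hq, l, rfl⟩ := Nat.exists_prime_and_dvd hk1
      rw [Nat.cast_mul] at hdk
      rcases hp.dvd_or_dvd hdk with h2 | h2
      · exact ⟨q, hq, h2⟩
      · have hl : l ≠ 0 := fun h0 => hk (by rw [h0, mul_zero])
        refine ih l ?_ hl h2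
        have := hq.two_le
        have : 0 < l := Nat.pos_of_ne_zero hl
        nlinarith
  have h2 : h ∣ ((n.natAbs : ℕ) : LM m) := by
    rcases Int.natAbs_eq n with h3 | h3
    · rw [h3] at hd
      simpa using hd
    · rw [h3, Int.cast_neg, dvd_neg] at hd
      simpa using hd
  obtain ⟨p, hpp, hhp⟩ := h1 n.natAbs (Int.natAbs_ne_zero.2 hn) h2
  exact ⟨p, hp.associated_of_dvd (t4_prime_nat hpp) hhp⟩

theorem QL_prime {m : ℕ} (h : LM m) (hp : Prime h) (e : ℕ) :
    QL (fun I : List (IM m 2) => h ^ e ∣ spM I) := by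
  have hdom : IsDomain (LM m) := domain_LM m
  by_cases hint : ∀ n : ℤ, n ≠ 0 → ¬ h ∣ (n : LM m)
  swap
  · push Not at hint
    obtain ⟨n, hn, hd⟩ := hint
    obtain ⟨p, hpa⟩ := t4_int hp hn hd
    refine QL.congr (QL_int (m := m) (p ^ e)) fun I => ?_
    rw [Nat.cast_pow]
    exact (hpa.pow_pow (n := e)).symm.dvd_iff_dvd_left
  by_cases hcyc : ∀ w : Fin m → ℤ, w ≠ 0 → ¬ h ∣ mo w - 1
  swap
  · push Not at hcyc
    obtain ⟨w, hw, g, hg⟩ := hcyc
    have hw0 : (mo w - 1 : LM m) ≠ 0 := by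
      intro h0
      have h1 : (mo w : LM m) = mo 0 := by rw [mo_zero]; exact sub_eq_zero.1 h0
      have h2 := congrArg (fun F : LM m => F.coeff w) h1
      have h3 : (mo w : LM m).coeff w = 1 := by
        unfold mo
        rw [AddMonoidAlgebra.coeff_single, Finsupp.single_apply, if_pos rfl]
      have h4 : (mo 0 : LM m).coeff w = 0 := by
        unfold mo
        rw [AddMonoidAlgebra.coeff_single, Finsupp.single_apply, if_neg (Ne.symm hw)]
      simp only [h3, h4] at h2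
      exact one_ne_zero h2
    have hg0 : g ≠ 0 := by
      rintro rfl
      rw [mul_zero] at hg
      exact hw0 hg
    obtain ⟨f, hf⟩ := exists_substM (k := 2) (![g ^ e, - g ^ e] : Fin 2 → LM m)
    refine QL.congr ((QL_cyc w hw e).flatMap f) fun I => ?_
    rw [hf, Fin.sum_univ_two]
    have h1 : vcM I 0 * (![g ^ e, - g ^ e] : Fin 2 → LM m) 0 + vcM I 1 * (![g ^ e, - g ^ e] : Fin 2 → LM m) 1 =
        spM I * g ^ e := by
      unfold spM
      simp only [Matrix.cons_val_zero, Matrix.cons_val_one]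
      ring
    rw [h1, hg, mul_pow]
    exact mul_dvd_mul_iff_right (pow_ne_zero e hg0)
  have hdl : ∃ N0 : ℕ, ∀ N, N0 ≤ N → ¬ h ∣ dl N h := by
    by_cases hflat : FlatM h.coeff.support
    · exact ⟨2, nbFlat h hp hint hcyc hflat⟩
    · exact nbM h hp hflat
  obtain ⟨p, D, S, T, r, c, hp2, hr⟩ := round_iff h hp hdl e
  have : Fact (2 ≤ p) := ⟨hp2⟩
  obtain ⟨κ, hκ, hQ⟩ := QL_B p D S T r (h ^ e) c
  refine hQ.congr fun I => ?_
  refine (hr I.length (κ I.length) (spM I) (nrm_spM I) ?_ (hκ _)).symm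
  intro v hv i
  obtain ⟨x, hx, rfl⟩ := spM_support I v hv
  exact posM_bound I x hx i

end Pool.Agent.WQL
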