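import Pool.Agent.Lib.MP_2da099_lc.QL.L01
import Mathlib.GroupTheory.FiniteAbelian.Basic
import Mathlib.RingTheory.Binomial
import Mathlib.Algebra.BigOperators.Ring.Finset
import Mathlib.RingTheory.Ideal.Quotient.Basic
import Mathlib.LinearAlgebra.Quotient.Basic

/-!
# L11: quasi-unipotent modules.

`W = (Fin k → LM m) ⧸ Q`.  For `v` with `v j = ρ j + d q j`, `0 ≤ ρ j < d`: modulo `Q`,
`mo v • x = Σ_{α : Fin m → Fin K} Π_j choose (q j) (α j) • (mo ρ * Π_j (mo (d e_j) - 1) ^ (α j)) • x`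
(`(1 + N) ^ q = Σ_{a < K} choose q a N ^ a` if `N ^ K` acts as 0, for all `q ∈ ℤ`; induction on `q` in both directions,
`Ring.choose` over `ℤ`).  So `W` is generated as an abelian group by finitely many elements
(`0 ≤ ρ j < d`, `α`, basis vectors); by the structure of finitely generated abelian groups
(`AddCommGroup.equiv_free_prod_directSum_zmod`) there are additive maps `χ l : W → ZMod (E l)` (`E l = 0` for
`ℤ`), `l < t`, with `w = 0 ↔ ∀ l, χ l w = 0`.
-/

set_option autoImplicit false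

namespace Pool.Agent.WQL

open Pool.Agent.Lib.PolyTime Pool.Agent.WPM Pool.Agent.WPR Function

theorem l11_step {R : Type*} [CommRing R] (N : R) (q : ℤ) (K : ℕ) :
    (1 + N) * ∑ a ∈ Finset.range (K + 1), ((Ring.choose q a : ℤ) : R) * N ^ a =
      ∑ a ∈ Finset.range (K + 1), ((Ring.choose (q + 1) a : ℤ) : R) * N ^ a +
        ((Ring.choose q K : ℤ) : R) * N ^ (K + 1) := by
  induction K with
  | zero => simp
  | succ K ih =>
    rw [Finset.sum_range_succ, mul_add, ih, Finset.sum_range_succ (n := K + 1),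
      Ring.choose_succ_succ]
    push_cast
    ring

theorem l11_newton {R : Type*} [CommRing R] (u : Rˣ) (K : ℕ) (hN : ((u : R) - 1) ^ K = 0) (q : ℤ) :
    ((u ^ q : Rˣ) : R) = ∑ a ∈ Finset.range K, ((Ring.choose q a : ℤ) : R) * ((u : R) - 1) ^ a := by
  cases K with
  | zero =>
    rw [pow_zero] at hN
    have : Subsingleton R := subsingleton_of_zero_eq_one hN.symm
    exact Subsingleton.elim _ _
  | succ K =>
    have hs : ∀ q : ℤ, (u : R) * ∑ a ∈ Finset.range (K + 1), ((Ring.choose q a : ℤ) : R) * ((u : R) - 1) ^ a =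
        ∑ a ∈ Finset.range (K + 1), ((Ring.choose (q + 1) a : ℤ) : R) * ((u : R) - 1) ^ a := by
      intro q
      have h := l11_step ((u : R) - 1) q K
      rw [hN, mul_zero, add_zero, add_sub_cancel] at h
      exact h
    induction q using Int.induction_on with
    | zero =>
      rw [zpow_zero, Finset.sum_range_succ', Ring.choose_zero_right, Finset.sum_eq_zero]
      · simp
      · intro a _
        rw [Ring.choose_zero_succ]
        simp
    | succ q ih =>
      rw [zpow_add_one, Units.val_mul, ih, mul_comm, hs]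
    | pred q ih =>
      have h := hs (-(q : ℤ) - 1)
      rw [sub_add_cancel, ← ih] at h
      rw [zpow_sub_one, Units.val_mul, ← h, mul_comm (u : R), mul_assoc, Units.mul_inv, mul_one]

theorem l11_fg (W : Type*) [AddCommGroup W] [AddGroup.FG W] :
    ∃ (t : ℕ) (E : Fin t → ℕ) (χ : ∀ l : Fin t, W →+ ZMod (E l)), ∀ w, w = 0 ↔ ∀ l, χ l w = 0 := by
  classical
  obtain ⟨n, ι, fι, p, hp, e, ⟨φ⟩⟩ := AddCommGroup.equiv_free_prod_directSum_zmod W
  have key : ∃ (χ : ∀ l : Fin n ⊕ ι, W →+ ZMod (Sum.elim (fun _ => 0) (fun i => p i ^ e i) l)),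
      ∀ w, w = 0 ↔ ∀ l, χ l w = 0 := by
    refine ⟨fun l => match l with
      | Sum.inl i => (Int.castAddHom (ZMod 0)).comp ((Finsupp.applyAddHom i).comp
          ((AddMonoidHom.fst _ _).comp φ.toAddMonoidHom))
      | Sum.inr i => (DirectSum.component ℤ ι (fun i => ZMod (p i ^ e i)) i).toAddMonoidHom.comp
          ((AddMonoidHom.snd _ _).comp φ.toAddMonoidHom), fun w => ?_⟩
    constructor
    · rintro rfl l
      exact map_zero _
    · intro h
      apply φ.injective
      rw [map_zero]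
      refine Prod.ext ?_ ?_
      · ext i
        have h1 : (((φ w).1 i : ℤ) : ZMod 0) = 0 := h (Sum.inl i)
        exact h1
      · refine DFinsupp.ext (fun i => ?_)
        exact h (Sum.inr i)
  obtain ⟨χ, hχ⟩ := key
  let σ := (Fintype.equivFin (Fin n ⊕ ι)).symm
  refine ⟨Fintype.card (Fin n ⊕ ι), fun l => Sum.elim (fun _ => 0) (fun i => p i ^ e i) (σ l),
    fun l => χ (σ l), fun w => ?_⟩
  rw [hχ]
  exact ⟨fun h l => h _, fun h l => by
    obtain ⟨l', rfl⟩ := σ.surjective l
    exact h l'⟩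

theorem l11_expand {m : ℕ} (d K : ℕ) (I : Ideal (LM m))
    (hI : ∀ i : Fin m, (mo (Pi.single i (d : ℤ)) - 1) ^ K ∈ I) (v : Fin m → ℤ) :
    mo v - ∑ α : Fin m → Fin K, ((∏ j, Ring.choose (v j / (d : ℤ)) (α j : ℕ) : ℤ) : LM m) *
      (mo (fun j => v j % (d : ℤ)) * ∏ j, (mo (Pi.single j (d : ℤ)) - 1) ^ (α j : ℕ)) ∈ I := by
  rw [← Ideal.Quotient.eq_zero_iff_mem, map_sub, sub_eq_zero]
  set π := Ideal.Quotient.mk I
  let U : Multiplicative (Fin m → ℤ) →* (LM m ⧸ I)ˣ :=
    ((π : LM m →* LM m ⧸ I).comp (AddMonoidAlgebra.of ℤ (Fin m → ℤ))).toHomUnits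
  have hU : ∀ w : Fin m → ℤ, ((U (Multiplicative.ofAdd w) : (LM m ⧸ I)ˣ) : LM m ⧸ I) =
      π (mo w) := fun w => rfl
  have hv : v = (fun j => v j % (d : ℤ)) + ∑ j, (v j / (d : ℤ)) • (Pi.single j (d : ℤ)) := by
    funext i
    rw [Pi.add_apply, Finset.sum_apply, Finset.sum_eq_single i]
    · rw [Pi.smul_apply, Pi.single_eq_same, smul_eq_mul, mul_comm]
      exact (Int.emod_add_mul_ediv _ _).symm
    · intro j _ hj
      rw [Pi.smul_apply, Pi.single_eq_of_ne hj.symm, smul_zero]
    · intro h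
      exact absurd (Finset.mem_univ _) h
  have h1 : π (mo v) = π (mo (fun j => v j % (d : ℤ))) *
      ∏ j, ∑ a : Fin K, ((Ring.choose (v j / (d : ℤ)) (a : ℕ) : ℤ) : LM m ⧸ I) *
        (π (mo (Pi.single j (d : ℤ))) - 1) ^ (a : ℕ) := by
    rw [← hU v]
    conv_lhs => rw [hv]
    rw [ofAdd_add, ofAdd_sum, map_mul, map_prod, Units.val_mul, hU]
    congr 1
    rw [Units.coe_prod]
    refine Finset.prod_congr rfl (fun j _ => ?_)
    rw [ofAdd_zsmul, map_zpow, l11_newton _ K, Finset.sum_range]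
    · rfl
    · rw [hU, ← map_one π, ← map_sub, ← map_pow, Ideal.Quotient.eq_zero_iff_mem]
      exact hI j
  rw [h1, Fintype.prod_sum, Finset.mul_sum, map_sum]
  refine Finset.sum_congr rfl (fun α _ => ?_)
  rw [Finset.prod_mul_distrib, map_mul, map_mul, map_prod, map_intCast]
  push_cast
  simp only [map_pow, map_sub, map_one]
  ring

theorem unip_tests {m k : ℕ} (Q : Submodule (LM m) (Fin k → LM m)) (d K : ℕ) (hd : 0 < d)
    (hQ : ∀ (i : Fin m) (x : Fin k → LM m), (mo (Pi.single i (d : ℤ)) - 1) ^ K • x ∈ Q) :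
    ∃ (t : ℕ) (E : Fin t → ℕ) (a : Fin t → Fin k → (Fin m → ℤ) → (Fin m → Fin K) → ℤ),
      ∀ I : List (IM m k), vcM I ∈ Q ↔ ∀ l, (E l : ℤ) ∣ ((posM 0 I).map (fun x =>
        ∑ α : Fin m → Fin K, a l x.2 (fun j => x.1 j % (d : ℤ)) α *
          ∏ j, Ring.choose (x.1 j / (d : ℤ)) (α j : ℕ))).sum := by
  classical
  let W := (Fin k → LM m) ⧸ Q
  let J : Ideal (LM m) := Ideal.span (Set.range (fun i : Fin m => (mo (Pi.single i (d : ℤ)) - 1) ^ K))
  have hJ : ∀ f ∈ J, ∀ x : Fin k → LM m, f • x ∈ Q := by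
    intro f hf x
    refine Submodule.span_induction (p := fun f _ => f • x ∈ Q) ?_ ?_ ?_ ?_ hf
    · rintro _ ⟨i, rfl⟩
      exact hQ i x
    · rw [zero_smul]
      exact Q.zero_mem
    · intro f g _ _ hf hg
      rw [add_smul]
      exact Q.add_mem hf hg
    · intro c f _ hf
      rw [smul_eq_mul, mul_smul]
      exact Q.smul_mem c hf
  -- the generators
  let g : Fin k → (Fin m → ℤ) → (Fin m → Fin K) → W := fun κ ρ α =>
    Q.mkQ ((mo ρ * ∏ j, (mo (Pi.single j (d : ℤ)) - 1) ^ (α j : ℕ)) • Pi.single κ (1 : LM m))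
  have hexp : ∀ (v : Fin m → ℤ) (κ : Fin k), mo v • Q.mkQ (Pi.single κ (1 : LM m)) =
      ∑ α : Fin m → Fin K, (∏ j, Ring.choose (v j / (d : ℤ)) (α j : ℕ) : ℤ) •
        g κ (fun j => v j % (d : ℤ)) α := by
    intro v κ
    have h := hJ _ (l11_expand d K J (fun i => Ideal.subset_span ⟨i, rfl⟩) v)
      (Pi.single κ (1 : LM m))
    rw [← Submodule.Quotient.mk_eq_zero, ← Submodule.mkQ_apply, sub_smul, map_sub, sub_eq_zero,
      Finset.sum_smul, map_sum, map_smul] at h
    rw [h]
    refine Finset.sum_congr rfl (fun α _ => ?_)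
    rw [mul_smul, map_smul, Int.cast_smul_eq_zsmul]
  have hfg : AddGroup.FG W := by
    rw [← Module.Finite.iff_addGroup_fg]
    let gen : Fin k × (Fin m → Fin d) × (Fin m → Fin K) → W :=
      fun y => g y.1 (fun j => ((y.2.1 j : ℕ) : ℤ)) y.2.2
    have h1 : ∀ (v : Fin m → ℤ) (κ : Fin k), mo v • Q.mkQ (Pi.single κ (1 : LM m)) ∈
        Submodule.span ℤ (Set.range gen) := by
      intro v κ
      rw [hexp]
      refine Submodule.sum_mem _ (fun α _ => Submodule.smul_mem _ _ (Submodule.subset_span ?_))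
      have hd' : (d : ℤ) ≠ 0 := by exact_mod_cast hd.ne'
      refine ⟨(κ, fun j => ⟨(v j % (d : ℤ)).toNat, ?_⟩, α), ?_⟩
      · have h2 := Int.emod_nonneg (v j) hd'
        have h3 := Int.emod_lt_of_pos (v j) (b := (d : ℤ)) (by exact_mod_cast hd)
        omega
      · simp only [gen]
        congr 1
        funext j
        exact Int.toNat_of_nonneg (Int.emod_nonneg (v j) hd')
    have h2 : ∀ (f : LM m) (κ : Fin k), f • Q.mkQ (Pi.single κ (1 : LM m)) ∈
        Submodule.span ℤ (Set.range gen) := by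
      intro f κ
      induction f using AddMonoidAlgebra.induction_linear with
      | zero =>
        rw [zero_smul]
        exact Submodule.zero_mem _
      | add f g hf hg =>
        rw [add_smul]
        exact Submodule.add_mem _ hf hg
      | single v c =>
        have h3 : (AddMonoidAlgebra.single v c : LM m) = c • mo v := by
          rw [mo, AddMonoidAlgebra.smul_single, smul_eq_mul, mul_one]
        rw [h3, smul_assoc]
        exact Submodule.smul_mem _ _ (h1 v κ)
    refine ⟨⟨Finset.univ.image gen, ?_⟩⟩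
    rw [Finset.coe_image, Finset.coe_univ, Set.image_univ, eq_top_iff]
    intro w _
    obtain ⟨F, rfl⟩ := Q.mkQ_surjective w
    have hF : F = ∑ κ, F κ • Pi.single κ (1 : LM m) := by
      funext i
      rw [Finset.sum_apply, Finset.sum_eq_single i]
      · rw [Pi.smul_apply, Pi.single_eq_same, smul_eq_mul, mul_one]
      · intro j _ hj
        rw [Pi.smul_apply, Pi.single_eq_of_ne hj.symm, smul_zero]
      · intro h
        exact absurd (Finset.mem_univ _) h
    rw [hF, map_sum]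
    refine Submodule.sum_mem _ (fun κ _ => ?_)
    rw [map_smul]
    exact h2 _ _
  obtain ⟨t, E, χ, hχ⟩ := l11_fg W
  choose a ha using fun (l : Fin t) (κ : Fin k) (ρ : Fin m → ℤ) (α : Fin m → Fin K) =>
    ZMod.intCast_surjective (χ l (g κ ρ α))
  refine ⟨t, E, a, fun I => ?_⟩
  have hvec : vcM I = ∑ κ, vcM I κ • Pi.single κ (1 : LM m) := by
    funext i
    rw [Finset.sum_apply, Finset.sum_eq_single i]
    · rw [Pi.smul_apply, Pi.single_eq_same, smul_eq_mul, mul_one]
    · intro j _ hj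
      rw [Pi.smul_apply, Pi.single_eq_of_ne hj.symm, smul_zero]
    · intro h
      exact absurd (Finset.mem_univ _) h
  have hcls : Q.mkQ (vcM I) = ((posM 0 I).map
      (fun x => mo x.1 • Q.mkQ (Pi.single x.2 (1 : LM m)))).sum := by
    rw [← sum_vcM_smul (fun κ => Q.mkQ (Pi.single κ (1 : LM m)))]
    conv_lhs => rw [hvec, map_sum]
    exact Finset.sum_congr rfl (fun κ _ => by rw [map_smul])
  rw [← Submodule.Quotient.mk_eq_zero, ← Submodule.mkQ_apply, hχ]
  refine forall_congr' (fun l => ?_)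
  rw [← CharP.intCast_eq_zero_iff (ZMod (E l)) (E l), hcls, map_list_sum, List.map_map,
    Int.cast_list_sum, List.map_map]
  have : (χ l ∘ fun x : (Fin m → ℤ) × Fin k => mo x.1 • Q.mkQ (Pi.single x.2 (1 : LM m))) =
      (Int.cast ∘ fun x : (Fin m → ℤ) × Fin k =>
        ∑ α : Fin m → Fin K, a l x.2 (fun j => x.1 j % (d : ℤ)) α *
          ∏ j, Ring.choose (x.1 j / (d : ℤ)) (α j : ℕ)) := by
    funext x
    simp only [Function.comp_apply]
    rw [hexp, map_sum, Int.cast_sum]
    refine Finset.sum_congr rfl (fun α _ => ?_)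
    rw [map_zsmul, Int.cast_mul, ha, zsmul_eq_mul, mul_comm]
  rw [this]

end Pool.Agent.WQL
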