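import Pool.Agent.Lib.MP_2da099_lc.QL.Q09
import Pool.Agent.Lib.MP_2da099_lc.QL.L11

/-!
# T5: quasi-unipotent modules.

`unip_tests`, `QL_forall` over `l`; `QL_chart` with `σ = Fin m → Fin d` (residues), `X v` = the list over
`α : Fin m → Fin K` of `Π_j choose (v j / d) (α j)`, `key v = []` (`rows = []`), `val κ v` = the sum over `α`;
a move along `j` changes the residue or `q j` by `± 1`: `choose (q + 1) a = choose q a + choose q (a - 1)`, and
`choose (q - 1) a` is a linear combination of the `choose q b`, `b ≤ a`.
-/

set_option autoImplicit false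

namespace Pool.Agent.WQL

open Pool.Agent.Lib.PolyTime Pool.Agent.WPM Pool.Agent.WPR Function

private theorem t05_dt {α : Type} (L : List α) (f g : α → ℤ) :
    dt (L.map f) (L.map g) = (L.map (fun x => f x * g x)).sum := by
  induction L with
  | nil => simp [dt]
  | cons x L ih =>
    simp only [dt, List.map_cons, List.zipWith_cons_cons, List.sum_cons] at ih ⊢
    rw [ih]

private theorem t05_sum {α : Type} [Fintype α] (f : α → ℤ) :
    (((Finset.univ : Finset α).toList).map f).sum = ∑ x, f x := by
  rw [Finset.sum_map_toList]

private theorem t05_down (a : ℕ) : ∃ c : ℕ → ℤ, ∀ q : ℤ,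
    Ring.choose (q - 1) a = ∑ b ∈ Finset.range (a + 1), c b * Ring.choose q b := by
  induction a with
  | zero =>
    refine ⟨fun _ => 1, fun q => ?_⟩
    simp
  | succ a ih =>
    obtain ⟨c, hc⟩ := ih
    refine ⟨fun b => if b = a + 1 then 1 else - c b, fun q => ?_⟩
    have e := Ring.choose_succ_succ (q - 1) a
    rw [sub_add_cancel] at e
    rw [Finset.sum_range_succ]
    have e0 : (fun b => if b = a + 1 then (1 : ℤ) else - c b) (a + 1) = 1 := by simp
    rw [e0, one_mul]
    have e2 : ∑ b ∈ Finset.range (a + 1), (if b = a + 1 then (1 : ℤ) else - c b) * Ring.choose q b =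
        - ∑ b ∈ Finset.range (a + 1), c b * Ring.choose q b := by
      rw [← Finset.sum_neg_distrib]
      refine Finset.sum_congr rfl fun b hb => ?_
      have : b ≠ a + 1 := by
        have := Finset.mem_range.1 hb
        omega
      rw [if_neg this]
      ring
    rw [← hc q] at e2
    have e3 : ∑ x ∈ Finset.range (a + 1), (fun b => if b = a + 1 then (1 : ℤ) else - c b) x *
        Ring.choose q x = - Ring.choose (q - 1) a := e2
    rw [e3, e]
    ring

private theorem t05_one (K : ℕ) (b : Bool) : ∃ c : Fin K → Fin K → ℤ, ∀ (q : ℤ) (a : Fin K),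
    Ring.choose (q + (if b then 1 else -1)) (a : ℕ) = ∑ x, c a x * Ring.choose q (x : ℕ) := by
  cases b with
  | true =>
    refine ⟨fun a x => (if (x : ℕ) = a then 1 else 0) + (if (x : ℕ) + 1 = a then 1 else 0),
      fun q a => ?_⟩
    simp only [if_true, add_mul, ite_mul, one_mul, zero_mul, Finset.sum_add_distrib]
    have h1 : ∑ x : Fin K, (if (x : ℕ) = a then Ring.choose q (x : ℕ) else 0) =
        Ring.choose q (a : ℕ) := by
      rw [Finset.sum_eq_single a]
      · simp
      · intro x _ hx
        rw [if_neg]
        exact fun h => hx (Fin.ext h)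
      · simp
    rw [h1]
    obtain ⟨a, ha⟩ := a
    cases a with
    | zero =>
      simp
    | succ a =>
      have h2 : ∑ x : Fin K, (if (x : ℕ) + 1 = a + 1 then Ring.choose q (x : ℕ) else 0) =
          Ring.choose q a := by
        rw [Finset.sum_eq_single ⟨a, by omega⟩]
        · simp
        · intro x _ hx
          rw [if_neg]
          intro h
          exact hx (Fin.ext (by simpa using h))
        · simp
      simp only [h2]
      rw [Ring.choose_succ_succ]
      ring
  | false =>
    choose c hc using t05_down
    refine ⟨fun a x => if (x : ℕ) ≤ a then c a x else 0, fun q a => ?_⟩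
    have e : q + (if (false : Bool) = true then 1 else -1) = q - 1 := by
      simp [sub_eq_add_neg]
    rw [e, hc (a : ℕ) q]
    simp only [ite_mul, zero_mul]
    rw [← Fin.sum_univ_eq_sum_range (fun b => c a b * Ring.choose q b)]
    symm
    rw [← Finset.sum_filter]
    refine Finset.sum_bij' (fun x hx => ⟨(x : ℕ), by
        have := (Finset.mem_filter.1 hx).2
        omega⟩) (fun x _ => ⟨(x : ℕ), by
        have := x.2
        have := a.2
        omega⟩) ?_ ?_ ?_ ?_ ?_
    · intro x hx
      simp
    · intro x hx
      simp only [Finset.mem_filter, Finset.mem_univ, true_and]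
      have := x.2
      omega
    · intro x hx
      rfl
    · intro x hx
      rfl
    · intro x hx
      rfl

private theorem t05_prod {m : ℕ} (K : ℕ) (i : Fin m) (b : Bool) :
    ∃ c : (Fin m → Fin K) → (Fin m → Fin K) → ℤ, ∀ (q : Fin m → ℤ) (α : Fin m → Fin K),
      ∏ j, Ring.choose (Function.update q i (q i + (if b then 1 else -1)) j) (α j : ℕ) =
        ∑ β, c α β * ∏ j, Ring.choose (q j) (β j : ℕ) := by
  classical
  obtain ⟨c, hc⟩ := t05_one K b
  refine ⟨fun α β => ∑ x, if Function.update α i x = β then c (α i) x else 0, fun q α => ?_⟩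
  have h1 : ∑ β : Fin m → Fin K, (∑ x, if Function.update α i x = β then c (α i) x else 0) *
      ∏ j, Ring.choose (q j) (β j : ℕ) =
      ∑ x, c (α i) x * ∏ j, Ring.choose (q j) (Function.update α i x j : ℕ) := by
    simp only [Finset.sum_mul, ite_mul, zero_mul]
    rw [Finset.sum_comm]
    refine Finset.sum_congr rfl fun x _ => ?_
    rw [Finset.sum_ite_eq]
    simp
  rw [h1]
  have h2 : ∀ x : Fin K, ∏ j, Ring.choose (q j) (Function.update α i x j : ℕ) =
      Ring.choose (q i) (x : ℕ) * ∏ j ∈ Finset.univ.erase i, Ring.choose (q j) (α j : ℕ) := by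
    intro x
    rw [← Finset.mul_prod_erase Finset.univ _ (Finset.mem_univ i), Function.update_self]
    congr 1
    refine Finset.prod_congr rfl fun j hj => ?_
    rw [Function.update_of_ne (Finset.ne_of_mem_erase hj)]
  have h3 : ∏ j, Ring.choose (Function.update q i (q i + (if b then 1 else -1)) j) (α j : ℕ) =
      Ring.choose (q i + (if b then 1 else -1)) (α i : ℕ) *
        ∏ j ∈ Finset.univ.erase i, Ring.choose (q j) (α j : ℕ) := by
    rw [← Finset.mul_prod_erase Finset.univ _ (Finset.mem_univ i), Function.update_self]
    congr 1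
    refine Finset.prod_congr rfl fun j hj => ?_
    rw [Function.update_of_ne (Finset.ne_of_mem_erase hj)]
  rw [h3, hc, Finset.sum_mul]
  refine Finset.sum_congr rfl fun x _ => ?_
  rw [h2]
  ring

private theorem t05_bound (q : ℤ) (a : ℕ) : |Ring.choose q a| ≤ (|q| + a) ^ a := by
  have e := Ring.descPochhammer_eq_factorial_smul_choose q a
  rw [← Polynomial.eval_eq_smeval, descPochhammer_eval_eq_prod_range] at e
  have h1 : |∏ j ∈ Finset.range a, (q - (j : ℤ))| ≤ (|q| + a) ^ a := by
    rw [Finset.abs_prod]
    calc ∏ j ∈ Finset.range a, |q - (j : ℤ)| ≤ ∏ _j ∈ Finset.range a, (|q| + (a : ℤ)) := by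
          refine Finset.prod_le_prod (fun j _ => abs_nonneg _) fun j hj => ?_
          have h2 : (j : ℤ) < a := by exact_mod_cast Finset.mem_range.1 hj
          have h3 : |q - (j : ℤ)| ≤ |q| + |(j : ℤ)| := abs_sub q (j : ℤ)
          rw [Nat.abs_cast] at h3
          linarith
      _ = (|q| + a) ^ a := by simp
  rw [e, nsmul_eq_mul, abs_mul, Nat.abs_cast] at h1
  have h4 : (1 : ℤ) ≤ (a.factorial : ℤ) := by
    exact_mod_cast Nat.one_le_iff_ne_zero.2 a.factorial_ne_zero
  nlinarith [abs_nonneg (Ring.choose q a)]

theorem QL_unip {m k : ℕ} (Q : Submodule (LM m) (Fin k → LM m)) (d K : ℕ) (hd : 0 < d)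
    (hQ : ∀ (i : Fin m) (x : Fin k → LM m), (mo (Pi.single i (d : ℤ)) - 1) ^ K • x ∈ Q) :
    QL (fun I : List (IM m k) => vcM I ∈ Q) := by
  classical
  obtain ⟨t, E, a, h⟩ := unip_tests Q d K hd hQ
  refine QL.congr (Z := fun I : List (IM m k) => ∀ l : Fin t, (E l : ℤ) ∣ ((posM 0 I).map (fun x =>
        ∑ α : Fin m → Fin K, a l x.2 (fun j => x.1 j % (d : ℤ)) α *
          ∏ j, Ring.choose (x.1 j / (d : ℤ)) (α j : ℕ))).sum) (QL_forall t _ fun l => ?_)
    (fun w => (h w).symm)
  have hd' : (0 : ℤ) < d := by exact_mod_cast hd
  have hdne : (d : ℤ) ≠ 0 := hd'.ne'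
  have hres : ∀ z : ℤ, (z % (d : ℤ)).toNat < d := by
    intro z
    have h1 := Int.emod_nonneg z hdne
    have h2 := Int.emod_lt_of_pos z hd'
    omega
  set L : List (Fin m → Fin K) := (Finset.univ : Finset (Fin m → Fin K)).toList with hL
  set S : (Fin m → ℤ) → (Fin m → Fin d) := fun v j => ⟨(v j % (d : ℤ)).toNat, hres _⟩ with hS
  have hSv : ∀ (v : Fin m → ℤ) (j : Fin m), ((S v j : ℕ) : ℤ) = v j % (d : ℤ) := by
    intro v j
    rw [hS]
    exact Int.toNat_of_nonneg (Int.emod_nonneg _ hdne)
  set g : (Fin m → ℤ) → (Fin m → Fin K) → ℤ := fun q α => ∏ j, Ring.choose (q j) (α j : ℕ) with hg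
  have hchart := QL_chart (m := m) (k := k) (σ := Fin m → Fin d) S
    (fun v => L.map (g (fun j => v j / (d : ℤ)))) L.length (by intro v; simp) ?_ ?_
    (fun _ => []) (fun s => ⟨[], fun v _ => by simp [lm]⟩)
    (fun κ v => ∑ α : Fin m → Fin K, a l κ (fun j => v j % (d : ℤ)) α *
          ∏ j, Ring.choose (v j / (d : ℤ)) (α j : ℕ)) ?_ (E l)
  · refine QL.congr hchart fun I => ?_
    constructor
    · intro hI
      have := hI []
      simpa using this
    · intro hI c
      by_cases hc : ([] : List ℤ) = c
      · simpa [hc] using hI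
      · simp [hc]
  · -- moves
    rintro s ⟨i, b⟩
    -- does the quotient change?
    by_cases hch : (if b then (s i : ℕ) + 1 < d else 0 < (s i : ℕ))
    · -- the quotient does not change
      refine ⟨Function.update s i (if b then ⟨((s i : ℕ) + 1) % d, Nat.mod_lt _ hd⟩
        else ⟨(s i : ℕ) - 1, by have := (s i).2; omega⟩),
        L.map (fun α => L.map (fun β => if α = β then 1 else 0)), fun v hv => ?_⟩
      have hsi : ((s i : ℕ) : ℤ) = v i % (d : ℤ) := by rw [← hv, hSv]
      have hvi := Int.mul_ediv_add_emod (v i) (d : ℤ)
      have hlt := (s i).2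
      have hq : (fun j => (v + stv (i, b)) j / (d : ℤ)) = (fun j => v j / (d : ℤ)) ∧
          S (v + stv (i, b)) = Function.update s i (if b then ⟨((s i : ℕ) + 1) % d, Nat.mod_lt _ hd⟩
            else ⟨(s i : ℕ) - 1, by have := (s i).2; omega⟩) := by
        have key : ∀ (z q r : ℤ), z = (d : ℤ) * q + r → 0 ≤ r → r < d → z / (d : ℤ) = q ∧
            z % (d : ℤ) = r := by
          intro z q r hz h0 h1
          rw [hz]
          constructor
          · rw [Int.add_comm, Int.add_mul_ediv_left _ _ hdne, Int.ediv_eq_zero_of_lt h0 h1, zero_add]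
          · rw [Int.add_comm, Int.add_mul_emod_self_left, Int.emod_eq_of_lt h0 h1]
        have hk : ((v + stv (i, b)) i) / (d : ℤ) = v i / (d : ℤ) ∧
            ((v + stv (i, b)) i) % (d : ℤ) = (s i : ℕ) + (if b then (1 : ℤ) else -1) := by
          apply key
          · simp only [Pi.add_apply, stv, Pi.single_eq_same]
            rw [hsi]
            linarith
          · cases b
            · simp only [Bool.false_eq_true, if_false] at hch ⊢
              omega
            · simp only [if_true] at hch ⊢
              omega
          · cases b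
            · simp only [Bool.false_eq_true, if_false] at hch ⊢
              omega
            · simp only [if_true] at hch ⊢
              omega
        constructor
        · funext j
          by_cases hj : j = i
          · subst hj
            exact hk.1
          · simp [stv, Pi.single_eq_of_ne hj]
        · funext j
          by_cases hj : j = i
          · subst hj
            rw [Function.update_self]
            apply Fin.ext
            have e1 := hSv (v + stv (j, b)) j
            rw [hk.2] at e1
            cases b
            · simp only [Bool.false_eq_true, if_false] at hch e1 ⊢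
              omega
            · simp only [if_true] at hch e1 ⊢
              rw [Nat.mod_eq_of_lt hch]
              omega
          · rw [Function.update_of_ne hj, ← hv]
            apply Fin.ext
            have e1 := hSv (v + stv (i, b)) j
            have e2 := hSv v j
            have e3 : (v + stv (i, b)) j = v j := by simp [stv, Pi.single_eq_of_ne hj]
            rw [e3, ← e2] at e1
            exact_mod_cast e1
      refine ⟨hq.2, ?_⟩
      rw [hq.1]
      simp only [lm, List.map_map]
      refine List.map_congr_left fun α _ => ?_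
      simp only [Function.comp_apply]
      rw [t05_dt, hL, t05_sum]
      simp
    · -- the quotient changes
      obtain ⟨c, hc⟩ := t05_prod K i b
      refine ⟨Function.update s i (if b then ⟨0, hd⟩ else ⟨d - 1, by omega⟩),
        L.map (fun α => L.map (fun β => c α β)), fun v hv => ?_⟩
      have hsi : ((s i : ℕ) : ℤ) = v i % (d : ℤ) := by rw [← hv, hSv]
      have hvi := Int.mul_ediv_add_emod (v i) (d : ℤ)
      have hlt := (s i).2
      have key : ∀ (z q r : ℤ), z = (d : ℤ) * q + r → 0 ≤ r → r < d → z / (d : ℤ) = q ∧
          z % (d : ℤ) = r := by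
        intro z q r hz h0 h1
        rw [hz]
        constructor
        · rw [Int.add_comm, Int.add_mul_ediv_left _ _ hdne, Int.ediv_eq_zero_of_lt h0 h1, zero_add]
        · rw [Int.add_comm, Int.add_mul_emod_self_left, Int.emod_eq_of_lt h0 h1]
      have hk : ((v + stv (i, b)) i) / (d : ℤ) = v i / (d : ℤ) + (if b then 1 else -1) ∧
          ((v + stv (i, b)) i) % (d : ℤ) = (if b then (0 : ℤ) else (d : ℤ) - 1) := by
        apply key
        · simp only [Pi.add_apply, stv, Pi.single_eq_same]
          cases b
          · simp only [Bool.false_eq_true, if_false] at hch ⊢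
            have : ((s i : ℕ) : ℤ) = 0 := by omega
            rw [← hsi, this] at hvi
            linarith
          · simp only [if_true] at hch ⊢
            have : ((s i : ℕ) : ℤ) = (d : ℤ) - 1 := by omega
            rw [← hsi, this] at hvi
            linarith
        · cases b
          · simp only [Bool.false_eq_true, if_false]
            omega
          · simp only [if_true]
            omega
        · cases b
          · simp only [Bool.false_eq_true, if_false]
            omega
          · simp only [if_true]
            omega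
      have hq1 : (fun j => (v + stv (i, b)) j / (d : ℤ)) =
          Function.update (fun j => v j / (d : ℤ)) i (v i / (d : ℤ) + (if b then 1 else -1)) := by
        funext j
        by_cases hj : j = i
        · subst hj
          rw [Function.update_self]
          exact hk.1
        · rw [Function.update_of_ne hj]
          simp [stv, Pi.single_eq_of_ne hj]
      refine ⟨?_, ?_⟩
      · funext j
        by_cases hj : j = i
        · subst hj
          rw [Function.update_self]
          apply Fin.ext
          have e1 := hSv (v + stv (j, b)) j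
          rw [hk.2] at e1
          cases b
          · simp only [Bool.false_eq_true, if_false] at e1 ⊢
            omega
          · simp only [if_true] at e1 ⊢
            omega
        · rw [Function.update_of_ne hj, ← hv]
          apply Fin.ext
          have e1 := hSv (v + stv (i, b)) j
          have e2 := hSv v j
          have e3 : (v + stv (i, b)) j = v j := by simp [stv, Pi.single_eq_of_ne hj]
          rw [e3, ← e2] at e1
          exact_mod_cast e1
      · rw [hq1]
        simp only [lm, List.map_map]
        refine List.map_congr_left fun α _ => ?_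
        simp only [Function.comp_apply]
        rw [t05_dt, hL, t05_sum]
        rw [hg]
        exact hc (fun j => v j / (d : ℤ)) α
  · -- bound
    refine ⟨(K + 1) ^ (K * m) + K * m, fun n v hv y hy => ?_⟩
    rw [List.mem_map] at hy
    obtain ⟨α, -, rfl⟩ := hy
    have h1 : |g (fun j => v j / (d : ℤ)) α| ≤ (((K + 1) * (n + 1)) ^ (K * m) : ℤ) := by
      rw [hg, Finset.abs_prod]
      calc ∏ j, |Ring.choose (v j / (d : ℤ)) (α j : ℕ)|
          ≤ ∏ _j : Fin m, (((K + 1) * (n + 1)) ^ K : ℤ) := by
            refine Finset.prod_le_prod (fun j _ => abs_nonneg _) fun j _ => ?_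
            refine (t05_bound _ _).trans ?_
            have h2 : |v j / (d : ℤ)| ≤ n := (Int.abs_ediv_le_abs _ _).trans (hv j)
            have h3 : ((α j : ℕ) : ℤ) ≤ K := by exact_mod_cast (α j).2.le
            have h4 : (|v j / (d : ℤ)| + ((α j : ℕ) : ℤ)) ≤ (K + 1) * (n + 1) := by
              have : (0 : ℤ) ≤ (K : ℤ) * n := by positivity
              nlinarith
            have h5 : (1 : ℤ) ≤ (K + 1) * (n + 1) := by
              have : (0 : ℤ) ≤ (K : ℤ) * n := by positivity
              nlinarith [Int.natCast_nonneg K, Int.natCast_nonneg n]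
            have h6 : (0 : ℤ) ≤ (|v j / (d : ℤ)| + ((α j : ℕ) : ℤ)) := by positivity
            exact (pow_le_pow_left₀ h6 h4 _).trans (pow_le_pow_right₀ h5 (α j).2.le)
        _ = (((K + 1) * (n + 1)) ^ (K * m) : ℤ) := by
            rw [Finset.prod_const, Finset.card_univ, Fintype.card_fin, ← pow_mul]
    have h7 : (g (fun j => v j / (d : ℤ)) α).natAbs ≤ ((K + 1) * (n + 1)) ^ (K * m) := by
      have : (((g (fun j => v j / (d : ℤ)) α).natAbs : ℕ) : ℤ) ≤
          ((((K + 1) * (n + 1)) ^ (K * m) : ℕ) : ℤ) := by
        rw [Int.natCast_natAbs]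
        push_cast
        exact h1
      exact_mod_cast this
    refine h7.trans ?_
    rw [mul_pow]
    have h8 : (n + 1) ^ (K * m) ≤ (n + 1) ^ ((K + 1) ^ (K * m) + K * m) :=
      Nat.pow_le_pow_right (Nat.succ_pos n) (Nat.le_add_left _ _)
    exact Nat.mul_le_mul (Nat.le_add_right _ _) h8
  · -- values
    intro s κ
    refine ⟨L.map (a l κ (fun j => ((s j : ℕ) : ℤ))), fun v hv => ?_⟩
    rw [t05_dt, hL, t05_sum]
    have e : (fun j => v j % (d : ℤ)) = (fun j => ((s j : ℕ) : ℤ)) := by
      funext j
      rw [← hv, hSv]
    rw [e]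

end Pool.Agent.WQL
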