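import Pool.Agent.Lib.MP_2da099_lc.QL.T1
import Pool.Agent.Lib.MP_2da099_lc.QL.T4
import Pool.Agent.Lib.MP_2da099_lc.QL.T5
import Pool.Agent.Lib.MP_2da099_lc.QL.L02
import Pool.Agent.Lib.MP_2da099_lc.QL.R2
import Pool.Agent.Lib.MP_2da099_lc.QL.R3
import Pool.Agent.Lib.MP_2da099_lc.QL.R4

/-!
# R5: submodules.

`split_module`, `loc_primes` for `N1`, `dvr_tests` for each `h i`; `QL_forall`, `QL.and`, `exists_substM` and
`QL.flatMap` with `QL_int 0` (`0 ∣ F ↔ F = 0`) and `QL_prime`; `QL_unip` for `N2`.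
-/

set_option autoImplicit false

namespace Pool.Agent.WQL

open Pool.Agent.Lib.PolyTime Pool.Agent.WPM Pool.Agent.WPR Function

theorem QL_submodule {m k : ℕ} (N : Submodule (LM m) (Fin k → LM m))
    (hN : ∀ x, (∀ h : LM m, Prime h → ∃ f, ¬ h ∣ f ∧ f • x ∈ N) →
      ∃ d K : ℕ, 0 < d ∧ ∀ i : Fin m, (mo (Pi.single i (d : ℤ)) - 1) ^ K • x ∈ N) :
    QL (fun I : List (IM m k) => vcM I ∈ N) := by
  obtain ⟨N1, N2, d, K, hd, hsp, hN2, hN1⟩ := split_module N hN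
  obtain ⟨s, h, hh, hloc⟩ := loc_primes N1 hN1
  have h2 : QL (fun I : List (IM m k) => vcM I ∈ N2) := QL_unip N2 d K hd hN2
  have h1 : QL (fun I : List (IM m k) => vcM I ∈ N1) := by
    refine QL.congr (Z := fun I : List (IM m k) => ∀ i, ∃ f, ¬ h i ∣ f ∧ f • vcM I ∈ N1) ?_
      fun I => (hloc (vcM I)).symm
    refine QL_forall s (fun i (I : List (IM m k)) => ∃ f, ¬ h i ∣ f ∧ f • vcM I ∈ N1) fun i => ?_
    obtain ⟨a, α, b, e, β, hF⟩ := dvr_tests N1 (h i) (hh i)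
    refine QL.congr (Z := fun I : List (IM m k) => (∀ j, ∑ κ, vcM I κ * α j κ = 0) ∧
      ∀ j, h i ^ e j ∣ ∑ κ, vcM I κ * β j κ) ?_ fun I => (hF (vcM I)).symm
    refine QL.and ?_ ?_
    · refine QL_forall a (fun j (I : List (IM m k)) => ∑ κ, vcM I κ * α j κ = 0) fun j => ?_
      obtain ⟨g, hg⟩ := exists_substM (α j)
      refine QL.congr ((QL_int (m := m) 0).flatMap g) fun I => ?_
      rw [hg, Nat.cast_zero, zero_dvd_iff]
    · refine QL_forall b (fun j (I : List (IM m k)) => h i ^ e j ∣ ∑ κ, vcM I κ * β j κ) fun j => ?_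
      obtain ⟨g, hg⟩ := exists_substM (β j)
      refine QL.congr ((QL_prime (h i) (hh i) (e j)).flatMap g) fun I => ?_
      rw [hg]
  exact QL.congr (h1.and h2) fun I => (hsp (vcM I)).symm

end Pool.Agent.WQL
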