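import Pool.Agent.Lib.MP_2da099_lc.R2.B11
import Pool.Agent.Lib.MP_2da099_lc.ADefs
import Mathlib.RingTheory.Binomial
import Mathlib.GroupTheory.Solvable
import Mathlib.RingTheory.UniqueFactorizationDomain.Basic
import Mathlib.RingTheory.Noetherian.Basic
import Mathlib.Algebra.Polynomial.AlgebraMap

/-!
# Word problems of metabelian groups in quasi-linear time: definitions
-/

set_option autoImplicit false

namespace Pool.Agent.WQL

open Pool.Agent.Lib.PolyTime Pool.Agent.WPM Pool.Agent.WPR

/-! ### Quasi-linear time -/

/-- The logarithm. -/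
def lg (n : ℕ) : ℕ := Nat.log 2 (n + 2)

/-- The predicate `Z` on lists is decided in time `O(n (log n) ^ C)`. -/
def QL {ι : Type} [Enc ι] (Z : List ι → Prop) : Prop :=
  ∃ (f : List ι → Bool) (T : List ι → ℕ) (C : ℕ), CT f T ∧ (∀ w, f w = true ↔ Z w) ∧
    ∀ w, T w ≤ C * (w.length + 1) * lg w.length ^ C

/-- The largest size of an item of a list. -/
def mxs {α : Type} [Enc α] (l : List α) : ℕ := (l.map (fun a => size a)).foldr max 0

open Classical in
/-- The sum of the values with the key `c`. -/
noncomputable def ksum {κ : Type} {β : ℕ} (l : List (κ × ZB β)) (c : κ) : ℤ :=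
  ((l.filter (fun x => decide (x.1 = c))).map (fun x => x.2.val)).sum

/-! ### Linear functions of lists of integers -/

/-- The value of a row at a list of integers. -/
def dt (w x : List ℤ) : ℤ := (List.zipWith (fun a b => a * b) w x).sum

/-- The values of a list of rows. -/
def lm (rows : List (List ℤ)) (x : List ℤ) : List ℤ := rows.map (fun w => dt w x)

/-- The value of a row at a list of encoded integers. -/
def dtz {β : ℕ} (w : List ℤ) (x : List (ZB β)) : ZB β :=
  (List.zipWith (fun (a : ℤ) y => a • y) w x).sum

/-! ### Walks -/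

/-- A finite automaton with a vector of integers: `nx` is the transition, `A` the linear change of the
vector, `out` the outputs (rows for the key, row for the value). -/
structure Walk (ι σ : Type) where
  /-- transition -/
  nx : σ → ι → σ
  /-- linear change of the vector -/
  A : σ → ι → List (List ℤ)
  /-- outputs -/
  out : σ → ι → List (List (List ℤ) × List ℤ)

/-- The list of the outputs. -/
def Walk.run {ι σ : Type} (W : Walk ι σ) {β : ℕ} :
    σ × List (ZB β) → List ι → List (List (ZB β) × ZB β)
  | _, [] => []
  | sx, a :: l => ((W.out sx.1 a).map (fun r => (linMap r.1 sx.2, dtz r.2 sx.2))) ++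
      W.run (W.nx sx.1 a, linMap (W.A sx.1 a) sx.2) l

/-- The cost. -/
noncomputable def Walk.cost {ι σ : Type} (W : Walk ι σ) {β : ℕ} [Fact (2 ≤ β)] :
    σ × List (ZB β) → List ι → ℕ
  | sx, [] => size sx.2
  | sx, a :: l => size sx.2 + 1 + W.cost (W.nx sx.1 a, linMap (W.A sx.1 a) sx.2) l

/-! ### Laurent polynomials in `m` variables -/

/-- Laurent polynomials in `m` variables with integer coefficients. -/
abbrev LM (m : ℕ) : Type := AddMonoidAlgebra ℤ (Fin m → ℤ)

/-- The monomials. -/
noncomputable def mo {m : ℕ} (v : Fin m → ℤ) : LM m := AddMonoidAlgebra.single v 1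

/-- The substitution `Y ^ v ↦ Y ^ (q v)`. -/
noncomputable def dl {m : ℕ} (q : ℕ) : LM m →+* LM m :=
  AddMonoidAlgebra.mapDomainRingHom ℤ (q • AddMonoidHom.id (Fin m → ℤ))

/-- The sum of the absolute values of the coefficients. -/
def nrm {m : ℕ} (F : LM m) : ℕ := ∑ c ∈ F.coeff.support, (F.coeff c).natAbs

/-- All exponents are at most `r` in absolute value. -/
def rdM {m : ℕ} (r : ℕ) (F : LM m) : Prop := ∀ c : Fin m → ℤ, F.coeff c ≠ 0 → ∀ i, |c i| ≤ r

/-! ### Instructions -/

/-- Instructions: `Sum.inl (i, b)`: move by one along the axis `i` (forward if `b`), `Sum.inr κ`: put a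
token of colour `κ`. -/
abbrev IM (m k : ℕ) : Type := (Fin m × Bool) ⊕ Fin k

noncomputable instance encIM (m k : ℕ) : Enc (IM m k) := encFintype _

/-- The vector of a move. -/
def stv {m : ℕ} (a : Fin m × Bool) : Fin m → ℤ := Pi.single a.1 (if a.2 then 1 else -1)

/-- The tokens with their positions. -/
def posM {m k : ℕ} : (Fin m → ℤ) → List (IM m k) → List ((Fin m → ℤ) × Fin k)
  | _, [] => []
  | c, Sum.inl a :: l => posM (c + stv a) l
  | c, Sum.inr κ :: l => (c, κ) :: posM c l

/-- The final position. -/
def endM {m k : ℕ} : (Fin m → ℤ) → List (IM m k) → (Fin m → ℤ)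
  | c, [] => c
  | c, Sum.inl a :: l => endM (c + stv a) l
  | c, Sum.inr _ :: l => endM c l

/-- The vector of Laurent polynomials of a list of instructions. -/
noncomputable def vcM {m k : ℕ} (I : List (IM m k)) : Fin k → LM m :=
  ((posM 0 I).map (fun x => (Pi.single x.2 (mo x.1) : Fin k → LM m))).sum

/-- The Laurent polynomial of a list of instructions with the colours `+1` and `-1`. -/
noncomputable def spM {m : ℕ} (I : List (IM m 2)) : LM m := vcM I 0 - vcM I 1

/-! ### Sparse Laurent polynomials as lists -/

/-- The list of a position, with a leading `1`. -/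
def pl {β m : ℕ} (v : Fin m → ℤ) : List (ZB β) := ZB.mk 1 :: List.ofFn (fun i => ZB.mk (v i))

/-- A sparse vector of `s` Laurent polynomials. -/
abbrev SL (β s : ℕ) : Type := List ((Fin s × List (ZB β)) × ZB β)

/-- The entry `τ` of the vector of Laurent polynomials given by a list: the coefficient at `v` is the sum
of the values with the key `(τ, pl v)`. -/
def den {β s m : ℕ} (l : SL β s) (F : Fin s → LM m) : Prop :=
  ∀ τ v, (F τ).coeff v = ksum l (τ, pl v)

/-- All positions of the list are positions at distance at most `ρ` from a token. -/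
def near {β s m : ℕ} (ρ : ℕ) (I : List (IM m 2)) (l : SL β s) : Prop :=
  ∀ y ∈ l, ∃ v : Fin m → ℤ, y.1.2 = pl v ∧ ∃ z ∈ posM 0 I, ∀ i, |v i - z.1 i| ≤ ρ

/-- The sum of the absolute values of the values. -/
def tv {κ : Type} {β : ℕ} (l : List (κ × ZB β)) : ℕ := (l.map (fun y => y.2.val.natAbs)).sum

/-- Application of a sparse linear operator with constant coefficients: `op τ` is the list of the
(new index, rows of the change of the position, coefficient). -/
def apo {β s : ℕ} (op : Fin s → List (Fin s × (List (List ℤ) × ℤ))) (l : SL β s) : SL β s :=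
  l.flatMap (fun y => (op y.1.1).map (fun o => ((o.1, linMap o.2.1 y.1.2), o.2.2 • y.2)))

/-! ### The iteration -/

/-- The three Laurent polynomials after `k` steps: `D ^ k F`, `W_k F`, `r ^ k F`. -/
noncomputable def itB {m : ℕ} (D S T r F : LM m) : ℕ → Fin 3 → LM m
  | 0 => ![F, 0, F]
  | k + 1 => ![D * itB D S T r F k 0, S * itB D S T r F k 0 + T * itB D S T r F k 1,
      r * itB D S T r F k 2]

/-- Rounding of all coefficients: `⌊(a + p ^ k) / p ^ (k + 1)⌋`. -/
noncomputable def rnd {m : ℕ} (p k : ℕ) (F : LM m) : LM m :=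
  AddMonoidAlgebra.ofCoeff (F.coeff.mapRange
    (fun a : ℤ => if a = 0 then 0 else (a + (p : ℤ) ^ k) / (p : ℤ) ^ (k + 1)) (by simp))

/-! ### Radix passes -/

/-- One pass: the items with an empty bit list, then those with the first bit `false`, then those with the
first bit `true`; the first bit is removed. -/
def rp {α : Type} (l : List (List Bool × α)) : List (List Bool × α) :=
  l.filter (fun x => decide (x.1.head? = none)) ++
    (l.filter (fun x => decide (x.1.head? = some false)) ++
      l.filter (fun x => decide (x.1.head? = some true))).map (fun x => (x.1.tail, x.2))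

/-- The elements related by `r` are contiguous. -/
def Grp {α : Type} (r : α → α → Prop) (l : List α) : Prop :=
  ∀ a b c : α, [a, b, c].Sublist l → r a c → r a b

open Classical in
/-- Addition of an item to a list of items. -/
noncomputable def cmb {κ : Type} {β : ℕ} : List (κ × ZB β) → κ × ZB β → List (κ × ZB β)
  | [], x => [x]
  | y :: t, x => if x.1 = y.1 then (y.1, y.2 + x.2) :: t else x :: y :: t

/-! ### Functionals -/

/-- All points are on one line. -/
def FlatM {m : ℕ} (S : Finset (Fin m → ℤ)) : Prop :=
  ∃ u : Fin m → ℤ, ∀ c ∈ S, ∀ c' ∈ S, ∃ j : ℤ, c - c' = j • u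

/-- The value of a functional. -/
def fv {m : ℕ} (θ c : Fin m → ℤ) : ℤ := ∑ i, θ i * c i

/-! ### Groups -/

/-- The action of a Laurent polynomial on an element `a` of an abelian normal subgroup: the product of the
conjugates of the powers of `a`. -/
noncomputable def actG {G : Type*} [Group G] {m : ℕ} (x : Fin m → G) (f : LM m) (a : G) : G :=
  (f.coeff.support.toList.map (fun v => gpow x v * a ^ f.coeff v * (gpow x v)⁻¹)).prod

end Pool.Agent.WQL
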