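import Pool.Agent.Lib.MP_2da099_lc.QL.Defs
import Pool.Agent.Lib.MP_2da099_lc.R2.B02
import Pool.Agent.Lib.MP_2da099_lc.A02

/-!
# G1a: words to instructions: copy of R2/B02.lean with `m` elements `x i` and `gpow x`.

The cosets: `b02_cosets` with `gpow x (v s l)` in the place of `x 0 ^ v.1 * x 1 ^ v.2`; the colours are the pairs
(coset, letter), `c κ = (rep s, letter)`.  `ρ` kills `A`, so it factors through the commutative quotient
(`a02_mk_gpow` in A02 for the multiplicativity of `gpow` modulo `A`).  The moves of `v`: `Σ |v i|` unit steps.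
-/

set_option autoImplicit false

namespace Pool.Agent.WQL

open Pool.Agent.Lib.PolyTime Pool.Agent.WPM Pool.Agent.WPR Function

universe u

/-- the finite automaton of the cosets -/
private theorem g1a_cosets {G : Type u} [Group G] (A : Subgroup G) [A.Normal]
    (hquot : ∀ x y : G, x * y * x⁻¹ * y⁻¹ ∈ A) {r m : ℕ} (g : Fin r → G)
    (hg : Subgroup.closure (Set.range g) = ⊤) (x : Fin m → G)
    (hx : ∀ h : G, ∃ k, 0 < k ∧ h ^ k ∈ Subgroup.closure (Set.range x) ⊔ A) :
    ∃ (K : ℕ) (s₀ : Fin K) (rep : Fin K → G) (nx : Fin K → Letter r → Fin K)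
      (v : Fin K → Letter r → (Fin m → ℤ)), rep s₀ = 1 ∧
      (∀ s l, ((rep s * b02_let g l : G) : G ⧸ A) =
        ((gpow x (v s l) * rep (nx s l) : G) : G ⧸ A)) ∧
      ∀ v w : Fin m → ℤ, ((gpow x (v + w) : G) : G ⧸ A) = ((gpow x v * gpow x w : G) : G ⧸ A) := by
  classical
  obtain ⟨hh, hh1, hh2, hh3⟩ := a02_mk_gpow A hquot x
  let iQ : CommGroup (G ⧸ A) :=
    { (inferInstance : Group (G ⧸ A)) with
      mul_comm := by
        intro a b
        induction a using QuotientGroup.induction_on with
        | H a =>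
          induction b using QuotientGroup.induction_on with
          | H b =>
            rw [← QuotientGroup.mk_mul, ← QuotientGroup.mk_mul, QuotientGroup.eq]
            have h := hquot b⁻¹ a⁻¹
            rw [inv_inv, inv_inv] at h
            have e : (a * b)⁻¹ * (b * a) = b⁻¹ * a⁻¹ * b * a := by group
            rw [e]
            exact h }
  let π : G →* G ⧸ A := QuotientGroup.mk' A
  have hπ : Function.Surjective π := QuotientGroup.mk'_surjective A
  let X : Subgroup (G ⧸ A) := Subgroup.closure (Set.range fun i => π (x i))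
  have h0 : hh 0 = 1 := by
    have h := hh2 0 0
    rw [add_zero] at h
    exact (mul_eq_left.1 h.symm)
  have hXmem : ∀ q ∈ X, ∃ v, hh v = q := by
    intro q hq
    refine Subgroup.closure_induction (p := fun q _ => ∃ v, hh v = q) ?_ ?_ ?_ ?_ hq
    · rintro q ⟨i, rfl⟩
      exact ⟨_, by rw [hh3 (i, true)]; rfl⟩
    · exact ⟨0, h0⟩
    · rintro a b _ _ ⟨v, rfl⟩ ⟨w, rfl⟩
      exact ⟨v + w, hh2 v w⟩
    · rintro a _ ⟨v, rfl⟩
      refine ⟨-v, ?_⟩
      have h := hh2 v (-v)
      rw [add_neg_cancel, h0] at h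
      exact (inv_eq_of_mul_eq_one_right h.symm).symm
  have hXpow : ∀ q : G ⧸ A, ∃ k, 0 < k ∧ q ^ k ∈ X := by
    intro q
    obtain ⟨h, rfl⟩ := hπ q
    obtain ⟨k, hk, hm⟩ := hx h
    refine ⟨k, hk, ?_⟩
    have h1 : Subgroup.closure (Set.range x) ⊔ A ≤ X.comap π := by
      refine sup_le ?_ ?_
      · rw [Subgroup.closure_le]
        rintro z ⟨i, rfl⟩
        exact Subgroup.subset_closure ⟨i, rfl⟩
      · intro a ha
        have : π a = 1 := (QuotientGroup.eq_one_iff a).mpr ha
        show π a ∈ X
        rw [this]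
        exact X.one_mem
    have h2 := h1 hm
    rw [Subgroup.mem_comap, map_pow] at h2
    exact h2
  have hGfg : Group.FG G := Group.fg_iff.mpr ⟨Set.range g, hg, Set.finite_range g⟩
  have hFfg : Group.FG ((G ⧸ A) ⧸ X) :=
    Group.fg_of_surjective (f := (QuotientGroup.mk' X).comp π)
      ((QuotientGroup.mk'_surjective X).comp hπ)
  have htor : IsMulTorsion ((G ⧸ A) ⧸ X) := by
    intro f
    obtain ⟨q, rfl⟩ := QuotientGroup.mk'_surjective X f
    obtain ⟨k, hk, hm⟩ := hXpow q
    rw [isOfFinOrder_iff_pow_eq_one]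
    refine ⟨k, hk, ?_⟩
    rw [← map_pow]
    exact (QuotientGroup.eq_one_iff _).mpr hm
  have hfin : Finite ((G ⧸ A) ⧸ X) := CommGroup.finite_of_fg_isMulTorsion _ htor
  let φ : G →* (G ⧸ A) ⧸ X := (QuotientGroup.mk' X).comp π
  have hφ : Function.Surjective φ := (QuotientGroup.mk'_surjective X).comp hπ
  obtain ⟨K, ⟨e⟩⟩ := Finite.exists_equiv_fin ((G ⧸ A) ⧸ X)
  choose out hout using hφ
  let rep : Fin K → G := fun s => if e.symm s = 1 then 1 else out (e.symm s)
  have hrep : ∀ s, φ (rep s) = e.symm s := by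
    intro s
    by_cases h : e.symm s = 1
    · show φ (if e.symm s = 1 then 1 else out (e.symm s)) = e.symm s
      rw [if_pos h, map_one, h]
    · show φ (if e.symm s = 1 then 1 else out (e.symm s)) = e.symm s
      rw [if_neg h, hout]
  let nx : Fin K → Letter r → Fin K := fun s l => e (e.symm s * φ (b02_let g l))
  have hex : ∀ (s : Fin K) (l : Letter r), ∃ v : Fin m → ℤ,
      ((rep s * b02_let g l : G) : G ⧸ A) =
        ((gpow x v * rep (nx s l) : G) : G ⧸ A) := by
    intro s l
    have h1 : φ (rep s * b02_let g l) = φ (rep (nx s l)) := by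
      rw [map_mul, hrep, hrep]
      show _ = e.symm (e (e.symm s * φ (b02_let g l)))
      rw [Equiv.symm_apply_apply]
    have h2 : (π (rep (nx s l)))⁻¹ * π (rep s * b02_let g l) ∈ X := by
      rw [← QuotientGroup.eq]
      exact h1.symm
    obtain ⟨v, hv⟩ := hXmem _ h2
    refine ⟨v, ?_⟩
    show π (rep s * b02_let g l) = π (gpow x v * rep (nx s l))
    have h3 : π (gpow x v) = hh v := (hh1 v).symm
    rw [map_mul π (gpow x v), h3, hv, mul_comm, mul_inv_cancel_left]
  choose v hv using hex
  refine ⟨K, e 1, rep, nx, v, ?_, hv, fun v w => ?_⟩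
  · show (if e.symm (e 1) = 1 then 1 else out (e.symm (e 1))) = 1
    rw [if_pos (Equiv.symm_apply_apply e 1)]
  · rw [← hh1, hh2, QuotientGroup.mk_mul, hh1, hh1]

/-- moves with the sum `v` -/
private def g1a_moves {m k : ℕ} (v : Fin m → ℤ) : List (IM m k) :=
  (List.finRange m).flatMap fun i => List.replicate (v i).natAbs (Sum.inl (i, decide (0 ≤ v i)))

private theorem g1a_replicate {m k : ℕ} (a : Fin m × Bool) (L : List (IM m k)) :
    ∀ (n : ℕ) (c : Fin m → ℤ), posM c (List.replicate n (Sum.inl a) ++ L) =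
      posM (c + n • stv a) L := by
  intro n
  induction n with
  | zero => intro c; simp
  | succ n ih =>
    intro c
    rw [List.replicate_succ, List.cons_append]
    show posM (c + stv a) (List.replicate n (Sum.inl a) ++ L) = _
    rw [ih, succ_nsmul, add_assoc, add_comm (stv a)]

private theorem g1a_stv {m : ℕ} (v : Fin m → ℤ) (i : Fin m) :
    (v i).natAbs • stv (i, decide (0 ≤ v i)) = Pi.single i (v i) := by
  unfold stv
  rw [← Pi.single_smul]
  congr 1
  by_cases h : 0 ≤ v i
  · simp [h, abs_of_nonneg h]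
  · simp [h, abs_of_neg (not_le.1 h)]

private theorem g1a_flat {m k : ℕ} (v : Fin m → ℤ) (L : List (IM m k)) : ∀ (is : List (Fin m)) (c : Fin m → ℤ),
    posM c ((is.flatMap fun i => List.replicate (v i).natAbs (Sum.inl (i, decide (0 ≤ v i)))) ++ L) =
      posM (c + (is.map fun i => (Pi.single i (v i) : Fin m → ℤ)).sum) L := by
  intro is
  induction is with
  | nil => intro c; simp
  | cons i is ih =>
    intro c
    rw [List.flatMap_cons, List.append_assoc, g1a_replicate, g1a_stv, ih, List.map_cons, List.sum_cons, add_assoc]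

private theorem g1a_pos_moves {m k : ℕ} (c v : Fin m → ℤ) (L : List (IM m k)) :
    posM c (g1a_moves v ++ L) = posM (c + v) L := by
  unfold g1a_moves
  rw [g1a_flat]
  congr 2
  rw [← Fin.sum_univ_def, Finset.univ_sum_single]

/-- the output of the transducer -/
private def g1a_out {k K r m : ℕ} (e : Fin K × Letter r → Fin k) (v : Fin K → Letter r → (Fin m → ℤ))
    (q : Fin K × Letter r) : List (IM m k) := Sum.inr (e q) :: g1a_moves (v q.1 q.2)

/-- the translation -/
private def g1a_tr {k K r m : ℕ} (e : Fin K × Letter r → Fin k) (nx : Fin K → Letter r → Fin K)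
    (v : Fin K → Letter r → (Fin m → ℤ)) (s : Fin K) (w : List (Letter r)) : List (IM m k) :=
  (trans (fun s l => (nx s l, (s, l))) s w).flatMap (g1a_out e v)

private theorem g1a_ct {k K r m : ℕ} (e : Fin K × Letter r → Fin k) (nx : Fin K → Letter r → Fin K)
    (v : Fin K → Letter r → (Fin m → ℤ)) (s : Fin K) :
    CT (g1a_tr e nx v s) (fun w => w.length) := by
  have h1 := CT.transduce (fun (s : Fin K) (l : Letter r) => (nx s l, (s, l))) s
  have h2 := ct_flatMapFin (α := Fin K × Letter r) (g1a_out e v)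
  refine (h2.comp h1).mono 2 (fun w => ?_)
  show w.length + (trans (fun (s : Fin K) (l : Letter r) => (nx s l, (s, l))) s w).length ≤ _
  rw [c09_length_trans]
  omega

private theorem g1a_length {k K r m : ℕ} (e : Fin K × Letter r → Fin k) (nx : Fin K → Letter r → Fin K)
    (v : Fin K → Letter r → (Fin m → ℤ)) (s : Fin K) : ∃ C : ℕ, ∀ w : List (Letter r),
      (g1a_tr e nx v s w).length ≤ C * (w.length + 1) := by
  classical
  refine ⟨Finset.univ.sup (fun q : Fin K × Letter r => (g1a_out e v q).length), fun w => ?_⟩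
  have h : ∀ L : List (Fin K × Letter r), (L.flatMap (g1a_out e v)).length ≤
      Finset.univ.sup (fun q : Fin K × Letter r => (g1a_out e v q).length) * L.length := by
    intro L
    induction L with
    | nil => simp
    | cons q L ih =>
      rw [List.flatMap_cons, List.length_append, List.length_cons, Nat.mul_add, mul_one]
      have := Finset.le_sup (f := fun q : Fin K × Letter r => (g1a_out e v q).length)
        (Finset.mem_univ q)
      omega
  refine (h _).trans ?_
  rw [c09_length_trans]
  exact Nat.mul_le_mul_left _ (Nat.le_succ _)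

theorem exists_tr {G : Type u} [Group G] (A : Subgroup G) [A.Normal]
    (hquot : ∀ x y : G, x * y * x⁻¹ * y⁻¹ ∈ A) {r m : ℕ} (g : Fin r → G)
    (hg : Subgroup.closure (Set.range g) = ⊤) (x : Fin m → G)
    (hx : ∀ h : G, ∃ k, 0 < k ∧ h ^ k ∈ Subgroup.closure (Set.range x) ⊔ A) :
    ∃ (k : ℕ) (c : Fin k → G × G) (tr : List (Letter r) → List (IM m k)) (C : ℕ),
      CT tr (fun w => w.length) ∧ (∀ w, (tr w).length ≤ C * (w.length + 1)) ∧
      ∀ (M : Type u) [AddCommGroup M] (ρ : G →* AddMonoid.End M) (D : G → M),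
        (∀ a ∈ A, ρ a = 1) → (∀ x y, D (x * y) = D x + ρ x (D y)) →
        ∀ w, D (value g w) = ((posM 0 (tr w)).map (fun z =>
          ρ (gpow x z.1 * (c z.2).1) (D (c z.2).2))).sum := by
  classical
  obtain ⟨K, s₀, rep, nx, v, hrep0, hrep, hgp⟩ := g1a_cosets A hquot g hg x hx
  obtain ⟨k, ⟨e⟩⟩ := Finite.exists_equiv_fin (Fin K × Letter r)
  obtain ⟨C, hC⟩ := g1a_length (m := m) e nx v s₀
  refine ⟨k, fun κ => (rep (e.symm κ).1, b02_let g (e.symm κ).2), g1a_tr e nx v s₀, C,
    g1a_ct e nx v s₀, hC, ?_⟩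
  intro M iM ρ D hρA hD
  -- `ρ` factors through the quotient
  have hρ : ∀ y z : G, (y : G ⧸ A) = (z : G ⧸ A) → ρ y = ρ z := by
    intro y z h
    have h1 : y⁻¹ * z ∈ A := QuotientGroup.eq.mp h
    have h2 : z = y * (y⁻¹ * z) := by group
    rw [h2, map_mul, hρA _ h1, mul_one]
  have hD1 : D 1 = 0 := by
    have h := hD 1 1
    rw [mul_one, map_one] at h
    have h2 : D 1 = D 1 + D 1 := h
    exact (add_eq_left.1 h2.symm)
  have hgp' : ∀ (a b : Fin m → ℤ) (z : G), ((gpow x (a + b) * z : G) : G ⧸ A) = ((gpow x a * (gpow x b * z) : G) : G ⧸ A) := by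
    intro a b z
    rw [QuotientGroup.mk_mul, hgp a b, ← QuotientGroup.mk_mul, mul_assoc]
  have hclaim : ∀ (w : List (Letter r)) (s : Fin K) (c : Fin m → ℤ) (y : G),
      (y : G ⧸ A) = ((gpow x c * rep s : G) : G ⧸ A) →
      ρ y (D (value g w)) =
        ((posM c (g1a_tr e nx v s w)).map (fun z =>
          ρ (gpow x z.1 * rep (e.symm z.2).1) (D (b02_let g (e.symm z.2).2)))).sum := by
    intro w
    induction w with
    | nil =>
      intro s c y _
      have h1 : D (value g ([] : List (Letter r))) = 0 := by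
        have : value g ([] : List (Letter r)) = 1 := by simp [value]
        rw [this, hD1]
      rw [h1, map_zero]
      rfl
    | cons l w ih =>
      intro s c y hy
      have e1 : g1a_tr e nx v s (l :: w) =
          Sum.inr (e (s, l)) :: (g1a_moves (v s l) ++ g1a_tr e nx v (nx s l) w) := by
        rw [g1a_tr]
        show (g1a_out e v (s, l)) ++ _ = _
        rfl
      have hnext : ((y * b02_let g l : G) : G ⧸ A) =
          ((gpow x (c + v s l) * rep (nx s l) : G) : G ⧸ A) := by
        rw [QuotientGroup.mk_mul, hy, ← QuotientGroup.mk_mul, mul_assoc, QuotientGroup.mk_mul, hrep s l,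
          ← QuotientGroup.mk_mul, hgp']
      rw [b02_value_cons, hD, map_add, e1]
      show ρ y (D (b02_let g l)) + ρ y (ρ (b02_let g l) (D (value g w))) =
        ρ (gpow x c * rep (e.symm (e (s, l))).1) (D (b02_let g (e.symm (e (s, l))).2)) + _
      congr 1
      · rw [Equiv.symm_apply_apply, hρ y _ hy]
      · have h4 := ih (nx s l) (c + v s l) (y * b02_let g l) hnext
        rw [map_mul] at h4
        rw [g1a_pos_moves]
        exact h4
  intro w
  have h1 := hclaim w s₀ 0 1 (by
    rw [hrep0]
    have h2 := hgp 0 0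
    rw [add_zero, QuotientGroup.mk_mul] at h2
    rw [mul_one, QuotientGroup.mk_one]
    exact (mul_eq_left.1 h2.symm).symm)
  have h2 : ρ 1 (D (value g w)) = D (value g w) := by rw [map_one]; rfl
  rw [h2] at h1
  exact h1

end Pool.Agent.WQL
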