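import Pool.Agent.Lib.MP_2da099_lc.QL.G0
import Pool.Agent.Lib.MP_2da099_lc.QL.G1a
import Pool.Agent.Lib.MP_2da099_lc.QL.L01
import Pool.Agent.Lib.MP_2da099_lc.A02
import Mathlib.Algebra.MonoidAlgebra.NoZeroDivisors

/-!
# G1b: the module of relations
-/

set_option autoImplicit false

namespace Pool.Agent.WQL

open Pool.Agent.Lib.PolyTime Pool.Agent.WPM Pool.Agent.WPR Function

universe u

section

variable {G : Type u} [Group G] {A : Subgroup G} {M : Type u} [AddCommGroup M]
  {ρ : G →* AddMonoid.End M} {D : G → M}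

theorem g1b_D_one (hD : ∀ x y, D (x * y) = D x + ρ x (D y)) : D 1 = 0 := by
  have h := hD 1 1
  rw [mul_one, map_one] at h
  have h2 : D 1 = D 1 + D 1 := h
  exact left_eq_add.mp h2

theorem g1b_D_mul (hρA : ∀ a ∈ A, ρ a = 1) (hD : ∀ x y, D (x * y) = D x + ρ x (D y))
    (a : G) (ha : a ∈ A) (b : G) : D (a * b) = D a + D b := by
  rw [hD, hρA a ha]
  rfl

theorem g1b_D_inv (hρA : ∀ a ∈ A, ρ a = 1) (hD : ∀ x y, D (x * y) = D x + ρ x (D y))
    (a : G) (ha : a ∈ A) : D a⁻¹ = - D a := by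
  have h := g1b_D_mul hρA hD a ha a⁻¹
  rw [mul_inv_cancel, g1b_D_one hD] at h
  exact (neg_eq_of_add_eq_zero_right h.symm).symm

theorem g1b_D_zpow (hρA : ∀ a ∈ A, ρ a = 1) (hD : ∀ x y, D (x * y) = D x + ρ x (D y))
    (a : G) (ha : a ∈ A) (z : ℤ) : D (a ^ z) = z • D a := by
  have hn : ∀ n : ℕ, D (a ^ n) = n • D a := by
    intro n
    induction n with
    | zero => rw [pow_zero, zero_smul, g1b_D_one hD]
    | succ n ih =>
      rw [pow_succ, g1b_D_mul hρA hD _ (A.pow_mem ha n), ih, succ_nsmul]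
  cases z with
  | ofNat n =>
    rw [Int.ofNat_eq_natCast, zpow_natCast, natCast_zsmul]
    exact hn n
  | negSucc n =>
    rw [zpow_negSucc, g1b_D_inv hρA hD _ (A.pow_mem ha _), hn, negSucc_zsmul]

theorem g1b_D_conj [A.Normal] (hρA : ∀ a ∈ A, ρ a = 1) (hD : ∀ x y, D (x * y) = D x + ρ x (D y))
    (y a : G) (ha : a ∈ A) : D (y * a * y⁻¹) = ρ y (D a) := by
  have h1 : D (y * y⁻¹) = 0 := by rw [mul_inv_cancel, g1b_D_one hD]
  rw [hD] at h1
  rw [hD, hD, map_mul, hρA a ha, mul_one, add_right_comm, h1, zero_add]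

theorem g1b_D_prod (hρA : ∀ a ∈ A, ρ a = 1) (hD : ∀ x y, D (x * y) = D x + ρ x (D y))
    (l : List G) (hl : ∀ a ∈ l, a ∈ A) : D l.prod = (l.map D).sum := by
  induction l with
  | nil => simpa using g1b_D_one hD
  | cons a l ih =>
    rw [List.prod_cons, g1b_D_mul hρA hD a (hl a (by simp)), List.map_cons, List.sum_cons,
      ih (fun b hb => hl b (by simp [hb]))]

end

theorem g1b_sum {m : ℕ} (f : LM m) : f = (f.coeff.support.toList.map
    (fun v => (f.coeff v : LM m) * mo v)).sum := by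
  have h1 : (f.coeff.support.toList.map (fun v => (f.coeff v : LM m) * mo v)).sum =
      ∑ v ∈ f.coeff.support, (f.coeff v : LM m) * mo v := Finset.sum_map_toList _ _
  rw [h1]
  conv_lhs => rw [← AddMonoidAlgebra.sum_coeff_single f]
  rw [Finsupp.sum]
  refine Finset.sum_congr rfl fun v _ => ?_
  rw [mo, ← zsmul_eq_mul]
  simp

theorem exists_instrM {G : Type u} [Group G] (A : Subgroup G) [A.Normal]
    (hcomm : ∀ a ∈ A, ∀ b ∈ A, a * b = b * a)
    (hquot : ∀ x y : G, x * y * x⁻¹ * y⁻¹ ∈ A) {r m : ℕ} (g : Fin r → G)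
    (hg : Subgroup.closure (Set.range g) = ⊤) (x : Fin m → G)
    (hx : ∀ h : G, ∃ k, 0 < k ∧ h ^ k ∈ Subgroup.closure (Set.range x) ⊔ A)
    (hind : ∀ v : Fin m → ℤ, gpow x v ∈ A → v = 0) :
    ∃ (k : ℕ) (N : Submodule (LM m) (Fin k → LM m)) (tr : List (Letter r) → List (IM m k))
      (C : ℕ), CT tr (fun w => w.length) ∧ (∀ w, (tr w).length ≤ C * (w.length + 1)) ∧
      (∀ w, value g w = 1 ↔ vcM (tr w) ∈ N) ∧
      ∀ (y : Fin k → LM m) (f : LM m), f ≠ 0 → f • y ∈ N →
        ∃ a ∈ A, ∀ f' : LM m, f' • y ∈ N ↔ actG x f' a = 1 := by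
  classical
  obtain ⟨M, iM, ρ, D, θ, hρA, hD, hD0, hθD, hθρ⟩ := exists_derivationT A hcomm
  obtain ⟨k, c, tr, C, hct, hlen, htr⟩ := exists_tr A hquot g hg x hx
  have hw := htr M ρ D hρA hD
  obtain ⟨h, hh, hadd, -⟩ := a02_mk_gpow A hquot x
  have hρ : ∀ x y : G, (x : G ⧸ A) = y → ρ x = ρ y := by
    intro x y hxy
    have h1 : x⁻¹ * y ∈ A := QuotientGroup.eq.mp hxy
    have h2 : y = x * (x⁻¹ * y) := by group
    rw [h2, map_mul, hρA _ h1, mul_one]
  have h0 : h 0 = 1 := by
    have h2 := hadd 0 0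
    rw [add_zero] at h2
    exact (left_eq_mul.mp h2)
  let σ : Multiplicative (Fin m → ℤ) →* AddMonoid.End M :=
    { toFun := fun v => ρ (gpow x (Multiplicative.toAdd v))
      map_one' := by
        have h1 : ((gpow x (0 : Fin m → ℤ) : G) : G ⧸ A) = ((1 : G) : G ⧸ A) := by
          rw [← hh, h0, QuotientGroup.mk_one]
        change ρ (gpow x (0 : Fin m → ℤ)) = 1
        rw [hρ _ _ h1, map_one]
      map_mul' := by
        intro v w
        change ρ (gpow x (Multiplicative.toAdd v + Multiplicative.toAdd w))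
          = ρ (gpow x (Multiplicative.toAdd v)) * ρ (gpow x (Multiplicative.toAdd w))
        rw [← map_mul]
        apply hρ
        rw [QuotientGroup.mk_mul, ← hh, ← hh, ← hh]
        exact hadd _ _ }
  let Φ : LM m →+* AddMonoid.End M :=
    (AddMonoidAlgebra.lift ℤ (AddMonoid.End M) (Fin m → ℤ) σ : LM m →ₐ[ℤ] AddMonoid.End M).toRingHom
  let iMod : Module (LM m) M := Module.compHom M Φ
  have hmm : ∀ (v : Fin m → ℤ) (y : M), (mo v : LM m) • y = ρ (gpow x v) y := by
    intro v y
    show (Φ (mo v)) y = _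
    have h1 : Φ (mo v) = ρ (gpow x v) := by
      show AddMonoidAlgebra.lift ℤ (AddMonoid.End M) (Fin m → ℤ) σ (AddMonoidAlgebra.single v 1) = _
      rw [AddMonoidAlgebra.lift_single, one_smul]
      rfl
    rw [h1]
  let b : Fin k → M := fun κ => ρ (c κ).1 (D (c κ).2)
  have hmem : ∀ F : Fin k → LM m, F ∈ LinearMap.ker (Fintype.linearCombination (LM m) b) ↔
      ∑ κ, F κ • b κ = 0 := by
    intro F
    rw [LinearMap.mem_ker, Fintype.linearCombination_apply]
  refine ⟨k, LinearMap.ker (Fintype.linearCombination (LM m) b), tr, C, hct, hlen, ?_, ?_⟩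
  · intro w
    rw [hmem, sum_vcM_smul, ← hD0 (value g w), hw w]
    have e : (posM 0 (tr w)).map (fun z => ρ (gpow x z.1 * (c z.2).1) (D (c z.2).2)) =
        (posM 0 (tr w)).map (fun z => (mo z.1 : LM m) • b z.2) := by
      refine List.map_congr_left fun z _ => ?_
      rw [hmm, map_mul]
      rfl
    rw [e]
  -- the torsion elements
  intro y f hf hfy
  let s : G ⧸ A → G := Quotient.out
  have hs : ∀ q : G ⧸ A, ((s q : G) : G ⧸ A) = q := fun q => Quotient.out_eq' q
  let S : AddSubgroup M :=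
    { carrier := {w | ∃ a ∈ A, ∃ n : (G ⧸ A) →₀ ℤ, w = D a + n.sum (fun q z => z • D (s q))}
      zero_mem' := ⟨1, A.one_mem, 0, by rw [g1b_D_one hD]; simp⟩
      add_mem' := by
        rintro w w' ⟨a, ha, n, rfl⟩ ⟨a', ha', n', rfl⟩
        refine ⟨a * a', A.mul_mem ha ha', n + n', ?_⟩
        rw [g1b_D_mul hρA hD a ha, Finsupp.sum_add_index' (h := fun q z => z • D (s q)) (fun q => zero_smul ℤ _)
          (fun q z z' => add_smul z z' _)]
        abel
      neg_mem' := by
        rintro w ⟨a, ha, n, rfl⟩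
        refine ⟨a⁻¹, A.inv_mem ha, -n, ?_⟩
        rw [g1b_D_inv hρA hD a ha, Finsupp.sum_neg_index (h := fun q z => z • D (s q)) (fun q => zero_smul ℤ _), neg_add]
        congr 1
        rw [Finsupp.sum, Finsupp.sum, ← Finset.sum_neg_distrib]
        exact Finset.sum_congr rfl fun q _ => (neg_smul _ _).symm }
  have hS1 : ∀ z : G, D z ∈ S := by
    intro z
    have h1 : z * (s (z : G ⧸ A))⁻¹ ∈ A := by
      rw [← QuotientGroup.eq_one_iff, QuotientGroup.mk_mul, QuotientGroup.mk_inv, hs, mul_inv_cancel]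
    refine ⟨_, h1, Finsupp.single (z : G ⧸ A) 1, ?_⟩
    rw [Finsupp.sum_single_index (h := fun q z => z • D (s q)) (zero_smul ℤ _), one_smul, ← g1b_D_mul hρA hD _ h1,
      inv_mul_cancel_right]
  have hS2 : ∀ y z : G, ρ y (D z) ∈ S := by
    intro y z
    have h1 : ρ y (D z) = D (y * z) - D y := by rw [hD]; abel
    rw [h1]
    exact S.sub_mem (hS1 _) (hS1 _)
  have hS3 : ∀ (F : LM m) (κ : Fin k), F • b κ ∈ S := by
    intro F κ
    induction F using AddMonoidAlgebra.induction_linear with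
    | zero => rw [zero_smul]; exact S.zero_mem
    | add F F' h1 h2 => rw [add_smul]; exact S.add_mem h1 h2
    | single v z =>
      have e : (AddMonoidAlgebra.single v z : LM m) = z • mo v := by
        rw [mo]
        simp
      rw [e, smul_assoc, hmm]
      refine S.zsmul_mem ?_ z
      have e2 : ρ (gpow x v) (b κ) = ρ (gpow x v * (c κ).1) (D (c κ).2) := by
        rw [map_mul]
        rfl
      rw [e2]
      exact hS2 _ _
  set w : M := ∑ κ, y κ • b κ with hwdef
  have hwS : w ∈ S := S.sum_mem fun κ _ => hS3 _ _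
  have hfw : f • w = 0 := by
    rw [hmem] at hfy
    rw [hwdef, Finset.smul_sum, ← hfy]
    refine Finset.sum_congr rfl fun κ _ => ?_
    rw [Pi.smul_apply, smul_eq_mul, mul_smul]
  obtain ⟨a, ha, n, hwn⟩ := hwS
  -- the function `θ w`
  have hθa : ∀ a ∈ A, ∀ q, θ (D a) q = 0 := by
    intro a ha q
    have h1 : (a : G ⧸ A) = 1 := (QuotientGroup.eq_one_iff a).2 ha
    rw [hθD, h1, sub_self]
  have hθsmul : ∀ (F : LM m) (u : M) (q : G ⧸ A), θ (F • u) q =
      F.coeff.sum (fun v z => z * θ u ((h v)⁻¹ * q)) := by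
    intro F u q
    induction F using AddMonoidAlgebra.induction_linear with
    | zero => rw [zero_smul, map_zero]; simp
    | add F F' h1 h2 =>
      rw [add_smul, map_add, Pi.add_apply, h1, h2, AddMonoidAlgebra.coeff_add,
        Finsupp.sum_add_index' (fun v => zero_mul _) (fun v z z' => add_mul _ _ _)]
    | single v z =>
      have e : (AddMonoidAlgebra.single v z : LM m) = z • mo v := by
        rw [mo]
        simp
      rw [AddMonoidAlgebra.coeff_single, Finsupp.sum_single_index (zero_mul _)]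
      rw [e, smul_assoc, map_zsmul, Pi.smul_apply, hmm, hθρ, smul_eq_mul, hh]
  have hθw : ∀ q, θ w q = n.sum (fun q' z => z * ((if q = q' then 1 else 0) -
      (if q = 1 then 1 else 0))) := by
    intro q
    rw [hwn, map_add, Pi.add_apply, hθa a ha, zero_add, Finsupp.sum, map_sum, Finset.sum_apply]
    refine Finset.sum_congr rfl fun q' _ => ?_
    rw [map_zsmul, Pi.smul_apply, smul_eq_mul, hθD, hs]
  have hfin : (support (θ w)).Finite := by
    refine Set.Finite.subset ((n.support ∪ {1}).finite_toSet) ?_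
    intro q hq
    by_contra hq2
    rw [Finset.mem_coe, Finset.mem_union, Finset.mem_singleton, not_or] at hq2
    apply hq
    rw [hθw, Finsupp.sum]
    refine Finset.sum_eq_zero fun q' hq' => ?_
    rw [if_neg hq2.2, if_neg (fun hqq : q = q' => hq2.1 (by rw [hqq]; exact hq'))]
    simp
  have hinj : Injective h := by
    intro v v' hv
    have h1 : h (v - v') * h v' = h v' := by rw [← hadd, sub_add_cancel, hv]
    have h2 : h (v - v') = 1 := mul_eq_right.mp h1
    rw [hh] at h2
    exact sub_eq_zero.mp (hind _ ((QuotientGroup.eq_one_iff _).1 h2))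
  have hθ0 : ∀ q, θ w q = 0 := by
    intro q0
    have hfin2 : (support (fun v : Fin m → ℤ => θ w (h v * q0))).Finite := by
      refine Set.Finite.preimage (f := fun v => h v * q0) ?_ hfin
      exact ((mul_left_injective q0).comp hinj).injOn
    let T : LM m := AddMonoidAlgebra.ofCoeff
      (Finsupp.ofSupportFinite (fun v : Fin m → ℤ => θ w (h v * q0)) hfin2)
    have hT : ∀ v, T.coeff v = θ w (h v * q0) := fun v => rfl
    have hinvh : ∀ v, (h v)⁻¹ = h (-v) := by
      intro v
      rw [inv_eq_iff_mul_eq_one, ← hadd, add_neg_cancel, h0]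
    have h1 : f * T = 0 := by
      refine AddMonoidAlgebra.ext (Finsupp.ext fun u => ?_)
      rw [AddMonoidAlgebra.coeff_mul_apply_left]
      have h2 := hθsmul f w (h u * q0)
      rw [hfw, map_zero] at h2
      have h3 : (0 : (Fin m → ℤ) →₀ ℤ) u = (0 : G ⧸ A → ℤ) (h u * q0) := rfl
      show _ = (0 : (Fin m → ℤ) →₀ ℤ) u
      rw [h3, h2]
      refine Finset.sum_congr rfl fun v _ => ?_
      show f.coeff v * T.coeff (-v + u) = f.coeff v * θ w ((h v)⁻¹ * (h u * q0))
      rw [hT, hadd, hinvh, mul_assoc]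
    have h2 : T = 0 := (mul_eq_zero.mp h1).resolve_left hf
    have h3 := hT 0
    rw [h2, h0, one_mul] at h3
    exact h3.symm
  have hn : ∀ q, q ≠ 1 → n q = 0 := by
    intro q hq
    have h1 := hθ0 q
    rw [hθw] at h1
    have h2 : n.sum (fun q' z => z * ((if q = q' then (1 : ℤ) else 0) -
        (if q = 1 then 1 else 0))) = n q := by
      rw [if_neg hq]
      simp only [sub_zero]
      rw [Finsupp.sum]
      simp only [mul_ite, mul_one, mul_zero]
      rw [Finset.sum_ite_eq]
      split_ifs with h3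
      · rfl
      · exact (Finsupp.notMem_support_iff.1 h3).symm
    rw [h2] at h1
    exact h1
  have hs1 : s 1 ∈ A := by
    rw [← QuotientGroup.eq_one_iff]
    exact hs 1
  have hw2 : w = D (a * (s 1) ^ (n 1)) := by
    rw [g1b_D_mul hρA hD a ha, g1b_D_zpow hρA hD _ hs1, hwn]
    congr 1
    have h1 : n = Finsupp.single 1 (n 1) := by
      ext q
      by_cases hq : q = 1
      · subst hq
        rw [Finsupp.single_eq_same]
      · rw [hn q hq, Finsupp.single_eq_of_ne hq]
    conv_lhs => rw [h1]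
    rw [Finsupp.sum_single_index (h := fun q z => z • D (s q)) (zero_smul ℤ _)]
  refine ⟨a * (s 1) ^ (n 1), A.mul_mem ha (A.zpow_mem hs1 _), fun f' => ?_⟩
  set a' : G := a * (s 1) ^ (n 1) with ha'
  have ha'A : a' ∈ A := A.mul_mem ha (A.zpow_mem hs1 _)
  have h1 : f' • y ∈ LinearMap.ker (Fintype.linearCombination (LM m) b) ↔ f' • w = 0 := by
    rw [hmem, hwdef, Finset.smul_sum]
    have e : ∑ κ, (f' • y) κ • b κ = ∑ κ, f' • y κ • b κ := by
      refine Finset.sum_congr rfl fun κ _ => ?_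
      rw [Pi.smul_apply, smul_eq_mul, mul_smul]
    rw [e]
  rw [h1, ← hD0, hw2]
  have h2 : D (actG x f' a') = f' • D a' := by
    rw [actG, g1b_D_prod hρA hD _ (by
      intro z hz
      rw [List.mem_map] at hz
      obtain ⟨v, -, rfl⟩ := hz
      exact Subgroup.Normal.conj_mem inferInstance _ (A.zpow_mem ha'A _) _), List.map_map]
    conv_rhs => rw [g1b_sum f']
    rw [List.sum_smul, List.map_map]
    congr 1
    refine List.map_congr_left fun v _ => ?_
    show D (gpow x v * a' ^ f'.coeff v * (gpow x v)⁻¹) = ((f'.coeff v : LM m) * mo v) • D a'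
    rw [g1b_D_conj hρA hD _ _ (A.zpow_mem ha'A _), g1b_D_zpow hρA hD _ ha'A, map_zsmul,
      mul_smul, hmm, Int.cast_smul_eq_zsmul]
  rw [h2]

end Pool.Agent.WQL
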