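import Pool.Agent.Lib.MP_2da099_lc.QL.Defs
import Pool.Agent.Lib.MP_2da099_lc.A02

/-!
# G1c: the action of Laurent polynomials on `A`.

All factors lie in the abelian group `A`, so the product over the list is a product over the support in any order.
For `a ∈ A`, `gpow x v * gpow x w` and `gpow x (v + w)` differ by an element of `A` (`a02_mk_gpow`), which commutes
with `a`, so the conjugates are the same.
-/

set_option autoImplicit false

namespace Pool.Agent.WQL

open Pool.Agent.Lib.PolyTime Pool.Agent.WPM Pool.Agent.WPR Function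

universe u

theorem g1c_key {G : Type u} [Group G] (A : Subgroup G) [hN : A.Normal]
    (hcomm : ∀ a ∈ A, ∀ b ∈ A, a * b = b * a)
    (hquot : ∀ x y : G, x * y * x⁻¹ * y⁻¹ ∈ A) {m : ℕ} (x : Fin m → G) :
    ∃ φ : LM m → G → G, (∀ f, ∀ a ∈ A, φ f a ∈ A) ∧
      (∀ f g, ∀ a ∈ A, φ (f + g) a = φ f a * φ g a) ∧
      (∀ f g, ∀ a ∈ A, φ (f * g) a = φ f (φ g a)) ∧
      (∀ v, ∀ a ∈ A, φ (mo v) a = gpow x v * a * (gpow x v)⁻¹) ∧
      (∀ f, ∀ a ∈ A, φ f a = actG x f a) := by
  classical
  obtain ⟨h, hh, hadd, -⟩ := a02_mk_gpow A hquot x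
  let iC : CommGroup A := { (inferInstance : Group A) with
    mul_comm := fun a b => Subtype.ext (hcomm a.1 a.2 b.1 b.2) }
  -- conjugation
  let cj : G → Module.End ℤ (Additive A) := fun g =>
    (AddMonoidHom.toIntLinearMap
      { toFun := fun a => Additive.ofMul (⟨g * a.toMul.1 * g⁻¹, hN.conj_mem _ a.toMul.2 g⟩ : A)
        map_zero' := by
          apply Additive.toMul.injective
          apply Subtype.ext
          simp
        map_add' := fun a b => by
          apply Additive.toMul.injective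
          apply Subtype.ext
          change g * (a.toMul.1 * b.toMul.1) * g⁻¹ = (g * a.toMul.1 * g⁻¹) * (g * b.toMul.1 * g⁻¹)
          group })
  have hcj : ∀ g a, (cj g a).toMul.1 = g * a.toMul.1 * g⁻¹ := fun g a => rfl
  have hcjmul : ∀ g g', cj (g * g') = cj g * cj g' := by
    intro g g'
    ext a
    rw [hcj]
    change _ = g * (g' * a.toMul.1 * g'⁻¹) * g⁻¹
    group
  have hcjA : ∀ g ∈ A, cj g = 1 := by
    intro g hg
    ext a
    rw [hcj]
    change g * a.toMul.1 * g⁻¹ = a.toMul.1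
    rw [hcomm g hg _ a.toMul.2]
    group
  have hcjq : ∀ g g' : G, (g : G ⧸ A) = g' → cj g = cj g' := by
    intro g g' hgg
    have h1 : g⁻¹ * g' ∈ A := QuotientGroup.eq.mp hgg
    have h2 : g' = g * (g⁻¹ * g') := by group
    rw [h2, hcjmul, hcjA _ h1, mul_one]
  let σ : Multiplicative (Fin m → ℤ) →* Module.End ℤ (Additive A) :=
    { toFun := fun v => cj (gpow x (Multiplicative.toAdd v))
      map_one' := by
        have h1 : ((gpow x (0 : Fin m → ℤ) : G) : G ⧸ A) = ((1 : G) : G ⧸ A) := by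
          rw [← hh]
          have h2 := hadd 0 0
          rw [add_zero] at h2
          rw [QuotientGroup.mk_one]
          exact (left_eq_mul.mp h2)
        change cj (gpow x (0 : Fin m → ℤ)) = 1
        rw [hcjq _ _ h1, hcjA _ A.one_mem]
      map_mul' := by
        intro v w
        change cj (gpow x (Multiplicative.toAdd v + Multiplicative.toAdd w))
          = cj (gpow x (Multiplicative.toAdd v)) * cj (gpow x (Multiplicative.toAdd w))
        rw [← hcjmul]
        apply hcjq
        rw [QuotientGroup.mk_mul, ← hh, ← hh, ← hh]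
        exact hadd _ _ }
  let L : LM m →ₐ[ℤ] Module.End ℤ (Additive A) :=
    AddMonoidAlgebra.lift ℤ (Module.End ℤ (Additive A)) (Fin m → ℤ) σ
  let φ : LM m → G → G := fun f a =>
    if ha : a ∈ A then (L f (Additive.ofMul (⟨a, ha⟩ : A))).toMul.1 else 1
  have hφ : ∀ f a (ha : a ∈ A), φ f a = (L f (Additive.ofMul (⟨a, ha⟩ : A))).toMul.1 :=
    fun f a ha => dif_pos ha
  have hmem : ∀ f, ∀ a ∈ A, φ f a ∈ A := by
    intro f a ha
    rw [hφ f a ha]
    exact (L f (Additive.ofMul (⟨a, ha⟩ : A))).toMul.2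
  refine ⟨φ, hmem, ?_, ?_, ?_, ?_⟩
  · intro f g a ha
    rw [hφ _ _ ha, hφ _ _ ha, hφ _ _ ha, map_add]
    rfl
  · intro f g a ha
    rw [hφ _ _ (hmem g a ha), hφ _ _ ha, map_mul]
    have h1 : (⟨φ g a, hmem g a ha⟩ : A) = (L g (Additive.ofMul (⟨a, ha⟩ : A))).toMul :=
      Subtype.ext (hφ g a ha)
    rw [h1]
    rfl
  · intro v a ha
    rw [hφ _ _ ha]
    have h1 : L (mo v) = cj (gpow x v) := by
      have h2 := AddMonoidAlgebra.lift_single σ v (1 : ℤ)
      rw [one_smul] at h2
      exact h2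
    rw [h1, hcj]
    rfl
  · intro f a ha
    rw [hφ _ _ ha]
    have h1 : L f = f.coeff.sum fun v b => b • σ (Multiplicative.ofAdd v) :=
      AddMonoidAlgebra.lift_apply σ f
    rw [h1, Finsupp.sum, LinearMap.sum_apply]
    have h2 : ∀ v, ((f.coeff v • σ (Multiplicative.ofAdd v)) (Additive.ofMul (⟨a, ha⟩ : A))).toMul.1
        = gpow x v * a ^ f.coeff v * (gpow x v)⁻¹ := by
      intro v
      rw [LinearMap.smul_apply, ← map_zsmul]
      change gpow x v * ((⟨a, ha⟩ : A) ^ f.coeff v : A).1 * (gpow x v)⁻¹ = _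
      rw [Subgroup.coe_zpow]
    unfold actG
    rw [← Finset.sum_map_toList, ]
    have h3 : ∀ l : List (Fin m → ℤ),
        ((l.map (fun v => (f.coeff v • σ (Multiplicative.ofAdd v))
          (Additive.ofMul (⟨a, ha⟩ : A)))).sum).toMul.1
        = (l.map (fun v => gpow x v * a ^ f.coeff v * (gpow x v)⁻¹)).prod := by
      intro l
      induction l with
      | nil => rfl
      | cons v l ih =>
        rw [List.map_cons, List.map_cons, List.sum_cons, List.prod_cons, ← ih, ← h2 v]
        rfl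
    exact h3 _

section
variable {G : Type u} [Group G] (A : Subgroup G) [A.Normal]
    (hcomm : ∀ a ∈ A, ∀ b ∈ A, a * b = b * a)
    (hquot : ∀ x y : G, x * y * x⁻¹ * y⁻¹ ∈ A) {m : ℕ} (x : Fin m → G)

include hcomm hquot

theorem actG_mem (f : LM m) (a : G) (ha : a ∈ A) : actG x f a ∈ A := by
  obtain ⟨φ, h1, h2, h3, h4, h5⟩ := g1c_key A hcomm hquot x
  rw [← h5 f a ha]
  exact h1 f a ha

theorem actG_add (f f' : LM m) (a : G) (ha : a ∈ A) :
    actG x (f + f') a = actG x f a * actG x f' a := by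
  obtain ⟨φ, h1, h2, h3, h4, h5⟩ := g1c_key A hcomm hquot x
  rw [← h5 f a ha, ← h5 f' a ha, ← h5 _ a ha]
  exact h2 f f' a ha

theorem actG_mul (f f' : LM m) (a : G) (ha : a ∈ A) :
    actG x (f * f') a = actG x f (actG x f' a) := by
  obtain ⟨φ, h1, h2, h3, h4, h5⟩ := g1c_key A hcomm hquot x
  rw [← h5 f' a ha, ← h5 f _ (h1 f' a ha), ← h5 _ a ha]
  exact h3 f f' a ha

theorem actG_mo (v : Fin m → ℤ) (a : G) (ha : a ∈ A) :
    actG x (mo v) a = gpow x v * a * (gpow x v)⁻¹ := by
  obtain ⟨φ, h1, h2, h3, h4, h5⟩ := g1c_key A hcomm hquot x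
  rw [← h5 _ a ha]
  exact h4 v a ha

theorem actG_one (f : LM m) : actG x f (1 : G) = 1 := by
  unfold actG
  apply List.prod_eq_one
  intro y hy
  rw [List.mem_map] at hy
  obtain ⟨v, _, rfl⟩ := hy
  simp

end

end Pool.Agent.WQL
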