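import Pool.Agent.Lib.MP_2da099_lc.QL.Q01
import Pool.Agent.Lib.MP_2da099_lc.QL.R1
import Pool.Agent.Lib.MP_2da099_lc.QL.R5
import Pool.Agent.Lib.MP_2da099_lc.QL.G1b
import Pool.Agent.Lib.MP_2da099_lc.QL.G1c

/-!
# G2: the general theorem.

`exists_instrM`, `QL_submodule`, `QL.comp`.  Its hypothesis: let `y` be such that for every prime `h` there is `f`, `¬ h ∣ f`,
`f • y ∈ N`.  `exists_prime_LM` gives `f₁ ≠ 0` with `f₁ • y ∈ N`, so we get `a ∈ A` with `f' • y ∈ N ↔ actG x f' a = 1`.  The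
annihilator `I = {f' | f' • y ∈ N}` is an ideal which is contained in none of the prime ideals `(h i)`, `h i` the
(finitely many) prime factors of `f₁`; by prime avoidance (`Ideal.subset_union_prime`) there is `f₂ ∈ I` divisible by
none of them, so `IsRelPrime f₁ f₂` (`UniqueFactorizationMonoid`).  `hA` gives `d, K`.
-/

set_option autoImplicit false

namespace Pool.Agent.WQL

open Pool.Agent.Lib.PolyTime Pool.Agent.WPM Pool.Agent.WPR Function

universe u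

theorem g2_relprime {R : Type*} [CommRing R] [IsDomain R] [UniqueFactorizationMonoid R] (I : Ideal R)
    (f₁ : R) (hf₁ : f₁ ≠ 0) (hI : ∀ h : R, Prime h → ∃ f ∈ I, ¬ h ∣ f) :
    ∃ f₂ ∈ I, IsRelPrime f₁ f₂ := by
  classical
  let s : Finset R := (UniqueFactorizationMonoid.factors f₁).toFinset
  have hs : ∀ p ∈ s, Prime p := by
    intro p hp
    exact UniqueFactorizationMonoid.prime_of_factor p (Multiset.mem_toFinset.mp hp)
  have h1 : ¬ ((I : Set R) ⊆ ⋃ i ∈ (↑s : Set R), ((Ideal.span {i} : Ideal R) : Set R)) := by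
    intro h
    rw [Ideal.subset_union_prime (s := s) (f := fun i => Ideal.span {i}) 0 0
      (fun i hi _ _ => (Ideal.span_singleton_prime (hs i hi).ne_zero).mpr (hs i hi))] at h
    obtain ⟨p, hp, hle⟩ := h
    obtain ⟨f, hf, hnf⟩ := hI p (hs p hp)
    exact hnf (Ideal.mem_span_singleton.mp (hle hf))
  rw [Set.not_subset] at h1
  obtain ⟨f₂, hf₂, hn⟩ := h1
  refine ⟨f₂, hf₂, ?_⟩
  intro d hd1 hd2
  by_contra hu
  have hd0 : d ≠ 0 := fun h => hf₁ (zero_dvd_iff.mp (h ▸ hd1))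
  obtain ⟨q, hq, hqd⟩ := WfDvdMonoid.exists_irreducible_factor hu hd0
  obtain ⟨p, hp, hpq⟩ := UniqueFactorizationMonoid.exists_mem_factors_of_dvd hf₁ hq (hqd.trans hd1)
  apply hn
  rw [Set.mem_iUnion₂]
  refine ⟨p, ?_, ?_⟩
  · exact Finset.mem_coe.mpr (Multiset.mem_toFinset.mpr hp)
  · exact Ideal.mem_span_singleton.mpr ((hpq.symm.dvd).trans (hqd.trans hd2))

theorem QL_group {G : Type u} [Group G] (A : Subgroup G) [A.Normal]
    (hcomm : ∀ a ∈ A, ∀ b ∈ A, a * b = b * a)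
    (hquot : ∀ x y : G, x * y * x⁻¹ * y⁻¹ ∈ A) {r m : ℕ} (g : Fin r → G)
    (hg : Subgroup.closure (Set.range g) = ⊤) (x : Fin m → G)
    (hx : ∀ h : G, ∃ k, 0 < k ∧ h ^ k ∈ Subgroup.closure (Set.range x) ⊔ A)
    (hind : ∀ v : Fin m → ℤ, gpow x v ∈ A → v = 0)
    (hA : ∀ a ∈ A, ∀ f₁ f₂ : LM m, IsRelPrime f₁ f₂ → actG x f₁ a = 1 → actG x f₂ a = 1 →
      ∃ d K : ℕ, 0 < d ∧ ∀ i : Fin m, actG x ((mo (Pi.single i (d : ℤ)) - 1) ^ K) a = 1) :
    QL (fun w : List (Letter r) => value g w = 1) := by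
  classical
  obtain ⟨k, N, tr, C, htr, hlen, hval, hlast⟩ := exists_instrM A hcomm hquot g hg x hx hind
  have := domain_LM m
  have := ufd_LM m
  have hN : ∀ y, (∀ h : LM m, Prime h → ∃ f, ¬ h ∣ f ∧ f • y ∈ N) →
      ∃ d K : ℕ, 0 < d ∧ ∀ i : Fin m, (mo (Pi.single i (d : ℤ)) - 1) ^ K • y ∈ N := by
    intro y hy
    obtain ⟨h0, hp0⟩ := exists_prime_LM m
    obtain ⟨f₁, hf₁, hf₁y⟩ := hy h0 hp0
    have hne : f₁ ≠ 0 := fun h => hf₁ (h ▸ dvd_zero _)
    obtain ⟨a, ha, hfa⟩ := hlast y f₁ hne hf₁y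
    let I : Ideal (LM m) := Submodule.comap (LinearMap.toSpanSingleton (LM m) (Fin k → LM m) y) N
    have hI : ∀ f, f ∈ I ↔ f • y ∈ N := by
      intro f
      rw [Submodule.mem_comap, LinearMap.toSpanSingleton_apply]
    obtain ⟨f₂, hf₂, hrel⟩ := g2_relprime I f₁ hne (fun h hp => by
      obtain ⟨f, hf, hfy⟩ := hy h hp
      exact ⟨f, (hI f).mpr hfy, hf⟩)
    obtain ⟨d, K, hd, hK⟩ := hA a ha f₁ f₂ hrel ((hfa f₁).mp hf₁y) ((hfa f₂).mp ((hI f₂).mp hf₂))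
    exact ⟨d, K, hd, fun i => (hfa _).mpr (hK i)⟩
  have h1 := QL_submodule N hN
  have h2 := QL.comp h1 C htr hlen
  exact h2.congr fun w => (hval w).symm

end Pool.Agent.WQL
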