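import Pool.Agent.Lib.MP_2da099_lc.QL.Defs
import Mathlib.RingTheory.Polynomial.GaussLemma
import Mathlib.RingTheory.Localization.FractionRing
import Mathlib.Algebra.Polynomial.FieldDivision
import Mathlib.RingTheory.PrincipalIdealDomain

/-!
# O1: cyclic submodules over a monogenic free algebra.

`R ≅ Λ[X] / (P)`, `P` monic; `R` is a free `Λ`-module.  Let `K` be the fraction field of `Λ`, `z̃ i ∈ Λ[X]` lifts of the
`z i`, `γ` = the monic gcd of `P` and the `z̃ i` in `K[X]`; `ψ = P / γ` is a monic divisor of `P` in `K[X]`, so it has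
coefficients in `Λ` (`Λ` is integrally closed; `IsIntegrallyClosed.eq_map_mul_C_of_dvd`).  For `q ∈ Λ[X]`:
`q(t) z = 0 ↔ P ∣ q z̃ i` for all `i` (in `Λ[X]` or in `K[X]`, `P` is monic) `↔ ψ ∣ q`.
If `f₁ = 0` then `f₂` is a unit.  Otherwise `f₁ y = b₁ z`, `f₂ y = b₂ z`, lifts `b̃ i`, remainders `c i` modulo `ψ`
(`%ₘ`): `(f₂ b₁ - f₁ b₂) z = 0`, so `ψ ∣ f₂ c₁ - f₁ c₂`, which has a smaller degree, so `f₂ c₁ = f₁ c₂`, and `f₁` divides all
coefficients of `c₁` (`IsRelPrime.dvd_of_dvd_mul_left`, `DecompositionMonoid`), `c₁ = f₁ c`; `f₁ (y - c(t) z) = 0` and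
`R` is torsion-free over `Λ`.
-/

set_option autoImplicit false

namespace Pool.Agent.WQL

open Pool.Agent.Lib.PolyTime Pool.Agent.WPM Pool.Agent.WPR Function

open Polynomial in
/-- The annihilator of a vector of polynomials modulo a monic polynomial is generated by a monic
polynomial. -/
theorem o1_ann {Λ : Type} [CommRing Λ] [IsDomain Λ] [UniqueFactorizationMonoid Λ]
    (P : Polynomial Λ) (hP : P.Monic) {r : ℕ} (z : Fin r → Polynomial Λ) :
    ∃ ψ : Polynomial Λ, ψ.Monic ∧ ∀ q : Polynomial Λ, ψ ∣ q ↔ ∀ i, P ∣ q * z i := by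
  classical
  set K := FractionRing Λ
  set φ : Λ →+* K := algebraMap Λ K with hφ
  have hφi : Function.Injective φ := IsFractionRing.injective Λ K
  have hPK : (P.map φ).Monic := hP.map φ
  let I : Ideal K[X] :=
    { carrier := {q | ∀ i, P.map φ ∣ q * (z i).map φ}
      add_mem' := by
        intro a b ha hb i
        rw [add_mul]
        exact dvd_add (ha i) (hb i)
      zero_mem' := by
        intro i
        rw [zero_mul]
        exact dvd_zero _
      smul_mem' := by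
        intro c a ha i
        rw [smul_eq_mul, mul_assoc]
        exact Dvd.dvd.mul_left (ha i) c }
  have hmemI : ∀ q : K[X], q ∈ I ↔ ∀ i, P.map φ ∣ q * (z i).map φ := fun q => Iff.rfl
  have hPI : P.map φ ∈ I := (hmemI _).2 fun i => dvd_mul_right _ _
  obtain ⟨g, hg⟩ := (IsPrincipalIdealRing.principal I).principal
  have hgI : ∀ q : K[X], q ∈ I ↔ g ∣ q := by
    intro q
    rw [hg, Submodule.mem_span_singleton]
    constructor
    · rintro ⟨a, rfl⟩
      exact ⟨a, by rw [smul_eq_mul, mul_comm]⟩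
    · rintro ⟨a, rfl⟩
      exact ⟨a, by rw [smul_eq_mul, mul_comm]⟩
  have hg0 : g ≠ 0 := by
    intro h0
    have := (hgI _).1 hPI
    rw [h0, zero_dvd_iff] at this
    exact hPK.ne_zero this
  have hgm : (g * C g.leadingCoeff⁻¹).Monic := monic_mul_leadingCoeff_inv hg0
  have hgP : g * C g.leadingCoeff⁻¹ ∣ P.map φ := by
    have hu : IsUnit (C g.leadingCoeff⁻¹ : K[X]) := by
      rw [isUnit_C]
      exact (inv_ne_zero (leadingCoeff_ne_zero.2 hg0)).isUnit
    exact (hu.mul_right_dvd).2 ((hgI _).1 hPI)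
  obtain ⟨ψ, hψ⟩ := IsIntegrallyClosed.eq_map_mul_C_of_dvd K hP hgP
  rw [hgm.leadingCoeff, C_1, mul_one] at hψ
  have hψm : ψ.Monic := monic_of_injective hφi (by rw [hφ, hψ]; exact hgm)
  refine ⟨ψ, hψm, fun q => ?_⟩
  rw [← map_dvd_map φ hφi hψm, hφ, hψ]
  have hu : IsUnit (C g.leadingCoeff⁻¹ : K[X]) := by
    rw [isUnit_C]
    exact (inv_ne_zero (leadingCoeff_ne_zero.2 hg0)).isUnit
  rw [hu.mul_right_dvd, ← hgI, hmemI]
  refine forall_congr' fun i => ?_
  rw [← Polynomial.map_mul, map_dvd_map φ hφi hP]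

theorem saturated_cyclic {Λ R : Type} [CommRing Λ] [IsDomain Λ] [UniqueFactorizationMonoid Λ]
    [CommRing R] [Algebra Λ R] (P : Polynomial Λ) (hP : P.Monic) (t : R)
    (hsurj : ∀ y : R, ∃ q : Polynomial Λ, Polynomial.aeval t q = y)
    (hker : ∀ q : Polynomial Λ, Polynomial.aeval t q = 0 ↔ P ∣ q) {r : ℕ} (z : Fin r → R)
    (y : Fin r → R) (f₁ f₂ : Λ) (hf : IsRelPrime f₁ f₂)
    (h₁ : ∃ b : R, f₁ • y = b • z) (h₂ : ∃ b : R, f₂ • y = b • z) : ∃ b : R, y = b • z := by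
  obtain ⟨b₁, hb₁⟩ := h₁
  obtain ⟨b₂, hb₂⟩ := h₂
  by_cases hf0 : f₁ = 0
  · rw [hf0, isRelPrime_zero_left] at hf
    obtain ⟨u, hu⟩ := hf
    refine ⟨(↑u⁻¹ : Λ) • b₂, ?_⟩
    rw [smul_assoc, ← hb₂, ← hu, smul_smul, Units.inv_mul, one_smul]
  -- torsion-free
  have htf : ∀ x : R, f₁ • x = 0 → x = 0 := by
    intro x hx
    obtain ⟨q, rfl⟩ := hsurj x
    rw [← map_smul, hker, ← Polynomial.modByMonic_eq_zero_iff_dvd hP, Polynomial.smul_modByMonic,
      smul_eq_zero] at hx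
    rw [hker, ← Polynomial.modByMonic_eq_zero_iff_dvd hP]
    exact hx.resolve_left hf0
  choose zz hzz using fun i => hsurj (z i)
  obtain ⟨ψ, hψm, hψ⟩ := o1_ann P hP zz
  have hann : ∀ q : Polynomial Λ, ψ ∣ q ↔ ∀ i, Polynomial.aeval t q * z i = 0 := by
    intro q
    rw [hψ]
    refine forall_congr' fun i => ?_
    rw [← hker, map_mul, hzz]
  obtain ⟨B₁, hB₁⟩ := hsurj b₁
  obtain ⟨B₂, hB₂⟩ := hsurj b₂
  have hq : ψ ∣ f₂ • B₁ - f₁ • B₂ := by
    rw [hann]
    intro i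
    have e1 : f₁ • y i = b₁ * z i := congrFun hb₁ i
    have e2 : f₂ • y i = b₂ * z i := congrFun hb₂ i
    rw [map_sub, map_smul, map_smul, hB₁, hB₂, sub_mul, smul_mul_assoc, smul_mul_assoc, ← e1, ← e2,
      smul_smul, smul_smul, mul_comm f₂ f₁, sub_self]
  have hc : f₂ • (B₁ %ₘ ψ) = f₁ • (B₂ %ₘ ψ) := by
    rw [← Polynomial.modByMonic_eq_zero_iff_dvd hψm, Polynomial.sub_modByMonic,
      Polynomial.smul_modByMonic, Polynomial.smul_modByMonic, sub_eq_zero] at hq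
    exact hq
  have hdvd : Polynomial.C f₁ ∣ B₁ %ₘ ψ := by
    rw [Polynomial.C_dvd_iff_dvd_coeff]
    intro n
    have e := congrArg (fun p => Polynomial.coeff p n) hc
    simp only [Polynomial.coeff_smul, smul_eq_mul] at e
    exact hf.dvd_of_dvd_mul_left (Dvd.intro _ e.symm)
  obtain ⟨c, hc1⟩ := hdvd
  refine ⟨Polynomial.aeval t c, ?_⟩
  funext i
  have e1 : f₁ • y i = b₁ * z i := congrFun hb₁ i
  have hrem : ∀ i, Polynomial.aeval t (B₁ - B₁ %ₘ ψ) * z i = 0 := by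
    rw [← hann]
    refine ⟨B₁ /ₘ ψ, ?_⟩
    have := Polynomial.modByMonic_add_div B₁ ψ
    linear_combination (exp := 1) -this
  have e3 := hrem i
  rw [map_sub, hB₁, hc1, map_mul, Polynomial.aeval_C, sub_mul] at e3
  have e4 : f₁ • (y i - Polynomial.aeval t c * z i) = 0 := by
    rw [smul_sub, e1, Algebra.smul_def, ← mul_assoc]
    exact e3
  have e5 := htf _ e4
  rw [Pi.smul_apply, smul_eq_mul]
  exact sub_eq_zero.1 e5

end Pool.Agent.WQL
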