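import Pool.Agent.Lib.MP_2da099_lc.QL.Defs

/-!
# O2: Fox derivatives.

The group of the pairs `(a, v)`, `a ∈ Rˣ`, `v ∈ Fin r → R`, with `(a, v)(b, w) = (a b, v + a w)` (a semidirect product, or
define the group by hand, or use `2 × 2` block matrices); `FreeGroup.lift` of `i ↦ (u i, e_i)`.
-/

set_option autoImplicit false

namespace Pool.Agent.WQL

open Pool.Agent.Lib.PolyTime Pool.Agent.WPM Pool.Agent.WPR Function

/-- The affine map `x ↦ e + a x`. -/
private def o2_aff {r : ℕ} {R : Type} [CommRing R] (a : Rˣ) (e : Fin r → R) :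
    Equiv.Perm (Fin r → R) where
  toFun x := e + (a : R) • x
  invFun x := ((a⁻¹ : Rˣ) : R) • (x - e)
  left_inv x := by
    simp only [add_sub_cancel_left, smul_smul, Units.inv_mul, one_smul]
  right_inv x := by
    simp only [smul_smul, Units.mul_inv, one_smul, add_sub_cancel]

theorem exists_fox {r : ℕ} {R : Type} [CommRing R] (u : Fin r → Rˣ) :
    ∃ δ : FreeGroup (Fin r) → (Fin r → R),
      (∀ v w, δ (v * w) = δ v + ((FreeGroup.lift u v : Rˣ) : R) • δ w) ∧
      ∀ i, δ (FreeGroup.of i) = Pi.single i 1 := by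
  classical
  let T : FreeGroup (Fin r) →* Equiv.Perm (Fin r → R) :=
    FreeGroup.lift (fun i => o2_aff (u i) (Pi.single i 1))
  have hof : ∀ i x, T (FreeGroup.of i) x = Pi.single i 1 + ((u i : Rˣ) : R) • x := by
    intro i x
    simp only [T, FreeGroup.lift_apply_of]
    rfl
  have hinv : ∀ i x, T (FreeGroup.of i)⁻¹ x = (((u i)⁻¹ : Rˣ) : R) • (x - Pi.single i 1) := by
    intro i x
    simp only [T, map_inv, FreeGroup.lift_apply_of]
    rfl
  have key : ∀ v x, T v x = T v 0 + ((FreeGroup.lift u v : Rˣ) : R) • x := by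
    intro v
    induction v using FreeGroup.induction_on with
    | C1 => intro x; simp
    | of i =>
      intro x
      rw [hof, hof, FreeGroup.lift_apply_of, smul_zero, add_zero]
    | inv_of i ih =>
      intro x
      rw [hinv, hinv, map_inv, FreeGroup.lift_apply_of, smul_sub, smul_sub, smul_zero, zero_sub,
        sub_eq_neg_add]
    | mul v w hv hw =>
      intro x
      rw [map_mul, map_mul, Equiv.Perm.mul_apply, Equiv.Perm.mul_apply, hv (T w x), hw x,
        hv (T w 0), smul_add, Units.val_mul, mul_smul, add_assoc]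
  refine ⟨fun v => T v 0, fun v w => ?_, fun i => ?_⟩
  · change T (v * w) 0 = T v 0 + ((FreeGroup.lift u v : Rˣ) : R) • T w 0
    rw [map_mul, Equiv.Perm.mul_apply]
    exact key v (T w 0)
  · change T (FreeGroup.of i) 0 = Pi.single i 1
    rw [hof, smul_zero, add_zero]

end Pool.Agent.WQL
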