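import Pool.Agent.Lib.MP_2da099_lc.QL.G0
import Pool.Agent.Lib.MP_2da099_lc.QL.O2

/-!
# O3: the Magnus embedding.

`F = FreeGroup (Fin r)`, `H = F ⧸ ⁅K0, K0⁆`, `A` = the image of `K0`, an abelian normal subgroup; `exists_derivationT` (or
`exists_derivationZ`) gives `M, ρ, D` for `H, A`.  For words (lists of letters) one has
`D (w) = Σ over the letters ± ρ (prefix) (D (x i))`, and `ρ (prefix)` depends only on the class of the prefix modulo `K0`,
i.e. on `φ (prefix)`, `φ = FreeGroup.lift u`; `δ w = Σ over the letters ± φ (prefix) e_i` with the same signs and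
prefixes.  By the linear independence of the elements of the range of `φ`, `δ w = 0` says that for every `i` and every
element `q` of the range the signed number of letters `i` with the prefix `q` is 0, so `D w = 0` and `w ∈ ⁅K0, K0⁆`.
A good way: define the formal Fox derivative `F → (Fin r → (φ.range →₀ ℤ))` (as `exists_fox` for
`R' = MonoidAlgebra ℤ φ.range`, `φ.range` is commutative) and compare both `δ` (through the injective map
`MonoidAlgebra ℤ φ.range → R`) and `D` (through the action of `MonoidAlgebra ℤ φ.range` on `M`) with it; derivations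
which agree on the generators agree (`FreeGroup.induction_on`).
-/

set_option autoImplicit false

namespace Pool.Agent.WQL

open Pool.Agent.Lib.PolyTime Pool.Agent.WPM Pool.Agent.WPR Function

open scoped commutatorElement

/-- Derivations of a free group are determined by their values at the generators. -/
theorem O3_der_unique {r : ℕ} {M : Type} [AddCommGroup M]
    (ρ : FreeGroup (Fin r) →* AddMonoid.End M) (d e : FreeGroup (Fin r) → M)
    (hd : ∀ v w, d (v * w) = d v + ρ v (d w)) (he : ∀ v w, e (v * w) = e v + ρ v (e w))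
    (h : ∀ i, d (FreeGroup.of i) = e (FreeGroup.of i)) (w : FreeGroup (Fin r)) : d w = e w := by
  have one : ∀ f : FreeGroup (Fin r) → M, (∀ v w, f (v * w) = f v + ρ v (f w)) → f 1 = 0 := by
    intro f hf
    have h1 := hf 1 1
    simpa using h1
  have inv : ∀ f : FreeGroup (Fin r) → M, (∀ v w, f (v * w) = f v + ρ v (f w)) →
      ∀ v, f v⁻¹ = - ρ v⁻¹ (f v) := by
    intro f hf v
    have h1 := hf v⁻¹ v
    rw [inv_mul_cancel, one f hf] at h1
    exact eq_neg_of_add_eq_zero_left h1.symm
  induction w using FreeGroup.induction_on with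
  | C1 => rw [one d hd, one e he]
  | of i => exact h i
  | inv_of i hi => rw [inv d hd, inv e he]; congr 2
  | mul x y hx hy => rw [hd, he, hx, hy]

theorem magnus {r : ℕ} (K0 : Subgroup (FreeGroup (Fin r))) [K0.Normal] {R : Type} [CommRing R]
    (u : Fin r → Rˣ) (hu : ∀ w, FreeGroup.lift u w = 1 ↔ w ∈ K0)
    (hlin : LinearIndependent ℤ (fun q : (FreeGroup.lift u).range => (((q : Rˣ)) : R)))
    (δ : FreeGroup (Fin r) → (Fin r → R))
    (hδ : ∀ v w, δ (v * w) = δ v + ((FreeGroup.lift u v : Rˣ) : R) • δ w)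
    (hδ1 : ∀ i, δ (FreeGroup.of i) = Pi.single i 1) (w : FreeGroup (Fin r)) (hw : w ∈ K0)
    (h0 : δ w = 0) : w ∈ ⁅K0, K0⁆ := by
  classical
  let N : Subgroup (FreeGroup (Fin r)) := ⁅K0, K0⁆
  have hN : N.Normal := Subgroup.commutator_normal K0 K0
  let mk : FreeGroup (Fin r) →* FreeGroup (Fin r) ⧸ N := QuotientGroup.mk' N
  let A : Subgroup (FreeGroup (Fin r) ⧸ N) := K0.map mk
  have hA : A.Normal := Subgroup.Normal.map inferInstance mk (QuotientGroup.mk'_surjective N)
  have hcomm : ∀ a ∈ A, ∀ b ∈ A, a * b = b * a := by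
    rintro _ ⟨a, ha, rfl⟩ _ ⟨b, hb, rfl⟩
    rw [← map_mul, ← map_mul]
    refine (QuotientGroup.eq (s := N)).2 ?_
    have h := Subgroup.commutator_mem_commutator (K0.inv_mem hb) (K0.inv_mem ha)
    have e : (a * b)⁻¹ * (b * a) = ⁅b⁻¹, a⁻¹⁆ := by
      rw [commutatorElement_def]; group
    rw [e]; exact h
  obtain ⟨M, _, ρ, D, _, hρA, hD, hD1, _, _⟩ := exists_derivationT A hcomm
  -- the action of the range of `φ`
  let φ : FreeGroup (Fin r) →* Rˣ := FreeGroup.lift u
  let ρ' : FreeGroup (Fin r) →* AddMonoid.End M := ρ.comp mk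
  have hker : ∀ v ∈ φ.ker, ρ' v = 1 := fun v hv =>
    hρA _ ⟨v, (hu v).1 hv, rfl⟩
  let e := QuotientGroup.quotientKerEquivRange φ
  let ρb : φ.range →* AddMonoid.End M :=
    (QuotientGroup.lift φ.ker ρ' hker).comp e.symm.toMonoidHom
  have hρb : ∀ v, ρb (φ.rangeRestrict v) = ρ' v := by
    intro v
    have h1 : e.symm (φ.rangeRestrict v) = (v : FreeGroup (Fin r) ⧸ φ.ker) := by
      rw [MulEquiv.symm_apply_eq]
      rfl
    change QuotientGroup.lift φ.ker ρ' hker (e.symm (φ.rangeRestrict v)) = ρ' v
    rw [h1]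
    exact QuotientGroup.lift_mk _ _ _
  -- the group ring
  let S := MonoidAlgebra ℤ φ.range
  let un : φ.range →* Sˣ := (MonoidAlgebra.of ℤ φ.range).toHomUnits
  let u' : Fin r → Sˣ := fun i => un (φ.rangeRestrict (FreeGroup.of i))
  have hu' : ∀ v, ((FreeGroup.lift u' v : Sˣ) : S) = MonoidAlgebra.of ℤ φ.range (φ.rangeRestrict v) := by
    intro v
    have h1 : FreeGroup.lift u' = un.comp φ.rangeRestrict := by
      ext i
      simp [u']
    rw [h1]
    rfl
  obtain ⟨δ', hδ', hδ'1⟩ := exists_fox u'
  -- comparison with `δ`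
  let ι : S →ₐ[ℤ] R := MonoidAlgebra.lift ℤ R φ.range ((Units.coeHom R).comp φ.range.subtype)
  have hι : Injective ι := by
    intro x y hxy
    have h1 : ∀ z : S, ι z = Finsupp.linearCombination ℤ
        (fun q : φ.range => (((q : Rˣ)) : R)) z.coeff := by
      intro z
      rw [MonoidAlgebra.lift_apply, Finsupp.linearCombination_apply]
      rfl
    rw [h1, h1] at hxy
    exact MonoidAlgebra.coeff_injective (hlin hxy)
  have c1 : ∀ v i, ι (δ' v i) = δ v i := by
    intro v i
    refine O3_der_unique (M := R)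
      ((Module.toAddMonoidEnd R R).toMonoidHom.comp ((Units.coeHom R).comp φ))
      (fun v => ι (δ' v i)) (fun v => δ v i) ?_ ?_ ?_ v
    · intro v w
      have := congrFun (hδ' v w) i
      rw [Pi.add_apply, Pi.smul_apply, smul_eq_mul, hu'] at this
      change ι (δ' (v * w) i) = ι (δ' v i) + ((φ v : Rˣ) : R) • ι (δ' w i)
      rw [this, map_add, map_mul, smul_eq_mul]
      congr 2
      change ι (MonoidAlgebra.of ℤ φ.range (φ.rangeRestrict v)) = _
      rw [MonoidAlgebra.lift_of]
      rfl
    · intro v w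
      have := congrFun (hδ v w) i
      exact this
    · intro j
      change ι (δ' (FreeGroup.of j) i) = δ (FreeGroup.of j) i
      rw [hδ'1, hδ1]
      by_cases hij : i = j
      · subst hij; simp
      · simp [Pi.single_eq_of_ne hij]
  have hz : δ' w = 0 := by
    funext i
    apply hι
    rw [c1, h0]
    simp
  -- comparison with `D`
  let a : S →ₐ[ℤ] AddMonoid.End M := MonoidAlgebra.lift ℤ (AddMonoid.End M) φ.range ρb
  have c2 : ∀ v, D (mk v) = ∑ i, a (δ' v i) (D (mk (FreeGroup.of i))) := by
    intro v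
    refine O3_der_unique (M := M) ρ' (fun v => D (mk v))
      (fun v => ∑ i, a (δ' v i) (D (mk (FreeGroup.of i)))) ?_ ?_ ?_ v
    · intro v w
      change D (mk (v * w)) = _
      rw [map_mul, hD]
      rfl
    · intro v w
      change ∑ i, a (δ' (v * w) i) (D (mk (FreeGroup.of i))) = _
      rw [map_sum, ← Finset.sum_add_distrib]
      refine Finset.sum_congr rfl fun i _ => ?_
      have := congrFun (hδ' v w) i
      rw [Pi.add_apply, Pi.smul_apply, smul_eq_mul, hu'] at this
      rw [this, map_add, map_mul, MonoidAlgebra.lift_of, hρb]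
      rfl
    · intro j
      change D (mk (FreeGroup.of j)) = ∑ i, a (δ' (FreeGroup.of j) i) (D (mk (FreeGroup.of i)))
      rw [hδ'1, Finset.sum_eq_single j]
      · simp
      · intro i _ hij
        rw [Pi.single_eq_of_ne hij, map_zero]; rfl
      · intro h; exact absurd (Finset.mem_univ _) h
  have hDw : D (mk w) = 0 := by
    rw [c2, hz]
    simp
  have h1 := (hD1 _).1 hDw
  exact (QuotientGroup.eq_one_iff (N := N) w).1 h1

end Pool.Agent.WQL
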