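import Pool.Agent.Lib.MP_2da099_lc.QL.L01
import Pool.Agent.Lib.MP_2da099_lc.QL.R1
import Mathlib.RingTheory.AdjoinRoot
import Mathlib.RingTheory.AlgebraTower

/-!
# O3r: the group ring of the abelianisation of a one-relator group.

`n i` = the exponent sum of `x i` in `ρ`.  If all `n i = 0`: `m = r`, `R = LM r`, `P = X`, `t = 0`, `u i = mo e_i`.  Otherwise
choose `j` with `n j ≠ 0`, `d = |n j|`, `m = r - 1`, `e` = the other indices (`Fin.succAbove`, write `r = m + 1`),
`P = X ^ d - C (mo u0)` with `u0 i = ∓ n (e i)` so that `t ^ (n j) * Π Y_i ^ (n (e i)) = 1`, `R = AdjoinRoot P`, `t` the root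
(a unit: `t ^ d` is a unit), `u j = t`, `u (e i) = Y_i`.
-/

set_option autoImplicit false

namespace Pool.Agent.WQL

open Pool.Agent.Lib.PolyTime Pool.Agent.WPM Pool.Agent.WPR Function

/-- The exponent sums. -/
noncomputable def o3r_ex (r : ℕ) : FreeGroup (Fin r) →* Multiplicative (Fin r → ℤ) :=
  FreeGroup.lift (fun i => Multiplicative.ofAdd (Pi.single i (1 : ℤ)))

theorem o3r_lift {r : ℕ} {A : Type*} [CommGroup A] (f : Fin r → A) (w : FreeGroup (Fin r)) :
    FreeGroup.lift f w = ∏ i, f i ^ (Multiplicative.toAdd (o3r_ex r w) i) := by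
  induction w using FreeGroup.induction_on with
  | C1 => simp
  | of i =>
    rw [FreeGroup.lift_apply_of, Finset.prod_eq_single i]
    · simp [o3r_ex]
    · intro j _ hj
      simp [o3r_ex, Pi.single_eq_of_ne hj]
    · intro h
      exact absurd (Finset.mem_univ _) h
  | inv_of i ih =>
    rw [map_inv, ih, map_inv]
    simp
  | mul v w hv hw =>
    rw [map_mul, hv, hw, map_mul, ← Finset.prod_mul_distrib]
    refine Finset.prod_congr rfl (fun i _ => ?_)
    rw [toAdd_mul, Pi.add_apply, zpow_add]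

theorem o3r_ker (r : ℕ) (w : FreeGroup (Fin r)) :
    o3r_ex r w = 1 ↔ w ∈ commutator (FreeGroup (Fin r)) := by
  constructor
  · intro h
    have h2 : (Abelianization.of : FreeGroup (Fin r) →* _) =
        FreeGroup.lift (fun i => Abelianization.of (FreeGroup.of i)) := by
      ext i
      simp
    rw [← Abelianization.ker_of, MonoidHom.mem_ker, h2, o3r_lift, h]
    simp
  · intro h
    have := Abelianization.commutator_subset_ker (o3r_ex r) h
    exact MonoidHom.mem_ker.1 this

theorem o3r_mem {r : ℕ} (ρ w : FreeGroup (Fin r)) :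
    w ∈ Subgroup.normalClosure {ρ} ⊔ commutator (FreeGroup (Fin r)) ↔
      ∃ k : ℤ, Multiplicative.toAdd (o3r_ex r w) = k • Multiplicative.toAdd (o3r_ex r ρ) := by
  constructor
  · intro h
    have h1 : Subgroup.normalClosure {ρ} ⊔ commutator (FreeGroup (Fin r)) ≤
        (Subgroup.zpowers (o3r_ex r ρ)).comap (o3r_ex r) := by
      apply sup_le
      · apply Subgroup.normalClosure_le_normal
        intro x hx
        rw [Set.mem_singleton_iff] at hx
        rw [hx]
        exact Subgroup.mem_zpowers _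
      · intro x hx
        rw [Subgroup.mem_comap, (o3r_ker r x).2 hx]
        exact one_mem _
    obtain ⟨k, hk⟩ := Subgroup.mem_zpowers_iff.1 (h1 h)
    exact ⟨k, by rw [← hk, toAdd_zpow]⟩
  · rintro ⟨k, hk⟩
    have h1 : w * (ρ ^ k)⁻¹ ∈ commutator (FreeGroup (Fin r)) := by
      rw [← o3r_ker, map_mul, map_inv, map_zpow, mul_inv_eq_one]
      apply Multiplicative.toAdd.injective
      rw [toAdd_zpow]
      exact hk
    have h2 : ρ ^ k ∈ Subgroup.normalClosure {ρ} :=
      Subgroup.zpow_mem _ (Subgroup.subset_normalClosure (Set.mem_singleton ρ)) k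
    have h3 := Subgroup.mul_mem _
      (Subgroup.mem_sup_right (S := Subgroup.normalClosure {ρ}) h1)
      (Subgroup.mem_sup_left (T := commutator (FreeGroup (Fin r))) h2)
    rwa [inv_mul_cancel_right] at h3

/-- The monomials as units. -/
noncomputable def o3r_mu (m : ℕ) : Multiplicative (Fin m → ℤ) →* (LM m)ˣ :=
  MonoidHom.toHomUnits
    { toFun := fun v => mo (Multiplicative.toAdd v)
      map_one' := mo_zero
      map_mul' := fun _ _ => mo_add _ _ }

theorem o3r_mu_val {m : ℕ} (v : Multiplicative (Fin m → ℤ)) :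
    ((o3r_mu m v : (LM m)ˣ) : LM m) = mo (Multiplicative.toAdd v) := rfl

theorem o3r_single_sum {m : ℕ} (v : Fin m → ℤ) :
    ∏ i, (Multiplicative.ofAdd (Pi.single i (1 : ℤ) : Fin m → ℤ)) ^ (v i) =
      Multiplicative.ofAdd v := by
  apply Multiplicative.toAdd.injective
  rw [toAdd_prod]
  simp only [toAdd_zpow, toAdd_ofAdd]
  funext j
  rw [Finset.sum_apply, Finset.sum_eq_single j]
  · simp
  · intro i _ hi
    simp [Pi.single_eq_of_ne hi.symm]
  · intro h
    exact absurd (Finset.mem_univ _) h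

theorem o3r_mu_prod {m : ℕ} (v : Fin m → ℤ) :
    ∏ i, (o3r_mu m (Multiplicative.ofAdd (Pi.single i (1 : ℤ)))) ^ (v i) =
      o3r_mu m (Multiplicative.ofAdd v) := by
  rw [← o3r_single_sum v, map_prod]
  simp only [map_zpow]

theorem o3r_mo_inj {m : ℕ} : Function.Injective (mo : (Fin m → ℤ) → LM m) :=
  AddMonoidAlgebra.single_left_injective one_ne_zero

theorem o3r_sur (r : ℕ) (v : Fin r → ℤ) : ∃ w, o3r_ex r w = Multiplicative.ofAdd v := by
  have h1 : Multiplicative.ofAdd v ∈ (o3r_ex r).range := by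
    rw [← o3r_single_sum v]
    refine Subgroup.prod_mem _ (fun i _ => Subgroup.zpow_mem _ ?_ _)
    exact ⟨FreeGroup.of i, FreeGroup.lift_apply_of⟩
  exact MonoidHom.mem_range.1 h1

theorem o3r_span {M ι : Type} [AddCommGroup M] (b : Module.Basis ι ℤ M) (S : AddSubgroup M)
    (h : ∀ i, b i ∈ S) (y : M) : y ∈ S := by
  have h1 : Submodule.span ℤ (Set.range b) ≤ AddSubgroup.toIntSubmodule S := by
    rw [Submodule.span_le]
    rintro _ ⟨i, rfl⟩
    exact h i
  exact h1 (b.mem_span y)

/-- The case of exponent sums 0. -/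
theorem o3r_zero (r : ℕ) (ρ : FreeGroup (Fin r)) (h0 : Multiplicative.toAdd (o3r_ex r ρ) = 0) :
    ∃ (m : ℕ) (e : Fin m → Fin r) (R : Type) (_ : CommRing R) (_ : Algebra (LM m) R)
      (P : Polynomial (LM m)) (t : R) (u : Fin r → Rˣ), P.Monic ∧
      (∀ y : R, ∃ q : Polynomial (LM m), Polynomial.aeval t q = y) ∧
      (∀ q : Polynomial (LM m), Polynomial.aeval t q = 0 ↔ P ∣ q) ∧
      (∀ w, FreeGroup.lift u w = 1 ↔
        w ∈ Subgroup.normalClosure {ρ} ⊔ commutator (FreeGroup (Fin r))) ∧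
      LinearIndependent ℤ (fun q : (FreeGroup.lift u).range => (((q : Rˣ)) : R)) ∧
      Function.Injective (algebraMap (LM m) R) ∧
      (∀ i, ((u (e i) : Rˣ) : R) = algebraMap (LM m) R (mo (Pi.single i 1))) ∧
      (∀ i : Fin r, ∃ k, 0 < k ∧ u i ^ k ∈ Subgroup.closure (Set.range (fun j => u (e j)))) ∧
      ∀ y : R, y ∈ AddSubgroup.closure (Set.range (fun w : FreeGroup (Fin r) =>
        ((FreeGroup.lift u w : Rˣ) : R))) := by
  have hl : ∀ w : FreeGroup (Fin r),
      FreeGroup.lift (fun i => o3r_mu r (Multiplicative.ofAdd (Pi.single i (1 : ℤ)))) w =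
        o3r_mu r (o3r_ex r w) := by
    intro w
    rw [o3r_lift, o3r_mu_prod]
    rfl
  refine ⟨r, id, LM r, inferInstance, inferInstance, Polynomial.X, 0,
    fun i => o3r_mu r (Multiplicative.ofAdd (Pi.single i (1 : ℤ))), Polynomial.monic_X, ?_, ?_, ?_,
    ?_, ?_, ?_, ?_, ?_⟩
  · intro y
    exact ⟨Polynomial.C y, by simp⟩
  · intro q
    rw [Polynomial.X_dvd_iff, Polynomial.coeff_zero_eq_aeval_zero]
  · intro w
    rw [hl, o3r_mem, h0]
    constructor
    · intro h
      refine ⟨0, ?_⟩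
      have h1 : (mo (Multiplicative.toAdd (o3r_ex r w)) : LM r) = mo 0 := by
        rw [← o3r_mu_val, h, mo_zero]
        rfl
      rw [o3r_mo_inj h1, smul_zero]
    · rintro ⟨k, hk⟩
      rw [smul_zero] at hk
      have h1 : o3r_ex r w = 1 := Multiplicative.toAdd.injective hk
      rw [h1, map_one]
  · have hb := (AddMonoidAlgebra.basis (Fin r → ℤ) ℤ).linearIndependent
    have hsur : ∀ q : (FreeGroup.lift
        (fun i => o3r_mu r (Multiplicative.ofAdd (Pi.single i (1 : ℤ))))).range,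
        ∃ v : Fin r → ℤ, ((q : (LM r)ˣ) : LM r) = mo v := by
      rintro ⟨q, w, hw⟩
      refine ⟨Multiplicative.toAdd (o3r_ex r w), ?_⟩
      rw [← o3r_mu_val, ← hl w, hw]
    choose κ hκ using hsur
    have hinj : Function.Injective κ := by
      intro q q' h
      apply Subtype.ext
      apply Units.ext
      rw [hκ, hκ, h]
    have h2 := hb.comp κ hinj
    have h3 : (fun q : (FreeGroup.lift
        (fun i => o3r_mu r (Multiplicative.ofAdd (Pi.single i (1 : ℤ))))).range =>
        ((q : (LM r)ˣ) : LM r)) = (AddMonoidAlgebra.basis (Fin r → ℤ) ℤ) ∘ κ := funext hκ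
    rw [h3]
    exact h2
  · exact fun a b h => h
  · intro i
    rfl
  · intro i
    refine ⟨1, one_pos, ?_⟩
    rw [pow_one]
    exact Subgroup.subset_closure ⟨i, rfl⟩
  · refine o3r_span (AddMonoidAlgebra.basis (Fin r → ℤ) ℤ) _ (fun v => ?_)
    obtain ⟨w, hw⟩ := o3r_sur r v
    refine AddSubgroup.subset_closure ⟨w, ?_⟩
    show ((FreeGroup.lift (fun i => o3r_mu r (Multiplicative.ofAdd (Pi.single i (1 : ℤ)))) w :
      (LM r)ˣ) : LM r) = _
    rw [hl, hw, o3r_mu_val]
    rfl

/-- The case of a nonzero exponent sum. -/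
theorem o3r_nonzero (m : ℕ) (ρ : FreeGroup (Fin (m + 1))) (j : Fin (m + 1))
    (hj : Multiplicative.toAdd (o3r_ex (m + 1) ρ) j ≠ 0) :
    ∃ (e : Fin m → Fin (m + 1)) (R : Type) (_ : CommRing R) (_ : Algebra (LM m) R)
      (P : Polynomial (LM m)) (t : R) (u : Fin (m + 1) → Rˣ), P.Monic ∧
      (∀ y : R, ∃ q : Polynomial (LM m), Polynomial.aeval t q = y) ∧
      (∀ q : Polynomial (LM m), Polynomial.aeval t q = 0 ↔ P ∣ q) ∧
      (∀ w, FreeGroup.lift u w = 1 ↔
        w ∈ Subgroup.normalClosure {ρ} ⊔ commutator (FreeGroup (Fin (m + 1)))) ∧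
      LinearIndependent ℤ (fun q : (FreeGroup.lift u).range => (((q : Rˣ)) : R)) ∧
      Function.Injective (algebraMap (LM m) R) ∧
      (∀ i, ((u (e i) : Rˣ) : R) = algebraMap (LM m) R (mo (Pi.single i 1))) ∧
      (∀ i : Fin (m + 1), ∃ k, 0 < k ∧
        u i ^ k ∈ Subgroup.closure (Set.range (fun j => u (e j)))) ∧
      ∀ y : R, y ∈ AddSubgroup.closure (Set.range (fun w : FreeGroup (Fin (m + 1)) =>
        ((FreeGroup.lift u w : Rˣ) : R))) := by
  set n : Fin (m + 1) → ℤ := Multiplicative.toAdd (o3r_ex (m + 1) ρ) with hn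
  set d : ℕ := (n j).natAbs with hd
  have hd0 : 0 < d := Int.natAbs_pos.2 hj
  have hdz : (0 : ℤ) < (d : ℤ) := by exact_mod_cast hd0
  obtain ⟨s, hs1, hs2⟩ : ∃ s : ℤ, s * s = 1 ∧ n j = s * d := by
    refine ⟨(n j).sign, ?_, ?_⟩
    · rcases lt_trichotomy (n j) 0 with h | h | h
      · rw [Int.sign_eq_neg_one_of_neg h]; norm_num
      · exact absurd h hj
      · rw [Int.sign_eq_one_of_pos h]; norm_num
    · rw [hd, Int.sign_mul_natAbs]
  set u0 : Fin m → ℤ := fun i => - s * n (j.succAbove i) with hu0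
  set P : Polynomial (LM m) := Polynomial.X ^ d - Polynomial.C (mo u0) with hPdef
  have hP : P.Monic := Polynomial.monic_X_pow_sub_C _ hd0.ne'
  have hdeg : P.natDegree = d := by
    exact Polynomial.natDegree_X_pow_sub_C
  set t : AdjoinRoot P := AdjoinRoot.root P with ht
  set al : LM m →+* AdjoinRoot P := algebraMap (LM m) (AdjoinRoot P) with hal
  have htd : t ^ d = al (mo u0) := by
    have h1 : Polynomial.aeval t (Polynomial.X ^ d - Polynomial.C (mo u0)) = 0 := by
      rw [ht, AdjoinRoot.aeval_eq]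
      exact AdjoinRoot.mk_self
    rw [map_sub, map_pow, Polynomial.aeval_X, Polynomial.aeval_C, sub_eq_zero] at h1
    exact h1
  have hunit : IsUnit t := by
    have h1 : IsUnit (t ^ d) := by
      rw [htd]
      exact (mo_unit u0).map al
    exact (isUnit_pow_iff hd0.ne').1 h1
  obtain ⟨tU, htU⟩ := hunit
  set mU : Multiplicative (Fin m → ℤ) →* (AdjoinRoot P)ˣ :=
    (Units.map (al : LM m →* AdjoinRoot P)).comp (o3r_mu m) with hmU
  have hmUv : ∀ v : Fin m → ℤ, ((mU (Multiplicative.ofAdd v) : (AdjoinRoot P)ˣ) :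
      AdjoinRoot P) = al (mo v) := fun v => rfl
  have htUd : tU ^ d = mU (Multiplicative.ofAdd u0) := by
    apply Units.ext
    rw [Units.val_pow_eq_pow_val, htU, htd, hmUv]
  set u : Fin (m + 1) → (AdjoinRoot P)ˣ := fun i =>
    j.insertNth (α := fun _ => (AdjoinRoot P)ˣ) tU
      (fun i => mU (Multiplicative.ofAdd (Pi.single i (1 : ℤ)))) i with hu
  have huj : u j = tU := by
    rw [hu]
    exact Fin.insertNth_apply_same _ _ _
  have hue : ∀ i, u (j.succAbove i) = mU (Multiplicative.ofAdd (Pi.single i (1 : ℤ))) := by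
    intro i
    rw [hu]
    exact Fin.insertNth_apply_succAbove _ _ _ _
  -- values
  have hlift : ∀ w : FreeGroup (Fin (m + 1)), FreeGroup.lift u w =
      tU ^ (Multiplicative.toAdd (o3r_ex (m + 1) w) j) *
        mU (Multiplicative.ofAdd (fun i => Multiplicative.toAdd (o3r_ex (m + 1) w)
          (j.succAbove i))) := by
    intro w
    rw [o3r_lift, Fin.prod_univ_succAbove _ j, huj]
    congr 1
    rw [← o3r_single_sum, map_prod]
    refine Finset.prod_congr rfl (fun i _ => ?_)
    rw [hue, map_zpow]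
  have hnf : ∀ (a : ℤ) (b : Fin m → ℤ), tU ^ a * mU (Multiplicative.ofAdd b) =
      mU (Multiplicative.ofAdd (b + (a / d) • u0)) * tU ^ (a % d).toNat := by
    intro a b
    have h1 : tU ^ a = (tU ^ d) ^ (a / d) * tU ^ (a % d).toNat := by
      have h2 : ((a % d).toNat : ℤ) = a % d := Int.toNat_of_nonneg (Int.emod_nonneg _ hdz.ne')
      rw [← zpow_natCast tU (a % d).toNat, h2, ← zpow_natCast tU d, ← zpow_mul, ← zpow_add,
        Int.mul_ediv_add_emod]
    rw [h1, htUd, ← map_zpow, ← ofAdd_zsmul, ofAdd_add, map_mul, mul_right_comm, mul_comm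
      (mU (Multiplicative.ofAdd ((a / (d : ℤ)) • u0)))]
  -- the basis
  set pb := AdjoinRoot.powerBasis' hP with hpb
  have hdim : pb.dim = d := by
    rw [hpb, AdjoinRoot.powerBasis'_dim, hdeg]
  set B := (AddMonoidAlgebra.basis (Fin m → ℤ) ℤ).smulTower pb.basis with hB
  have hBv : ∀ (v : Fin m → ℤ) (k : Fin pb.dim), B (v, k) = al (mo v) * t ^ (k : ℕ) := by
    intro v k
    rw [hB, Module.Basis.smulTower_apply, PowerBasis.basis_eq_pow, Algebra.smul_def]
    rfl
  have hlt : ∀ a : ℤ, (a % d).toNat < pb.dim := by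
    intro a
    rw [hdim]
    have h2 : ((a % d).toNat : ℤ) = a % d := Int.toNat_of_nonneg (Int.emod_nonneg _ hdz.ne')
    have h3 := Int.emod_lt_of_pos a hdz
    omega
  have hval : ∀ w : FreeGroup (Fin (m + 1)), ((FreeGroup.lift u w : (AdjoinRoot P)ˣ) :
      AdjoinRoot P) = B ((fun i => Multiplicative.toAdd (o3r_ex (m + 1) w) (j.succAbove i)) +
        (Multiplicative.toAdd (o3r_ex (m + 1) w) j / d) • u0,
        ⟨(Multiplicative.toAdd (o3r_ex (m + 1) w) j % d).toNat, hlt _⟩) := by
    intro w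
    rw [hlift, hnf, Units.val_mul, hmUv, Units.val_pow_eq_pow_val, htU, hBv]
  have hBinj : Function.Injective B := B.injective
  refine ⟨j.succAbove, AdjoinRoot P, inferInstance, inferInstance, P, t, u, hP, ?_, ?_, ?_, ?_, ?_,
    ?_, ?_, ?_⟩
  · intro y
    obtain ⟨q, hq⟩ := AdjoinRoot.mk_surjective y
    exact ⟨q, by rw [ht, AdjoinRoot.aeval_eq, hq]⟩
  · intro q
    rw [ht, AdjoinRoot.aeval_eq, AdjoinRoot.mk_eq_zero]
  · intro w
    rw [o3r_mem]
    set x := Multiplicative.toAdd (o3r_ex (m + 1) w) with hx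
    constructor
    · intro h
      have h1 : B ((fun i => x (j.succAbove i)) + (x j / d) • u0, ⟨(x j % d).toNat, hlt _⟩) =
          B (0, ⟨0, by rw [hdim]; exact hd0⟩) := by
        rw [← hval, h, hBv, mo_zero]
        simp
      have h2 := hBinj h1
      have h3 : (fun i => x (j.succAbove i)) + (x j / d) • u0 = 0 := congrArg Prod.fst h2
      have h4 : (x j % d).toNat = 0 := congrArg (fun z => (z.2 : ℕ)) h2
      have h5 : x j % d = 0 := by
        have h2 : ((x j % d).toNat : ℤ) = x j % d := Int.toNat_of_nonneg (Int.emod_nonneg _ hdz.ne')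
        omega
      have h6 : x j = d * (x j / d) := by
        have := Int.mul_ediv_add_emod (x j) d
        omega
      refine ⟨s * (x j / d), ?_⟩
      funext i
      rw [← hn, Pi.smul_apply, smul_eq_mul]
      rcases Fin.eq_self_or_eq_succAbove j i with hi | ⟨i', hi⟩
      · rw [hi, hs2]
        calc x j = d * (x j / d) := h6
          _ = (s * s) * (d * (x j / d)) := by rw [hs1, one_mul]
          _ = _ := by ring
      · rw [hi]
        have h7 := congrFun h3 i'
        simp only [Pi.add_apply, Pi.smul_apply, smul_eq_mul, Pi.zero_apply, hu0] at h7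
        linarith
    · rintro ⟨k, hk⟩
      have h1 : x j = d * (k * s) := by
        rw [hk, ← hn, Pi.smul_apply, smul_eq_mul, hs2]
        ring
      have h2 : x j / d = k * s := by
        rw [h1, Int.mul_ediv_cancel_left _ hdz.ne']
      have h3 : x j % d = 0 := by
        rw [h1, Int.mul_emod_right]
      have h4 : (fun i => x (j.succAbove i)) + (x j / d) • u0 = 0 := by
        funext i
        simp only [Pi.add_apply, Pi.smul_apply, smul_eq_mul, Pi.zero_apply, hu0]
        rw [h2, hk, ← hn, Pi.smul_apply, smul_eq_mul]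
        linear_combination - k * n (j.succAbove i) * hs1
      rw [hlift, hnf, ← hx, h4, h3]
      simp
  · have hsur : ∀ q : (FreeGroup.lift u).range, ∃ v : (Fin m → ℤ) × Fin pb.dim,
        ((q : (AdjoinRoot P)ˣ) : AdjoinRoot P) = B v := by
      rintro ⟨q, w, hw⟩
      exact ⟨_, by rw [← hval w, hw]⟩
    choose κ hκ using hsur
    have hinj : Function.Injective κ := by
      intro q q' h
      apply Subtype.ext
      apply Units.ext
      rw [hκ, hκ, h]
    have h2 := B.linearIndependent.comp κ hinj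
    have h3 : (fun q : (FreeGroup.lift u).range =>
        ((q : (AdjoinRoot P)ˣ) : AdjoinRoot P)) = B ∘ κ := funext hκ
    rw [h3]
    exact h2
  · rw [injective_iff_map_eq_zero]
    intro a ha
    by_contra hne
    have h1 : Polynomial.aeval t (Polynomial.C a) = 0 := by
      rw [Polynomial.aeval_C]
      exact ha
    rw [ht, AdjoinRoot.aeval_eq, AdjoinRoot.mk_eq_zero] at h1
    refine hP.not_dvd_of_natDegree_lt (Polynomial.C_ne_zero.2 hne) ?_ h1
    rw [Polynomial.natDegree_C, hdeg]
    exact hd0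
  · intro i
    rw [hue, hmUv]
  · intro i
    rcases Fin.eq_self_or_eq_succAbove j i with hi | ⟨i', hi⟩
    · refine ⟨d, hd0, ?_⟩
      rw [hi, huj, htUd, ← o3r_single_sum, map_prod]
      refine Subgroup.prod_mem _ (fun i' _ => ?_)
      rw [map_zpow]
      have h1 : mU (Multiplicative.ofAdd (Pi.single i' (1 : ℤ))) ∈
          Set.range (fun j' => u (j.succAbove j')) := ⟨i', hue i'⟩
      exact Subgroup.zpow_mem _ (Subgroup.subset_closure h1) _
    · refine ⟨1, one_pos, ?_⟩
      rw [hi, pow_one]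
      exact Subgroup.subset_closure ⟨i', rfl⟩
  · refine o3r_span B _ (fun vk => ?_)
    obtain ⟨v, k⟩ := vk
    obtain ⟨w, hw⟩ := o3r_sur (m + 1) (j.insertNth (α := fun _ => ℤ) ((k : ℕ) : ℤ) v)
    refine AddSubgroup.subset_closure ⟨w, ?_⟩
    show ((FreeGroup.lift u w : (AdjoinRoot P)ˣ) : AdjoinRoot P) = B (v, k)
    have h1 : Multiplicative.toAdd (o3r_ex (m + 1) w) j = ((k : ℕ) : ℤ) := by
      rw [hw, toAdd_ofAdd]
      exact Fin.insertNth_apply_same _ _ _
    have h2 : (fun i => Multiplicative.toAdd (o3r_ex (m + 1) w) (j.succAbove i)) = v := by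
      funext i
      rw [hw, toAdd_ofAdd]
      exact Fin.insertNth_apply_succAbove _ _ _ _
    rw [hlift, h1, h2, zpow_natCast, Units.val_mul, hmUv, Units.val_pow_eq_pow_val, htU, hBv,
      mul_comm]

theorem exists_ring (r : ℕ) (ρ : FreeGroup (Fin r)) :
    ∃ (m : ℕ) (e : Fin m → Fin r) (R : Type) (_ : CommRing R) (_ : Algebra (LM m) R)
      (P : Polynomial (LM m)) (t : R) (u : Fin r → Rˣ), P.Monic ∧
      (∀ y : R, ∃ q : Polynomial (LM m), Polynomial.aeval t q = y) ∧
      (∀ q : Polynomial (LM m), Polynomial.aeval t q = 0 ↔ P ∣ q) ∧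
      (∀ w, FreeGroup.lift u w = 1 ↔
        w ∈ Subgroup.normalClosure {ρ} ⊔ commutator (FreeGroup (Fin r))) ∧
      LinearIndependent ℤ (fun q : (FreeGroup.lift u).range => (((q : Rˣ)) : R)) ∧
      Function.Injective (algebraMap (LM m) R) ∧
      (∀ i, ((u (e i) : Rˣ) : R) = algebraMap (LM m) R (mo (Pi.single i 1))) ∧
      (∀ i : Fin r, ∃ k, 0 < k ∧ u i ^ k ∈ Subgroup.closure (Set.range (fun j => u (e j)))) ∧
      ∀ y : R, y ∈ AddSubgroup.closure (Set.range (fun w : FreeGroup (Fin r) =>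
        ((FreeGroup.lift u w : Rˣ) : R))) := by
  by_cases h0 : Multiplicative.toAdd (o3r_ex r ρ) = 0
  · exact o3r_zero r ρ h0
  · obtain ⟨j, hj⟩ : ∃ j, Multiplicative.toAdd (o3r_ex r ρ) j ≠ 0 := by
      by_contra hcon
      push Not at hcon
      exact h0 (funext hcon)
    cases r with
    | zero => exact j.elim0
    | succ m => exact ⟨m, o3r_nonzero m ρ j hj⟩

end Pool.Agent.WQL
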