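import Pool.Agent.Lib.MP_2da099_lc.QL.O1
import Pool.Agent.Lib.MP_2da099_lc.QL.O2
import Pool.Agent.Lib.MP_2da099_lc.QL.O3
import Pool.Agent.Lib.MP_2da099_lc.QL.O3r
import Pool.Agent.Lib.MP_2da099_lc.QL.G1c
import Pool.Agent.Lib.MP_2da099_lc.QL.G2
import Pool.Agent.Lib.MP_2da099_lc.QL.Q01
import Pool.Agent.Lib.MP_2da099_lc.QL.L01
import Pool.Agent.Lib.MP_2da099_lc.QL.R1
import Pool.Agent.Lib.MP_2da099_lc.QL.G1b

/-!
# O4: one-relator metabelian groups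
-/

set_option autoImplicit false

namespace Pool.Agent.WQL

open Pool.Agent.Lib.PolyTime Pool.Agent.WPM Pool.Agent.WPR Function

section der

variable {r : ℕ} {R : Type} [CommRing R] {F : Type} [Group F] {φ : F →* Rˣ}
  {δ : F → (Fin r → R)}

theorem o4_one (hδ : ∀ v w, δ (v * w) = δ v + ((φ v : Rˣ) : R) • δ w) : δ 1 = 0 := by
  have h := hδ 1 1
  rw [mul_one, map_one, Units.val_one, one_smul] at h
  exact left_eq_add.mp h

theorem o4_mul (hδ : ∀ v w, δ (v * w) = δ v + ((φ v : Rˣ) : R) • δ w)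
    (v w : F) (hv : φ v = 1) : δ (v * w) = δ v + δ w := by
  rw [hδ, hv, Units.val_one, one_smul]

theorem o4_inv (hδ : ∀ v w, δ (v * w) = δ v + ((φ v : Rˣ) : R) • δ w)
    (v : F) (hv : φ v = 1) : δ v⁻¹ = - δ v := by
  have h := o4_mul hδ v v⁻¹ hv
  rw [mul_inv_cancel, o4_one hδ] at h
  exact (neg_eq_of_add_eq_zero_right h.symm).symm

theorem o4_conj (hδ : ∀ v w, δ (v * w) = δ v + ((φ v : Rˣ) : R) • δ w)
    (y v : F) (hv : φ v = 1) :
    δ (y * v * y⁻¹) = ((φ y : Rˣ) : R) • δ v := by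
  have h1 : δ (y * y⁻¹) = 0 := by rw [mul_inv_cancel, o4_one hδ]
  rw [hδ] at h1
  rw [hδ, hδ, map_mul, hv, mul_one, add_right_comm, h1, zero_add]

theorem o4_zpow (hδ : ∀ v w, δ (v * w) = δ v + ((φ v : Rˣ) : R) • δ w)
    (v : F) (hv : φ v = 1) (z : ℤ) : δ (v ^ z) = z • δ v := by
  have hn : ∀ n : ℕ, δ (v ^ n) = n • δ v := by
    intro n
    induction n with
    | zero => rw [pow_zero, zero_smul, o4_one hδ]
    | succ n ih =>
      rw [pow_succ, o4_mul hδ _ _ (by rw [map_pow, hv, one_pow]), ih, succ_nsmul]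
  cases z with
  | ofNat n =>
    rw [Int.ofNat_eq_natCast, zpow_natCast, natCast_zsmul]
    exact hn n
  | negSucc n =>
    rw [zpow_negSucc, o4_inv hδ _ (by rw [map_pow, hv, one_pow]), hn, negSucc_zsmul]

theorem o4_prod (hδ : ∀ v w, δ (v * w) = δ v + ((φ v : Rˣ) : R) • δ w)
    (l : List F) (hl : ∀ a ∈ l, φ a = 1) : δ l.prod = (l.map δ).sum := by
  induction l with
  | nil => simpa using o4_one hδ
  | cons a l ih =>
    rw [List.prod_cons, o4_mul hδ a _ (hl a (by simp)), List.map_cons, List.sum_cons,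
      ih (fun b hb => hl b (by simp [hb]))]

theorem o4_commr (hδ : ∀ v w, δ (v * w) = δ v + ((φ v : Rˣ) : R) • δ w)
    (c₁ c₂ : F) (e₁ : φ c₁ = 1) (e₂ : φ c₂ = 1) : δ (c₁ * c₂ * c₁⁻¹ * c₂⁻¹) = 0 := by
  have e₃ : φ (c₁ * c₂) = 1 := by rw [map_mul, e₁, e₂, one_mul]
  have e₄ : φ (c₁ * c₂ * c₁⁻¹) = 1 := by rw [map_mul, e₃, map_inv, e₁, inv_one, one_mul]
  rw [o4_mul hδ _ _ e₄, o4_mul hδ _ _ e₃, o4_mul hδ _ _ e₁,
    o4_inv hδ _ e₁, o4_inv hδ _ e₂]
  abel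

/-- The elements whose derivative is a multiple of a given one. -/
def o4S (hδ : ∀ v w, δ (v * w) = δ v + ((φ v : Rˣ) : R) • δ w) (K0 : Subgroup F)
    (hu : ∀ w, φ w = 1 ↔ w ∈ K0) (z : Fin r → R) : Subgroup F where
  carrier := {w | w ∈ K0 ∧ ∃ b : R, δ w = b • z}
  one_mem' := ⟨K0.one_mem, 0, by rw [o4_one hδ, zero_smul]⟩
  mul_mem' := by
    rintro v w ⟨hv, b, hb⟩ ⟨hw, b', hb'⟩
    refine ⟨K0.mul_mem hv hw, b + b', ?_⟩
    rw [o4_mul hδ v w ((hu v).2 hv), hb, hb', add_smul]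
  inv_mem' := by
    rintro v ⟨hv, b, hb⟩
    refine ⟨K0.inv_mem hv, -b, ?_⟩
    rw [o4_inv hδ v ((hu v).2 hv), hb, neg_smul]

theorem o4_sub (hδ : ∀ v w, δ (v * w) = δ v + ((φ v : Rˣ) : R) • δ w) (K0 N0 : Subgroup F)
    [hKn : K0.Normal] (hu : ∀ w, φ w = 1 ↔ w ∈ K0) (ρ : F) (hρK : ρ ∈ K0)
    (hcK : commutator F ≤ K0)
    (hN0 : N0 = Subgroup.normalClosure {ρ} ⊔ derivedSeries F 2) (w : F) (hw : w ∈ N0) :
    ∃ b : R, δ w = b • δ ρ := by
  have hSn : (o4S hδ K0 hu (δ ρ)).Normal := by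
    refine ⟨?_⟩
    rintro v ⟨hv, b, hb⟩ y
    refine ⟨hKn.conj_mem v hv y, ((φ y : Rˣ) : R) * b, ?_⟩
    rw [o4_conj hδ y v ((hu v).2 hv), hb, mul_smul]
  have hS : N0 ≤ o4S hδ K0 hu (δ ρ) := by
    rw [hN0]
    refine sup_le ?_ ?_
    · refine Subgroup.normalClosure_le_normal ?_
      rintro _ rfl
      exact ⟨hρK, 1, (one_smul R _).symm⟩
    · have h3 : derivedSeries F 2 = ⁅derivedSeries F 1, derivedSeries F 1⁆ := rfl
      rw [h3, derivedSeries_one, Subgroup.commutator_le]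
      intro c₁ hc₁ c₂ hc₂
      have k₁ : c₁ ∈ K0 := hcK hc₁
      have k₂ : c₂ ∈ K0 := hcK hc₂
      rw [commutatorElement_def]
      refine ⟨K0.mul_mem (K0.mul_mem (K0.mul_mem k₁ k₂) (K0.inv_mem k₁)) (K0.inv_mem k₂), 0, ?_⟩
      rw [o4_commr hδ _ _ ((hu _).2 k₁) ((hu _).2 k₂), zero_smul]
  exact (hS hw).2

theorem o4_ex (hδ : ∀ v w, δ (v * w) = δ v + ((φ v : Rˣ) : R) • δ w) (K0 : Subgroup F)
    (hu : ∀ w, φ w = 1 ↔ w ∈ K0) (ρ : F) (hρN : Subgroup.normalClosure {ρ} ≤ K0)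
    (hspan : ∀ y : R, y ∈ AddSubgroup.closure (Set.range (fun w : F => ((φ w : Rˣ) : R))))
    (b : R) : ∃ ρ' ∈ Subgroup.normalClosure {ρ}, δ ρ' = b • δ ρ := by
  have hb := hspan b
  have hρ : ρ ∈ Subgroup.normalClosure {ρ} := Subgroup.subset_normalClosure rfl
  induction hb using AddSubgroup.closure_induction with
  | mem z hz =>
    obtain ⟨y, rfl⟩ := hz
    refine ⟨y * ρ * y⁻¹, Subgroup.normalClosure_normal.conj_mem _ hρ y, ?_⟩
    exact o4_conj hδ y ρ ((hu ρ).2 (hρN hρ))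
  | zero => exact ⟨1, Subgroup.one_mem _, by rw [o4_one hδ, zero_smul]⟩
  | add a b _ _ h1 h2 =>
    obtain ⟨ρ₁, k₁, e₁⟩ := h1
    obtain ⟨ρ₂, k₂, e₂⟩ := h2
    refine ⟨ρ₁ * ρ₂, Subgroup.mul_mem _ k₁ k₂, ?_⟩
    rw [o4_mul hδ _ _ ((hu ρ₁).2 (hρN k₁)), e₁, e₂, add_smul]
  | neg a _ h1 =>
    obtain ⟨ρ₁, k₁, e₁⟩ := h1
    refine ⟨ρ₁⁻¹, Subgroup.inv_mem _ k₁, ?_⟩
    rw [o4_inv hδ _ ((hu ρ₁).2 (hρN k₁)), e₁, neg_smul]

theorem o4_back (hδ : ∀ v w, δ (v * w) = δ v + ((φ v : Rˣ) : R) • δ w) (K0 N0 : Subgroup F)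
    (hu : ∀ w, φ w = 1 ↔ w ∈ K0) (ρ : F) (hρN : Subgroup.normalClosure {ρ} ≤ K0)
    (hρ0 : Subgroup.normalClosure {ρ} ≤ N0)
    (hspan : ∀ y : R, y ∈ AddSubgroup.closure (Set.range (fun w : F => ((φ w : Rˣ) : R))))
    (hmag : ∀ w ∈ K0, δ w = 0 → w ∈ N0) (w : F) (hw : w ∈ K0)
    (hb : ∃ b : R, δ w = b • δ ρ) : w ∈ N0 := by
  obtain ⟨b, hb⟩ := hb
  obtain ⟨ρ', hρ', e'⟩ := o4_ex hδ K0 hu ρ hρN hspan b
  have k' : ρ' ∈ K0 := hρN hρ'
  have h1 : w * ρ'⁻¹ ∈ K0 := K0.mul_mem hw (K0.inv_mem k')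
  have h2 : δ (w * ρ'⁻¹) = 0 := by
    rw [o4_mul hδ _ _ ((hu w).2 hw), o4_inv hδ _ ((hu ρ').2 k'), hb, e', add_neg_cancel]
  have h3 := hmag _ h1 h2
  have h4 : w = w * ρ'⁻¹ * ρ' := by rw [inv_mul_cancel_right]
  rw [h4]
  exact N0.mul_mem h3 (hρ0 hρ')

end der

theorem o4_comm {F : Type} [Group F] (N : Subgroup F) [N.Normal] (g₁ g₂ : F)
    (h₁ : g₁ ∈ N ⊔ commutator F) (h₂ : g₂ ∈ N ⊔ commutator F) :
    g₁ * g₂ * g₁⁻¹ * g₂⁻¹ ∈ N ⊔ derivedSeries F 2 := by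
  have hc : ∀ g ∈ N ⊔ commutator F, ∃ c ∈ commutator F,
      (g : F ⧸ (N ⊔ derivedSeries F 2)) = (c : F ⧸ (N ⊔ derivedSeries F 2)) := by
    intro g hg
    rw [← SetLike.mem_coe, Subgroup.normal_mul] at hg
    obtain ⟨n, hn, c, hc, rfl⟩ := Set.mem_mul.1 hg
    refine ⟨c, hc, ?_⟩
    rw [QuotientGroup.mk_mul, (QuotientGroup.eq_one_iff n).2 (Subgroup.mem_sup_left hn), one_mul]
  obtain ⟨c₁, hc₁, e₁⟩ := hc g₁ h₁
  obtain ⟨c₂, hc₂, e₂⟩ := hc g₂ h₂
  rw [← QuotientGroup.eq_one_iff]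
  rw [QuotientGroup.mk_mul, QuotientGroup.mk_mul, QuotientGroup.mk_mul, QuotientGroup.mk_inv,
    QuotientGroup.mk_inv, e₁, e₂, ← QuotientGroup.mk_inv, ← QuotientGroup.mk_inv,
    ← QuotientGroup.mk_mul, ← QuotientGroup.mk_mul, ← QuotientGroup.mk_mul,
    QuotientGroup.eq_one_iff]
  refine Subgroup.mem_sup_right ?_
  have h3 : derivedSeries F 2 = ⁅derivedSeries F 1, derivedSeries F 1⁆ := rfl
  rw [h3, derivedSeries_one]
  exact Subgroup.commutator_mem_commutator hc₁ hc₂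

theorem o4_gpow {F G : Type} [Group F] [Group G] (f : F →* G) {m : ℕ} (x : Fin m → F)
    (v : Fin m → ℤ) : f (gpow x v) = gpow (fun i => f (x i)) v := by
  unfold gpow
  rw [map_list_prod, List.map_map]
  congr 1
  refine List.map_congr_left fun i _ => ?_
  exact map_zpow f _ _

/-- The images of the monomials, as a homomorphism. -/
noncomputable def o4η (m : ℕ) (R : Type) [CommRing R] [Algebra (LM m) R] :
    Multiplicative (Fin m → ℤ) →* R where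
  toFun v := algebraMap (LM m) R (mo (Multiplicative.toAdd v))
  map_one' := by
    show algebraMap (LM m) R (mo 0) = 1
    rw [mo_zero, map_one]
  map_mul' v w := by
    show algebraMap (LM m) R (mo (Multiplicative.toAdd v + Multiplicative.toAdd w)) = _
    rw [mo_add, map_mul]

theorem o4η_val (m : ℕ) (R : Type) [CommRing R] [Algebra (LM m) R] (v : Fin m → ℤ) :
    (((o4η m R).toHomUnits (Multiplicative.ofAdd v) : Rˣ) : R) =
      algebraMap (LM m) R (mo v) := rfl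

theorem o4_finprod {G : Type} [CommGroup G] {m : ℕ} (η : Multiplicative (Fin m → ℤ) →* G)
    (v : Fin m → ℤ) :
    gpow (fun i => η (Multiplicative.ofAdd (Pi.single i (1 : ℤ)))) v =
      η (Multiplicative.ofAdd v) := by
  unfold gpow
  have h3 : (List.map (fun i => η (Multiplicative.ofAdd (Pi.single i (1 : ℤ))) ^ v i)
      (List.finRange m)).prod = ∏ i, η (Multiplicative.ofAdd (Pi.single i (1 : ℤ))) ^ v i := by
    rw [← List.prod_ofFn, List.ofFn_eq_map]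
  rw [h3]
  have h4 : ∀ i, η (Multiplicative.ofAdd (Pi.single i (1 : ℤ))) ^ v i =
      η (Multiplicative.ofAdd (Pi.single i (v i))) := by
    intro i
    rw [← map_zpow, ← ofAdd_zsmul, ← Pi.single_smul, smul_eq_mul, mul_one]
  rw [Finset.prod_congr rfl (fun i _ => h4 i), ← map_prod, ← ofAdd_sum]
  have h5 : ∑ i, Pi.single i (v i) = v := Finset.univ_sum_single v
  rw [h5]

theorem o4_mo {F R : Type} [Group F] [CommRing R] {m : ℕ} [Algebra (LM m) R] (φ : F →* Rˣ)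
    (xF : Fin m → F)
    (hx : ∀ i, ((φ (xF i) : Rˣ) : R) = algebraMap (LM m) R (mo (Pi.single i 1)))
    (v : Fin m → ℤ) : ((φ (gpow xF v) : Rˣ) : R) = algebraMap (LM m) R (mo v) := by
  rw [← o4η_val, o4_gpow]
  have h1 : (fun i => φ (xF i)) =
      fun i => (o4η m R).toHomUnits (Multiplicative.ofAdd (Pi.single i 1)) := by
    funext i
    refine Units.ext ?_
    rw [o4η_val, hx]
  rw [h1, o4_finprod]

theorem o4_mo_inj {m : ℕ} (v : Fin m → ℤ) (h : (mo v : LM m) = 1) : v = 0 := by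
  rw [← mo_zero] at h
  have h3 : (mo 0 : LM m).coeff v = (mo v : LM m).coeff v := by rw [h]
  rw [mo, mo, AddMonoidAlgebra.coeff_single, AddMonoidAlgebra.coeff_single,
    Finsupp.single_eq_same, Finsupp.single_apply] at h3
  by_contra hne
  rw [if_neg (Ne.symm hne)] at h3
  exact zero_ne_one h3

/-- The elements with a power in a subgroup. -/
def o4T {G : Type} [CommGroup G] (V : Subgroup G) : Subgroup G where
  carrier := {z | ∃ k : ℕ, 0 < k ∧ z ^ k ∈ V}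
  one_mem' := ⟨1, one_pos, by rw [one_pow]; exact V.one_mem⟩
  mul_mem' := by
    rintro a b ⟨k, hk, h1⟩ ⟨k', hk', h2⟩
    refine ⟨k * k', Nat.mul_pos hk hk', ?_⟩
    rw [mul_pow, pow_mul, mul_comm k k', pow_mul]
    exact V.mul_mem (V.pow_mem h1 _) (V.pow_mem h2 _)
  inv_mem' := by
    rintro a ⟨k, hk, h1⟩
    refine ⟨k, hk, ?_⟩
    rw [inv_pow]
    exact V.inv_mem h1

theorem o4_tors {r : ℕ} {G : Type} [CommGroup G] (u : Fin r → G) (V : Subgroup G)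
    (h : ∀ i, ∃ k, 0 < k ∧ u i ^ k ∈ V) (y : FreeGroup (Fin r)) :
    ∃ k : ℕ, 0 < k ∧ (FreeGroup.lift u y) ^ k ∈ V := by
  have h1 : (FreeGroup.lift u).range ≤ o4T V := by
    rw [FreeGroup.range_lift_eq_closure, Subgroup.closure_le]
    rintro _ ⟨i, rfl⟩
    exact h i
  exact h1 ⟨y, rfl⟩

section A

variable {F G : Type} [Group F] [Group G] (π : F →* G) (N0 K0 : Subgroup F)

theorem o4_memA (hle : N0 ≤ K0) (hπ1 : ∀ y, π y = 1 ↔ y ∈ N0) (y : F) :
    π y ∈ K0.map π ↔ y ∈ K0 := by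
  constructor
  · rintro ⟨k, hk, hky⟩
    have h1 : y⁻¹ * k ∈ N0 := by
      rw [← hπ1, map_mul, map_inv, hky, inv_mul_cancel]
    have h3 : y = k * (y⁻¹ * k)⁻¹ := by
      rw [mul_inv_rev, inv_inv, mul_inv_cancel_left]
    rw [h3]
    exact K0.mul_mem hk (K0.inv_mem (hle h1))
  · intro hy
    exact ⟨y, hy, rfl⟩

theorem o4_hx (hπs : Surjective π) (hle : N0 ≤ K0) (hπ1 : ∀ y, π y = 1 ↔ y ∈ N0)
    {H : Type} [CommGroup H] (φ : F →* H) (hu : ∀ w, φ w = 1 ↔ w ∈ K0) {m : ℕ}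
    (xF : Fin m → F)
    (ht : ∀ y, ∃ k : ℕ, 0 < k ∧ φ y ^ k ∈ Subgroup.closure (Set.range (fun i => φ (xF i))))
    (h : G) : ∃ k, 0 < k ∧
      h ^ k ∈ Subgroup.closure (Set.range (fun i => π (xF i))) ⊔ K0.map π := by
  obtain ⟨y, rfl⟩ := hπs h
  obtain ⟨k, hk, h1⟩ := ht y
  refine ⟨k, hk, ?_⟩
  have h2 : Subgroup.closure (Set.range (fun i => φ (xF i))) =
      (Subgroup.closure (Set.range xF)).map φ := by
    rw [MonoidHom.map_closure, ← Set.range_comp]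
    rfl
  rw [h2] at h1
  obtain ⟨z, hz, hz2⟩ := h1
  have h3 : z⁻¹ * y ^ k ∈ K0 := by
    rw [← hu, map_mul, map_inv, map_pow]
    exact inv_mul_eq_one.2 hz2
  have h4 : (π y) ^ k = π z * π (z⁻¹ * y ^ k) := by
    rw [← map_mul, mul_inv_cancel_left, map_pow]
  rw [h4]
  refine Subgroup.mul_mem _ (Subgroup.mem_sup_left ?_)
    (Subgroup.mem_sup_right ((o4_memA π N0 K0 hle hπ1 _).2 h3))
  have h5 : Subgroup.closure (Set.range (fun i => π (xF i))) =
      (Subgroup.closure (Set.range xF)).map π := by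
    rw [MonoidHom.map_closure, ← Set.range_comp]
    rfl
  rw [h5]
  exact ⟨z, hz, rfl⟩

theorem o4_key {R : Type} [CommRing R] {r m : ℕ} [Algebra (LM m) R] (φ : F →* Rˣ)
    (δ : F → (Fin r → R))
    (hδ : ∀ v w, δ (v * w) = δ v + ((φ v : Rˣ) : R) • δ w)
    (xF : Fin m → F) (hmo : ∀ v, ((φ (gpow xF v) : Rˣ) : R) = algebraMap (LM m) R (mo v))
    (z : Fin r → R)
    (hπ1 : ∀ y, π y = 1 ↔ y ∈ N0) (hS : ∀ w ∈ N0, ∃ b : R, δ w = b • z) (w : F)
    (hw1 : φ w = 1) (f : LM m) (hfw : actG (fun i => π (xF i)) f (π w) = 1) :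
    ∃ b : R, f • δ w = b • z := by
  obtain ⟨W, hW⟩ : ∃ W : F, W = (f.coeff.support.toList.map
    (fun v => gpow xF v * w ^ f.coeff v * (gpow xF v)⁻¹)).prod := ⟨_, rfl⟩
  have e1 : π W = actG (fun i => π (xF i)) f (π w) := by
    rw [hW, map_list_prod, List.map_map]
    unfold actG
    congr 1
    refine List.map_congr_left fun v _ => ?_
    show π (gpow xF v * w ^ f.coeff v * (gpow xF v)⁻¹) = _
    rw [map_mul, map_mul, map_inv, map_zpow, o4_gpow]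
  have e2 : W ∈ N0 := by rw [← hπ1, e1, hfw]
  obtain ⟨b, hb⟩ := hS W e2
  refine ⟨b, ?_⟩
  rw [← hb]
  have e3 : δ W = (f.coeff.support.toList.map
      (fun v => ((φ (gpow xF v) : Rˣ) : R) • f.coeff v • δ w)).sum := by
    rw [hW, o4_prod hδ _ (by
      intro z hz
      rw [List.mem_map] at hz
      obtain ⟨v, -, rfl⟩ := hz
      rw [map_mul, map_mul, map_zpow, hw1, one_zpow, mul_one, map_inv, mul_inv_cancel]),
      List.map_map]
    congr 1
    refine List.map_congr_left fun v _ => ?_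
    show δ (gpow xF v * w ^ f.coeff v * (gpow xF v)⁻¹) = _
    rw [o4_conj hδ _ _ (by rw [map_zpow, hw1, one_zpow]), o4_zpow hδ _ hw1]
  rw [e3]
  conv_lhs => rw [g1b_sum f]
  rw [List.sum_smul, List.map_map]
  congr 1
  refine List.map_congr_left fun v _ => ?_
  show ((f.coeff v : LM m) * mo v) • δ w = _
  rw [hmo, mul_smul, algebraMap_smul, Int.cast_smul_eq_zsmul, smul_comm]

end A

theorem o4_main (r : ℕ) (ρ : FreeGroup (Fin r)) {G : Type} [Group G]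
    (π : FreeGroup (Fin r) →* G) (hπs : Surjective π) (N0 K0 : Subgroup (FreeGroup (Fin r)))
    (hN0 : N0 = Subgroup.normalClosure {ρ} ⊔ derivedSeries (FreeGroup (Fin r)) 2)
    (hK0 : K0 = Subgroup.normalClosure {ρ} ⊔ commutator (FreeGroup (Fin r))) [K0.Normal]
    (hπ1 : ∀ y, π y = 1 ↔ y ∈ N0)
    {m : ℕ} (e : Fin m → Fin r) {R : Type} [CommRing R] [Algebra (LM m) R]
    (P : Polynomial (LM m)) (t : R) (u : Fin r → Rˣ) (hP : P.Monic)
    (hsurj : ∀ y : R, ∃ q : Polynomial (LM m), Polynomial.aeval t q = y)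
    (hker : ∀ q : Polynomial (LM m), Polynomial.aeval t q = 0 ↔ P ∣ q)
    (hu : ∀ w, FreeGroup.lift u w = 1 ↔ w ∈ K0)
    (hlin : LinearIndependent ℤ (fun q : (FreeGroup.lift u).range => (((q : Rˣ)) : R)))
    (hinj : Function.Injective (algebraMap (LM m) R))
    (hue : ∀ i, ((u (e i) : Rˣ) : R) = algebraMap (LM m) R (mo (Pi.single i 1)))
    (hfin : ∀ i : Fin r, ∃ k, 0 < k ∧ u i ^ k ∈ Subgroup.closure (Set.range (fun j => u (e j))))
    (hspan : ∀ y : R, y ∈ AddSubgroup.closure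
        (Set.range (fun w : FreeGroup (Fin r) => ((FreeGroup.lift u w : Rˣ) : R)))) :
    QL (fun w : List (Letter r) => (FreeGroup.mk w : FreeGroup (Fin r)) ∈ N0) := by
  classical
  have hcK : commutator (FreeGroup (Fin r)) ≤ K0 := by rw [hK0]; exact le_sup_right
  have hρN : Subgroup.normalClosure {ρ} ≤ K0 := by rw [hK0]; exact le_sup_left
  have hρ0 : Subgroup.normalClosure {ρ} ≤ N0 := by rw [hN0]; exact le_sup_left
  have hρK : ρ ∈ K0 := hρN (Subgroup.subset_normalClosure rfl)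
  have hle : N0 ≤ K0 := by
    rw [hN0, hK0]
    refine sup_le_sup_left ?_ _
    rw [← derivedSeries_one]
    exact derivedSeries_antitone _ one_le_two
  have hcc : ∀ g₁ ∈ K0, ∀ g₂ ∈ K0, g₁ * g₂ * g₁⁻¹ * g₂⁻¹ ∈ N0 := by
    intro g₁ h₁ g₂ h₂
    rw [hK0] at h₁ h₂
    rw [hN0]
    exact o4_comm (Subgroup.normalClosure {ρ}) g₁ g₂ h₁ h₂
  have hAn : (K0.map π).Normal := Subgroup.Normal.map inferInstance π hπs
  have hcomm : ∀ a ∈ K0.map π, ∀ b ∈ K0.map π, a * b = b * a := by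
    rintro _ ⟨g₁, h₁, rfl⟩ _ ⟨g₂, h₂, rfl⟩
    have h4 : π (g₁ * g₂ * g₁⁻¹ * g₂⁻¹) = 1 := (hπ1 _).2 (hcc g₁ h₁ g₂ h₂)
    rw [map_mul, map_mul, map_mul, map_inv, map_inv, mul_inv_eq_one, mul_inv_eq_iff_eq_mul] at h4
    exact h4
  have hquot : ∀ x y : G, x * y * x⁻¹ * y⁻¹ ∈ K0.map π := by
    intro x y
    obtain ⟨x, rfl⟩ := hπs x
    obtain ⟨y, rfl⟩ := hπs y
    refine ⟨x * y * x⁻¹ * y⁻¹, hcK ?_, by
      rw [map_mul, map_mul, map_mul, map_inv, map_inv]⟩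
    exact Subgroup.commutator_mem_commutator (Subgroup.mem_top x) (Subgroup.mem_top y)
  have hg : Subgroup.closure (Set.range (fun i => π (FreeGroup.of i))) = ⊤ := by
    have h1 : Set.range (fun i => π (FreeGroup.of i)) =
        π '' (Set.range (FreeGroup.of : Fin r → FreeGroup (Fin r))) := by
      rw [← Set.range_comp]
      rfl
    rw [h1, ← MonoidHom.map_closure, FreeGroup.closure_range_of, ← MonoidHom.range_eq_map,
      MonoidHom.range_eq_top]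
    exact hπs
  have hval : ∀ w : List (Letter r), value (fun i => π (FreeGroup.of i)) w =
      π (FreeGroup.mk w) := by
    intro w
    have hlift : π = FreeGroup.lift (fun i => π (FreeGroup.of i)) := by
      refine FreeGroup.ext_hom _ _ fun i => ?_
      rw [FreeGroup.lift_apply_of]
    rw [hlift, FreeGroup.lift_mk]
    unfold value
    congr 1
    refine List.map_congr_left fun l _ => ?_
    rw [← hlift]
    cases l.2 <;> rfl
  -- the images of the monomials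
  have hmo : ∀ v : Fin m → ℤ, ((FreeGroup.lift u (gpow (fun i => FreeGroup.of (e i)) v) : Rˣ) : R) =
      algebraMap (LM m) R (mo v) := by
    refine o4_mo (FreeGroup.lift u) (fun i => FreeGroup.of (e i)) (fun i => ?_)
    rw [FreeGroup.lift_apply_of]
    exact hue i
  have hind : ∀ v : Fin m → ℤ, gpow (fun i => π (FreeGroup.of (e i))) v ∈ K0.map π → v = 0 := by
    intro v hv
    rw [← o4_gpow π (fun i => FreeGroup.of (e i)), o4_memA π N0 K0 hle hπ1, ← hu] at hv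
    have h1 := hmo v
    rw [hv, Units.val_one, ← map_one (algebraMap (LM m) R)] at h1
    exact o4_mo_inj v (hinj h1).symm
  have hx := o4_hx π N0 K0 hπs hle hπ1 (FreeGroup.lift u) hu (fun i => FreeGroup.of (e i))
    (by
      have h1 : (fun i => FreeGroup.lift u (FreeGroup.of (e i))) = fun j => u (e j) := by
        funext i
        rw [FreeGroup.lift_apply_of]
      rw [h1]
      exact o4_tors u _ hfin)
  -- Fox derivatives
  obtain ⟨δ, hδ, hδ1⟩ := exists_fox u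
  have hKK : ⁅K0, K0⁆ ≤ N0 := by
    rw [Subgroup.commutator_le]
    intro g₁ h₁ g₂ h₂
    rw [commutatorElement_def]
    exact hcc g₁ h₁ g₂ h₂
  have hsub := o4_sub hδ K0 N0 hu ρ hρK hcK hN0
  have hback := o4_back hδ K0 N0 hu ρ hρN hρ0 hspan
    (fun w hw h0 => hKK (magnus K0 u hu hlin δ hδ hδ1 w hw h0))
  have hdom := domain_LM m
  have hufd := ufd_LM m
  have hA : ∀ a ∈ K0.map π, ∀ f₁ f₂ : LM m, IsRelPrime f₁ f₂ →
      actG (fun i => π (FreeGroup.of (e i))) f₁ a = 1 →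
      actG (fun i => π (FreeGroup.of (e i))) f₂ a = 1 →
      ∃ d K : ℕ, 0 < d ∧ ∀ i : Fin m, actG (fun i => π (FreeGroup.of (e i)))
        ((mo (Pi.single i (d : ℤ)) - 1) ^ K) a = 1 := by
    rintro _ ⟨w, hw, rfl⟩ f₁ f₂ hf h₁ h₂
    have hw1 : FreeGroup.lift u w = 1 := (hu w).2 hw
    have key := o4_key π N0 (FreeGroup.lift u) δ hδ (fun i => FreeGroup.of (e i)) hmo (δ ρ)
      hπ1 hsub w hw1
    have h3 := saturated_cyclic P hP t hsurj hker (δ ρ) (δ w) f₁ f₂ hf (key f₁ h₁) (key f₂ h₂)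
    have h4 : π w = 1 := (hπ1 w).2 (hback w hw h3)
    rw [h4]
    exact ⟨1, 1, one_pos, fun i => actG_one _ hcomm hquot _ _⟩
  have hQ := QL_group (K0.map π) hcomm hquot (fun i => π (FreeGroup.of i)) hg
    (fun i => π (FreeGroup.of (e i))) hx hind hA
  refine hQ.congr (fun w => ?_)
  rw [hval, hπ1]

theorem QL_oneRelator (r : ℕ) (ρ : FreeGroup (Fin r)) :
    QL (fun w : List (Letter r) => (FreeGroup.mk w : FreeGroup (Fin r)) ∈
      Subgroup.normalClosure {ρ} ⊔ derivedSeries (FreeGroup (Fin r)) 2) := by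
  obtain ⟨m, e, R, _, _, P, t, u, hP, hsurj, hker, hu, hlin, hinj, hue, hfin, hspan⟩ :=
    exists_ring r ρ
  exact o4_main r ρ (QuotientGroup.mk' (Subgroup.normalClosure {ρ} ⊔ derivedSeries _ 2))
    (QuotientGroup.mk'_surjective _) _ _ rfl rfl (fun y => QuotientGroup.eq_one_iff y)
    e P t u hP hsurj hker hu hlin hinj hue hfin hspan

end Pool.Agent.WQL
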