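import Pool.Agent.Lib.MP_2da099_lc.QL.L01
import Pool.Agent.Lib.MP_2da099_lc.QL.R1
import Mathlib.RingTheory.Polynomial.GaussLemma
import Mathlib.RingTheory.AdjoinRoot

/-!
# P1: two coprime elements of `ℤ[Y, Y⁻¹]`.

An ideal `J` of `ℤ[X]` with a positive integer `n ∈ J`, contained in no `(p)`, contains some `X ^ e (X ^ d - 1) ^ K` with `d > 0`:
induction on `n = p n'` with the ideals `J + (p)` (a nonzero ideal of `𝔽_p[X]`: pigeonhole for the powers of `X`) and
`(J : p)`, which contains `n'`.  Two relatively prime elements of `ℤ[X]` generate an ideal with a nonzero integer (Gauss lemma).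
The two Laurent polynomials are, up to units, images of two polynomials; their common factors are units.
-/

set_option autoImplicit false

namespace Pool.Agent.WQL

open Pool.Agent.Lib.PolyTime Pool.Agent.WPM Pool.Agent.WPR Function

open Polynomial in
private theorem p1_modp (p : ℕ) (hp : p.Prime) (J : Ideal ℤ[X]) (g : ℤ[X]) (hg : g ∈ J)
    (hpg : ¬ C (p : ℤ) ∣ g) :
    ∃ (d e : ℕ) (i w : ℤ[X]), 0 < d ∧ i ∈ J ∧ X ^ e * (X ^ d - 1) = i + C (p : ℤ) * w := by
  have : Fact p.Prime := ⟨hp⟩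
  set φ := Int.castRingHom (ZMod p) with hφ
  have hmap : ∀ f : ℤ[X], f.map φ = 0 → C (p : ℤ) ∣ f := by
    intro f hf
    rw [C_dvd_iff_dvd_coeff]
    intro k
    have h1 := congrArg (fun q => Polynomial.coeff q k) hf
    simp only [coeff_map, coeff_zero, hφ, eq_intCast] at h1
    exact (ZMod.intCast_zmod_eq_zero_iff_dvd _ _).mp h1
  have hgb : g.map φ ≠ 0 := fun h => hpg (hmap g h)
  set gb := g.map φ with hgbd
  have hmon : (gb * C gb.leadingCoeff⁻¹).Monic := monic_mul_leadingCoeff_inv hgb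
  have : Module.Finite (ZMod p) (AdjoinRoot (gb * C gb.leadingCoeff⁻¹)) := hmon.finite_adjoinRoot
  have : Finite (AdjoinRoot (gb * C gb.leadingCoeff⁻¹)) := Module.finite_of_finite (ZMod p)
  obtain ⟨a, b, hab, he⟩ := Finite.exists_ne_map_eq_of_infinite
    (fun k : ℕ => AdjoinRoot.mk (gb * C gb.leadingCoeff⁻¹) (X ^ k))
  have key : ∀ a b : ℕ, a < b → AdjoinRoot.mk (gb * C gb.leadingCoeff⁻¹) (X ^ a) =
      AdjoinRoot.mk (gb * C gb.leadingCoeff⁻¹) (X ^ b) →
      ∃ (d e : ℕ) (i w : ℤ[X]), 0 < d ∧ i ∈ J ∧ X ^ e * (X ^ d - 1) = i + C (p : ℤ) * w := by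
    intro a b hab he
    rw [eq_comm, AdjoinRoot.mk_eq_mk] at he
    obtain ⟨q, hq⟩ := he
    obtain ⟨h, hh⟩ := map_surjective φ (ZMod.intCast_surjective) (C gb.leadingCoeff⁻¹ * q)
    have h1 : (X ^ b - X ^ a - g * h : ℤ[X]).map φ = 0 := by
      rw [Polynomial.map_sub, Polynomial.map_sub, Polynomial.map_pow, Polynomial.map_pow, map_X,
        Polynomial.map_mul, hh, hq]
      ring
    obtain ⟨w, hw⟩ := hmap _ h1
    refine ⟨b - a, a, g * h, w, by omega, J.mul_mem_right h hg, ?_⟩
    rw [mul_sub, mul_one, ← pow_add, show a + (b - a) = b by omega, ← hw]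
    ring
  rcases lt_or_gt_of_ne hab with h | h
  · exact key a b h he
  · exact key b a h he.symm

open Polynomial in
private theorem p1_ind : ∀ n : ℕ, 0 < n → ∀ J : Ideal ℤ[X], C (n : ℤ) ∈ J →
    (∀ p : ℕ, p.Prime → ∃ g ∈ J, ¬ C (p : ℤ) ∣ g) →
    ∃ d e K : ℕ, 0 < d ∧ X ^ e * (X ^ d - 1) ^ K ∈ J := by
  intro n
  induction n using Nat.strong_induction_on with
  | _ n ih =>
    intro hn J hJ hJp
    by_cases h1 : n = 1
    · refine ⟨1, 0, 0, one_pos, ?_⟩
      rw [h1] at hJ
      simpa using hJ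
    · obtain ⟨p, hp, n', rfl⟩ := Nat.exists_prime_and_dvd h1
      have hn' : 0 < n' := Nat.pos_of_ne_zero (by rintro rfl; simp at hn)
      set J' : Ideal ℤ[X] := Submodule.comap (LinearMap.mulLeft ℤ[X] (C (p : ℤ))) J with hJ'
      have hmem : ∀ x, x ∈ J' ↔ C (p : ℤ) * x ∈ J := fun x => Iff.rfl
      obtain ⟨d', e', K', hd', hx'⟩ := ih n' (by
        have := hp.two_le
        nlinarith) hn' J' (by
          rw [hmem, ← C_mul]
          push_cast at hJ
          exact hJ) (by
          intro q hq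
          obtain ⟨g, hg, hgq⟩ := hJp q hq
          exact ⟨g, by rw [hmem]; exact J.mul_mem_left _ hg, hgq⟩)
      obtain ⟨g, hg, hgp⟩ := hJp p hp
      obtain ⟨d, e, i, w, hd, hi, hiw⟩ := p1_modp p hp J g hg hgp
      refine ⟨d * d', e + e', 1 + K', Nat.mul_pos hd hd', ?_⟩
      obtain ⟨u, hu⟩ : (X ^ d - 1 : ℤ[X]) ∣ X ^ (d * d') - 1 := by
        rw [pow_mul]
        simpa using sub_dvd_pow_sub_pow (X ^ d : ℤ[X]) 1 d'
      obtain ⟨v, hv⟩ : (X ^ d' - 1 : ℤ[X]) ∣ X ^ (d * d') - 1 := by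
        rw [mul_comm d d', pow_mul]
        simpa using sub_dvd_pow_sub_pow (X ^ d' : ℤ[X]) 1 d
      rw [hmem] at hx'
      have e1 : X ^ (e + e') * (X ^ (d * d') - 1 : ℤ[X]) ^ (1 + K') =
          i * (u * X ^ e' * (X ^ (d * d') - 1) ^ K') +
          (w * u * v ^ K') * (C (p : ℤ) * (X ^ e' * (X ^ d' - 1) ^ K')) := by
        have e2 : X ^ (e + e') * (X ^ (d * d') - 1 : ℤ[X]) ^ (1 + K') =
            (X ^ e * (X ^ d - 1)) * (u * X ^ e' * (X ^ (d * d') - 1) ^ K') := by
          rw [pow_add, pow_add, pow_one]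
          nth_rewrite 1 [hu]
          ring
        rw [e2, hiw, add_mul]
        congr 1
        nth_rewrite 1 [hv]
        rw [mul_pow]
        ring
      rw [e1]
      exact J.add_mem (J.mul_mem_right _ hi) (J.mul_mem_left _ hx')

open Polynomial in
private theorem p1_C_nonunit {n : ℤ} (hn : ¬ IsUnit n) : ¬ IsUnit (C n : ℤ[X]) := by
  rw [isUnit_C]
  exact hn

open Polynomial in
private theorem p1_int (G H : ℤ[X]) (h : IsRelPrime G H) :
    ∃ (n : ℤ) (a b : ℤ[X]), n ≠ 0 ∧ a * G + b * H = C n := by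
  set φ := Int.castRingHom ℚ with hφ
  have hinj : Injective φ := Int.cast_injective
  by_cases hc : IsCoprime (G.map φ) (H.map φ)
  · obtain ⟨a, b, hab⟩ := hc
    obtain ⟨r, hr, ha⟩ := IsLocalization.integerNormalization_spec (nonZeroDivisors ℤ) a
    obtain ⟨s, hs, hb⟩ := IsLocalization.integerNormalization_spec (nonZeroDivisors ℤ) b
    have hr0 : r ≠ 0 := nonZeroDivisors.ne_zero hr
    have hs0 : s ≠ 0 := nonZeroDivisors.ne_zero hs
    refine ⟨r * s, C s * IsLocalization.integerNormalization (nonZeroDivisors ℤ) a,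
      C r * IsLocalization.integerNormalization (nonZeroDivisors ℤ) b, mul_ne_zero hr0 hs0, ?_⟩
    apply map_injective φ hinj
    have ha' : (IsLocalization.integerNormalization (nonZeroDivisors ℤ) a).map φ =
        C (r : ℚ) * a := by
      rw [hφ]
      rw [show (Int.castRingHom ℚ) = algebraMap ℤ ℚ from rfl, ha]
      rw [zsmul_eq_mul]
      simp
    have hb' : (IsLocalization.integerNormalization (nonZeroDivisors ℤ) b).map φ =
        C (s : ℚ) * b := by
      rw [hφ]
      rw [show (Int.castRingHom ℚ) = algebraMap ℤ ℚ from rfl, hb]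
      rw [zsmul_eq_mul]
      simp
    have hsr : φ s = (s : ℚ) := by simp [hφ]
    have hrr : φ r = (r : ℚ) := by simp [hφ]
    rw [Polynomial.map_add, Polynomial.map_mul, Polynomial.map_mul, Polynomial.map_mul,
      Polynomial.map_mul, ha', hb', Polynomial.map_C, Polynomial.map_C, Polynomial.map_C,
      map_mul, hsr, hrr, C_mul]
    linear_combination (C (r : ℚ) * C (s : ℚ)) * hab
  · exfalso
    rw [← isRelPrime_iff_isCoprime] at hc
    simp only [IsRelPrime, not_forall] at hc
    obtain ⟨D, hDG, hDH, hD⟩ := hc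
    by_cases hD0 : D = 0
    · rw [hD0, zero_dvd_iff] at hDG hDH
      have hG0 : G = 0 := (Polynomial.map_eq_zero_iff hinj).mp hDG
      have hH0 : H = 0 := (Polynomial.map_eq_zero_iff hinj).mp hDH
      rw [hG0, hH0] at h
      exact p1_C_nonunit (n := 2) (by decide) (h (dvd_zero _) (dvd_zero _))
    · obtain ⟨r, hr, hN⟩ := IsLocalization.integerNormalization_spec (nonZeroDivisors ℤ) D
      set N := IsLocalization.integerNormalization (nonZeroDivisors ℤ) D with hNd
      have hr0 : r ≠ 0 := nonZeroDivisors.ne_zero hr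
      have hN' : N.map φ = C (r : ℚ) * D := by
        rw [hφ, show (Int.castRingHom ℚ) = algebraMap ℤ ℚ from rfl, hN, zsmul_eq_mul]
        simp
      have hN0 : N ≠ 0 := by
        intro h0
        rw [h0, Polynomial.map_zero] at hN'
        rcases mul_eq_zero.mp hN'.symm with h1 | h1
        · rw [C_eq_zero] at h1
          exact hr0 (by exact_mod_cast h1)
        · exact hD0 h1
      have hcont : N.content ≠ 0 := by
        rwa [Ne, content_eq_zero_iff]
      have hp : N.primPart.IsPrimitive := N.isPrimitive_primPart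
      have hN2 : C (N.content : ℚ) * N.primPart.map φ = C (r : ℚ) * D := by
        rw [← hN']
        conv_rhs => rw [N.eq_C_content_mul_primPart]
        rw [Polynomial.map_mul, map_C]
        simp [hφ]
      have hu1 : IsUnit (C (N.content : ℚ)) := by
        rw [isUnit_C, isUnit_iff_ne_zero]
        exact_mod_cast hcont
      have hu2 : IsUnit (C (r : ℚ)) := by
        rw [isUnit_C, isUnit_iff_ne_zero]
        exact_mod_cast hr0
      have hassoc : N.primPart.map φ ∣ D := by
        have h1 : N.primPart.map φ ∣ C (r : ℚ) * D := ⟨C (N.content : ℚ), by rw [← hN2]; ring⟩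
        exact (hu2.dvd_mul_left).mp h1
      have hassoc' : D ∣ N.primPart.map φ := by
        have h1 : D ∣ C (N.content : ℚ) * N.primPart.map φ := ⟨C (r : ℚ), by rw [hN2]; ring⟩
        exact (hu1.dvd_mul_left).mp h1
      have hgG : N.primPart ∣ G :=
        (IsPrimitive.Int.dvd_iff_map_cast_dvd_map_cast _ _ hp).mpr (hassoc.trans hDG)
      have hgH : N.primPart ∣ H :=
        (IsPrimitive.Int.dvd_iff_map_cast_dvd_map_cast _ _ hp).mpr (hassoc.trans hDH)
      have hunit : IsUnit N.primPart := h hgG hgH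
      exact hD (isUnit_of_dvd_unit hassoc' (hunit.map (mapRingHom φ)))

open Polynomial in
/-- the homomorphism `X ↦ Y` -/
private noncomputable def p1psi : ℤ[X] →+* LM 1 :=
  eval₂RingHom (Int.castRingHom (LM 1)) (mo (Pi.single 0 1))

open Polynomial in
private theorem p1psi_X : p1psi X = mo (Pi.single 0 1) := by
  simp [p1psi]

open Polynomial in
private theorem p1psi_C (n : ℤ) : p1psi (C n) = (n : LM 1) := by
  simp [p1psi]

private theorem p1_smul (n : ℕ) : n • (Pi.single 0 1 : Fin 1 → ℤ) = Pi.single 0 (n : ℤ) := by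
  funext i
  fin_cases i
  simp

open Polynomial in
private theorem p1_lift (f : LM 1) : ∃ (k : ℕ) (F : ℤ[X]),
    p1psi F = mo (Pi.single 0 1) ^ k * f := by
  induction f using AddMonoidAlgebra.induction_linear with
  | zero => exact ⟨0, 0, by simp⟩
  | add f g hf hg =>
    obtain ⟨k, F, hF⟩ := hf
    obtain ⟨l, G, hG⟩ := hg
    refine ⟨k + l, F * X ^ l + G * X ^ k, ?_⟩
    rw [map_add, map_mul, map_mul, map_pow, map_pow, p1psi_X, hF, hG, pow_add]
    ring
  | single v c =>
    refine ⟨(v 0).natAbs, C c * X ^ ((v 0) + (v 0).natAbs).toNat, ?_⟩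
    rw [map_mul, map_pow, p1psi_X, p1psi_C, mo_pow, mo_pow, p1_smul, p1_smul]
    have h1 : (((v 0) + (v 0).natAbs).toNat : ℤ) = v 0 + (v 0).natAbs := by
      rw [Int.toNat_of_nonneg]
      omega
    have h2 : (c : LM 1) = AddMonoidAlgebra.single 0 c := by
      have : (c : LM 1) = c • (1 : LM 1) := by simp
      rw [this, AddMonoidAlgebra.one_def]
      simp
    rw [h1, h2, mo, mo, AddMonoidAlgebra.single_mul_single, AddMonoidAlgebra.single_mul_single]
    congr 1
    · funext i
      fin_cases i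
      simp only [Fin.zero_eta, Pi.add_apply, Pi.single_eq_same, Pi.zero_apply]
      ring
    · ring

open Polynomial in
theorem coprime_unip (f₁ f₂ : LM 1) (hf : IsRelPrime f₁ f₂) :
    ∃ (d K : ℕ) (a b : LM 1), 0 < d ∧
      (mo (Pi.single 0 (d : ℤ)) - 1) ^ K = a * f₁ + b * f₂ := by
  set Y : LM 1 := mo (Pi.single 0 1) with hY
  have hYu : IsUnit Y := mo_unit _
  obtain ⟨k, F, hF⟩ := p1_lift f₁
  obtain ⟨l, G, hG⟩ := p1_lift f₂
  have hred : ∃ G1 G2 c : ℤ[X], IsRelPrime G1 G2 ∧ c * G1 = F ∧ c * G2 = G := by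
    by_cases hF0 : F = 0
    · by_cases hG0 : G = 0
      · exfalso
        rw [hF0, map_zero] at hF
        rw [hG0, map_zero] at hG
        have h1 : f₁ = 0 := (hYu.pow k).mul_right_eq_zero.mp hF.symm
        have h2 : f₂ = 0 := (hYu.pow l).mul_right_eq_zero.mp hG.symm
        rw [h1, h2] at hf
        have h3 : IsUnit ((2 : ℤ) : LM 1) := hf (dvd_zero _) (dvd_zero _)
        have h4 : IsUnit ((AddMonoidAlgebra.lift ℤ ℤ (Fin 1 → ℤ)
          (1 : Multiplicative (Fin 1 → ℤ) →* ℤ)) ((2 : ℤ) : LM 1)) := h3.map _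
        rw [map_intCast] at h4
        exact absurd h4 (by decide)
      · exact UniqueFactorizationMonoid.exists_reduced_factors' F G hG0
    · exact UniqueFactorizationMonoid.exists_reduced_factors F hF0 G
  obtain ⟨G1, G2, c, hrel, hc1, hc2⟩ := hred
  have hcu : IsUnit (p1psi c) := by
    apply hf
    · have h1 : p1psi c ∣ Y ^ k * f₁ := by
        rw [← hF, ← hc1, map_mul]
        exact dvd_mul_right _ _
      exact ((hYu.pow k).dvd_mul_left).mp h1
    · have h1 : p1psi c ∣ Y ^ l * f₂ := by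
        rw [← hG, ← hc2, map_mul]
        exact dvd_mul_right _ _
      exact ((hYu.pow l).dvd_mul_left).mp h1
  obtain ⟨n, a, b, hn, hab⟩ := p1_int G1 G2 hrel
  set J : Ideal ℤ[X] := Ideal.span {G1, G2} with hJ
  have hG1 : G1 ∈ J := Ideal.subset_span (by simp)
  have hG2 : G2 ∈ J := Ideal.subset_span (by simp)
  have hnJ : C ((n.natAbs : ℕ) : ℤ) ∈ J := by
    have h1 : C n ∈ J := by
      rw [← hab]
      exact J.add_mem (J.mul_mem_left _ hG1) (J.mul_mem_left _ hG2)
    rcases Int.natAbs_eq n with h2 | h2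
    · rw [← h2]
      exact h1
    · have h3 : ((n.natAbs : ℕ) : ℤ) = -n := by omega
      rw [h3, C_neg]
      exact J.neg_mem h1
  obtain ⟨d, e, K, hd, hmem⟩ := p1_ind n.natAbs (Int.natAbs_pos.mpr hn) J hnJ (by
    intro p hp
    by_contra hcon
    push Not at hcon
    have h1 := hrel (hcon G1 hG1) (hcon G2 hG2)
    apply p1_C_nonunit (n := (p : ℤ)) _ h1
    rw [Int.isUnit_iff]
    have := hp.two_le
    omega)
  rw [hJ, Ideal.mem_span_pair] at hmem
  obtain ⟨u, v, huv⟩ := hmem
  have h1 : Y ^ e * (Y ^ d - 1) ^ K = p1psi u * p1psi G1 + p1psi v * p1psi G2 := by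
    rw [← map_mul, ← map_mul, ← map_add, huv]
    simp only [map_mul, map_pow, map_sub, map_one, p1psi_X, hY]
  have h2 : p1psi c * p1psi G1 = Y ^ k * f₁ := by rw [← map_mul, hc1, hF]
  have h3 : p1psi c * p1psi G2 = Y ^ l * f₂ := by rw [← map_mul, hc2, hG]
  obtain ⟨c', hc'⟩ := hcu.exists_left_inv
  obtain ⟨y, hy⟩ := (hYu.pow e).exists_left_inv
  refine ⟨d, K, y * c' * p1psi u * Y ^ k, y * c' * p1psi v * Y ^ l, hd, ?_⟩
  have h4 : mo (Pi.single 0 (d : ℤ)) = Y ^ d := by
    rw [hY, mo_pow, p1_smul]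
  rw [h4]
  calc (Y ^ d - 1) ^ K = (y * Y ^ e) * (c' * p1psi c) * (Y ^ d - 1) ^ K := by
        rw [hy, hc']; ring
    _ = y * c' * p1psi c * (Y ^ e * (Y ^ d - 1) ^ K) := by ring
    _ = y * c' * (p1psi u * (p1psi c * p1psi G1) + p1psi v * (p1psi c * p1psi G2)) := by
        rw [h1]; ring
    _ = _ := by rw [h2, h3]; ring

end Pool.Agent.WQL
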