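import Pool.Agent.Lib.MP_2da099_lc.QL.P1
import Pool.Agent.Lib.MP_2da099_lc.QL.G1c
import Pool.Agent.Lib.MP_2da099_lc.QL.G2

/-!
# P2: rank at most one.

If no power `x ^ n`, `n ≠ 0`, lies in `A`: `QL_group` with `m = 1`, `coprime_unip`, `actG_add`, `actG_mul`.  Otherwise
`m = 0`: every element of `G` has a positive power in `A`, and the condition on `i : Fin 0` is empty.
-/

set_option autoImplicit false

namespace Pool.Agent.WQL

open Pool.Agent.Lib.PolyTime Pool.Agent.WPM Pool.Agent.WPR Function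

universe u

theorem QL_rankOne {G : Type u} [Group G] (A : Subgroup G) [A.Normal]
    (hcomm : ∀ a ∈ A, ∀ b ∈ A, a * b = b * a)
    (hquot : ∀ x y : G, x * y * x⁻¹ * y⁻¹ ∈ A) {r : ℕ} (g : Fin r → G)
    (hg : Subgroup.closure (Set.range g) = ⊤) (x : G)
    (hx : ∀ h : G, ∃ k, 0 < k ∧ h ^ k ∈ Subgroup.zpowers x ⊔ A) :
    QL (fun w : List (Letter r) => value g w = 1) := by
  classical
  by_cases hn : ∃ n : ℤ, n ≠ 0 ∧ x ^ n ∈ A
  · obtain ⟨n, hn0, hnA⟩ := hn
    refine QL_group (m := 0) A hcomm hquot g hg (fun i => i.elim0) (fun h => ?_)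
      (fun v _ => Subsingleton.elim _ _) (fun a _ f₁ f₂ _ _ _ => ⟨1, 0, one_pos, fun i => i.elim0⟩)
    obtain ⟨k, hk, hm⟩ := hx h
    obtain ⟨y, hy, z, hz, hyz⟩ := Subgroup.mem_sup_of_normal_right.1 hm
    obtain ⟨i, rfl⟩ := Subgroup.mem_zpowers_iff.1 hy
    refine ⟨k * n.natAbs, Nat.mul_pos hk (Int.natAbs_pos.2 hn0), Subgroup.mem_sup_right ?_⟩
    have hxn : (x : G ⧸ A) ^ n.natAbs = 1 := by
      have h1 : (x : G ⧸ A) ^ n = 1 := by
        rw [← QuotientGroup.mk_zpow]
        exact (QuotientGroup.eq_one_iff _).2 hnA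
      rcases Int.natAbs_eq n with h2 | h2
      · rw [h2, zpow_natCast] at h1
        exact h1
      · rw [h2, zpow_neg, inv_eq_one, zpow_natCast] at h1
        exact h1
    rw [← QuotientGroup.eq_one_iff, pow_mul, ← hyz, QuotientGroup.mk_pow, QuotientGroup.mk_mul,
      (QuotientGroup.eq_one_iff z).2 hz, mul_one, QuotientGroup.mk_zpow, ← zpow_natCast, ← zpow_mul, mul_comm,
      zpow_mul, zpow_natCast, hxn, one_zpow]
  · push Not at hn
    have hr : Set.range (fun _ : Fin 1 => x) = {x} := Set.range_const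
    refine QL_group (m := 1) A hcomm hquot g hg (fun _ => x) (fun h => ?_) (fun v hv => ?_)
      (fun a ha f₁ f₂ hf h1 h2 => ?_)
    · rw [hr, ← Subgroup.zpowers_eq_closure]
      exact hx h
    · have h1 : gpow (fun _ : Fin 1 => x) v = x ^ v 0 := by
        unfold gpow
        rw [List.finRange_succ, List.finRange_zero]
        simp
      rw [h1] at hv
      have h2 : v 0 = 0 := by
        by_contra h3
        exact hn _ h3 hv
      funext i
      rw [Subsingleton.elim i 0, h2]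
      rfl
    · obtain ⟨d, K, b₁, b₂, hd, he⟩ := coprime_unip f₁ f₂ hf
      refine ⟨d, K, hd, fun i => ?_⟩
      rw [Subsingleton.elim i 0, he, actG_add A hcomm hquot _ _ _ _ ha, actG_mul A hcomm hquot _ _ _ _ ha,
        actG_mul A hcomm hquot _ _ _ _ ha, h1, h2, actG_one A hcomm hquot, actG_one A hcomm hquot, mul_one]

end Pool.Agent.WQL
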