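import Pool.Agent.Lib.MP_2da099_lc.QL.Defs

/-!
# Q02: the code as a list of bits; equality of encoded objects.

`ct_code`: a program on 3 stacks: `takeTree` moves `code a` (reversed) to an auxiliary stack, then push
`code ([] : List Bool) = [false]` on the main stack, then a loop: pop a bit `b` from the auxiliary stack, push
`true :: code b` in front (`code (b :: l) = true :: (code b ++ code l)`, `code_cons`).
`code_prefix`: the codes are prefix-free.
`ct_eq`: `a = b` iff all pairs of `(code a).zip (code b)` are equal.
-/

set_option autoImplicit false

namespace Pool.Agent.WQL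

open Pool.Agent.Lib.PolyTime Pool.Agent.WPM Pool.Agent.WPR Function

section
variable {α : Type} [Enc α]

/-- The body of the loop: move one bit from the stack `1` to the list of bits on the stack `0`. -/
def q02_body : Prog (Fin 3) :=
  .ite 1 isT (.seq (.pop 1) (pushList 0 (true :: code true)))
    (.seq (.pop 1) (pushList 0 (true :: code false)))

theorem q02_run_body (b : Bool) (v w : List Bool) :
    ∃ t, t ≤ 10 ∧ Run q02_body (update (single 0 v) 1 (b :: w))
      (update (single 0 (true :: (code b ++ v))) 1 w) t := by
  have s1 := Run.pop (1 : Fin 3) (update (single 0 v) 1 (b :: w))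
  rw [update_self, update_idem, List.tail_cons] at s1
  have s2 := run_pushList (0 : Fin 3) (true :: code b) (update (single 0 v) 1 w)
  have e2 : update (update (single (0 : Fin 3) v) 1 w) 0
      (true :: code b ++ update (single (0 : Fin 3) v) 1 w 0) =
      update (single 0 (true :: (code b ++ v))) 1 w := by
    rw [update_of_ne (by decide), single_self, update_comm (by decide), update_single]
    rfl
  rw [e2] at s2
  have hl : (true :: code b).length ≤ 4 := by
    cases b <;> decide
  refine ⟨1 + ((true :: code b).length + 1) + 1, by omega, ?_⟩
  cases b with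
  | true => exact .iteT (by rw [update_self]; rfl) (.seq s1 s2)
  | false => exact .iteF (by rw [update_self]; rfl) (.seq s1 s2)

theorem q02_run_loop (u : List Bool) : ∀ (w l : List Bool),
    ∃ t, t ≤ 11 * w.length + 1 ∧ Run (.loop 1 ne q02_body)
      (update (single (0 : Fin 3) (code l ++ u)) 1 w)
      (update (single 0 (code (w.reverse ++ l) ++ u)) 1 []) t := by
  intro w
  induction w with
  | nil =>
    intro l
    refine ⟨1, by omega, ?_⟩
    exact .loopF (by rw [update_self]; rfl)
  | cons b w ih =>
    intro l
    obtain ⟨t1, ht1, r1⟩ := q02_run_body b (code l ++ u) w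
    obtain ⟨t2, ht2, r2⟩ := ih (b :: l)
    have e : true :: (code b ++ (code l ++ u)) = code (b :: l) ++ u := by
      rw [code_cons, List.cons_append, List.append_assoc]
    rw [e] at r1
    have e2 : w.reverse ++ b :: l = (b :: w).reverse ++ l := by
      rw [List.reverse_cons, List.append_assoc]; rfl
    rw [e2] at r2
    refine ⟨t1 + t2 + 1, ?_, .loopT (by rw [update_self]; rfl) r1 r2⟩
    rw [List.length_cons]
    omega

theorem ct_code : CT (fun a : α => (code a : List Bool)) (fun a => size a) := by
  refine ⟨Fin 3, inferInstance, inferInstance, .seq (takeTree 0 1 2) (.seq (.push 0 false)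
    (.loop 1 ne q02_body)), 0, 20, fun a u => ?_⟩
  have s1 := c03_take (k := (0 : Fin 3)) (t := 1) (c := 2) (by decide) (by decide) (by decide) a u
  have s2 := Run.push (0 : Fin 3) false (update (single 0 u) 1 (code a).reverse)
  have e2 : update (update (single (0 : Fin 3) u) 1 (code a).reverse) 0
      (false :: update (single (0 : Fin 3) u) 1 (code a).reverse 0) =
      update (single 0 (code ([] : List Bool) ++ u)) 1 (code a).reverse := by
    rw [update_of_ne (by decide), single_self, update_comm (by decide), update_single]
    rfl
  rw [e2] at s2
  obtain ⟨t, ht, s3⟩ := q02_run_loop u (code a).reverse []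
  rw [List.reverse_reverse, List.append_nil] at s3
  have e3 : update (single (0 : Fin 3) (code (code a) ++ u)) 1 [] =
      single 0 (code (code a) ++ u) := by
    funext y
    by_cases hy : y = 1
    · subst hy; rw [update_self, single_ne (by decide)]
    · rw [update_of_ne hy]
  rw [e3] at s3
  rw [List.length_reverse, length_code] at ht
  refine ⟨_, ?_, .seq s1 (.seq s2 s3)⟩
  show _ ≤ 20 * (size a + 1)
  omega

theorem code_prefix (a b : α) (h : (code a).IsPrefix (code b)) : a = b := by
  obtain ⟨t, ht⟩ := h
  have h1 : (enc a).ser ++ t = (enc b).ser ++ [] := by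
    rw [List.append_nil]
    exact ht
  exact Enc.inj (BT.ser_append_inj h1).1

theorem q02_zip : ∀ (l l' : List Bool), (l.zip l').all (fun p => p.1 == p.2) = true →
    l.IsPrefix l' ∨ l'.IsPrefix l := by
  intro l
  induction l with
  | nil => intro l' _; exact Or.inl List.nil_prefix
  | cons b l ih =>
    intro l' h
    cases l' with
    | nil => exact Or.inr List.nil_prefix
    | cons b' l' =>
      rw [List.zip_cons_cons, List.all_cons, Bool.and_eq_true] at h
      have hb : b = b' := by
        have := h.1
        simpa using this
      subst hb
      rcases ih l' h.2 with h1 | h1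
      · exact Or.inl ((List.prefix_cons_inj b).2 h1)
      · exact Or.inr ((List.prefix_cons_inj b).2 h1)

theorem q02_zip_self : ∀ l : List Bool, (l.zip l).all (fun p => p.1 == p.2) = true := by
  intro l
  induction l with
  | nil => rfl
  | cons b l ih => rw [List.zip_cons_cons, List.all_cons, ih, Bool.and_true]; exact beq_self_eq_true b

theorem q02_size_bits (l : List Bool) : size l ≤ 4 * l.length + 1 := by
  induction l with
  | nil => exact le_refl 1
  | cons b l ih =>
    have hb : size b ≤ 3 := by cases b <;> decide
    rw [size_cons, List.length_cons]
    omega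

theorem q02_size_code (a : α) : size (code a : List Bool) ≤ 4 * size a + 1 := by
  have := q02_size_bits (code a)
  rwa [length_code] at this

open Classical in
theorem ct_eq : CT (fun x : α × α => decide (x.1 = x.2)) (fun x => size x.1 + size x.2) := by
  have h1 : CT (fun x : α × α => ((code x.1 : List Bool), x.2)) (fun x => size x.1) :=
    CT.first ct_code
  have h2 : CT (fun x : List Bool × α => (x.1, (code x.2 : List Bool)))
      (fun x => size x.1 + size x.2) := CT.second ct_code
  have h3 : CT (fun x : List Bool × List Bool => x.1.zip x.2) (fun x => size x.1 + size x.2) :=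
    CT.zip
  have h4 : CT (fun l : List (Bool × Bool) => l.all (fun p => p.1 == p.2)) (fun l => l.length) :=
    CT.all _
  refine ((h4.comp (h3.comp (h2.comp h1))).mono 20 (fun x => ?_)).congr (fun x => ?_)
  · have e1 := q02_size_code x.1
    have e2 := q02_size_code x.2
    have e3 : ((code x.1).zip (code x.2)).length ≤ size x.1 := by
      rw [List.length_zip, length_code]
      exact Nat.min_le_left _ _
    show size x.1 + (size (code x.1) + size x.2) + (size (code x.1) + size (code x.2)) +
      ((code x.1).zip (code x.2)).length ≤ 20 * (size x.1 + size x.2 + 1)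
    omega
  · show ((code x.1).zip (code x.2)).all (fun p => p.1 == p.2) = decide (x.1 = x.2)
    by_cases hx : x.1 = x.2
    · rw [decide_eq_true hx, hx]
      exact q02_zip_self _
    · rw [decide_eq_false hx]
      rw [Bool.eq_false_iff]
      intro h
      rcases q02_zip _ _ h with h | h
      · exact hx (code_prefix _ _ h)
      · exact hx (code_prefix _ _ h).symm

end

end Pool.Agent.WQL
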