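import Pool.Agent.Lib.MP_2da099_lc.QL.Defs

/-!
# Q03: filter and flatMap.

`ct_filter`: `CT.foldl` with the step `(a, out) ↦ if p a then a :: out else out` (cost `size a + T a`, the list `out`
is not touched: `CT.dup`, `CT.first`, `CT.assocL`, `CT.assocR`, `CT.bcase`), then `CT.reverse`; or `ct_map` to
`List (List α)` (`[a]` or `[]`) followed by `ct_flatten`.  `ct_flatMap`: `ct_map` and `ct_flatten`; the size of the
list of the values is at most `size l + C (Σ T + length)` by `CT.size_le`.
-/

set_option autoImplicit false

namespace Pool.Agent.WQL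

open Pool.Agent.Lib.PolyTime Pool.Agent.WPM Pool.Agent.WPR Function

section
variable {α β : Type} [Enc α] [Enc β]

theorem q03_flatMap {f : α → List β} {T : α → ℕ} (h : CT f T) :
    CT (fun l : List α => l.flatMap f) (fun l => size l + (l.map T).sum) := by
  obtain ⟨C, hC⟩ := h.size_le
  refine ((ct_flatten.comp (ct_map h)).mono (2 * (C + 1)) (fun l => ?_)).congr (fun l => ?_)
  · show size l + (l.map T).sum + size (l.map f) ≤ 2 * (C + 1) * (size l + (l.map T).sum + 1)
    have h5 := p05_size_map_le (f := f) (T := T) 0 C (fun a => by simpa using hC a) l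
    have h6 := p05_length_le l
    have h7 : (l.length + 1) * C ≤ size l * C := Nat.mul_le_mul_right _ h6
    have e1 : 2 * (C + 1) * (size l + (l.map T).sum + 1) = 2 * (size l * C) + 2 * (C * (l.map T).sum)
      + 2 * C + 2 * size l + 2 * (l.map T).sum + 2 := by ring
    have e2 : 2 * (l.length + 1) * C = 2 * ((l.length + 1) * C) := by ring
    rw [e1]
    rw [e2] at h5
    omega
  · show (l.map f).flatten = l.flatMap f
    rw [List.flatMap_def]

theorem q03_guard {p : α → Bool} {T : α → ℕ} (h : CT p T) :
    CT (fun a : α => if p a then [a] else []) (fun a => size a + T a) := by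
  have h1 : CT (fun a : α => [a]) (fun a => size a) := by
    have a1 : CT (fun x : α × List α => x.1 :: x.2) (fun _ => 0) := CT.of_enc_eq (fun _ => rfl)
    exact ((a1.comp (p05_input ([] : List α))).mono 1 (fun a => by
      show size a + 0 ≤ 1 * (size a + 1)
      omega)).congr (fun _ => rfl)
  have h2 : CT (fun _ : α => ([] : List α)) (fun a => size a) := CT.const _
  have h3 := CT.bcase h1 h2
  have h4 : CT (fun x : α × α => (p x.1, x.2)) (fun x => T x.1) := CT.first h
  refine ((h3.comp (h4.comp CT.dup)).mono 2 (fun a => ?_)).congr (fun a => rfl)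
  show size a + T a + (if p a then size a else size a) ≤ 2 * (size a + T a + 1)
  rw [ite_self]
  omega

theorem ct_filter {p : α → Bool} {T : α → ℕ} (h : CT p T) :
    CT (fun l : List α => l.filter p) (fun l => size l + (l.map T).sum) := by
  have key : ∀ l : List α, (l.map (fun a => size a + T a)).sum =
      (l.map (fun a => size a)).sum + (l.map T).sum := by
    intro l
    induction l with
    | nil => rfl
    | cons a l ih =>
      simp only [List.map_cons, List.sum_cons]
      rw [ih]
      omega
  refine ((q03_flatMap (q03_guard h)).mono 2 (fun l => ?_)).congr (fun l => ?_)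
  · rw [key]
    have h1 := p05_sum_size_le l
    omega
  · induction l with
    | nil => rfl
    | cons a l ih =>
      rw [List.flatMap_cons, ih]
      cases hp : p a <;> simp [hp]

theorem ct_flatMap {f : α → List β} {T : α → ℕ} (h : CT f T) :
    CT (fun l : List α => l.flatMap f) (fun l => size l + (l.map T).sum) := q03_flatMap h

end

end Pool.Agent.WQL
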