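import Pool.Agent.Lib.MP_2da099_lc.QL.Q03

/-!
# Q04a: radix passes, cost.

`ct_rp`: `ct_filter` (the predicates are linear in the first component, use `CT.first`/`CT.fst` type maps; the
head of a list of Booleans: `n04_head`), `ct_map` for the tails, `CT.append`, `CT.pair`.  `size_rp_le`: the three
filters are disjoint; sizes of lists are `1 + Σ (size + 1)`.  `ct_rpIter`: `x.1 : ℕ` is encoded like `List Unit`
(`ct_units`), `CT.foldl` with the step `rp` on the list (a function of the second component: `CT.snd` costs
`size () `), the cost of one step is `≤ C * size x.2` because the sizes do not increase.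
-/

set_option autoImplicit false

namespace Pool.Agent.WQL

open Pool.Agent.Lib.PolyTime Pool.Agent.WPM Pool.Agent.WPR Function

section
variable {α : Type}

theorem q04a_tail_le [Enc α] (l : List α) : size l.tail ≤ size l := by
  cases l with
  | nil => exact le_refl _
  | cons a l => rw [List.tail_cons, size_cons]; omega

theorem q04a_map_le [Enc α] (l : List (List Bool × α)) :
    size (l.map (fun x => (x.1.tail, x.2))) ≤ size l := by
  induction l with
  | nil => exact le_refl _
  | cons a l ih =>
    rw [List.map_cons, size_cons, size_cons, size_prod, size_prod a]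
    have h := q04a_tail_le a.1
    show size a.1.tail + size a.2 + 1 + _ + 1 ≤ _
    omega

theorem q04a_filter3 [Enc α] (l : List (List Bool × α)) :
    size (l.filter (fun x => decide (x.1.head? = none))) +
      size (l.filter (fun x => decide (x.1.head? = some false))) +
      size (l.filter (fun x => decide (x.1.head? = some true))) ≤ size l + 2 := by
  induction l with
  | nil => simp
  | cons a l ih =>
    rw [size_cons]
    rcases h : a.1.head? with _ | b
    · rw [List.filter_cons_of_pos (by simp [h]), List.filter_cons_of_neg (by simp [h]),
        List.filter_cons_of_neg (by simp [h]), size_cons]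
      omega
    · cases b
      · rw [List.filter_cons_of_neg (by simp [h]), List.filter_cons_of_pos (by simp [h]),
          List.filter_cons_of_neg (by simp [h]), size_cons]
        omega
      · rw [List.filter_cons_of_neg (by simp [h]), List.filter_cons_of_neg (by simp [h]),
          List.filter_cons_of_pos (by simp [h]), size_cons]
        omega

theorem size_rp_le [Enc α] (l : List (List Bool × α)) : size (rp l) ≤ size l := by
  unfold rp
  have h := q04a_filter3 l
  have h1 := size_append (l.filter (fun x => decide (x.1.head? = none)))
    ((l.filter (fun x => decide (x.1.head? = some false)) ++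
      l.filter (fun x => decide (x.1.head? = some true))).map (fun x => (x.1.tail, x.2)))
  have h2 := q04a_map_le (l.filter (fun x => decide (x.1.head? = some false)) ++
      l.filter (fun x => decide (x.1.head? = some true)))
  have h3 := size_append (l.filter (fun x => decide (x.1.head? = some false)))
      (l.filter (fun x => decide (x.1.head? = some true)))
  omega

theorem q04a_pred [Enc α] (o : Option Bool) :
    n03_LT (fun x : List Bool × α => decide (x.1.head? = o)) := by
  have h1 : n03_LT (fun x : List Bool × α => x.1) := n03_fst
  have h2 : n03_LT (fun l : List Bool => l.head?) := n04_head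
  have h3 : n03_LT (fun y : Option Bool => decide (y = o)) := n03_fin _
  exact n03_comp (g := fun y : Option Bool => decide (y = o)) h3
    (n03_comp (g := fun l : List Bool => l.head?) h2 h1)

theorem q04a_filter [Enc α] (o : Option Bool) :
    n03_LT (fun l : List (List Bool × α) => l.filter (fun x => decide (x.1.head? = o))) := by
  refine n03_of 2 (ct_filter (q04a_pred o)) (fun l => ?_)
  have := p05_sum_size_le l
  omega

theorem q04a_map [Enc α] :
    n03_LT (fun l : List (List Bool × α) => l.map (fun x => (x.1.tail, x.2))) := by
  have h1 : n03_LT (fun l : List Bool => l.tail) := n04_tail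
  have h2 : CT (fun x : List Bool × α => (x.1.tail, x.2)) (fun x => size x.1) := CT.first h1
  have h3 : n03_LT (fun x : List Bool × α => (x.1.tail, x.2)) :=
    n03_of 1 h2 (fun x => by rw [size_prod]; omega)
  refine n03_of 2 (ct_map h3) (fun l => ?_)
  have := p05_sum_size_le l
  omega

theorem ct_rp [Enc α] : CT (fun l : List (List Bool × α) => rp l) (fun l => size l) := by
  have h1 := q04a_filter (α := α) none
  have h2 := q04a_filter (α := α) (some false)
  have h3 := q04a_filter (α := α) (some true)
  have h4 := n03_comp2 (h := fun x : List (List Bool × α) × List (List Bool × α) => x.1 ++ x.2)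
    n03_append h2 h3
  have h5 := n03_comp (g := fun l : List (List Bool × α) => l.map (fun x => (x.1.tail, x.2)))
    q04a_map h4
  exact n03_comp2 (h := fun x : List (List Bool × α) × List (List Bool × α) => x.1 ++ x.2)
    n03_append h1 h5

theorem q04a_iter_le [Enc α] (n : ℕ) (l : List (List Bool × α)) : size (rp^[n] l) ≤ size l := by
  induction n generalizing l with
  | zero => exact le_refl _
  | succ n ih =>
    rw [Function.iterate_succ_apply]
    exact (ih (rp l)).trans (size_rp_le l)

theorem q04a_cost [Enc α] (n : ℕ) (l : List (List Bool × α)) :
    foldCost (fun x : Unit × List (List Bool × α) => size x.2) (fun x => rp x.2)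
      (List.replicate n ()) l ≤ n * size l := by
  induction n generalizing l with
  | zero => exact Nat.zero_le _
  | succ n ih =>
    rw [List.replicate_succ]
    show size l + foldCost _ _ (List.replicate n ()) (rp l) ≤ _
    have h1 := ih (rp l)
    have h2 : n * size (rp l) ≤ n * size l := Nat.mul_le_mul_left _ (size_rp_le l)
    rw [Nat.add_mul, Nat.one_mul]
    omega

theorem q04a_fold (n : ℕ) (l : List (List Bool × α)) :
    (List.replicate n ()).foldl (fun s _ => rp s) l = rp^[n] l := by
  induction n generalizing l with
  | zero => rfl
  | succ n ih => rw [List.replicate_succ, List.foldl_cons, Function.iterate_succ_apply, ih]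

theorem ct_rpIter [Enc α] : CT (fun x : ℕ × List (List Bool × α) => rp^[x.1] x.2)
    (fun x => (x.1 + 1) * size x.2) := by
  have h1 : CT (fun x : Unit × List (List Bool × α) => rp x.2) (fun x => size x.2) := by
    refine ((ct_rp.comp (CT.snd (α := Unit) (β := List (List Bool × α)))).mono (size () + 1)
      (fun x => ?_)).congr (fun _ => rfl)
    show size x.1 + size x.2 ≤ (size () + 1) * (size x.2 + 1)
    have e1 : size x.1 = size () := rfl
    have e2 : (size () + 1) * (size x.2 + 1) = size () * size x.2 + size () + size x.2 + 1 := by
      ring
    rw [e1, e2]
    omega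
  have h2 := CT.foldl h1
  have h3 : CT (fun x : ℕ × List (List Bool × α) => (List.replicate x.1 (), x.2)) (fun _ => 0) :=
    CT.first ct_units
  refine ((h2.comp h3).mono 3 (fun x => ?_)).congr (fun x => ?_)
  · show 0 + (size (List.replicate x.1 ()) + foldCost (fun x : Unit × List (List Bool × α) =>
      size x.2) (fun x => rp x.2) (List.replicate x.1 ()) x.2) ≤ 3 * ((x.1 + 1) * size x.2 + 1)
    rw [p07_size_units]
    have e1 := q04a_cost x.1 x.2
    have e2 : 1 ≤ size x.2 := by have := p05_length_le x.2; omega
    have e3 : x.1 * 1 ≤ x.1 * size x.2 := Nat.mul_le_mul_left _ e2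
    have e4 : 3 * ((x.1 + 1) * size x.2 + 1) = 3 * (x.1 * size x.2) + 3 * size x.2 + 3 := by ring
    rw [e4]
    omega
  · exact q04a_fold x.1 x.2

end

end Pool.Agent.WQL
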