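import Pool.Agent.Lib.MP_2da099_lc.QL.Defs

/-!
# Q04b: radix passes, meaning.
-/

set_option autoImplicit false

namespace Pool.Agent.WQL

open Pool.Agent.Lib.PolyTime Pool.Agent.WPM Pool.Agent.WPR Function

section
variable {α : Type}

/-- Three parts. -/
def q04b_three (g : α → Option Bool) (l : List α) : List α :=
  l.filter (fun x => decide (g x = none)) ++
    (l.filter (fun x => decide (g x = some false)) ++
      l.filter (fun x => decide (g x = some true)))

theorem q04b_perm (g : α → Option Bool) (l : List α) : (q04b_three g l).Perm l := by
  unfold q04b_three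
  induction l with
  | nil => simp
  | cons a l ih =>
    rcases h : g a with _ | _ | _
    · simp only [List.filter_cons, h, decide_true, if_true, reduceCtorEq, decide_false,
        Bool.false_eq_true, if_false, List.cons_append]
      exact ih.cons a
    · simp only [List.filter_cons, h, decide_true, if_true, reduceCtorEq, decide_false,
        Bool.false_eq_true, if_false, List.cons_append, Option.some.injEq]
      exact List.perm_middle.trans (ih.cons a)
    · simp only [List.filter_cons, h, decide_true, if_true, reduceCtorEq, decide_false,
        Bool.false_eq_true, if_false, List.cons_append, Option.some.injEq]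
      rw [← List.append_assoc]
      refine List.perm_middle.trans ?_
      rw [List.append_assoc]
      exact ih.cons a

/-- The order of the parts. -/
def q04b_rk : Option Bool → ℕ
  | none => 0
  | some false => 1
  | some true => 2

theorem q04b_rk_inj : ∀ u v : Option Bool, q04b_rk u = q04b_rk v → u = v := by decide

theorem q04b_sorted (g : α → Option Bool) (l : List α) :
    (q04b_three g l).Pairwise (fun x y => q04b_rk (g x) ≤ q04b_rk (g y)) := by
  unfold q04b_three
  have hh : ∀ v : Option Bool, (l.filter (fun x => decide (g x = v))).Pairwise
      (fun x y => q04b_rk (g x) ≤ q04b_rk (g y)) := by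
    intro v
    rw [List.pairwise_iff_forall_sublist]
    intro a b hab
    have ha : a ∈ l.filter (fun x => decide (g x = v)) := hab.subset (by simp)
    have hb : b ∈ l.filter (fun x => decide (g x = v)) := hab.subset (by simp)
    simp only [List.mem_filter, decide_eq_true_eq] at ha hb
    rw [ha.2, hb.2]
  rw [List.pairwise_append]
  refine ⟨hh _, ?_, ?_⟩
  · rw [List.pairwise_append]
    refine ⟨hh _, hh _, ?_⟩
    intro a ha b hb
    simp only [List.mem_filter, decide_eq_true_eq] at ha hb
    rw [ha.2, hb.2]
    decide
  · intro a ha b _
    simp only [List.mem_filter, decide_eq_true_eq] at ha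
    rw [ha.2]
    exact Nat.zero_le _

theorem q04b_filter (g : α → Option Bool) (l : List α) (v : Option Bool) :
    (q04b_three g l).filter (fun x => decide (g x = v)) = l.filter (fun x => decide (g x = v)) := by
  unfold q04b_three
  have h1 : ∀ u : Option Bool, (l.filter (fun x => decide (g x = u))).filter
      (fun x => decide (g x = v)) = if u = v then l.filter (fun x => decide (g x = v)) else [] := by
    intro u
    by_cases h : u = v
    · subst h
      rw [if_pos rfl, List.filter_filter]
      simp
    · rw [if_neg h, List.filter_eq_nil_iff]
      intro a ha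
      simp only [List.mem_filter, decide_eq_true_eq] at ha
      simp only [decide_eq_true_eq]
      rw [ha.2]
      exact h
  rw [List.filter_append, List.filter_append, h1, h1, h1]
  rcases v with _ | _ | _ <;> simp

theorem q04b_grp (g : α → Option Bool) (r : α → α → Prop) (l : List α) (h : Grp r l) :
    Grp (fun a b => r a b ∧ g a = g b) (q04b_three g l) := by
  intro a b c hs hac
  obtain ⟨hr, hg⟩ := hac
  have hp := (q04b_sorted g l).sublist hs
  simp only [List.pairwise_cons, List.mem_cons, List.not_mem_nil, or_false, forall_eq_or_imp,
    forall_eq] at hp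
  have h1 : q04b_rk (g a) ≤ q04b_rk (g b) := hp.1.1
  have h2 : q04b_rk (g b) ≤ q04b_rk (g c) := hp.2.1
  rw [← hg] at h2
  have hab : g a = g b := q04b_rk_inj _ _ (le_antisymm h1 h2)
  refine ⟨?_, hab⟩
  apply h a b c ?_ hr
  have h3 : ([a, b, c].filter (fun x => decide (g x = g a))).Sublist
      ((q04b_three g l).filter (fun x => decide (g x = g a))) := hs.filter _
  rw [q04b_filter] at h3
  have h4 : [a, b, c].filter (fun x => decide (g x = g a)) = [a, b, c] := by
    simp [hab.symm, hg.symm]
  rw [h4] at h3
  exact h3.trans List.filter_sublist

theorem rp_perm (l : List (List Bool × α)) : ((rp l).map Prod.snd).Perm (l.map Prod.snd) := by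
  have h1 : (rp l).map Prod.snd = (q04b_three (fun x => x.1.head?) l).map Prod.snd := by
    unfold rp q04b_three
    simp only [List.map_append, List.map_map]
    rfl
  rw [h1]
  exact (q04b_perm _ l).map _

theorem q04b_step (f : α → List Bool) (l : List α) (L : ℕ) :
    rp (l.map (fun a => ((f a).drop L, a))) =
      (q04b_three (fun a => (f a)[L]?) l).map (fun a => ((f a).drop (L + 1), a)) := by
  unfold rp q04b_three
  have hf : ∀ v : Option Bool, (l.map (fun a => ((f a).drop L, a))).filter
      (fun x => decide (x.1.head? = v)) =
      (l.filter (fun a => decide ((f a)[L]? = v))).map (fun a => ((f a).drop L, a)) := by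
    intro v
    rw [List.filter_map]
    congr 1
    apply List.filter_congr
    intro a _
    simp only [Function.comp, List.head?_drop]
  rw [hf, hf, hf, List.map_append, List.map_append, List.map_append, List.map_map, List.map_map]
  congr 1
  · apply List.map_congr_left
    intro a ha
    simp only [List.mem_filter, decide_eq_true_eq, List.getElem?_eq_none_iff] at ha
    rw [List.drop_eq_nil_of_le ha.2, List.drop_eq_nil_of_le (by omega)]
  · congr 1
    · apply List.map_congr_left
      intro a _
      simp only [Function.comp, List.tail_drop]
    · apply List.map_congr_left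
      intro a _
      simp only [Function.comp, List.tail_drop]

theorem rpIter_grp (f : α → List Bool) (l : List α) (L : ℕ) :
    ∃ l' : List α, l'.Perm l ∧ rp^[L] (l.map (fun a => (f a, a))) =
      l'.map (fun a => ((f a).drop L, a)) ∧
      Grp (fun a b => ∀ i < L, (f a)[i]? = (f b)[i]?) l' := by
  induction L with
  | zero =>
    refine ⟨l, List.Perm.refl _, ?_, ?_⟩
    · simp
    · intro a b c _ _ i hi
      exact absurd hi (Nat.not_lt_zero i)
  | succ L ih =>
    obtain ⟨l', h1, h2, h3⟩ := ih
    refine ⟨q04b_three (fun a => (f a)[L]?) l', (q04b_perm _ _).trans h1, ?_, ?_⟩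
    · rw [Function.iterate_succ_apply', h2, q04b_step]
    · have h4 := q04b_grp (fun a => (f a)[L]?) _ l' h3
      intro a b c hs hac
      have h5 := h4 a b c hs ⟨fun i hi => hac i (by omega), hac L (by omega)⟩
      intro i hi
      rcases Nat.lt_succ_iff_lt_or_eq.mp hi with h | h
      · exact h5.1 i h
      · subst h
        exact h5.2

end

end Pool.Agent.WQL
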