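import Pool.Agent.Lib.MP_2da099_lc.QL.Q01
import Pool.Agent.Lib.MP_2da099_lc.QL.Q02

/-!
# Q05a: addition of neighbours, cost.

`CT.foldl` with the step `(x, out) ↦ cmb out x`: the head of `out` is popped (`CT.second` of a case distinction costs
`size x`), compared with `x` (`ct_eq`), the values are added (`ct_zblin β 1`), one or two items are pushed: cost
`C (size x + size y)`, `y` the head of `out`.  The value of `y` is a sum of at most `l.length` values of `l`, so its
size is at most `C (mxs l + lg l.length)` (`size_zb_log`/`size_zb_le`, and a value `a` has at most `β ^ (size a)` as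
absolute value); `foldCost` bound by an invariant on the states.
-/

set_option autoImplicit false

namespace Pool.Agent.WQL

open Pool.Agent.Lib.PolyTime Pool.Agent.WPM Pool.Agent.WPR Function

theorem q05a_cons {α : Type} [Enc α] : n03_LT (fun x : α × List α => x.1 :: x.2) :=
  n03_of 0 (CT.of_enc_eq (fun _ => rfl)) (fun _ => Nat.zero_le _)

theorem q05a_single {α : Type} [Enc α] : n03_LT (fun x : α => [x]) :=
  n03_comp2 (h := fun x : α × List α => x.1 :: x.2) q05a_cons n03_id (n03_const [])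

section
variable {κ : Type} {β : ℕ}

open Classical in
/-- The new head and the list of the items to be pushed (the second component of the argument is the list
with the old head). -/
noncomputable def q05a_F (x : (κ × ZB β) × List (κ × ZB β)) : List (κ × ZB β) × List (κ × ZB β) :=
  match x.2 with
  | [] => ([x.1], [])
  | y :: _ => if x.1.1 = y.1 then ([(y.1, y.2 + x.1.2)], []) else ([x.1], [y])

/-- The step: the state is the head of the list (a list with at most one item) and the rest. -/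
noncomputable def q05a_step (x : (κ × ZB β) × (List (κ × ZB β) × List (κ × ZB β))) :
    List (κ × ZB β) × List (κ × ZB β) :=
  ((q05a_F (x.1, x.2.1)).1, (q05a_F (x.1, x.2.1)).2 ++ x.2.2)

theorem q05a_ltF [Enc κ] [Fact (2 ≤ β)] : n03_LT (q05a_F : (κ × ZB β) × List (κ × ZB β) → _) := by
  classical
  -- the two cases
  have hf : n03_LT (fun x : κ × ZB β => (([x], []) : List (κ × ZB β) × List (κ × ZB β))) :=
    n03_pair q05a_single (n03_const [])
  have e1 : n03_LT (fun z : ((κ × ZB β) × List (κ × ZB β)) × (κ × ZB β) => z.1) := n03_fst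
  have e2 : n03_LT (fun z : ((κ × ZB β) × List (κ × ZB β)) × (κ × ZB β) => z.2) := n03_snd
  have e3 : n03_LT (fun z : ((κ × ZB β) × List (κ × ZB β)) × (κ × ZB β) => z.1.1) :=
    n03_comp (g := fun z : (κ × ZB β) × List (κ × ZB β) => z.1) n03_fst e1
  have e4 : n03_LT (fun z : ((κ × ZB β) × List (κ × ZB β)) × (κ × ZB β) => z.1.1.1) :=
    n03_comp (g := fun z : κ × ZB β => z.1) n03_fst e3
  have e5 : n03_LT (fun z : ((κ × ZB β) × List (κ × ZB β)) × (κ × ZB β) => z.1.1.2) :=
    n03_comp (g := fun z : κ × ZB β => z.2) n03_snd e3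
  have e6 : n03_LT (fun z : ((κ × ZB β) × List (κ × ZB β)) × (κ × ZB β) => z.2.1) :=
    n03_comp (g := fun z : κ × ZB β => z.1) n03_fst e2
  have e7 : n03_LT (fun z : ((κ × ZB β) × List (κ × ZB β)) × (κ × ZB β) => z.2.2) :=
    n03_comp (g := fun z : κ × ZB β => z.2) n03_snd e2
  have q1 : n03_LT (fun x : κ × κ => decide (x.1 = x.2)) :=
    n03_of 1 ct_eq (fun x => by rw [size_prod]; omega)
  have q2 : n03_LT (fun z : ((κ × ZB β) × List (κ × ZB β)) × (κ × ZB β) =>
      decide (z.2.1 = z.1.1.1)) :=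
    n03_comp2 (h := fun x : κ × κ => decide (x.1 = x.2)) q1 e6 e4
  have q3 : n03_LT (fun x : ZB β × ZB β => x.1 + x.2) :=
    n03_of 1 ((ct_zblin β 1).congr (fun x => by
      show x.1 + (1 : ℤ) • x.2 = x.1 + x.2
      rw [one_smul])) (fun x => by rw [size_prod]; omega)
  have q4 : n03_LT (fun z : ((κ × ZB β) × List (κ × ZB β)) × (κ × ZB β) =>
      z.1.1.2 + z.2.2) := n03_comp2 (h := fun x : ZB β × ZB β => x.1 + x.2) q3 e5 e7
  have q5 : n03_LT (fun z : ((κ × ZB β) × List (κ × ZB β)) × (κ × ZB β) =>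
      (([(z.1.1.1, z.1.1.2 + z.2.2)], []) : List (κ × ZB β) × List (κ × ZB β))) :=
    n03_pair (n03_comp (g := fun x : κ × ZB β => [x]) q05a_single (n03_pair e4 q4)) (n03_const [])
  have q6 : n03_LT (fun z : ((κ × ZB β) × List (κ × ZB β)) × (κ × ZB β) =>
      (([z.2], [z.1.1]) : List (κ × ZB β) × List (κ × ZB β))) :=
    n03_pair (n03_comp (g := fun x : κ × ZB β => [x]) q05a_single e2)
      (n03_comp (g := fun x : κ × ZB β => [x]) q05a_single e3)
  have hg := n03_ite q2 q5 q6
  have h1 := CT.lcase hf hg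
  have h2 : n03_LT (fun x : List (κ × ZB β) × (κ × ZB β) => match x.1 with
      | [] => (([x.2], []) : List (κ × ZB β) × List (κ × ZB β))
      | y :: l => if decide (x.2.1 = y.1) then ([(y.1, y.2 + x.2.2)], []) else ([x.2], [y])) := by
    refine (h1.mono 1 (fun x => ?_)).congr (fun x => ?_)
    · obtain ⟨l, b⟩ := x
      cases l with
      | nil =>
        show size b ≤ 1 * (size (([] : List (κ × ZB β)), b) + 1)
        have f1 : size (([] : List (κ × ZB β)), b) = size ([] : List (κ × ZB β)) + size b + 1 :=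
          size_prod _
        omega
      | cons a l =>
        show size ((a, l), b) ≤ 1 * (size (a :: l, b) + 1)
        have f1 : size ((a, l), b) = size (a, l) + size b + 1 := size_prod _
        have f2 : size (a, l) = size a + size l + 1 := size_prod _
        have f3 : size (a :: l, b) = size (a :: l) + size b + 1 := size_prod _
        have f4 : size (a :: l) = size a + size l + 1 := size_cons _ _
        omega
    · obtain ⟨l, b⟩ := x
      cases l with
      | nil => rfl
      | cons a l => rfl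
  have h3 : n03_LT (fun x : (κ × ZB β) × List (κ × ZB β) => (x.2, x.1)) := n03_pair n03_snd n03_fst
  refine CT.congr (n03_comp h2 h3) (fun x => ?_)
  obtain ⟨b, l⟩ := x
  cases l with
  | nil => rfl
  | cons a l =>
    show (if decide (b.1 = a.1) = true then (([(a.1, a.2 + b.2)], []) : List (κ × ZB β) × List (κ × ZB β))
      else ([b], [a])) = q05a_F (b, a :: l)
    unfold q05a_F
    simp only [decide_eq_true_eq]

theorem q05a_ctStep [Enc κ] [Fact (2 ≤ β)] :
    CT (q05a_step : (κ × ZB β) × (List (κ × ZB β) × List (κ × ZB β)) → _)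
      (fun x => size x.1 + size x.2.1) := by
  obtain ⟨C, hC⟩ := (q05a_ltF (κ := κ) (β := β)).size_le
  have h1 : CT (fun x : (κ × ZB β) × (List (κ × ZB β) × List (κ × ZB β)) => ((x.1, x.2.1), x.2.2))
      (fun x => size x.1) := CT.assocL
  have h2 : CT (fun x : ((κ × ZB β) × List (κ × ZB β)) × List (κ × ZB β) => (q05a_F x.1, x.2))
      (fun x => size x.1) := CT.first q05a_ltF
  have h3 : CT (fun x : (List (κ × ZB β) × List (κ × ZB β)) × List (κ × ZB β) =>
      (x.1.1, (x.1.2, x.2))) (fun x => size x.1.1) := CT.assocR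
  have h4 : CT (fun x : List (κ × ZB β) × (List (κ × ZB β) × List (κ × ZB β)) =>
      (x.1, x.2.1 ++ x.2.2)) (fun x => size x.1 + size x.2.1) := CT.second CT.append
  refine ((h4.comp (h3.comp (h2.comp h1))).mono (10 * (C + 1)) (fun x => ?_)).congr (fun x => rfl)
  obtain ⟨a, h, t⟩ := x
  show size a + size (a, h) + size (q05a_F (a, h)).1 +
    (size (q05a_F (a, h)).1 + size (q05a_F (a, h)).2) ≤ 10 * (C + 1) * (size a + size h + 1)
  have e1 := hC (a, h)
  have f1 : size (a, h) = size a + size h + 1 := size_prod _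
  have f2 : size (q05a_F (a, h)) = size (q05a_F (a, h)).1 + size (q05a_F (a, h)).2 + 1 := size_prod _
  have e2 : 10 * (C + 1) * (size a + size h + 1) = 10 * (C * size a) + 10 * (C * size h) + 10 * C +
    10 * size a + 10 * size h + 10 := by ring
  have e3 : C * (size a + size h + 1 + 1) = C * size a + C * size h + 2 * C := by ring
  rw [f1, f2, e3] at e1
  rw [e2, f1]
  omega

theorem q05a_fold (l : List (κ × ZB β)) : ∀ s : List (κ × ZB β) × List (κ × ZB β),
    ((s.1 = [] ∧ s.2 = []) ∨ ∃ y, s.1 = [y]) →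
    (l.foldl (fun s a => q05a_step (a, s)) s).1 ++ (l.foldl (fun s a => q05a_step (a, s)) s).2 =
      l.foldl cmb (s.1 ++ s.2) := by
  classical
  induction l with
  | nil => intro s _; rfl
  | cons a l ih =>
    intro s hs
    rw [List.foldl_cons, List.foldl_cons]
    have key : (∃ y, (q05a_step (a, s)).1 = [y]) ∧
        (q05a_step (a, s)).1 ++ (q05a_step (a, s)).2 = cmb (s.1 ++ s.2) a := by
      obtain ⟨h, t⟩ := s
      rcases hs with ⟨h1, h2⟩ | ⟨y, h1⟩
      · simp only at h1 h2
        subst h1 h2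
        exact ⟨⟨a, rfl⟩, rfl⟩
      · simp only at h1
        subst h1
        by_cases hk : a.1 = y.1
        · have e1 : q05a_F (a, [y]) = ([(y.1, y.2 + a.2)], []) := by
            unfold q05a_F
            simp only [hk, if_true]
          refine ⟨⟨(y.1, y.2 + a.2), ?_⟩, ?_⟩
          · show (q05a_F (a, [y])).1 = _
            rw [e1]
          · show (q05a_F (a, [y])).1 ++ ((q05a_F (a, [y])).2 ++ t) = cmb (y :: t) a
            rw [e1]
            unfold cmb
            simp only [hk, if_true]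
            rfl
        · have e1 : q05a_F (a, [y]) = ([a], [y]) := by
            unfold q05a_F
            simp only [hk, if_false]
          refine ⟨⟨a, ?_⟩, ?_⟩
          · show (q05a_F (a, [y])).1 = _
            rw [e1]
          · show (q05a_F (a, [y])).1 ++ ((q05a_F (a, [y])).2 ++ t) = cmb (y :: t) a
            rw [e1]
            unfold cmb
            simp only [hk, if_false]
            rfl
    rw [ih _ (Or.inr key.1), key.2]

theorem q05a_mxs {α : Type} [Enc α] (l : List α) : ∀ x ∈ l, size x ≤ mxs l := by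
  induction l with
  | nil => intro x hx; simp at hx
  | cons a l ih =>
    intro x hx
    unfold mxs
    rw [List.map_cons, List.foldr_cons]
    rcases List.mem_cons.1 hx with rfl | hx
    · exact le_max_left _ _
    · exact (ih x hx).trans (le_max_right _ _)

theorem q05a_abs [Fact (2 ≤ β)] (x : ZB β) : x.val.natAbs ≤ β ^ size x := by
  have h1 := n02_abs β x.val
  have h2 : (zdig β x.val).2.length ≤ size x := by
    have e : size x = size (zdig β x.val) := rfl
    rw [e, size_prod]
    have := n03_length_le (zdig β x.val).2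
    omega
  have hb : 1 ≤ β := le_trans (by norm_num) (Fact.out (p := 2 ≤ β))
  have h3 : β ^ (zdig β x.val).2.length ≤ β ^ size x := Nat.pow_le_pow_right hb h2
  have h4 : (x.val.natAbs : ℤ) ≤ ((β ^ (zdig β x.val).2.length : ℕ) : ℤ) := by
    rw [Int.natCast_natAbs]
    exact_mod_cast h1
  exact (by exact_mod_cast h4 : x.val.natAbs ≤ β ^ (zdig β x.val).2.length).trans h3

/-- The invariant. -/
theorem q05a_inv [Enc κ] [Fact (2 ≤ β)] (M j : ℕ) (a : κ × ZB β) (hsa : size a ≤ M)
    (s : List (κ × ZB β) × List (κ × ZB β))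
    (hs : ∀ y ∈ s.1, size y.1 ≤ M ∧ y.2.val.natAbs ≤ j * β ^ M) :
    (q05a_step (a, s)).1.length ≤ 1 ∧
      ∀ y ∈ (q05a_step (a, s)).1, size y.1 ≤ M ∧ y.2.val.natAbs ≤ (j + 1) * β ^ M := by
  classical
  obtain ⟨h, t⟩ := s
  simp only at hs
  have h0 : size a = size a.1 + size a.2 + 1 := size_prod a
  have hsa1 : size a.1 ≤ M := by omega
  have hb : 1 ≤ β := le_trans (by norm_num) (Fact.out (p := 2 ≤ β))
  have hsa2 : a.2.val.natAbs ≤ β ^ M := (q05a_abs a.2).trans (Nat.pow_le_pow_right hb (by omega))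
  have e : (j + 1) * β ^ M = j * β ^ M + β ^ M := by ring
  have ha' : a.2.val.natAbs ≤ (j + 1) * β ^ M := by omega
  show (q05a_F (a, h)).1.length ≤ 1 ∧
    ∀ y ∈ (q05a_F (a, h)).1, size y.1 ≤ M ∧ y.2.val.natAbs ≤ (j + 1) * β ^ M
  cases h with
  | nil =>
    refine ⟨le_refl 1, ?_⟩
    intro y hy
    have : y = a := by
      have h1 : y ∈ [a] := hy
      simpa using h1
    rw [this]
    exact ⟨hsa1, ha'⟩
  | cons z h =>
    by_cases hk : a.1 = z.1
    · have e1 : q05a_F (a, z :: h) = ([(z.1, z.2 + a.2)], []) := by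
        unfold q05a_F
        simp only [hk, if_true]
      rw [e1]
      refine ⟨le_refl 1, ?_⟩
      intro y hy
      have : y = (z.1, z.2 + a.2) := by simpa using hy
      rw [this]
      refine ⟨hk ▸ hsa1, ?_⟩
      have h1 := (hs z (by simp)).2
      have h2 : (z.2 + a.2).val.natAbs ≤ z.2.val.natAbs + a.2.val.natAbs :=
        Int.natAbs_add_le _ _
      show (z.2 + a.2).val.natAbs ≤ _
      omega
    · have e1 : q05a_F (a, z :: h) = ([a], [z]) := by
        unfold q05a_F
        simp only [hk, if_false]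
      rw [e1]
      refine ⟨le_refl 1, ?_⟩
      intro y hy
      have : y = a := by simpa using hy
      rw [this]
      exact ⟨hsa1, ha'⟩

/-- The size of the head. -/
theorem q05a_head [Enc κ] [Fact (2 ≤ β)] (M N B j : ℕ)
    (hB : ∀ y : κ × ZB β, size y.1 ≤ M → y.2.val.natAbs ≤ N * β ^ M → size y ≤ B)
    (hj : j ≤ N) (h : List (κ × ZB β)) (hl : h.length ≤ 1)
    (hs : ∀ y ∈ h, size y.1 ≤ M ∧ y.2.val.natAbs ≤ j * β ^ M) : size h ≤ 2 * (B + 1) := by
  have h1 : size h ≤ (B + 1) * (h.length + 1) := size_list_le_of B h (fun y hy =>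
    hB y (hs y hy).1 ((hs y hy).2.trans (Nat.mul_le_mul_right _ hj)))
  have h2 : (B + 1) * (h.length + 1) ≤ (B + 1) * 2 := Nat.mul_le_mul_left _ (by omega)
  omega

/-- The cost. -/
theorem q05a_cost [Enc κ] [Fact (2 ≤ β)] (M N B : ℕ)
    (hB : ∀ y : κ × ZB β, size y.1 ≤ M → y.2.val.natAbs ≤ N * β ^ M → size y ≤ B)
    (l : List (κ × ZB β)) : ∀ (s : List (κ × ZB β) × List (κ × ZB β)) (j : ℕ),
    (∀ x ∈ l, size x ≤ M) → j + l.length ≤ N → s.1.length ≤ 1 →
    (∀ y ∈ s.1, size y.1 ≤ M ∧ y.2.val.natAbs ≤ j * β ^ M) →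
    foldCost (fun x : (κ × ZB β) × (List (κ × ZB β) × List (κ × ZB β)) => size x.1 + size x.2.1)
      q05a_step l s ≤ l.length * (M + 2 * (B + 1)) ∧
      size (l.foldl (fun s a => q05a_step (a, s)) s).1 ≤ 2 * (B + 1) := by
  induction l with
  | nil =>
    intro s j _ hN hs1 hs
    exact ⟨Nat.zero_le _, q05a_head M N B j hB (by simpa using hN) s.1 hs1 hs⟩
  | cons a l ih =>
    intro s j hM hN hs1 hs
    have hsa : size a ≤ M := hM a (by simp)
    have hNj : j + (l.length + 1) ≤ N := by simpa using hN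
    have hh := q05a_head M N B j hB (by omega) s.1 hs1 hs
    have hnew := q05a_inv M j a hsa s hs
    have h3 := ih (q05a_step (a, s)) (j + 1) (fun x hx => hM x (by simp [hx])) (by omega)
      hnew.1 hnew.2
    refine ⟨?_, h3.2⟩
    have h4 := h3.1
    show size a + size s.1 + foldCost (fun x : (κ × ZB β) × (List (κ × ZB β) × List (κ × ZB β)) =>
      size x.1 + size x.2.1) q05a_step l (q05a_step (a, s)) ≤
      (l.length + 1) * (M + 2 * (B + 1))
    have e : (l.length + 1) * (M + 2 * (B + 1)) = l.length * (M + 2 * (B + 1)) + (M + 2 * (B + 1)) := by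
      ring
    rw [e]
    omega

end

theorem q05a_num (C M N L B s1 s2 s3 : ℕ) (hL : 1 ≤ L) (hB : B = M + C * (M + L + 2) + 1)
    (a1 : s1 ≤ (M + 1) * (N + 1)) (a2 : s2 ≤ N * (M + 2 * (B + 1))) (a3 : s3 ≤ 2 * (B + 1)) :
    s1 + (s1 + s2) + s3 ≤ 100 * (C + 1) * ((N + 1) * (M + L) + 1) := by
  have b1 : (M + 1) * (N + 1) ≤ (N + 1) * (M + L) := by
    rw [mul_comm]
    exact Nat.mul_le_mul_left _ (by omega)
  have b2 : B ≤ (3 * C + 3) * (M + L) := by
    have e : (3 * C + 3) * (M + L) = C * M + C * L + 2 * (C * M) + 2 * (C * L) +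
      3 * M + 3 * L := by ring
    have e' : C * (M + L + 2) = C * M + C * L + 2 * C := by ring
    have e'' : C * 1 ≤ C * L := Nat.mul_le_mul_left _ hL
    rw [hB, e, e']
    omega
  have b3 : N * (M + 2 * (B + 1)) ≤ (N + 1) * ((6 * C + 9) * (M + L)) := by
    refine Nat.mul_le_mul (by omega) ?_
    have e : (6 * C + 9) * (M + L) = 2 * ((3 * C + 3) * (M + L)) + 3 * M + 3 * L := by ring
    omega
  have b4 : (N + 1) * ((6 * C + 9) * (M + L)) = (6 * C + 9) * ((N + 1) * (M + L)) := by ring
  have b5 : 2 * (B + 1) ≤ (6 * C + 8) * ((N + 1) * (M + L)) := by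
    have e1 : 1 * (M + L) ≤ (N + 1) * (M + L) := Nat.mul_le_mul_right _ (by omega)
    have e2 : (6 * C + 8) * (1 * (M + L)) ≤ (6 * C + 8) * ((N + 1) * (M + L)) :=
      Nat.mul_le_mul_left _ e1
    have e3 : (6 * C + 8) * (1 * (M + L)) = 2 * ((3 * C + 3) * (M + L)) + 2 * M + 2 * L := by
      ring
    omega
  generalize (N + 1) * (M + L) = Q at *
  have b6 : 100 * (C + 1) * (Q + 1) = 100 * (C * Q) + 100 * Q + 100 * C + 100 := by ring
  have b7 : (6 * C + 9) * Q = 6 * (C * Q) + 9 * Q := by ring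
  have b8 : (6 * C + 8) * Q = 6 * (C * Q) + 8 * Q := by ring
  rw [b6]
  omega

theorem q05a_size {κ : Type} {β : ℕ} [Enc κ] [Fact (2 ≤ β)] (C : ℕ)
    (hC : ∀ (x : ZB β) (k : ℕ), x.val.natAbs ≤ β ^ k → size x ≤ C * (k + 1)) (M N : ℕ)
    (y : κ × ZB β) (hy1 : size y.1 ≤ M) (hy2 : y.2.val.natAbs ≤ N * β ^ M) :
    size y ≤ M + C * (M + lg N + 2) + 1 := by
  have hb2 : 2 ≤ β := Fact.out (p := 2 ≤ β)
  have e1 : size y = size y.1 + size y.2 + 1 := size_prod y
  have e2 : N ≤ β ^ (lg N + 1) := by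
    have h3 : N + 2 < 2 ^ (lg N + 1) := Nat.lt_pow_succ_log_self (by norm_num) _
    have h4 : 2 ^ (lg N + 1) ≤ β ^ (lg N + 1) := Nat.pow_le_pow_left hb2 _
    omega
  have e3 : y.2.val.natAbs ≤ β ^ (M + lg N + 1) := by
    refine hy2.trans ?_
    have : N * β ^ M ≤ β ^ (lg N + 1) * β ^ M := Nat.mul_le_mul_right _ e2
    refine this.trans (le_of_eq ?_)
    rw [← pow_add]
    congr 1
    omega
  have e4 := hC y.2 _ e3
  have e5 : M + lg N + 1 + 1 = M + lg N + 2 := by omega
  rw [e5] at e4
  rw [e1]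
  omega

theorem ct_cmb {κ : Type} {β : ℕ} [Enc κ] [Fact (2 ≤ β)] :
    CT (fun l : List (κ × ZB β) => l.foldl cmb [])
      (fun l => (l.length + 1) * (mxs l + lg l.length)) := by
  obtain ⟨C, hC⟩ := size_zb_le β
  have h0 : CT (fun l : List (κ × ZB β) => (l, (([], []) : List (κ × ZB β) × List (κ × ZB β))))
      (fun l => size l) := p05_input _
  have h1 := CT.foldl (q05a_ctStep (κ := κ) (β := β))
  have h2 : CT (fun x : List (κ × ZB β) × List (κ × ZB β) => x.1 ++ x.2) (fun x => size x.1) :=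
    CT.append
  refine ((h2.comp (h1.comp h0)).mono (100 * (C + 1)) (fun l => ?_)).congr (fun l => ?_)
  · have a1 : size l ≤ (mxs l + 1) * (l.length + 1) := size_list_le_of (mxs l) l (q05a_mxs l)
    have a2 := q05a_cost (κ := κ) (β := β) (mxs l) l.length _ (q05a_size C hC (mxs l) l.length) l
      ([], []) 0 (q05a_mxs l) (by omega) (by simp) (by intro y hy; simp at hy)
    exact q05a_num C (mxs l) l.length (lg l.length) _ _ _ _ (lg_pos _) rfl a1 a2.1 a2.2
  · have := q05a_fold l (([], []) : List (κ × ZB β) × List (κ × ZB β)) (Or.inl ⟨rfl, rfl⟩)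
    exact this

end Pool.Agent.WQL
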