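import Pool.Agent.Lib.MP_2da099_lc.QL.Defs

/-!
# Q05b: addition of neighbours, meaning.

Induction on the list with an arbitrary accumulator.  For `cmb_nodup`: invariant of `foldl` for the accumulator `o`
and the rest `l`: the keys of `o` are distinct, and the list of the keys `(o.map Prod.fst).reverse ++ l.map Prod.fst`
is grouped.
-/

set_option autoImplicit false

namespace Pool.Agent.WQL

open Pool.Agent.Lib.PolyTime Pool.Agent.WPM Pool.Agent.WPR Function

section
variable {κ : Type} {β : ℕ}

private theorem q05b_ksum_cons (x : κ × ZB β) (l : List (κ × ZB β)) (c : κ) :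
    ksum (x :: l) c = ksum [x] c + ksum l c := by
  unfold ksum
  rw [show x :: l = [x] ++ l from rfl, List.filter_append, List.map_append, List.sum_append]

private theorem q05b_ksum_nil (c : κ) : ksum ([] : List (κ × ZB β)) c = 0 := by
  simp [ksum]

private theorem q05b_ksum_one (x : κ × ZB β) (c : κ) [Decidable (x.1 = c)] :
    ksum [x] c = if x.1 = c then x.2.val else 0 := by
  classical
  unfold ksum
  by_cases h : x.1 = c
  · rw [if_pos h]
    simp [h]
  · rw [if_neg h]
    simp [h]

private theorem q05b_nl (x : κ × ZB β) : cmb [] x = [x] := rfl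

private theorem q05b_pos {x y : κ × ZB β} (t : List (κ × ZB β)) (h : x.1 = y.1) :
    cmb (y :: t) x = (y.1, y.2 + x.2) :: t := if_pos h

private theorem q05b_neg {x y : κ × ZB β} (t : List (κ × ZB β)) (h : ¬ x.1 = y.1) :
    cmb (y :: t) x = x :: y :: t := if_neg h

private theorem q05b_cmb (o : List (κ × ZB β)) (x : κ × ZB β) (c : κ) :
    ksum (cmb o x) c = ksum o c + ksum [x] c := by
  classical
  match o with
  | [] =>
    rw [q05b_nl, q05b_ksum_nil, zero_add]
  | y :: t =>
    by_cases h : x.1 = y.1
    · rw [q05b_pos t h, q05b_ksum_cons, q05b_ksum_cons y t, q05b_ksum_one, q05b_ksum_one, q05b_ksum_one, h]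
      dsimp only
      have e : (y.2 + x.2 : ZB β).val = y.2.val + x.2.val := rfl
      split_ifs
      · rw [e]
        ring
      · ring
    · rw [q05b_neg t h, q05b_ksum_cons]
      ring

private theorem q05b_ksum (l : List (κ × ZB β)) (c : κ) : ∀ o : List (κ × ZB β),
    ksum (l.foldl cmb o) c = ksum o c + ksum l c := by
  induction l with
  | nil =>
    intro o
    rw [List.foldl_nil, q05b_ksum_nil, add_zero]
  | cons x l ih =>
    intro o
    rw [List.foldl_cons, ih, q05b_cmb, q05b_ksum_cons x l, add_assoc]

theorem ksum_cmb (l : List (κ × ZB β)) (c : κ) : ksum (l.foldl cmb []) c = ksum l c := by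
  rw [q05b_ksum, q05b_ksum_nil, zero_add]

private theorem q05b_keys (l : List (κ × ZB β)) : ∀ o : List (κ × ZB β), ∀ y ∈ l.foldl cmb o,
    (∃ z ∈ o, z.1 = y.1) ∨ ∃ z ∈ l, z.1 = y.1 := by
  classical
  induction l with
  | nil =>
    intro o y hy
    exact Or.inl ⟨y, hy, rfl⟩
  | cons x l ih =>
    intro o y hy
    rw [List.foldl_cons] at hy
    rcases ih _ y hy with ⟨z, hz, hzy⟩ | ⟨z, hz, hzy⟩
    · match o, hz with
      | [], hz =>
        rw [q05b_nl, List.mem_singleton] at hz
        right
        exact ⟨x, List.mem_cons_self, by rw [← hz]; exact hzy⟩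
      | w :: t, hz =>
        by_cases h : x.1 = w.1
        · rw [q05b_pos t h] at hz
          rcases List.mem_cons.1 hz with hz | hz
          · left
            refine ⟨w, List.mem_cons_self, ?_⟩
            rw [← hzy, hz]
          · left
            exact ⟨z, List.mem_cons_of_mem _ hz, hzy⟩
        · rw [q05b_neg t h] at hz
          rcases List.mem_cons.1 hz with hz | hz
          · right
            exact ⟨x, List.mem_cons_self, by rw [← hz]; exact hzy⟩
          · left
            exact ⟨z, hz, hzy⟩
    · right
      exact ⟨z, List.mem_cons_of_mem _ hz, hzy⟩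

theorem cmb_keys (l : List (κ × ZB β)) : ∀ y ∈ l.foldl cmb [], ∃ z ∈ l, z.1 = y.1 := by
  intro y hy
  rcases q05b_keys l [] y hy with ⟨z, hz, _⟩ | h
  · exact absurd hz (List.not_mem_nil)
  · exact h

private theorem q05b_grp_map (l : List (κ × ZB β)) (h : Grp (fun y z => y.1 = z.1) l) :
    Grp (fun a b : κ => a = b) (l.map Prod.fst) := by
  intro a b c hs hac
  obtain ⟨l', hl', he⟩ := List.sublist_map_iff.1 hs
  match l', he with
  | [y1, y2, y3], he =>
    simp only [List.map_cons, List.map_nil, List.cons.injEq, and_true] at he
    obtain ⟨h1, h2, h3⟩ := he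
    subst h1
    subst h2
    subst h3
    exact h y1 y2 y3 hl' hac

private theorem q05b_nodup (l : List (κ × ZB β)) : ∀ o : List (κ × ZB β), (o.map Prod.fst).Nodup →
    Grp (fun a b : κ => a = b) ((o.map Prod.fst).reverse ++ l.map Prod.fst) →
    ((l.foldl cmb o).map Prod.fst).Nodup := by
  classical
  induction l with
  | nil =>
    intro o ho _
    exact ho
  | cons x l ih =>
    intro o ho hg
    rw [List.foldl_cons]
    match o, ho, hg with
    | [], ho, hg =>
      rw [q05b_nl]
      refine ih [x] ?_ ?_
      · simp
      · simpa using hg
    | w :: t, ho, hg =>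
      rw [List.map_cons, List.nodup_cons] at ho
      by_cases h : x.1 = w.1
      · rw [q05b_pos t h]
        refine ih _ ?_ ?_
        · rw [List.map_cons, List.nodup_cons]
          exact ho
        · intro a b c hs
          refine hg a b c (hs.trans ?_)
          simp only [List.map_cons, List.reverse_cons, List.append_assoc, List.singleton_append]
          exact List.Sublist.append (List.Sublist.refl _)
            (List.Sublist.cons_cons _ (List.sublist_cons_self _ _))
      · rw [q05b_neg t h]
        refine ih _ ?_ ?_
        · rw [List.map_cons, List.nodup_cons]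
          refine ⟨?_, ?_⟩
          · rw [List.map_cons, List.mem_cons]
            rintro (h1 | h1)
            · exact h h1
            · have hsub : [x.1, w.1, x.1].Sublist
                  (((w :: t).map Prod.fst).reverse ++ (x :: l).map Prod.fst) := by
                simp only [List.map_cons, List.reverse_cons, List.append_assoc, List.singleton_append]
                have h2 : [x.1].Sublist (t.map Prod.fst).reverse := by
                  rw [List.singleton_sublist, List.mem_reverse]
                  exact h1
                have h3 : [w.1, x.1].Sublist (w.1 :: x.1 :: l.map Prod.fst) :=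
                  List.Sublist.cons_cons _ (List.Sublist.cons_cons _ (List.nil_sublist _))
                have h4 := List.Sublist.append h2 h3
                simpa using h4
              have h5 : x.1 = w.1 := hg x.1 w.1 x.1 hsub rfl
              exact h h5
          · rw [List.map_cons, List.nodup_cons]
            exact ho
        · simpa using hg

theorem cmb_nodup (l : List (κ × ZB β)) (h : Grp (fun y z => y.1 = z.1) l) :
    ((l.foldl cmb []).map Prod.fst).Nodup := by
  refine q05b_nodup l [] (by simp) ?_
  simpa using q05b_grp_map l h

end

end Pool.Agent.WQL
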