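import Pool.Agent.Lib.MP_2da099_lc.QL.Q01
import Pool.Agent.Lib.MP_2da099_lc.QL.Q02
import Pool.Agent.Lib.MP_2da099_lc.QL.Q04a
import Pool.Agent.Lib.MP_2da099_lc.QL.Q04b
import Pool.Agent.Lib.MP_2da099_lc.QL.Q05a
import Pool.Agent.Lib.MP_2da099_lc.QL.Q05b

/-!
# Q06: normalisation of a list of items.

`f (L, l) = ((rp^[L] (l.map (fun y => (code y.1, y)))).map Prod.snd).foldl cmb []`.  `ct_code`, `ct_map`, `ct_rpIter`,
`ct_cmb`.  `size l ≤ (l.length + 1) * (mxs l + 1)`, `mxs` does not change under permutations and the values of the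
intermediate lists have size `≤ C (mxs l + 1)`.  `rpIter_grp` with `f y = code y.1`; if all codes are of length
`≤ L` then equality of the bits `i < L` gives equality of the codes, so of the keys (`code_injective`).
`ksum` is invariant under permutations.
-/

set_option autoImplicit false

namespace Pool.Agent.WQL

open Pool.Agent.Lib.PolyTime Pool.Agent.WPM Pool.Agent.WPR Function

theorem q06_mxs_le {α : Type} [Enc α] (l : List α) (B : ℕ) (h : ∀ x ∈ l, size x ≤ B) : mxs l ≤ B := by
  induction l with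
  | nil => exact Nat.zero_le _
  | cons a l ih =>
    unfold mxs
    rw [List.map_cons, List.foldr_cons]
    exact max_le (h a (by simp)) (ih (fun x hx => h x (by simp [hx])))

theorem q06_pair {κ : Type} {β : ℕ} [Enc κ] [Fact (2 ≤ β)] :
    n03_LT (fun y : κ × ZB β => ((code y.1 : List Bool), y)) := by
  have h1 : n03_LT (fun y : κ × ZB β => y.1) := n03_fst
  have h2 : n03_LT (fun a : κ => (code a : List Bool)) := ct_code
  exact n03_pair (n03_comp (g := fun a : κ => (code a : List Bool)) h2 h1) n03_id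

theorem q06_num (C M N L lgN s0 s1 s2 s3 t1 t2 t3 K : ℕ) (hg : 1 ≤ lgN)
    (h0 : s0 ≤ (M + 1) * (N + 1)) (h1 : s1 ≤ (5 * M + 3) * (N + 1)) (h2 : s2 ≤ s1)
    (ht1 : t1 ≤ s0) (ht2 : t2 ≤ s2) (h3 : s3 ≤ (N + 1) * (M + lgN)) (ht3 : t3 = (L + 1) * s1)
    (hC : C = 0) (hK : K = 100) :
    (2 * L + 1) + (s0 + t1) + t3 + (s2 + t2) + s3 ≤ K * ((L + 1) * ((N + 1) * (M + lgN)) + 1) := by
  have b1 : (M + 1) * (N + 1) ≤ (N + 1) * (M + lgN) := by
    rw [mul_comm]
    exact Nat.mul_le_mul_left _ (by omega)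
  have b2 : (5 * M + 3) * (N + 1) ≤ 5 * ((N + 1) * (M + lgN)) := by
    have e : 5 * ((N + 1) * (M + lgN)) = (5 * (M + lgN)) * (N + 1) := by ring
    rw [e]
    exact Nat.mul_le_mul_right _ (by omega)
  have b0 : 1 ≤ (N + 1) * (M + lgN) := Nat.mul_pos (by omega) (by omega)
  generalize (N + 1) * (M + lgN) = Q at *
  have b3 : t3 ≤ 5 * ((L + 1) * Q) := by
    rw [ht3]
    have e : 5 * ((L + 1) * Q) = (L + 1) * (5 * Q) := by ring
    rw [e]
    exact Nat.mul_le_mul_left _ (by omega)
  have b4 : Q ≤ (L + 1) * Q := Nat.le_mul_of_pos_left _ (by omega)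
  have b5 : (L + 1) * 1 ≤ (L + 1) * Q := Nat.mul_le_mul_left _ b0
  subst hK
  generalize (L + 1) * Q = R at *
  omega

theorem exists_norm (κ : Type) [Enc κ] (β : ℕ) [Fact (2 ≤ β)] :
    ∃ f : ℕ × List (κ × ZB β) → List (κ × ZB β),
      CT f (fun x => (x.1 + 1) * ((x.2.length + 1) * (mxs x.2 + lg x.2.length))) ∧
      (∀ x c, ksum (f x) c = ksum x.2 c) ∧ (∀ x, ∀ y ∈ f x, ∃ z ∈ x.2, z.1 = y.1) ∧
      ∀ x, (∀ y ∈ x.2, size y.1 ≤ x.1) → ((f x).map Prod.fst).Nodup := by
  classical
  have hmain : ∀ x : ℕ × List (κ × ZB β), ∃ l' : List (κ × ZB β), l'.Perm x.2 ∧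
      (rp^[x.1] (x.2.map (fun y => ((code y.1 : List Bool), y)))).map Prod.snd = l' ∧
      Grp (fun a b => ∀ i < x.1, (code a.1 : List Bool)[i]? = (code b.1 : List Bool)[i]?) l' := by
    intro x
    obtain ⟨l', h1, h2, h3⟩ := rpIter_grp (fun y : κ × ZB β => (code y.1 : List Bool)) x.2 x.1
    refine ⟨l', h1, ?_, h3⟩
    rw [h2, List.map_map]
    exact List.map_id' l'
  refine ⟨fun x => ((rp^[x.1] (x.2.map (fun y => ((code y.1 : List Bool), y)))).map
    Prod.snd).foldl cmb [], ?_, ?_, ?_, ?_⟩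
  · have h1 := CT.second (γ := ℕ) (ct_map (q06_pair (κ := κ) (β := β)))
    have h2 := ct_rpIter (α := κ × ZB β)
    have h3 := ct_map (n03_snd (α := List Bool) (β := κ × ZB β))
    have h4 := ct_cmb (κ := κ) (β := β)
    refine ((h4.comp (h3.comp (h2.comp h1))).mono 100 (fun x => ?_)).congr (fun x => rfl)
    obtain ⟨L, l⟩ := x
    obtain ⟨l', hp, he, _⟩ := hmain (L, l)
    simp only at he hp
    set l1 := l.map (fun y => ((code y.1 : List Bool), y)) with hl1
    have a0 : size l ≤ (mxs l + 1) * (l.length + 1) := size_list_le_of (mxs l) l (q05a_mxs l)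
    have a1 : size l1 ≤ (5 * mxs l + 3) * (l.length + 1) := by
      have := size_list_le_of (5 * mxs l + 2) l1 (fun z hz => by
        obtain ⟨y, hy, rfl⟩ := List.mem_map.1 hz
        have e1 : size ((code y.1 : List Bool), y) = size (code y.1 : List Bool) + size y + 1 :=
          size_prod _
        have e2 : size (code y.1 : List Bool) ≤ 4 * size y.1 + 1 := q02_size_code y.1
        have e3 : size y = size y.1 + size y.2 + 1 := size_prod y
        have e4 := q05a_mxs l y hy
        omega)
      rw [hl1, List.length_map] at this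
      exact this
    have a2 : size (rp^[L] l1) ≤ size l1 := q04a_iter_le L l1
    have a3 : (l.map (fun a => size a)).sum ≤ size l := p05_sum_size_le l
    have a4 : ((rp^[L] l1).map (fun a => size a)).sum ≤ size (rp^[L] l1) := p05_sum_size_le _
    have a5 : (l'.length + 1) * (mxs l' + lg l'.length) ≤ (l.length + 1) * (mxs l + lg l.length) := by
      rw [hp.length_eq]
      refine Nat.mul_le_mul_left _ (Nat.add_le_add_right ?_ _)
      exact q06_mxs_le l' _ (fun x hx => q05a_mxs l x (hp.mem_iff.1 hx))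
    have a6 : size L = 2 * L + 1 := size_nat L
    have a7 : ((rp^[L] l1).map Prod.snd) = l' := he
    show size L + (size l + (l.map (fun a => size a)).sum) + (L + 1) * size l1 +
      (size (rp^[L] l1) + ((rp^[L] l1).map (fun a => size a)).sum) +
      (((rp^[L] l1).map Prod.snd).length + 1) * (mxs ((rp^[L] l1).map Prod.snd) +
        lg ((rp^[L] l1).map Prod.snd).length) ≤
      100 * ((L + 1) * ((l.length + 1) * (mxs l + lg l.length)) + 1)
    rw [a7, a6]
    exact q06_num 0 (mxs l) l.length L (lg l.length) _ _ _ _ _ _ _ 100 (lg_pos _) a0 a1 a2 a3 a4 a5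
      rfl rfl rfl
  · intro x c
    obtain ⟨l', hp, he, _⟩ := hmain x
    show ksum (((rp^[x.1] (x.2.map (fun y => ((code y.1 : List Bool), y)))).map
      Prod.snd).foldl cmb []) c = ksum x.2 c
    rw [he, ksum_cmb]
    unfold ksum
    exact ((hp.filter _).map _).sum_eq
  · intro x y hy
    obtain ⟨l', hp, he, _⟩ := hmain x
    have hy' : y ∈ ((rp^[x.1] (x.2.map (fun y => ((code y.1 : List Bool), y)))).map
      Prod.snd).foldl cmb [] := hy
    rw [he] at hy'
    obtain ⟨z, hz, hzy⟩ := cmb_keys l' y hy'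
    exact ⟨z, hp.mem_iff.1 hz, hzy⟩
  · intro x hx
    obtain ⟨l', hp, he, hG⟩ := hmain x
    show ((((rp^[x.1] (x.2.map (fun y => ((code y.1 : List Bool), y)))).map
      Prod.snd).foldl cmb []).map Prod.fst).Nodup
    rw [he]
    refine cmb_nodup l' ?_
    intro a b c hs hac
    have hmem : ∀ z ∈ [a, b, c], size z.1 ≤ x.1 := fun z hz =>
      hx z (hp.mem_iff.1 (hs.subset hz))
    have h1 := hG a b c hs (fun i _ => by rw [hac])
    have h2 : (code a.1 : List Bool) = code b.1 := by
      apply List.ext_getElem?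
      intro i
      by_cases hi : i < x.1
      · exact h1 i hi
      · have ha : (code a.1 : List Bool).length ≤ i := by
          rw [length_code]
          exact (hmem a (by simp)).trans (by omega)
        have hb : (code b.1 : List Bool).length ≤ i := by
          rw [length_code]
          exact (hmem b (by simp)).trans (by omega)
        rw [List.getElem?_eq_none ha, List.getElem?_eq_none hb]
    exact code_injective κ h2

end Pool.Agent.WQL
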