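import Pool.Agent.Lib.MP_2da099_lc.QL.Defs

/-!
# Q07: walks.

The walk is a scan (`ct_scan`) with the state `(s, x)` and the lists of outputs as values; the step on
`((s, x), a)` is a function of the finite pair `(s, a)` and of `x` (`ct_fincase`): `ct_linMap`, the finite list of
outputs (`CT.mapConst`, `ct_linMap`, `ct_dot`); then `ct_flatten`.
-/

set_option autoImplicit false

namespace Pool.Agent.WQL

open Pool.Agent.Lib.PolyTime Pool.Agent.WPM Pool.Agent.WPR Function

/-- The step as a function of the finite data and the vector. -/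
private def q07_f {ι σ : Type} (W : Walk ι σ) (β : ℕ) (i : ι × σ) (x : List (ZB β)) :
    (σ × List (ZB β)) × List (List (ZB β) × ZB β) :=
  ((W.nx i.2 i.1, linMap (W.A i.2 i.1) x), (W.out i.2 i.1).map (fun r => (linMap r.1 x, dtz r.2 x)))

/-- The step. -/
private def q07_s {ι σ : Type} (W : Walk ι σ) (β : ℕ) (y : (σ × List (ZB β)) × ι) :
    (σ × List (ZB β)) × List (List (ZB β) × ZB β) :=
  q07_f W β (y.2, y.1.1) y.1.2

private theorem q07_ct_f {ι σ : Type} [Enc σ] (W : Walk ι σ) (β : ℕ) [Fact (2 ≤ β)] (i : ι × σ) :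
    CT (fun x : List (ZB β) => q07_f W β i x) (fun x => size x) := by
  have h1 : CT (fun x : List (ZB β) => (W.nx i.2 i.1, linMap (W.A i.2 i.1) x)) (fun x => size x) := by
    have a1 : CT (fun x : List (ZB β) => (W.nx i.2 i.1, x)) (fun _ => 0) := CT.pushConst _
    exact ((a1.comp (ct_linMap β (W.A i.2 i.1))).mono 1 (fun x => by
      show size x + 0 ≤ 1 * (size x + 1)
      omega)).congr (fun _ => rfl)
  have h2 : CT (fun x : List (ZB β) => (W.out i.2 i.1).map
      (fun r => ((linMap r.1 x, dtz r.2 x) : List (ZB β) × ZB β))) (fun x => size x + 3 * size x) :=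
    CT.mapConst (W.out i.2 i.1) (f := fun r (x : List (ZB β)) =>
      ((linMap r.1 x, dtz r.2 x) : List (ZB β) × ZB β)) (T := fun x => 3 * size x)
      (fun r _ => ((ct_linMap β r.1).pair (ct_dot β r.2)).mono 1 (fun x => by
        show size x + size x + size x ≤ 1 * (3 * size x + 1)
        omega))
  exact ((h1.pair h2).mono 6 (fun x => by
    show size x + size x + (size x + 3 * size x) ≤ 6 * (size x + 1)
    omega)).congr (fun _ => rfl)

private theorem q07_ct_s {ι σ : Type} [Enc ι] [Finite ι] [Enc σ] [Finite σ] (W : Walk ι σ) (β : ℕ)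
    [Fact (2 ≤ β)] : CT (q07_s W β) (fun y => size y.1.2) := by
  obtain ⟨κ1, hκ1⟩ := size_fin ι
  obtain ⟨κ2, hκ2⟩ := size_fin σ
  have h1 : CT (fun y : (σ × List (ZB β)) × ι => (y.2, y.1)) (fun y => size y.1 + size y.2) :=
    CT.swap
  have h2 : CT (fun y : ι × (σ × List (ZB β)) => ((y.1, y.2.1), y.2.2)) (fun y => size y.1) :=
    CT.assocL
  have h3 : CT (fun y : (ι × σ) × List (ZB β) => q07_f W β y.1 y.2) (fun y => size y.2) :=
    ct_fincase (f := fun i (x : List (ZB β)) => q07_f W β i x) (T := fun _ x => size x)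
      (fun i => q07_ct_f W β i)
  refine ((h3.comp (h2.comp h1)).mono (2 * κ1 + κ2 + 3) (fun y => ?_)).congr (fun y => rfl)
  show size y.1 + size y.2 + size y.2 + size y.1.2 ≤ (2 * κ1 + κ2 + 3) * (size y.1.2 + 1)
  have e1 := hκ1 y.2
  have e2 := hκ2 y.1.1
  have e3 : size y.1 = size y.1.1 + size y.1.2 + 1 := by rw [size_prod]
  have e4 : (2 * κ1 + κ2 + 3) * (size y.1.2 + 1) =
      (2 * κ1 + κ2) * size y.1.2 + 2 * κ1 + κ2 + 3 * (size y.1.2 + 1) := by ring
  rw [e3, e4]
  omega

private theorem q07_run {ι σ : Type} (W : Walk ι σ) {β : ℕ} (I : List ι) :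
    ∀ sx : σ × List (ZB β), (scan (q07_s W β) sx I).2.flatten = W.run sx I := by
  induction I with
  | nil => intro sx; rfl
  | cons a l ih =>
    intro sx
    have h := ih (q07_s W β (sx, a)).1
    simp only [scan, Walk.run, List.flatten_cons]
    rw [h]
    rfl

theorem ct_walk {ι σ : Type} [Enc ι] [Finite ι] [Finite σ] (W : Walk ι σ) {β : ℕ}
    [Fact (2 ≤ β)] (s0 : σ) (x0 : List (ZB β)) :
    CT (fun I : List ι => W.run (s0, x0) I) (fun I => W.cost (s0, x0) I) := by
  classical
  let _ := Fintype.ofFinite σ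
  let _ : Enc σ := encFintype σ
  obtain ⟨κ1, hκ1⟩ := size_fin ι
  obtain ⟨κ2, hκ2⟩ := size_fin σ
  obtain ⟨κ3, hκ3⟩ := size_list_fin ι
  have hs := q07_ct_s W β
  obtain ⟨C, hC⟩ := hs.size_le
  have h1 : CT (fun I : List ι => ((s0, x0), I)) (fun _ => 0) := CT.pushConst _
  have h2 := ct_scan hs
  have h3 : CT (fun y : (σ × List (ZB β)) × List (List (List (ZB β) × ZB β)) => y.2)
    (fun y => size y.1) := CT.snd
  have h4 : CT (fun y : List (List (List (ZB β) × ZB β)) => y.flatten) (fun y => size y) :=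
    ct_flatten
  -- the cost of the scan
  have hlen : ∀ (I : List ι) (sx : σ × List (ZB β)), I.length ≤ W.cost sx I := by
    intro I
    induction I with
    | nil => intro sx; exact Nat.zero_le _
    | cons a l ih =>
      intro sx
      have := ih (W.nx sx.1 a, linMap (W.A sx.1 a) sx.2)
      simp only [Walk.cost, List.length_cons]
      omega
  have hcost : ∀ (I : List ι) (sx : σ × List (ZB β)),
      scanCost (fun y : (σ × List (ZB β)) × ι => size y.1.2) (q07_s W β) sx I ≤
        (2 * κ1 + 3 * κ2 + C + 10) * (W.cost sx I + 1) := by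
    intro I
    induction I with
    | nil =>
      intro sx
      show size sx ≤ (2 * κ1 + 3 * κ2 + C + 10) * (size sx.2 + 1)
      have e2 := hκ2 sx.1
      have e3 : size sx = size sx.1 + size sx.2 + 1 := by rw [size_prod]
      have e4 : (2 * κ1 + 3 * κ2 + C + 10) * (size sx.2 + 1) = (2 * κ1 + 3 * κ2 + C) * size sx.2 +
        (2 * κ1 + 3 * κ2 + C) + 10 * (size sx.2 + 1) := by ring
      rw [e3, e4]
      omega
    | cons a l ih =>
      intro sx
      have h := ih (W.nx sx.1 a, linMap (W.A sx.1 a) sx.2)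
      have e1 := hκ1 a
      have e2 := hκ2 sx.1
      have e3 : size sx = size sx.1 + size sx.2 + 1 := by rw [size_prod]
      have e5 := hC (sx, a)
      have e6 : size (sx, a) = size sx + size a + 1 := by rw [size_prod]
      have e7 : size (q07_s W β (sx, a)) = size (q07_s W β (sx, a)).1 +
        size (q07_s W β (sx, a)).2 + 1 := by rw [size_prod]
      have e8 : (2 * κ1 + 3 * κ2 + C + 10) *
          (size sx.2 + 1 + W.cost (W.nx sx.1 a, linMap (W.A sx.1 a) sx.2) l + 1) =
        (2 * κ1 + 3 * κ2 + C + 10) * (W.cost (W.nx sx.1 a, linMap (W.A sx.1 a) sx.2) l + 1) +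
        (C * (size sx.2 + 1) + (2 * κ1 + 3 * κ2) * size sx.2 + 2 * κ1 + 3 * κ2 +
          10 * (size sx.2 + 1)) := by ring
      show size sx + size a + size sx.2 + size (q07_s W β (sx, a)).1 + size (q07_s W β (sx, a)).2 +
        scanCost _ (q07_s W β) (W.nx sx.1 a, linMap (W.A sx.1 a) sx.2) l ≤
        (2 * κ1 + 3 * κ2 + C + 10) *
          (size sx.2 + 1 + W.cost (W.nx sx.1 a, linMap (W.A sx.1 a) sx.2) l + 1)
      rw [e8]
      simp only at e5
      omega
  refine ((h4.comp (h3.comp (h2.comp h1))).mono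
    (size ((s0, x0) : σ × List (ZB β)) + κ3 + 3 * (2 * κ1 + 3 * κ2 + C + 10) + 3) (fun I => ?_)).congr
    (fun I => q07_run W I (s0, x0))
  show 0 + (size ((s0, x0) : σ × List (ZB β)) + size I +
      scanCost (fun y : (σ × List (ZB β)) × ι => size y.1.2) (q07_s W β) (s0, x0) I) +
      size (scan (q07_s W β) (s0, x0) I).1 + size (scan (q07_s W β) (s0, x0) I).2 ≤ _
  have f1 := size_scan_le (fun y : (σ × List (ZB β)) × ι => size y.1.2) (q07_s W β) (s0, x0) I
  have f2 := hcost I (s0, x0)
  have f3 := hκ3 I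
  have f4 := hlen I (s0, x0)
  have f5 : κ3 * (I.length + 1) ≤ κ3 * (W.cost (s0, x0) I + 1) :=
    Nat.mul_le_mul_left _ (by omega)
  set S := scanCost (fun y : (σ × List (ZB β)) × ι => size y.1.2) (q07_s W β) (s0, x0) I
  set D := W.cost (s0, x0) I
  set z := size ((s0, x0) : σ × List (ZB β))
  have f6 : (z + κ3 + 3 * (2 * κ1 + 3 * κ2 + C + 10) + 3) * (D + 1) =
    z * D + z + κ3 * (D + 1) + 3 * ((2 * κ1 + 3 * κ2 + C + 10) * (D + 1)) + 3 * (D + 1) := by ring
  rw [f6]
  omega

end Pool.Agent.WQL
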