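import Pool.Agent.Lib.MP_2da099_lc.QL.Q01

/-!
# Q08: a unary logarithm.

`κ n = c * ((Nat.digits 2 n).length + 1)`: count the items in binary (`ZB 2`, `CT.foldl` with the step `x ↦ x + 1`,
`ct_zblin`; cost `size x ≤ C lg n` by `size_zb_log`), take the list of digits (`n03_zdig`, `encZB`), `ct_length`,
`ct_mul` by a constant (`CT.pushConst`).  `(Nat.digits 2 n).length = Nat.log 2 n + 1` for `n ≠ 0`.
-/

set_option autoImplicit false

namespace Pool.Agent.WQL

open Pool.Agent.Lib.PolyTime Pool.Agent.WPM Pool.Agent.WPR Function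

private theorem q08_two : Fact (2 ≤ 2) := ⟨le_refl 2⟩

attribute [local instance] q08_two

/-- One step of the binary counter. -/
private def q08_step {ι : Type} (x : ι × ZB 2) : ZB 2 := ZB.mk 1 + (1 : ℤ) • x.2

private theorem q08_step_mk {ι : Type} (a : ι) (m : ℕ) :
    q08_step (a, (ZB.mk (m : ℤ) : ZB 2)) = ZB.mk ((m + 1 : ℕ) : ℤ) := by
  show ((1 : ℤ) + (1 : ℤ) • (m : ℤ)) = ((m + 1 : ℕ) : ℤ)
  rw [smul_eq_mul, one_mul]
  push_cast
  ring

private theorem q08_foldl {ι : Type} (l : List ι) : ∀ m : ℕ,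
    l.foldl (fun s a => q08_step (a, s)) (ZB.mk (m : ℤ) : ZB 2) =
      ZB.mk ((m + l.length : ℕ) : ℤ) := by
  induction l with
  | nil => intro m; rfl
  | cons a l ih =>
    intro m
    rw [List.foldl_cons, q08_step_mk, ih, List.length_cons]
    congr 2
    ring

private theorem q08_size : ∃ C : ℕ, ∀ n : ℕ, size (ZB.mk (n : ℤ) : ZB 2) ≤ C * lg n := by
  obtain ⟨C, hC⟩ := size_zb_log 2
  refine ⟨2 * C, fun n => ?_⟩
  have h1 := hC (ZB.mk (n : ℤ))
  have h2 : (ZB.mk (n : ℤ) : ZB 2).val.natAbs = n := Int.natAbs_natCast n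
  rw [h2] at h1
  have h3 : Nat.log 2 n ≤ lg n := Nat.log_mono_right (by omega)
  have h4 : 1 ≤ lg n := lg_pos n
  have h5 : C * (Nat.log 2 n + 1) ≤ C * (2 * lg n) := Nat.mul_le_mul_left _ (by omega)
  have e : C * (2 * lg n) = 2 * C * lg n := by ring
  omega

private theorem q08_cost {ι : Type} (C : ℕ)
    (hC : ∀ n : ℕ, size (ZB.mk (n : ℤ) : ZB 2) ≤ C * lg n) (l : List ι) : ∀ m N : ℕ,
    m + l.length ≤ N →
    foldCost (fun x : ι × ZB 2 => size x.2) q08_step l (ZB.mk (m : ℤ)) ≤
      l.length * (C * lg N) := by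
  induction l with
  | nil => intro m N _; simp [foldCost]
  | cons a l ih =>
    intro m N h
    rw [List.length_cons] at h
    have h1 := ih (m + 1) N (by omega)
    have h2 : size (ZB.mk (m : ℤ) : ZB 2) ≤ C * lg N :=
      (hC m).trans (Nat.mul_le_mul_left _ (lg_mono (by omega)))
    show size (ZB.mk (m : ℤ) : ZB 2) + foldCost _ q08_step l (q08_step (a, (ZB.mk (m : ℤ)))) ≤ _
    rw [q08_step_mk, List.length_cons, Nat.add_mul, Nat.one_mul]
    omega

private theorem q08_ct_step (ι : Type) [Enc ι] [Finite ι] :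
    CT (q08_step : ι × ZB 2 → ZB 2) (fun x => size x.2) := by
  obtain ⟨κ, hκ⟩ := size_fin ι
  have h1 : CT (fun x : ι × ZB 2 => x.2) (fun x => size x.1) := CT.snd
  have h2 : CT (fun x : ZB 2 => ((ZB.mk 1 : ZB 2), x)) (fun _ => 0) := CT.pushConst _
  have h3 := (ct_zblin 2 1).comp (h2.comp h1)
  refine (h3.mono (κ + size (ZB.mk 1 : ZB 2) + 1) (fun x => ?_)).congr (fun x => rfl)
  show size x.1 + 0 + (size (ZB.mk 1 : ZB 2) + size x.2) ≤
    (κ + size (ZB.mk 1 : ZB 2) + 1) * (size x.2 + 1)
  have h4 := hκ x.1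
  have e : (κ + size (ZB.mk 1 : ZB 2) + 1) * (size x.2 + 1) =
      (κ + size (ZB.mk 1 : ZB 2)) * size x.2 + κ + size (ZB.mk 1 : ZB 2) + size x.2 + 1 := by ring
  omega

private theorem q08_count (ι : Type) [Enc ι] [Finite ι] :
    CT (fun l : List ι => (ZB.mk (l.length : ℤ) : ZB 2))
      (fun l => (l.length + 1) * lg l.length) := by
  obtain ⟨C, hC⟩ := q08_size
  obtain ⟨κ, hκ⟩ := size_list_fin ι
  have h1 := CT.foldl (q08_ct_step ι)
  have h2 : CT (fun l : List ι => (l, (ZB.mk ((0 : ℕ) : ℤ) : ZB 2))) (fun l => size l) :=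
    p07_input _
  refine ((h1.comp h2).mono (2 * κ + C) (fun l => ?_)).congr (fun l => ?_)
  · show size l + (size l + foldCost (fun x : ι × ZB 2 => size x.2) q08_step l
      (ZB.mk ((0 : ℕ) : ℤ))) ≤ _
    have a1 := hκ l
    have a2 := q08_cost C hC l 0 l.length (by omega)
    have a3 : 1 ≤ lg l.length := lg_pos _
    have a4 : κ * (l.length + 1) ≤ κ * ((l.length + 1) * lg l.length) :=
      Nat.mul_le_mul_left _ (Nat.le_mul_of_pos_right _ a3)
    have a5 : l.length * (C * lg l.length) ≤ C * ((l.length + 1) * lg l.length) := by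
      have e : C * ((l.length + 1) * lg l.length) =
        l.length * (C * lg l.length) + C * lg l.length := by ring
      omega
    have e : (2 * κ + C) * ((l.length + 1) * lg l.length + 1) =
      2 * (κ * ((l.length + 1) * lg l.length)) + C * ((l.length + 1) * lg l.length) +
        (2 * κ + C) := by ring
    omega
  · show l.foldl (fun s a => q08_step (a, s)) (ZB.mk ((0 : ℕ) : ℤ) : ZB 2) = _
    rw [q08_foldl, Nat.zero_add]

private theorem q08_digits (c : ℕ) :
    CT (fun x : ZB 2 => c * ((zdig 2 x.val).2.length + 1)) (fun x => size x) := by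
  have h1 : n03_LT (fun x : ZB 2 => (zdig 2 x.val).2) :=
    n03_comp (g := fun y : Bool × List (Fin 2) => y.2) n03_snd (n03_zdig 2)
  have h2 : n03_LT (fun x : ZB 2 => (zdig 2 x.val).2.length) :=
    n03_comp (g := fun y : List (Fin 2) => y.length) ct_length h1
  have h3 : n03_LT (fun x : ZB 2 => (zdig 2 x.val).2.length + 1) :=
    n03_comp (g := fun n : ℕ => n + 1) (n03_of 0 ct_succ (fun _ => Nat.zero_le _)) h2
  have h4 : n03_LT (fun n : ℕ => c * n) := by
    have a1 : CT (fun n : ℕ => (c, n)) (fun _ => 0) := CT.pushConst c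
    refine n03_of (c + 1) (ct_mul.comp a1) (fun n => ?_)
    show 0 + (c + 1) * (n + 1) ≤ (c + 1) * (size n + 1)
    rw [size_nat, Nat.zero_add]
    exact Nat.mul_le_mul_left _ (by omega)
  exact n03_comp h4 h3

theorem exists_log (c : ℕ) : ∃ κ : ℕ → ℕ, (∀ n, c * lg n ≤ κ n) ∧ (∃ C : ℕ, ∀ n, κ n ≤ C * lg n) ∧
    ∀ (ι : Type) [Enc ι] [Finite ι], CT (fun l : List ι => κ l.length)
      (fun l => (l.length + 1) * lg l.length) := by
  refine ⟨fun n => c * ((Nat.digits 2 n).length + 1), fun n => ?_, ⟨3 * c, fun n => ?_⟩, ?_⟩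
  · refine Nat.mul_le_mul_left _ ?_
    rcases Nat.lt_or_ge n 2 with h | h
    · have h1 : lg n ≤ 1 := by
        show Nat.log 2 (n + 2) ≤ 1
        have : Nat.log 2 (n + 2) < 2 := Nat.log_lt_of_lt_pow (by omega) (by omega)
        omega
      omega
    · have h1 : (Nat.digits 2 n).length = Nat.log 2 n + 1 :=
        Nat.length_digits 2 n (by omega) (by omega)
      have h2 : lg n ≤ Nat.log 2 n + 1 := by
        show Nat.log 2 (n + 2) ≤ Nat.log 2 n + 1
        have h3 : Nat.log 2 (n + 2) ≤ Nat.log 2 (n * 2) := Nat.log_mono_right (by omega)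
        rw [Nat.log_mul_base (by omega) (by omega)] at h3
        exact h3
      omega
  · show c * ((Nat.digits 2 n).length + 1) ≤ 3 * c * lg n
    have h0 : 1 ≤ lg n := lg_pos n
    have h1 : (Nat.digits 2 n).length ≤ lg n + 1 := by
      rcases Nat.eq_zero_or_pos n with h | h
      · subst h
        simp
      · have h1 : (Nat.digits 2 n).length = Nat.log 2 n + 1 :=
          Nat.length_digits 2 n (by omega) (by omega)
        have h2 : Nat.log 2 n ≤ lg n := Nat.log_mono_right (by omega)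
        omega
    have e : 3 * c * lg n = c * (3 * lg n) := by ring
    rw [e]
    exact Nat.mul_le_mul_left _ (by omega)
  · intro ι _ _
    obtain ⟨C, hC⟩ := q08_size
    refine (((q08_digits c).comp (q08_count ι)).mono (C + 1) (fun l => ?_)).congr (fun l => ?_)
    · show (l.length + 1) * lg l.length + size (ZB.mk (l.length : ℤ) : ZB 2) ≤ _
      have h1 := hC l.length
      have h2 : C * lg l.length ≤ C * ((l.length + 1) * lg l.length) :=
        Nat.mul_le_mul_left _ (Nat.le_mul_of_pos_left _ (by omega))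
      have e : (C + 1) * ((l.length + 1) * lg l.length + 1) =
        C * ((l.length + 1) * lg l.length) + (l.length + 1) * lg l.length + (C + 1) := by ring
      omega
    · show c * ((zdig 2 ((l.length : ℕ) : ℤ)).2.length + 1) = c * ((Nat.digits 2 l.length).length + 1)
      have h1 : (zdig 2 ((l.length : ℕ) : ℤ)).2.length = (Nat.digits 2 l.length).length := by
        show (zdig 2 (Int.ofNat l.length)).2.length = _
        simp only [zdig, List.length_map]
      rw [h1]

end Pool.Agent.WQL
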