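import Pool.Agent.Lib.MP_2da099_lc.QL.Q01
import Pool.Agent.Lib.MP_2da099_lc.QL.Q06
import Pool.Agent.Lib.MP_2da099_lc.QL.Q07
import Pool.Agent.Lib.MP_2da099_lc.QL.Q08

/-!
# Q09: the key test.

`β = max 2 E`.  Walk over `IM m k` with the states `σ`: for a move `nx`, `A` are given by `hmove`, for a token the
vector does not change (rows of the unit matrix, `hN`), the output is the key and the value.  By induction the
state at the position `v` is `(S v, X v)` (`ZB β` is `ℤ`; `linMap` = `lm`, `dtz` = `dt`), and the output is the list of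
`(key v, val κ v)` over `posM 0 I`.  All entries are `≤ C (n + 1) ^ C`, so all sizes are `≤ C' lg n`
(`size_zblist_le`, `size_zb_log`).  Then `exists_norm` with the clock from `exists_log` (larger than all sizes of
keys); the test is: all values of the normalised list are divisible by `E` (`ct_all`, `ct_zbdivlc` for `E ≠ 0`,
`ct_zbzero` for `E = 0`): for distinct keys the value of the key `c` is `ksum`, and `ksum = 0` for other keys.
-/

set_option autoImplicit false

namespace Pool.Agent.WQL

open Pool.Agent.Lib.PolyTime Pool.Agent.WPM Pool.Agent.WPR Function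

/-- The test of divisibility. -/
theorem q09_dvd (E β : ℕ) [Fact (2 ≤ β)] (hβ : β = max 2 E) :
    n03_LT (fun x : ZB β => decide ((E : ℤ) ∣ x.val)) := by
  by_cases h0 : E = 0
  · subst h0
    have h : n03_LT (fun x : ZB β => decide (x = 0)) := ct_zbzero β
    refine CT.congr h (fun x => ?_)
    have e : (x = 0) ↔ ((0 : ℕ) : ℤ) ∣ x.val := by
      rw [Nat.cast_zero, zero_dvd_iff]
      exact Iff.rfl
    simp only [e]
  · by_cases h1 : E = 1
    · subst h1
      refine CT.congr (n03_const true) (fun x => ?_)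
      simp
    · have h2 : β = E := by omega
      have h6 : n03_LT (fun x : ZB β => n04_dv β ((zdig β x.val).1, (zdig β x.val).2.head?)) :=
        n03_comp2 (h := n04_dv β) (n03_fin _) (n04_LT_zdig1 β)
          (n03_comp (g := fun l : List (Fin β) => l.head?) n04_head (n04_LT_zdig2 β))
      refine CT.congr h6 (fun x => ?_)
      rw [n04_dv_eq, h2]

/-- The rows of the unit matrix. -/
def q09_id : ℕ → List (List ℤ)
  | 0 => []
  | N + 1 => (1 :: List.replicate N 0) :: (q09_id N).map (fun w => 0 :: w)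

theorem q09_dtz_nil {β : ℕ} (w : List ℤ) : dtz w ([] : List (ZB β)) = 0 := by
  simp [dtz]

theorem q09_dtz_nil' {β : ℕ} (x : List (ZB β)) : dtz [] x = 0 := by
  simp [dtz]

theorem q09_dtz_cons {β : ℕ} (a : ℤ) (w : List ℤ) (y : ZB β) (x : List (ZB β)) :
    dtz (a :: w) (y :: x) = a • y + dtz w x := by
  simp [dtz]

theorem q09_zero {β : ℕ} (n : ℕ) : ∀ x : List (ZB β), dtz (List.replicate n 0) x = 0 := by
  induction n with
  | zero => intro x; exact q09_dtz_nil' x
  | succ n ih =>
    intro x
    cases x with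
    | nil => exact q09_dtz_nil _
    | cons y x => rw [List.replicate_succ, q09_dtz_cons, ih, zero_smul, zero_add]

theorem q09_id_eq {β : ℕ} (N : ℕ) : ∀ x : List (ZB β), x.length = N → linMap (q09_id N) x = x := by
  induction N with
  | zero =>
    intro x hx
    rw [List.length_eq_zero_iff.1 hx]
    rfl
  | succ N ih =>
    intro x hx
    cases x with
    | nil => simp at hx
    | cons y x =>
      have hx' : x.length = N := by simpa using hx
      have h1 := ih x hx'
      show dtz (1 :: List.replicate N 0) (y :: x) ::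
        ((q09_id N).map (fun w => 0 :: w)).map (fun w => dtz w (y :: x)) = y :: x
      rw [q09_dtz_cons, q09_zero, one_smul, add_zero, List.map_map]
      congr 1
      conv_rhs => rw [← h1]
      refine List.map_congr_left (fun w _ => ?_)
      show dtz (0 :: w) (y :: x) = dtz w x
      rw [q09_dtz_cons, zero_smul, zero_add]

/-- The conversion. -/
def q09_cv {β : ℕ} (x : List ℤ) : List (ZB β) := x.map ZB.mk

theorem q09_dtz {β : ℕ} (w : List ℤ) : ∀ x : List ℤ,
    dtz w (q09_cv x : List (ZB β)) = ZB.mk (dt w x) := by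
  induction w with
  | nil => intro x; rw [q09_dtz_nil']; rfl
  | cons a w ih =>
    intro x
    cases x with
    | nil => show dtz (a :: w) ([] : List (ZB β)) = _; rw [q09_dtz_nil]; rfl
    | cons y x =>
      show dtz (a :: w) (ZB.mk y :: q09_cv x : List (ZB β)) = _
      rw [q09_dtz_cons, ih x]
      have e : dt (a :: w) (y :: x) = a * y + dt w x := by simp [dt]
      rw [e]
      show (a • y + dt w x : ℤ) = _
      rw [smul_eq_mul]
      rfl

theorem q09_linMap {β : ℕ} (rows : List (List ℤ)) (x : List ℤ) :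
    linMap rows (q09_cv x : List (ZB β)) = q09_cv (lm rows x) := by
  show rows.map (fun w => dtz w (q09_cv x : List (ZB β))) = (rows.map (fun w => dt w x)).map ZB.mk
  rw [List.map_map]
  exact List.map_congr_left (fun w _ => q09_dtz w x)

theorem q09_cv_inj {β : ℕ} : Function.Injective (q09_cv : List ℤ → List (ZB β)) := by
  intro x y h
  exact List.map_injective_iff.2 (fun a b (e : (a : ℤ) = b) => e) h

section walk

variable {m k : ℕ} {σ : Type}

/-- The walk. -/
def q09_walk (nx : σ → Fin m × Bool → σ) (A : σ → Fin m × Bool → List (List ℤ))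
    (K : σ → List (List ℤ)) (w : σ → Fin k → List ℤ) (N : ℕ) : Walk (IM m k) σ where
  nx s i := match i with
    | Sum.inl a => nx s a
    | Sum.inr _ => s
  A s i := match i with
    | Sum.inl a => A s a
    | Sum.inr _ => q09_id N
  out s i := match i with
    | Sum.inl _ => []
    | Sum.inr κ => [(K s, w s κ)]

variable (S : (Fin m → ℤ) → σ) (X : (Fin m → ℤ) → List ℤ) (N : ℕ) (hN : ∀ v, (X v).length = N)
  (nx : σ → Fin m × Bool → σ) (A : σ → Fin m × Bool → List (List ℤ))
  (hA : ∀ s a v, S v = s → S (v + stv a) = nx s a ∧ X (v + stv a) = lm (A s a) (X v))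
  (key : (Fin m → ℤ) → List ℤ) (K : σ → List (List ℤ)) (hK : ∀ s v, S v = s → key v = lm (K s) (X v))
  (val : Fin k → (Fin m → ℤ) → ℤ) (w : σ → Fin k → List ℤ)
  (hw : ∀ s κ v, S v = s → val κ v = dt (w s κ) (X v))

include hN hA hK hw in
theorem q09_run {β : ℕ} : ∀ (I : List (IM m k)) (v : Fin m → ℤ),
    (q09_walk nx A K w N).run (S v, (q09_cv (X v) : List (ZB β))) I =
      (posM v I).map (fun x => (q09_cv (key x.1), ZB.mk (val x.2 x.1))) := by
  intro I
  induction I with
  | nil => intro v; rfl
  | cons i I ih =>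
    intro v
    cases i with
    | inl a =>
      have h := hA (S v) a v rfl
      show [] ++ (q09_walk nx A K w N).run (nx (S v) a, linMap (A (S v) a) (q09_cv (X v))) I =
        (posM (v + stv a) I).map _
      rw [List.nil_append, q09_linMap, ← h.1, ← h.2]
      exact ih _
    | inr κ =>
      have e1 : linMap (q09_id N) (q09_cv (X v) : List (ZB β)) = q09_cv (X v) :=
        q09_id_eq N _ (by rw [q09_cv, List.length_map, hN])
      show [(linMap (K (S v)) (q09_cv (X v)), dtz (w (S v) κ) (q09_cv (X v)))] ++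
        (q09_walk nx A K w N).run (S v, linMap (q09_id N) (q09_cv (X v))) I =
        (q09_cv (key v), ZB.mk (val κ v)) :: (posM v I).map _
      rw [e1, ih v, q09_linMap, q09_dtz, ← hK (S v) v rfl, ← hw (S v) κ v rfl]
      rfl

theorem q09_stv (v : Fin m → ℤ) (a : Fin m × Bool) (n : ℕ) (h : ∀ i, |v i| + 1 ≤ (n : ℤ)) (i : Fin m) :
    |(v + stv a) i| ≤ n := by
  have h1 : |(stv a : Fin m → ℤ) i| ≤ 1 := by
    unfold stv
    by_cases hi : i = a.1
    · subst hi
      rw [Pi.single_eq_same]
      split_ifs <;> simp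
    · rw [Pi.single_eq_of_ne hi]
      simp
  have h2 : |(v + stv a) i| ≤ |v i| + |(stv a : Fin m → ℤ) i| := abs_add_le _ _
  have h3 := h i
  omega

include hN hA in
theorem q09_cost {β : ℕ} [Fact (2 ≤ β)] (n B : ℕ)
    (hB : ∀ v : Fin m → ℤ, (∀ i, |v i| ≤ (n : ℤ)) → size (q09_cv (X v) : List (ZB β)) ≤ B) :
    ∀ (I : List (IM m k)) (v : Fin m → ℤ), (∀ i, |v i| + I.length ≤ (n : ℤ)) →
    (q09_walk nx A K w N).cost (S v, (q09_cv (X v) : List (ZB β))) I ≤ (I.length + 1) * (B + 1) := by
  intro I
  induction I with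
  | nil =>
    intro v hv
    have := hB v (fun i => by have := hv i; simp only [List.length_nil] at this; omega)
    show size (q09_cv (X v) : List (ZB β)) ≤ (0 + 1) * (B + 1)
    omega
  | cons i I ih =>
    intro v hv
    have h0 := hB v (fun i => by have := hv i; omega)
    have hl : (I.length + 1 + 1) * (B + 1) = (I.length + 1) * (B + 1) + (B + 1) := by ring
    cases i with
    | inl a =>
      have h := hA (S v) a v rfl
      have h2 : ∀ i, |(v + stv a) i| + I.length ≤ (n : ℤ) := by
        intro i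
        have h3 := q09_stv v a (n - I.length) (fun j => by
          have := hv j
          rw [List.length_cons] at this
          push_cast at this
          have := abs_nonneg (v j)
          omega) i
        have h4 := hv i
        rw [List.length_cons] at h4
        push_cast at h4
        have := abs_nonneg (v i)
        omega
      have h5 := ih (v + stv a) h2
      show size (q09_cv (X v) : List (ZB β)) + 1 + (q09_walk nx A K w N).cost (nx (S v) a,
        linMap (A (S v) a) (q09_cv (X v) : List (ZB β))) I ≤ (I.length + 1 + 1) * (B + 1)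
      rw [q09_linMap, ← h.1, ← h.2, hl]
      omega
    | inr κ =>
      have e1 : linMap (q09_id N) (q09_cv (X v) : List (ZB β)) = q09_cv (X v) :=
        q09_id_eq N _ (by rw [q09_cv, List.length_map, hN])
      have h2 : ∀ i, |v i| + I.length ≤ (n : ℤ) := by
        intro i
        have h4 := hv i
        rw [List.length_cons] at h4
        push_cast at h4
        omega
      have h5 := ih v h2
      show size (q09_cv (X v) : List (ZB β)) + 1 + (q09_walk nx A K w N).cost (S v,
        linMap (q09_id N) (q09_cv (X v) : List (ZB β))) I ≤ (I.length + 1 + 1) * (B + 1)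
      rw [e1, hl]
      omega

end walk

section sizes

/-- sizes of short lists of numbers of polynomial size -/
theorem q09_size (β : ℕ) [Fact (2 ≤ β)] (N C : ℕ) : ∃ C1 : ℕ, ∀ (n : ℕ) (l : List (ZB β)),
    l.length = N → (∀ y ∈ l, y.val.natAbs ≤ C * (n + 1) ^ C) → size l ≤ C1 * lg n := by
  obtain ⟨D, hD⟩ := size_zblist_le β
  refine ⟨D * (N + 1) * (3 * C + 1), fun n l hl h => ?_⟩
  have h1 : n + 1 ≤ 2 ^ (lg n + 1) := by
    have := Nat.lt_pow_succ_log_self (b := 2) (by omega) (n + 2)
    unfold lg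
    omega
  have h2 : C * (n + 1) ^ C ≤ β ^ (C + (lg n + 1) * C) := by
    calc C * (n + 1) ^ C ≤ 2 ^ C * (2 ^ (lg n + 1)) ^ C :=
          Nat.mul_le_mul (Nat.lt_two_pow_self).le (Nat.pow_le_pow_left h1 C)
      _ = 2 ^ (C + (lg n + 1) * C) := by rw [← pow_mul, ← pow_add]
      _ ≤ β ^ (C + (lg n + 1) * C) := Nat.pow_le_pow_left (Fact.out) _
  have h3 := hD l _ (fun y hy => (h y hy).trans h2)
  have h4 := lg_pos n
  rw [hl] at h3
  refine h3.trans ?_
  rw [mul_assoc (D * (N + 1))]
  refine Nat.mul_le_mul_left _ ?_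
  have e : (3 * C + 1) * lg n = (lg n + 1) * C + C * (2 * lg n - 1) + lg n := by
    obtain ⟨L, hL⟩ : ∃ L, lg n = L + 1 := ⟨lg n - 1, by omega⟩
    rw [hL]
    have : 2 * (L + 1) - 1 = 2 * L + 1 := by omega
    rw [this]
    ring
  have e2 : C * 1 ≤ C * (2 * lg n - 1) := Nat.mul_le_mul_left _ (by omega)
  omega

theorem q09_fin {σ : Type} [Finite σ] (P : σ → ℕ → Prop) (hm : ∀ s a b, a ≤ b → P s a → P s b)
    (h : ∀ s, ∃ c, P s c) : ∃ c, ∀ s, P s c := by
  classical
  have := Fintype.ofFinite σ
  choose c hc using h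
  exact ⟨Finset.univ.sup c, fun s => hm s _ _ (Finset.le_sup (Finset.mem_univ s)) (hc s)⟩

theorem q09_keysize (β : ℕ) [Fact (2 ≤ β)] {σ : Type} [Finite σ] (K : σ → List (List ℤ)) :
    ∃ C, ∀ s (x : List (ZB β)), size (linMap (K s) x) ≤ C * (size x + 1) := by
  refine q09_fin (fun s C => ∀ (x : List (ZB β)), size (linMap (K s) x) ≤ C * (size x + 1)) ?_ ?_
  · intro s a b hab h x
    exact (h x).trans (Nat.mul_le_mul_right _ hab)
  · intro s
    obtain ⟨C, hC⟩ := (ct_linMap β (K s)).size_le
    refine ⟨C + 1, fun x => ?_⟩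
    have h1 := hC x
    have e : (C + 1) * (size x + 1) = C * (size x + 1) + size x + 1 := by ring
    omega

theorem q09_valsize (β : ℕ) [Fact (2 ≤ β)] {σ : Type} [Finite σ] {k : ℕ} (w : σ → Fin k → List ℤ) :
    ∃ C, ∀ s κ (x : List (ZB β)), size (dtz (w s κ) x) ≤ C * (size x + 1) := by
  obtain ⟨C, hC⟩ := q09_fin (σ := σ × Fin k)
    (fun s C => ∀ (x : List (ZB β)), size (dtz (w s.1 s.2) x) ≤ C * (size x + 1)) (by
      intro s a b hab h x
      exact (h x).trans (Nat.mul_le_mul_right _ hab)) (by
      intro s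
      obtain ⟨C, hC⟩ := (ct_dot β (w s.1 s.2)).size_le
      refine ⟨C + 1, fun x => ?_⟩
      have h1 := hC x
      have e : (C + 1) * (size x + 1) = C * (size x + 1) + size x + 1 := by ring
      have h2 : size (dtz (w s.1 s.2) x) ≤ size x + C * (size x + 1) := h1
      omega)
  exact ⟨C, fun s κ x => hC (s, κ) x⟩

theorem q09_mxs_le {α : Type} [Enc α] (B : ℕ) (l : List α) (h : ∀ y ∈ l, size y ≤ B) : mxs l ≤ B := by
  induction l with
  | nil => exact Nat.zero_le _
  | cons a l ih =>
    show max (size a) (mxs l) ≤ B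
    exact max_le (h a (by simp)) (ih (fun y hy => h y (by simp [hy])))

theorem q09_posM_len {m k : ℕ} : ∀ (I : List (IM m k)) (v : Fin m → ℤ),
    (posM v I).length ≤ I.length := by
  intro I
  induction I with
  | nil => intro v; exact Nat.zero_le _
  | cons i I ih =>
    intro v
    cases i with
    | inl a =>
      have := ih (v + stv a)
      show (posM (v + stv a) I).length ≤ I.length + 1
      omega
    | inr κ =>
      have := ih v
      show (posM v I).length + 1 ≤ I.length + 1
      omega

theorem q09_posM_le {m k : ℕ} : ∀ (I : List (IM m k)) (v : Fin m → ℤ) (n : ℕ),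
    (∀ i, |v i| + I.length ≤ (n : ℤ)) → ∀ x ∈ posM v I, ∀ i, |x.1 i| ≤ (n : ℤ) := by
  intro I
  induction I with
  | nil => intro v n _ x hx; simp [posM] at hx
  | cons i I ih =>
    intro v n hv x hx
    cases i with
    | inl a =>
      refine ih (v + stv a) n (fun i => ?_) x hx
      have h3 := q09_stv v a (n - I.length) (fun j => by
        have := hv j
        rw [List.length_cons] at this
        push_cast at this
        have := abs_nonneg (v j)
        omega) i
      have h4 := hv i
      rw [List.length_cons] at h4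
      push_cast at h4
      have := abs_nonneg (v i)
      omega
    | inr κ =>
      rcases List.mem_cons.1 hx with h | h
      · subst h
        intro i
        have := hv i
        show |v i| ≤ (n : ℤ)
        omega
      · refine ih v n (fun i => ?_) x h
        have h4 := hv i
        rw [List.length_cons] at h4
        push_cast at h4
        omega

end sizes

section ksum

variable {κ : Type} {β : ℕ}

theorem q09_ksum_cons_eq (y : κ × ZB β) (l : List (κ × ZB β)) (c : κ) (h : y.1 = c) :
    ksum (y :: l) c = y.2.val + ksum l c := by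
  unfold ksum
  rw [List.filter_cons_of_pos (by simpa using h), List.map_cons, List.sum_cons]

theorem q09_ksum_cons_ne (y : κ × ZB β) (l : List (κ × ZB β)) (c : κ) (h : y.1 ≠ c) :
    ksum (y :: l) c = ksum l c := by
  unfold ksum
  rw [List.filter_cons_of_neg (by simpa using h)]

theorem q09_ksum_nil (c : κ) : ksum ([] : List (κ × ZB β)) c = 0 := rfl

theorem q09_ksum_zero (l : List (κ × ZB β)) (c : κ) (h : ∀ y ∈ l, y.1 ≠ c) : ksum l c = 0 := by
  induction l with
  | nil => rfl
  | cons y l ih =>
    rw [q09_ksum_cons_ne y l c (h y (by simp))]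
    exact ih (fun z hz => h z (by simp [hz]))

theorem q09_ksum_nodup (l : List (κ × ZB β)) (hl : (l.map Prod.fst).Nodup) :
    ∀ y ∈ l, ksum l y.1 = y.2.val := by
  induction l with
  | nil => intro y hy; simp at hy
  | cons z l ih =>
    rw [List.map_cons, List.nodup_cons] at hl
    intro y hy
    rcases List.mem_cons.1 hy with h | h
    · subst h
      rw [q09_ksum_cons_eq y l y.1 rfl, q09_ksum_zero l y.1, add_zero]
      intro z hz e
      exact hl.1 (List.mem_map.2 ⟨z, hz, e⟩)
    · rw [q09_ksum_cons_ne z l y.1, ih hl.2 y h]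
      intro e
      exact hl.1 (List.mem_map.2 ⟨y, h, e.symm⟩)

theorem q09_ksum_dvd (E : ℤ) (l : List (κ × ZB β)) (h : ∀ y ∈ l, E ∣ y.2.val) (c : κ) :
    E ∣ ksum l c := by
  induction l with
  | nil => exact dvd_zero _
  | cons y l ih =>
    have h1 := ih (fun z hz => h z (by simp [hz]))
    by_cases e : y.1 = c
    · rw [q09_ksum_cons_eq y l c e]
      exact dvd_add (h y (by simp)) h1
    · rwa [q09_ksum_cons_ne y l c e]

theorem q09_ksum_map {α : Type} (l : List α) (key : α → List ℤ) (val : α → ℤ) (c : List ℤ) :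
    ksum (l.map (fun x => ((q09_cv (key x) : List (ZB β)), (ZB.mk (val x) : ZB β)))) (q09_cv c) =
      ((l.filter (fun x => decide (key x = c))).map val).sum := by
  induction l with
  | nil => rfl
  | cons a l ih =>
    rw [List.map_cons]
    by_cases h : key a = c
    · rw [q09_ksum_cons_eq _ _ _ (by show (q09_cv (key a) : List (ZB β)) = q09_cv c; rw [h]), ih,
        List.filter_cons_of_pos (by simpa using h), List.map_cons, List.sum_cons]
      rfl
    · rw [q09_ksum_cons_ne _ _ _ (fun e => h (q09_cv_inj e)), ih,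
        List.filter_cons_of_neg (by simpa using h)]

end ksum

section main

variable {ι : Type} [Enc ι] [Finite ι]

/-- The test, for any list of pairs. -/
theorem q09_test (E β : ℕ) [Fact (2 ≤ β)] (hβ : β = max 2 E) (R : List ι → List (List (ZB β) × ZB β))
    (TR : List ι → ℕ) (hR : CT R TR) (C : ℕ) (hTR : ∀ I, TR I ≤ C * (I.length + 1) * lg I.length)
    (hlen : ∀ I, (R I).length ≤ I.length) (hs : ∀ I, ∀ y ∈ R I, size y ≤ C * lg I.length) :
    QL (fun I : List ι => ∀ c, (E : ℤ) ∣ ksum (R I) c) := by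
  obtain ⟨f, hf, hf1, hf2, hf3⟩ := exists_norm (List (ZB β)) β
  obtain ⟨κ, hκ1, ⟨C', hκ2⟩, hκ3⟩ := exists_log C
  obtain ⟨D, hD⟩ := size_list_fin ι
  -- the list of the normalised pairs
  have hG := hf.comp ((hκ3 ι).pair hR)
  obtain ⟨C2, hC2⟩ := hG.size_le
  have hp : n03_LT (fun y : List (ZB β) × ZB β => decide ((E : ℤ) ∣ y.2.val)) :=
    n03_comp (g := fun x : ZB β => decide ((E : ℤ) ∣ x.val)) (q09_dvd E β hβ) n03_snd
  have hall := ct_all hp
  have hfin := hall.comp hG
  set G : List ι → List (List (ZB β) × ZB β) := fun I => f (κ I.length, R I) with hGdef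
  set TG : List ι → ℕ := fun I => (size I + ((I.length + 1) * lg I.length) + TR I) +
    (κ I.length + 1) * (((R I).length + 1) * (mxs (R I) + lg (R I).length)) with hTG
  have hTGle : ∀ I, TG I ≤ (D + 1 + C + (C' + 1) * (C + 1)) * (I.length + 1) * lg I.length ^ 2 := by
    intro I
    have hL := lg_pos I.length
    set L := lg I.length with hLdef
    set n := I.length with hn
    have a1 : size I ≤ D * (n + 1) := hD I
    have a2 : TR I ≤ C * (n + 1) * L := hTR I
    have a3 : κ n ≤ C' * L := hκ2 n
    have a4 : (R I).length ≤ n := hlen I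
    have a5 : mxs (R I) ≤ C * L := q09_mxs_le _ _ (hs I)
    have a6 : lg (R I).length ≤ L := lg_mono a4
    have b1 : (κ n + 1) * (((R I).length + 1) * (mxs (R I) + lg (R I).length)) ≤
        (C' * L + L) * ((n + 1) * (C * L + L)) :=
      Nat.mul_le_mul (by omega) (Nat.mul_le_mul (by omega) (by omega))
    have b2 : L * 1 ≤ L * L := Nat.mul_le_mul_left _ hL
    have b3 : 1 ≤ L * L := by omega
    have c1 : D * (n + 1) * 1 ≤ D * (n + 1) * (L * L) := Nat.mul_le_mul_left _ b3
    have c2 : C * (n + 1) * L ≤ C * (n + 1) * (L * L) := Nat.mul_le_mul_left _ (by omega)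
    have c3 : (n + 1) * L ≤ (n + 1) * (L * L) := Nat.mul_le_mul_left _ (by omega)
    have e : (D + 1 + C + (C' + 1) * (C + 1)) * (n + 1) * L ^ 2 =
        D * (n + 1) * (L * L) + (n + 1) * (L * L) + C * (n + 1) * (L * L) +
        (C' * L + L) * ((n + 1) * (C * L + L)) := by ring
    rw [e]
    show (size I + ((n + 1) * L) + TR I) +
      (κ n + 1) * (((R I).length + 1) * (mxs (R I) + lg (R I).length)) ≤ _
    exact Nat.add_le_add (by omega) b1
  have hsize : ∀ I, size (G I) ≤ size I + C2 * (TG I + 1) := hC2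
  refine QL.congr (QL_of_ct hfin ((1 + 2 * C2) * (D + 1 + C + (C' + 1) * (C + 1)) + 2 * D + 2 * C2 + 2)
    (fun I => ?_)) (fun I => ?_)
  · have h1 := hTGle I
    have h2 := hsize I
    have h3 := p05_sum_size_le (G I)
    have hL := lg_pos I.length
    have a1 : size I ≤ D * (I.length + 1) := hD I
    set M := D + 1 + C + (C' + 1) * (C + 1) with hM
    set n := I.length with hn
    set L := lg n with hLdef
    show TG I + (size (G I) + ((G I).map (fun a => size a)).sum) ≤
      ((1 + 2 * C2) * M + 2 * D + 2 * C2 + 2) * (n + 1) * L ^ ((1 + 2 * C2) * M + 2 * D + 2 * C2 + 2)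
    have d1 : L ^ 2 ≤ L ^ ((1 + 2 * C2) * M + 2 * D + 2 * C2 + 2) :=
      Nat.pow_le_pow_right hL (by omega)
    have d2 : 1 ≤ L ^ 2 := Nat.one_le_pow _ _ hL
    have d3 : TG I + (size (G I) + ((G I).map (fun a => size a)).sum) ≤
        (1 + 2 * C2) * TG I + 2 * size I + 2 * C2 := by
      have e1 : C2 * (TG I + 1) = C2 * TG I + C2 := by ring
      have e2 : (1 + 2 * C2) * TG I = TG I + 2 * (C2 * TG I) := by ring
      omega
    have d4 : (1 + 2 * C2) * TG I ≤ (1 + 2 * C2) * (M * (n + 1) * L ^ 2) := Nat.mul_le_mul_left _ h1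
    have d5 : D * (n + 1) * 1 ≤ D * (n + 1) * L ^ 2 := Nat.mul_le_mul_left _ d2
    have d6 : C2 * 1 ≤ C2 * ((n + 1) * L ^ 2) := Nat.mul_le_mul_left _ (by
      calc 1 = 1 * 1 := rfl
        _ ≤ (n + 1) * L ^ 2 := Nat.mul_le_mul (by omega) d2)
    have d7 : ((1 + 2 * C2) * M + 2 * D + 2 * C2 + 2) * (n + 1) * L ^ 2 ≤
        ((1 + 2 * C2) * M + 2 * D + 2 * C2 + 2) * (n + 1) *
          L ^ ((1 + 2 * C2) * M + 2 * D + 2 * C2 + 2) := Nat.mul_le_mul_left _ d1
    refine le_trans ?_ d7
    have e : ((1 + 2 * C2) * M + 2 * D + 2 * C2 + 2) * (n + 1) * L ^ 2 =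
        (1 + 2 * C2) * (M * (n + 1) * L ^ 2) + 2 * (D * (n + 1) * L ^ 2) +
        2 * (C2 * ((n + 1) * L ^ 2)) + 2 * ((n + 1) * L ^ 2) := by ring
    rw [e]
    omega
  · show (G I).all (fun y => decide ((E : ℤ) ∣ y.2.val)) = true ↔ ∀ c, (E : ℤ) ∣ ksum (R I) c
    rw [List.all_eq_true]
    constructor
    · intro h c
      have h1 := hf1 (κ I.length, R I) c
      rw [← h1]
      exact q09_ksum_dvd _ _ (fun y hy => of_decide_eq_true (h y hy)) c
    · intro h y hy
      have h1 : ((G I).map Prod.fst).Nodup := hf3 (κ I.length, R I) (fun z hz => by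
        have h2 := hs I z hz
        have h3 := hκ1 I.length
        rw [size_prod] at h2
        show size z.1 ≤ κ I.length
        omega)
      have h4 := q09_ksum_nodup (G I) h1 y hy
      have h5 : ksum (G I) y.1 = ksum (R I) y.1 := hf1 (κ I.length, R I) y.1
      have h6 := h y.1
      rw [← h5, h4] at h6
      exact decide_eq_true h6

end main

theorem QL_chart {m k : ℕ} {σ : Type} [Finite σ] (S : (Fin m → ℤ) → σ)
    (X : (Fin m → ℤ) → List ℤ) (N : ℕ) (hN : ∀ v, (X v).length = N)
    (hmove : ∀ (s : σ) (a : Fin m × Bool), ∃ (s' : σ) (rows : List (List ℤ)), ∀ v, S v = s →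
      S (v + stv a) = s' ∧ X (v + stv a) = lm rows (X v))
    (hX : ∃ C : ℕ, ∀ (n : ℕ) (v : Fin m → ℤ), (∀ i, |v i| ≤ n) →
      ∀ y ∈ X v, y.natAbs ≤ C * (n + 1) ^ C)
    (key : (Fin m → ℤ) → List ℤ) (hkey : ∀ s, ∃ rows, ∀ v, S v = s → key v = lm rows (X v))
    (val : Fin k → (Fin m → ℤ) → ℤ) (hval : ∀ s κ, ∃ w, ∀ v, S v = s → val κ v = dt w (X v))
    (E : ℕ) :
    QL (fun I : List (IM m k) => ∀ c : List ℤ, (E : ℤ) ∣
      (((posM 0 I).filter (fun x => decide (key x.1 = c))).map (fun x => val x.2 x.1)).sum) := by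
  choose nx A hA using hmove
  choose K hK using hkey
  choose w hw using hval
  obtain ⟨C, hC⟩ := hX
  have hβ2 : 2 ≤ max 2 E := le_max_left _ _
  obtain ⟨β, hβ⟩ : ∃ β : ℕ, β = max 2 E := ⟨_, rfl⟩
  have : Fact (2 ≤ β) := ⟨by rw [hβ]; exact hβ2⟩
  obtain ⟨C1, hC1⟩ := q09_size β N C
  obtain ⟨C2, hC2⟩ := q09_keysize β K
  obtain ⟨C3, hC3⟩ := q09_valsize β w
  -- sizes of the vectors
  have hB : ∀ (n : ℕ) (v : Fin m → ℤ), (∀ i, |v i| ≤ (n : ℤ)) →
      size (q09_cv (X v) : List (ZB β)) ≤ C1 * lg n := by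
    intro n v hv
    refine hC1 n _ (by rw [q09_cv, List.length_map, hN]) (fun y hy => ?_)
    obtain ⟨z, hz, rfl⟩ := List.mem_map.1 hy
    exact hC n v hv z hz
  have hrun : ∀ I : List (IM m k), (q09_walk nx A K w N).run (S 0, (q09_cv (X 0) : List (ZB β))) I =
      (posM 0 I).map (fun x => (q09_cv (key x.1), ZB.mk (val x.2 x.1))) := fun I =>
    q09_run S X N hN nx A hA key K hK val w hw I 0
  have h0 : ∀ (I : List (IM m k)) (i : Fin m), |(0 : Fin m → ℤ) i| + I.length ≤ (I.length : ℤ) := by
    intro I i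
    simp
  have hcost : ∀ I : List (IM m k), (q09_walk nx A K w N).cost (S 0, (q09_cv (X 0) : List (ZB β))) I ≤
      (C1 + 1 + (C2 + C3) * (C1 + 1) + 1) * (I.length + 1) * lg I.length := by
    intro I
    have h1 := q09_cost S X N hN nx A hA K w I.length (C1 * lg I.length) (hB I.length) I 0 (h0 I)
    refine h1.trans ?_
    have hL := lg_pos I.length
    have h2 : (I.length + 1) * (C1 * lg I.length + 1) ≤
        (I.length + 1) * ((C1 + 1 + (C2 + C3) * (C1 + 1) + 1) * lg I.length) := by
      refine Nat.mul_le_mul_left _ ?_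
      have e : (C1 + 1 + (C2 + C3) * (C1 + 1) + 1) * lg I.length =
          C1 * lg I.length + lg I.length + (C2 + C3) * (C1 + 1) * lg I.length + lg I.length := by ring
      rw [e]
      omega
    refine h2.trans (le_of_eq ?_)
    ring
  have hmain := q09_test (ι := IM m k) E β hβ
    (fun I => (q09_walk nx A K w N).run (S 0, (q09_cv (X 0) : List (ZB β))) I)
    (fun I => (q09_walk nx A K w N).cost (S 0, (q09_cv (X 0) : List (ZB β))) I)
    (ct_walk (q09_walk nx A K w N) (S 0) (q09_cv (X 0) : List (ZB β)))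
    (C1 + 1 + (C2 + C3) * (C1 + 1) + 1) hcost (fun I => by
      show ((q09_walk nx A K w N).run (S 0, (q09_cv (X 0) : List (ZB β))) I).length ≤ _
      rw [hrun, List.length_map]
      exact q09_posM_len I 0) (fun I y hy => by
      have hy' : y ∈ (q09_walk nx A K w N).run (S 0, (q09_cv (X 0) : List (ZB β))) I := hy
      rw [hrun] at hy'
      obtain ⟨x, hx, rfl⟩ := List.mem_map.1 hy'
      have h1 := hB I.length x.1 (q09_posM_le I 0 I.length (h0 I) x hx)
      have h2 := hC2 (S x.1) (q09_cv (X x.1) : List (ZB β))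
      have h3 := hC3 (S x.1) x.2 (q09_cv (X x.1) : List (ZB β))
      rw [q09_linMap, ← hK (S x.1) x.1 rfl] at h2
      rw [q09_dtz, ← hw (S x.1) x.2 x.1 rfl] at h3
      rw [size_prod]
      have hL := lg_pos I.length
      have h4 : size (q09_cv (X x.1) : List (ZB β)) + 1 ≤ (C1 + 1) * lg I.length := by
        have e : (C1 + 1) * lg I.length = C1 * lg I.length + lg I.length := by ring
        omega
      have h5 := h2.trans (Nat.mul_le_mul_left C2 h4)
      have h6 := h3.trans (Nat.mul_le_mul_left C3 h4)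
      have e : (C1 + 1 + (C2 + C3) * (C1 + 1) + 1) * lg I.length =
        C2 * ((C1 + 1) * lg I.length) + C3 * ((C1 + 1) * lg I.length) + C1 * lg I.length +
          lg I.length + lg I.length := by ring
      rw [e]
      show size (q09_cv (key x.1) : List (ZB β)) + size (ZB.mk (val x.2 x.1) : ZB β) + 1 ≤ _
      omega)
  refine QL.congr hmain (fun I => ?_)
  show (∀ c, (E : ℤ) ∣ ksum ((q09_walk nx A K w N).run (S 0, (q09_cv (X 0) : List (ZB β))) I) c) ↔ _
  rw [hrun]
  constructor
  · intro h c
    have h1 := h (q09_cv c)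
    rwa [q09_ksum_map (posM 0 I) (fun x => key x.1) (fun x => val x.2 x.1) c] at h1
  · intro h c
    obtain ⟨c', rfl⟩ : ∃ c' : List ℤ, q09_cv c' = c := by
      refine ⟨c.map ZB.val, ?_⟩
      unfold q09_cv
      rw [List.map_map]
      exact List.map_id _
    rw [q09_ksum_map (posM 0 I) (fun x => key x.1) (fun x => val x.2 x.1) c']
    exact h c'

end Pool.Agent.WQL
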