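import Pool.Agent.Lib.MP_2da099_lc.QL.Q03

/-!
# Q10a: sparse operators, cost.

`ct_flatMap` with the function of one item: a function of the finite index (`ct_fincase`) and of the position and
value: `CT.mapConst`, `ct_linMap`, `ct_zbsmul`.  `tv_apo`: `C = ` the largest `Σ |coefficient|` of the `op τ`.
-/

set_option autoImplicit false

namespace Pool.Agent.WQL

open Pool.Agent.Lib.PolyTime Pool.Agent.WPM Pool.Agent.WPR Function

section
variable {β s : ℕ}

/-- One output of an operator. -/
theorem q10a_one [Fact (2 ≤ β)] (o : Fin s × (List (List ℤ) × ℤ)) :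
    CT (fun x : List (ZB β) × ZB β =>
      (((o.1, linMap o.2.1 x.1), o.2.2 • x.2) : (Fin s × List (ZB β)) × ZB β))
      (fun x => size x.1 + size x.2) := by
  have h1 : CT (fun x : List (ZB β) × ZB β => (linMap o.2.1 x.1, x.2)) (fun x => size x.1) :=
    CT.first (ct_linMap β o.2.1)
  have h2 : CT (fun x : List (ZB β) × ZB β => (x.1, o.2.2 • x.2))
    (fun x => size x.1 + size x.2) := CT.second (ct_zbsmul β o.2.2)
  have h3 : CT (fun x : List (ZB β) × ZB β => (o.1, x)) (fun _ => 0) := CT.pushConst o.1
  have h4 : CT (fun x : Fin s × (List (ZB β) × ZB β) => ((x.1, x.2.1), x.2.2))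
    (fun x => size x.1) := CT.assocL
  refine ((h4.comp (h3.comp (h1.comp h2))).mono (size o.1 + 2) (fun x => ?_)).congr
    (fun x => rfl)
  show size x.1 + size x.2 + size x.1 + 0 + size o.1 ≤
    (size o.1 + 2) * (size x.1 + size x.2 + 1)
  have e : (size o.1 + 2) * (size x.1 + size x.2 + 1) =
    size o.1 * (size x.1 + size x.2) + size o.1 + 2 * (size x.1 + size x.2 + 1) := by ring
  omega

/-- The outputs of one item. -/
theorem q10a_item [Fact (2 ≤ β)] (op : Fin s → List (Fin s × (List (List ℤ) × ℤ))) :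
    CT (fun y : (Fin s × List (ZB β)) × ZB β =>
      (op y.1.1).map (fun o => (((o.1, linMap o.2.1 y.1.2), o.2.2 • y.2) :
        (Fin s × List (ZB β)) × ZB β)))
      (fun y => size y) := by
  have h1 : CT (fun y : (Fin s × List (ZB β)) × ZB β => (y.1.1, (y.1.2, y.2)))
    (fun y => size y.1.1) := CT.assocR
  have h2 : ∀ i : Fin s, CT (fun x : List (ZB β) × ZB β =>
      (op i).map (fun o => (((o.1, linMap o.2.1 x.1), o.2.2 • x.2) :
        (Fin s × List (ZB β)) × ZB β)))
      (fun x => size x + (size x.1 + size x.2)) := fun i =>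
    CT.mapConst (op i) (f := fun o (x : List (ZB β) × ZB β) =>
      (((o.1, linMap o.2.1 x.1), o.2.2 • x.2) : (Fin s × List (ZB β)) × ZB β))
      (fun o _ => q10a_one o)
  have h3 := ct_fincase (f := fun (i : Fin s) (x : List (ZB β) × ZB β) =>
      (op i).map (fun o => (((o.1, linMap o.2.1 x.1), o.2.2 • x.2) :
        (Fin s × List (ZB β)) × ZB β)))
      (T := fun _ x => size x + (size x.1 + size x.2)) h2
  refine ((h3.comp h1).mono 3 (fun y => ?_)).congr (fun y => rfl)
  show size y.1.1 + (size (y.1.2, y.2) + (size y.1.2 + size y.2)) ≤ 3 * (size y + 1)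
  have e1 : size y = size y.1.1 + size y.1.2 + 1 + size y.2 + 1 := by
    rw [size_prod, size_prod]
  have e2 : size (y.1.2, y.2) = size y.1.2 + size y.2 + 1 := by
    rw [size_prod]
  omega

theorem q10a_sum_size {α : Type} [Enc α] (l : List α) :
    (l.map (fun a => size a)).sum ≤ size l := by
  induction l with
  | nil => simp
  | cons a l ih => rw [List.map_cons, List.sum_cons, size_cons]; omega

theorem ct_apo [Fact (2 ≤ β)] (op : Fin s → List (Fin s × (List (List ℤ) × ℤ))) :
    CT (fun l : SL β s => apo op l) (fun l => size l) := by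
  refine ((ct_flatMap (q10a_item (β := β) op)).mono 2 (fun l => ?_)).congr (fun l => rfl)
  have h := q10a_sum_size l
  show size l + (l.map (fun y => size y)).sum ≤ 2 * (size l + 1)
  omega

/-- A bound for a function of a finite type. -/
theorem q10a_bound {ι : Type} [Finite ι] (g : ι → ℕ) : ∃ C : ℕ, ∀ i, g i ≤ C := by
  obtain ⟨C, hC⟩ := (Set.finite_range g).bddAbove
  exact ⟨C, fun i => hC ⟨i, rfl⟩⟩

theorem length_apo (op : Fin s → List (Fin s × (List (List ℤ) × ℤ))) :
    ∃ C : ℕ, ∀ l : SL β s, (apo op l).length ≤ C * l.length := by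
  obtain ⟨C, hC⟩ := q10a_bound (fun τ : Fin s => (op τ).length)
  refine ⟨C, fun l => ?_⟩
  induction l with
  | nil => simp [apo]
  | cons y l ih =>
    have h1 : apo op (y :: l) = (op y.1.1).map
        (fun o => ((o.1, linMap o.2.1 y.1.2), o.2.2 • y.2)) ++ apo op l := rfl
    have h2 := hC y.1.1
    have e : C * (y :: l).length = C * l.length + C := by
      rw [List.length_cons]; ring
    rw [h1, List.length_append, List.length_map, e]
    have h3 : (op y.1.1).length ≤ C := h2
    omega

/-- The total of one item. -/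
theorem q10a_tv (L : List (Fin s × (List (List ℤ) × ℤ))) (y : (Fin s × List (ZB β)) × ZB β) :
    tv (L.map (fun o => (((o.1, linMap o.2.1 y.1.2), o.2.2 • y.2) :
      (Fin s × List (ZB β)) × ZB β))) =
      (L.map (fun o => o.2.2.natAbs)).sum * y.2.val.natAbs := by
  induction L with
  | nil => simp [tv]
  | cons o L ih =>
    have h1 : (o.2.2 • y.2 : ZB β).val = o.2.2 * y.2.val := by
      rfl
    unfold tv at ih ⊢
    rw [List.map_cons, List.map_cons, List.sum_cons, ih, List.map_cons, List.sum_cons, h1,
      Int.natAbs_mul, Nat.add_mul]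

theorem q10a_tv_append (l l' : SL β s) : tv (l ++ l') = tv l + tv l' := by
  unfold tv
  rw [List.map_append, List.sum_append]

theorem tv_apo (op : Fin s → List (Fin s × (List (List ℤ) × ℤ))) :
    ∃ C : ℕ, ∀ l : SL β s, tv (apo op l) ≤ C * tv l := by
  obtain ⟨C, hC⟩ := q10a_bound (fun τ : Fin s => ((op τ).map (fun o => o.2.2.natAbs)).sum)
  refine ⟨C, fun l => ?_⟩
  induction l with
  | nil => simp [apo, tv]
  | cons y l ih =>
    have h1 : apo op (y :: l) = (op y.1.1).map
        (fun o => ((o.1, linMap o.2.1 y.1.2), o.2.2 • y.2)) ++ apo op l := rfl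
    have h2 : ((op y.1.1).map (fun o => o.2.2.natAbs)).sum ≤ C := hC y.1.1
    have h3 : tv (y :: l) = y.2.val.natAbs + tv l := by
      unfold tv
      rw [List.map_cons, List.sum_cons]
    rw [h1, q10a_tv_append, q10a_tv, h3, Nat.mul_add]
    exact Nat.add_le_add (Nat.mul_le_mul_right _ h2) ih

end

end Pool.Agent.WQL
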