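import Pool.Agent.Lib.MP_2da099_lc.QL.Defs

/-!
# Q10b: sparse operators, meaning.

`op τ'` is the list over all `τ` and all exponents `u` of `Mx τ τ'` of `(τ, rows of the shift by u, coefficient)`,
where the rows of the shift are `[1], [u_0, 1, 0, ..], [u_1, 0, 1, ..], ..`: `linMap rows (pl v) = pl (v + u)`.
`R` bounds all exponents.
-/

set_option autoImplicit false

namespace Pool.Agent.WQL

open Pool.Agent.Lib.PolyTime Pool.Agent.WPM Pool.Agent.WPR Function

section
variable {β m : ℕ}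

/-! ### Positions -/

theorem q10b_pl_inj : Function.Injective (pl : (Fin m → ℤ) → List (ZB β)) := by
  intro v w h
  unfold pl at h
  have h1 := (List.cons.inj h).2
  have h2 := List.ofFn_injective h1
  funext i
  exact congrFun h2 i

/-- the rows of the shift by `u` -/
def q10b_rows (u : Fin m → ℤ) : List (List ℤ) :=
  [1] :: List.ofFn (fun i => u i :: List.ofFn (fun j => if j = i then (1 : ℤ) else 0))

theorem q10b_zip (f : Fin m → ℤ) (g : Fin m → ZB β) :
    (List.zipWith (fun (a : ℤ) y => a • y) (List.ofFn f) (List.ofFn g)).sum = ∑ i, f i • g i := by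
  induction m with
  | zero => simp
  | succ n ih =>
    rw [List.ofFn_succ, List.ofFn_succ, List.zipWith_cons_cons, List.sum_cons, ih,
      Fin.sum_univ_succ]

theorem q10b_linMap (u v : Fin m → ℤ) :
    linMap (q10b_rows u) (pl v : List (ZB β)) = pl (v + u) := by
  unfold linMap q10b_rows
  rw [List.map_cons, List.map_ofFn]
  unfold pl
  congr 1
  congr 1
  funext i
  simp only [Function.comp]
  rw [List.zipWith_cons_cons, List.sum_cons, q10b_zip, Finset.sum_eq_single i]
  · rw [if_pos rfl, one_smul]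
    show u i * 1 + v i = v i + u i
    ring
  · intro j _ hj
    rw [if_neg hj, zero_smul]
  · intro h
    exact absurd (Finset.mem_univ i) h

/-! ### Sums over keys -/

open Classical in
theorem q10b_ksum {κ : Type} (l : List (κ × ZB β)) (c : κ) :
    ksum l c = (l.map (fun x => if x.1 = c then x.2.val else 0)).sum := by
  induction l with
  | nil => simp [ksum]
  | cons x l ih =>
    unfold ksum at ih ⊢
    rw [List.map_cons, List.sum_cons, ← ih, List.filter_cons]
    by_cases h : x.1 = c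
    · simp [h]
    · simp [h]

theorem q10b_sum_flatMap {α : Type*} (l : List α) (f : α → List ℤ) :
    (l.flatMap f).sum = (l.map (fun a => (f a).sum)).sum := by
  induction l with
  | nil => rfl
  | cons a l ih => rw [List.flatMap_cons, List.sum_append, ih, List.map_cons, List.sum_cons]

theorem q10b_ksum_append {κ : Type} (l l' : List (κ × ZB β)) (c : κ) :
    ksum (l ++ l') c = ksum l c + ksum l' c := by
  classical
  rw [q10b_ksum, q10b_ksum, q10b_ksum, List.map_append, List.sum_append]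

open Classical in
theorem q10b_ksum_cons {κ : Type} (x : κ × ZB β) (l : List (κ × ZB β)) (c : κ) :
    ksum (x :: l) c = (if x.1 = c then x.2.val else 0) + ksum l c := by
  rw [q10b_ksum, q10b_ksum, List.map_cons, List.sum_cons]

end

/-! ### The operator -/

section
variable {β s m : ℕ}

/-- the part of the operator for the entry `τ` -/
noncomputable def q10b_part (G : LM m) (τ : Fin s) : List (Fin s × (List (List ℤ) × ℤ)) :=
  G.coeff.support.toList.map (fun u => (τ, (q10b_rows u, G.coeff u)))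

/-- the operator -/
noncomputable def q10b_op (Mx : Fin s → Fin s → LM m) (τ' : Fin s) :
    List (Fin s × (List (List ℤ) × ℤ)) :=
  (List.finRange s).flatMap (fun τ => q10b_part (Mx τ τ') τ)

theorem q10b_mem_op {Mx : Fin s → Fin s → LM m} {τ' : Fin s} {o : Fin s × (List (List ℤ) × ℤ)}
    (h : o ∈ q10b_op Mx τ') : ∃ (τ : Fin s) (u : Fin m → ℤ), (Mx τ τ').coeff u ≠ 0 ∧
      o = (τ, (q10b_rows u, (Mx τ τ').coeff u)) := by
  unfold q10b_op q10b_part at h
  obtain ⟨τ, -, h1⟩ := List.mem_flatMap.1 h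
  obtain ⟨u, h2, h3⟩ := List.mem_map.1 h1
  exact ⟨τ, u, Finsupp.mem_support_iff.1 (Finset.mem_toList.1 h2), h3.symm⟩

/-- a bound for the exponents -/
theorem q10b_bound (Mx : Fin s → Fin s → LM m) : ∃ R : ℕ, ∀ τ τ' u, (Mx τ τ').coeff u ≠ 0 →
    ∀ i, |u i| ≤ (R : ℤ) := by
  classical
  refine ⟨∑ τ, ∑ τ', ∑ u ∈ (Mx τ τ').coeff.support, ∑ i, (u i).natAbs, ?_⟩
  intro τ τ' u hu i
  rw [Int.abs_eq_natAbs]
  norm_cast
  have h1 : (u i).natAbs ≤ ∑ i, (u i).natAbs :=
    Finset.single_le_sum (f := fun i => (u i).natAbs) (fun _ _ => Nat.zero_le _) (Finset.mem_univ i)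
  have h2 : (∑ i, (u i).natAbs) ≤ ∑ u ∈ (Mx τ τ').coeff.support, ∑ i, (u i).natAbs :=
    Finset.single_le_sum (f := fun u : Fin m → ℤ => ∑ i, (u i).natAbs) (fun _ _ => Nat.zero_le _)
      (Finsupp.mem_support_iff.2 hu)
  have h3 : (∑ u ∈ (Mx τ τ').coeff.support, ∑ i, (u i).natAbs) ≤
      ∑ τ', ∑ u ∈ (Mx τ τ').coeff.support, ∑ i, (u i).natAbs :=
    Finset.single_le_sum (f := fun τ' => ∑ u ∈ (Mx τ τ').coeff.support, ∑ i, (u i).natAbs)
      (fun _ _ => Nat.zero_le _) (Finset.mem_univ τ')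
  have h4 : (∑ τ', ∑ u ∈ (Mx τ τ').coeff.support, ∑ i, (u i).natAbs) ≤
      ∑ τ, ∑ τ', ∑ u ∈ (Mx τ τ').coeff.support, ∑ i, (u i).natAbs :=
    Finset.single_le_sum
      (f := fun τ => ∑ τ', ∑ u ∈ (Mx τ τ').coeff.support, ∑ i, (u i).natAbs)
      (fun _ _ => Nat.zero_le _) (Finset.mem_univ τ)
  exact le_trans h1 (le_trans h2 (le_trans h3 h4))

theorem q10b_near {Mx : Fin s → Fin s → LM m} {R : ℕ}
    (hR : ∀ τ τ' u, (Mx τ τ').coeff u ≠ 0 → ∀ i, |u i| ≤ (R : ℤ)) {ρ : ℕ} {I : List (IM m 2)}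
    {l : SL β s} (h : near ρ I l) : near (ρ + R) I (apo (q10b_op Mx) l) := by
  intro y hy
  unfold apo at hy
  obtain ⟨x, hx, hy⟩ := List.mem_flatMap.1 hy
  obtain ⟨o, ho, hy⟩ := List.mem_map.1 hy
  obtain ⟨v, hv, z, hz, hd⟩ := h x hx
  obtain ⟨τ, u, hu, ho'⟩ := q10b_mem_op ho
  subst ho'
  subst hy
  refine ⟨v + u, ?_, z, hz, fun i => ?_⟩
  · show linMap (q10b_rows u) x.1.2 = pl (v + u)
    rw [hv, q10b_linMap]
  · have h1 := hd i
    have h2 := hR _ _ _ hu i
    have h3 : (v + u) i - z.1 i = (v i - z.1 i) + u i := by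
      rw [Pi.add_apply]; ring
    rw [h3, Nat.cast_add]
    exact le_trans (abs_add_le _ _) (add_le_add h1 h2)

theorem q10b_coeff_mul (F G : LM m) (c : Fin m → ℤ) :
    (F * G).coeff c = ∑ a ∈ F.coeff.support, F.coeff a * G.coeff (-a + c) := by
  rw [AddMonoidAlgebra.coeff_mul_apply_left]
  rfl

/-- the sum of the values of the images of one item -/
theorem q10b_item (Mx : Fin s → Fin s → LM m) (x : (Fin s × List (ZB β)) × ZB β) (v : Fin m → ℤ)
    (hv : x.1.2 = pl v) (τ : Fin s) (w : Fin m → ℤ) :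
    ksum ((q10b_op Mx x.1.1).map (fun o => ((o.1, linMap o.2.1 x.1.2), o.2.2 • x.2))) (τ, pl w) =
      (Mx τ x.1.1).coeff (w - v) * x.2.val := by
  classical
  rw [q10b_ksum, List.map_map]
  unfold q10b_op q10b_part
  rw [List.map_flatMap, q10b_sum_flatMap]
  have h1 : ∀ τ₁ : Fin s, (List.map
      ((fun z : (Fin s × List (ZB β)) × ZB β => if z.1 = (τ, pl w) then z.2.val else 0) ∘
        fun o : Fin s × (List (List ℤ) × ℤ) => ((o.1, linMap o.2.1 x.1.2), o.2.2 • x.2))
      (List.map (fun u => (τ₁, (q10b_rows u, (Mx τ₁ x.1.1).coeff u)))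
        (Mx τ₁ x.1.1).coeff.support.toList)).sum =
      if τ₁ = τ then (Mx τ x.1.1).coeff (w - v) * x.2.val else 0 := by
    intro τ₁
    rw [List.map_map, Finset.sum_map_toList]
    simp only [Function.comp]
    by_cases hτ : τ₁ = τ
    · subst hτ
      rw [if_pos rfl]
      have h2 : ∀ u ∈ (Mx τ₁ x.1.1).coeff.support,
          (if (τ₁, linMap (q10b_rows u) x.1.2) = (τ₁, pl w) then
            ((Mx τ₁ x.1.1).coeff u • x.2).val else 0) =
          if u = w - v then (Mx τ₁ x.1.1).coeff u * x.2.val else 0 := by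
        intro u _
        rw [hv, q10b_linMap]
        have h3 : ((τ₁, (pl (v + u) : List (ZB β))) = (τ₁, pl w)) ↔ u = w - v := by
          constructor
          · intro h
            have h4 := q10b_pl_inj (Prod.mk.inj h).2
            rw [← h4]
            abel
          · intro h
            rw [h]
            congr 2
            abel
        by_cases h5 : u = w - v
        · rw [if_pos (h3.2 h5), if_pos h5]
          show (Mx τ₁ x.1.1).coeff u • x.2.val = _
          rw [smul_eq_mul]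
        · rw [if_neg (fun h => h5 (h3.1 h)), if_neg h5]
      rw [Finset.sum_congr rfl h2, Finset.sum_ite_eq']
      split_ifs with h6
      · rfl
      · rw [Finsupp.notMem_support_iff.1 h6, zero_mul]
    · rw [if_neg hτ]
      refine Finset.sum_eq_zero (fun u _ => ?_)
      rw [if_neg]
      intro h
      exact hτ (Prod.mk.inj h).1
  refine Eq.trans (congrArg List.sum (List.map_congr_left
    (g := fun τ₁ : Fin s => if τ₁ = τ then (Mx τ x.1.1).coeff (w - v) * x.2.val else 0)
    (fun τ₁ _ => ?_))) ?_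
  · convert h1 τ₁
  have h7 : (List.map (fun τ₁ : Fin s => if τ₁ = τ then (Mx τ x.1.1).coeff (w - v) * x.2.val else 0)
      (List.finRange s)).sum = ∑ τ₁ : Fin s, if τ₁ = τ then
        (Mx τ x.1.1).coeff (w - v) * x.2.val else 0 := by
    rw [← List.ofFn_eq_map, List.sum_ofFn]
  rw [h7, Finset.sum_ite_eq' Finset.univ τ, if_pos (Finset.mem_univ τ)]

theorem q10b_sum (Mx : Fin s → Fin s → LM m) (τ : Fin s) (w : Fin m → ℤ) (l : SL β s)
    (hl : ∀ y ∈ l, ∃ v : Fin m → ℤ, y.1.2 = pl v) :
    ksum (apo (q10b_op Mx) l) (τ, pl w) =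
      ∑ τ', ∑ a ∈ (Mx τ τ').coeff.support, (Mx τ τ').coeff a * ksum l (τ', pl (-a + w)) := by
  classical
  induction l with
  | nil => simp [apo, ksum]
  | cons x l ih =>
    have ih' := ih (fun y hy => hl y (List.mem_cons_of_mem x hy))
    obtain ⟨v, hv⟩ := hl x List.mem_cons_self
    unfold apo at ih' ⊢
    rw [List.flatMap_cons, q10b_ksum_append, ih', q10b_item Mx x v hv]
    have h1 : ∀ τ' (a : Fin m → ℤ), ksum (x :: l) (τ', pl (-a + w)) =
        (if τ' = x.1.1 ∧ a = w - v then x.2.val else 0) + ksum l (τ', pl (-a + w)) := by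
      intro τ' a
      rw [q10b_ksum_cons]
      congr 1
      have h2 : (x.1 = (τ', pl (-a + w))) ↔ (τ' = x.1.1 ∧ a = w - v) := by
        constructor
        · intro h
          have h3 : x.1.2 = pl (-a + w) := by rw [h]
          have h4 : x.1.1 = τ' := by rw [h]
          rw [hv] at h3
          have h5 := q10b_pl_inj h3
          refine ⟨h4.symm, ?_⟩
          rw [h5]
          abel
        · rintro ⟨h3, h4⟩
          have h5 : x.1 = (x.1.1, x.1.2) := rfl
          rw [h5, hv, h3, h4]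
          congr 2
          abel
      by_cases h : τ' = x.1.1 ∧ a = w - v
      · rw [if_pos (h2.2 h), if_pos h]
      · rw [if_neg (fun h' => h (h2.1 h')), if_neg h]
    have h3 : ∀ τ', ∑ a ∈ (Mx τ τ').coeff.support, (Mx τ τ').coeff a *
        ksum (x :: l) (τ', pl (-a + w)) =
        (if τ' = x.1.1 then (Mx τ τ').coeff (w - v) * x.2.val else 0) +
          ∑ a ∈ (Mx τ τ').coeff.support, (Mx τ τ').coeff a * ksum l (τ', pl (-a + w)) := by
      intro τ'
      simp only [h1, mul_add, Finset.sum_add_distrib]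
      congr 1
      by_cases h4 : τ' = x.1.1
      · rw [if_pos h4]
        have h5 : ∀ a ∈ (Mx τ τ').coeff.support, (Mx τ τ').coeff a *
            (if τ' = x.1.1 ∧ a = w - v then x.2.val else 0) =
            if a = w - v then (Mx τ τ').coeff a * x.2.val else 0 := by
          intro a _
          by_cases h6 : a = w - v
          · rw [if_pos ⟨h4, h6⟩, if_pos h6]
          · rw [if_neg (fun h => h6 h.2), if_neg h6, mul_zero]
        rw [Finset.sum_congr rfl h5, Finset.sum_ite_eq']
        split_ifs with h7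
        · rfl
        · rw [Finsupp.notMem_support_iff.1 h7, zero_mul]
      · rw [if_neg h4]
        refine Finset.sum_eq_zero (fun a _ => ?_)
        rw [if_neg (fun h => h4 h.1), mul_zero]
    rw [Finset.sum_congr rfl (fun τ' _ => h3 τ'), Finset.sum_add_distrib,
      Finset.sum_ite_eq' Finset.univ x.1.1, if_pos (Finset.mem_univ _)]

end

theorem exists_op {β s m : ℕ} (Mx : Fin s → Fin s → LM m) :
    ∃ (op : Fin s → List (Fin s × (List (List ℤ) × ℤ))) (R : ℕ), ∀ (ρ : ℕ) (I : List (IM m 2))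
      (l : SL β s) (F : Fin s → LM m), near ρ I l → den l F → near (ρ + R) I (apo op l) ∧
        den (apo op l) (fun τ => ∑ τ', Mx τ τ' * F τ') := by
  classical
  obtain ⟨R, hR⟩ := q10b_bound Mx
  refine ⟨q10b_op Mx, R, fun ρ I l F hn hd => ⟨q10b_near hR hn, fun τ w => ?_⟩⟩
  have hl : ∀ y ∈ l, ∃ v : Fin m → ℤ, y.1.2 = pl v := fun y hy => by
    obtain ⟨v, hv, -⟩ := hn y hy
    exact ⟨v, hv⟩
  rw [q10b_sum Mx τ w l hl]
  have h1 : (∑ τ', Mx τ τ' * F τ').coeff w = ∑ τ', (Mx τ τ' * F τ').coeff w := by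
    rw [AddMonoidAlgebra.coeff_sum, Finsupp.finsetSum_apply]
  rw [h1]
  refine Finset.sum_congr rfl (fun τ' _ => ?_)
  rw [q10b_coeff_mul]
  refine Finset.sum_congr rfl (fun a _ => ?_)
  rw [hd τ' (-a + w)]

end Pool.Agent.WQL
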