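import Pool.Agent.Lib.MP_2da099_lc.QL.Q01
import Pool.Agent.Lib.MP_2da099_lc.QL.Q06
import Pool.Agent.Lib.MP_2da099_lc.QL.Q07
import Pool.Agent.Lib.MP_2da099_lc.QL.Q08
import Pool.Agent.Lib.MP_2da099_lc.QL.Q09
import Pool.Agent.Lib.MP_2da099_lc.QL.Q10a
import Pool.Agent.Lib.MP_2da099_lc.QL.Q10b
import Pool.Agent.Lib.MP_2da099_lc.QL.L01

/-!
# Q11: the iteration.

Start: the walk with the vector `pl v` gives the list of `(pl v, ± 1)` over the tokens; every item is put in with the
index 0 and with the index 2.  `den`: `itB .. 0 = ![F, 0, F]` (`spM_coeff`).  One round: `l ↦ norm (L, apo op l)` with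
`op` from `exists_op` for the matrix `![![D,0,0],![S,T,0],![0,0,r]]`, `L` a unary number `≥` all sizes of keys
(`exists_log` with a large constant).  After `j ≤ κ n` rounds: `near (R j)`; distinct keys, so the number of items is
`≤ 3 * n * (2 R j + 1) ^ m`; `tv ≤ B ^ j * 2 n` (for distinct keys `tv (norm l) ≤ tv l` because the value is `ksum`), so
all values have `≤ C lg n` digits; positions are `≤ n + R j`.  So a round costs `O((n + 1) lg n ^ C)`, and there are
`κ n ≤ C lg n` rounds.  The loop: `CT.foldl`/`CT.foldlEnv` over `List.replicate (κ n) ()` (`ct_units`).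
-/

set_option autoImplicit false

namespace Pool.Agent.WQL

open Pool.Agent.Lib.PolyTime Pool.Agent.WPM Pool.Agent.WPR Function

/-! ### Polylogarithmic and quasi-linear bounds -/

/-- bounded by a power of the logarithm -/
private def q11_PL (T : ℕ → ℕ) : Prop := ∃ C, ∀ n, T n ≤ C * lg n ^ C

/-- quasi-linear -/
private def q11_NL (T : ℕ → ℕ) : Prop := ∃ C, ∀ n, T n ≤ C * (n + 1) * lg n ^ C

private theorem q11_PL.mono {T T' : ℕ → ℕ} (h : q11_PL T) (h' : ∀ n, T' n ≤ T n) : q11_PL T' := by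
  obtain ⟨C, hC⟩ := h
  exact ⟨C, fun n => (h' n).trans (hC n)⟩

private theorem q11_NL.mono {T T' : ℕ → ℕ} (h : q11_NL T) (h' : ∀ n, T' n ≤ T n) : q11_NL T' := by
  obtain ⟨C, hC⟩ := h
  exact ⟨C, fun n => (h' n).trans (hC n)⟩

private theorem q11_PL_const (c : ℕ) : q11_PL (fun _ => c) :=
  ⟨c, fun _ => Nat.le_mul_of_pos_right _ (Nat.pow_pos (lg_pos _))⟩

private theorem q11_PL_lg (c : ℕ) : q11_PL (fun n => c * lg n) :=
  ⟨c + 1, fun _ => Nat.mul_le_mul (Nat.le_succ _) (Nat.le_self_pow (Nat.succ_ne_zero _) _)⟩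

private theorem q11_PL.add {T T' : ℕ → ℕ} (h : q11_PL T) (h' : q11_PL T') : q11_PL (fun n => T n + T' n) := by
  obtain ⟨C, hC⟩ := h
  obtain ⟨C', hC'⟩ := h'
  refine ⟨C + C', fun n => ?_⟩
  have h1 : C * lg n ^ C ≤ C * lg n ^ (C + C') :=
    Nat.mul_le_mul_left _ (Nat.pow_le_pow_right (lg_pos n) (Nat.le_add_right _ _))
  have h2 : C' * lg n ^ C' ≤ C' * lg n ^ (C + C') :=
    Nat.mul_le_mul_left _ (Nat.pow_le_pow_right (lg_pos n) (Nat.le_add_left _ _))
  have h3 := hC n
  have h4 := hC' n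
  show T n + T' n ≤ _
  rw [Nat.add_mul]
  omega

private theorem q11_PL.mul {T T' : ℕ → ℕ} (h : q11_PL T) (h' : q11_PL T') : q11_PL (fun n => T n * T' n) := by
  obtain ⟨C, hC⟩ := h
  obtain ⟨C', hC'⟩ := h'
  refine ⟨C * C' + C + C', fun n => ?_⟩
  have h1 := Nat.mul_le_mul (hC n) (hC' n)
  have h2 : C * lg n ^ C * (C' * lg n ^ C') = C * C' * lg n ^ (C + C') := by
    rw [pow_add]; ring
  rw [h2] at h1
  exact h1.trans (Nat.mul_le_mul (by omega) (Nat.pow_le_pow_right (lg_pos n) (by omega)))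

private theorem q11_PL.pow {T : ℕ → ℕ} (h : q11_PL T) (k : ℕ) : q11_PL (fun n => T n ^ k) := by
  induction k with
  | zero => exact (q11_PL_const 1).mono fun n => by simp
  | succ k ih => exact (ih.mul h).mono fun n => by rw [pow_succ]

private theorem q11_NL.add {T T' : ℕ → ℕ} (h : q11_NL T) (h' : q11_NL T') : q11_NL (fun n => T n + T' n) := by
  obtain ⟨C, hC⟩ := h
  obtain ⟨C', hC'⟩ := h'
  refine ⟨C + C', fun n => ?_⟩
  have h1 : C * (n + 1) * lg n ^ C ≤ C * (n + 1) * lg n ^ (C + C') :=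
    Nat.mul_le_mul_left _ (Nat.pow_le_pow_right (lg_pos n) (Nat.le_add_right _ _))
  have h2 : C' * (n + 1) * lg n ^ C' ≤ C' * (n + 1) * lg n ^ (C + C') :=
    Nat.mul_le_mul_left _ (Nat.pow_le_pow_right (lg_pos n) (Nat.le_add_left _ _))
  have h3 := hC n
  have h4 := hC' n
  have e : (C + C') * (n + 1) * lg n ^ (C + C') =
    C * (n + 1) * lg n ^ (C + C') + C' * (n + 1) * lg n ^ (C + C') := by ring
  show T n + T' n ≤ _
  rw [e]
  omega

private theorem q11_NL.mul {T T' : ℕ → ℕ} (h : q11_NL T) (h' : q11_PL T') : q11_NL (fun n => T n * T' n) := by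
  obtain ⟨C, hC⟩ := h
  obtain ⟨C', hC'⟩ := h'
  refine ⟨C * C' + C + C', fun n => ?_⟩
  have h1 := Nat.mul_le_mul (hC n) (hC' n)
  have h2 : C * (n + 1) * lg n ^ C * (C' * lg n ^ C') = C * C' * (n + 1) * lg n ^ (C + C') := by
    rw [pow_add]; ring
  rw [h2] at h1
  exact h1.trans (Nat.mul_le_mul (Nat.mul_le_mul_right _ (by omega)) (Nat.pow_le_pow_right (lg_pos n) (by omega)))

private theorem q11_NL_lin (c : ℕ) : q11_NL (fun n => c * (n + 1)) :=
  ⟨c, fun n => Nat.le_mul_of_pos_right _ (Nat.pow_pos (lg_pos n))⟩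

private theorem q11_PL.nl {T : ℕ → ℕ} (h : q11_PL T) : q11_NL T := by
  refine ((q11_NL_lin 1).mul h).mono fun n => ?_
  exact Nat.le_mul_of_pos_left _ (by omega)

private theorem q11_lt (n : ℕ) : n + 2 < 2 ^ (lg n + 1) := Nat.lt_pow_succ_log_self (by norm_num) _

private theorem q11_lg_le (n : ℕ) : lg n ≤ n + 1 := by
  have h : lg n < n + 2 := Nat.log_lt_self 2 (by omega)
  omega

/-- the logarithm of a power -/
private theorem q11_lg_of {a b : ℕ} (h : a + 2 ≤ 2 ^ b) : lg a ≤ b := by
  unfold lg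
  have h1 := Nat.log_mono_right (b := 2) h
  rwa [Nat.log_pow (by norm_num)] at h1

private theorem q11_NL.lg {T : ℕ → ℕ} (h : q11_NL T) : ∃ C, ∀ n, Pool.Agent.WQL.lg (T n) ≤ C * Pool.Agent.WQL.lg n := by
  obtain ⟨C, hC⟩ := h
  refine ⟨C + 2 + 2 * (C + 1), fun n => ?_⟩
  have hL := lg_pos n
  have h1 : T n + 2 ≤ 2 ^ (C + 2 + (Pool.Agent.WQL.lg n + 1) * (C + 1)) := by
    have h2 := hC n
    have h3 : n + 1 ≤ 2 ^ (Pool.Agent.WQL.lg n + 1) := by have := q11_lt n; omega
    have h4 : Pool.Agent.WQL.lg n ≤ 2 ^ (Pool.Agent.WQL.lg n + 1) := by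
      have := q11_lg_le n
      omega
    have h5 : C * (n + 1) * Pool.Agent.WQL.lg n ^ C ≤ 2 ^ C * 2 ^ (Pool.Agent.WQL.lg n + 1) * (2 ^ (Pool.Agent.WQL.lg n + 1)) ^ C :=
      Nat.mul_le_mul (Nat.mul_le_mul Nat.lt_two_pow_self.le h3) (Nat.pow_le_pow_left h4 C)
    have h6 : 2 ^ C * 2 ^ (Pool.Agent.WQL.lg n + 1) * (2 ^ (Pool.Agent.WQL.lg n + 1)) ^ C =
        2 ^ (C + (Pool.Agent.WQL.lg n + 1) * (C + 1)) := by
      rw [← pow_mul, ← pow_add, ← pow_add]; congr 1; ring
    have h7 : 2 ^ (C + 2 + (Pool.Agent.WQL.lg n + 1) * (C + 1)) =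
        4 * 2 ^ (C + (Pool.Agent.WQL.lg n + 1) * (C + 1)) := by
      have e : C + 2 + (Pool.Agent.WQL.lg n + 1) * (C + 1) = (C + (Pool.Agent.WQL.lg n + 1) * (C + 1)) + 2 := by ring
      rw [e, pow_add]; ring
    have h8 : 1 ≤ 2 ^ (C + (Pool.Agent.WQL.lg n + 1) * (C + 1)) := Nat.one_le_two_pow
    omega
  refine (q11_lg_of h1).trans ?_
  have h9 : (C + 2) * 1 ≤ (C + 2) * Pool.Agent.WQL.lg n := Nat.mul_le_mul_left _ hL
  have h10 : (Pool.Agent.WQL.lg n + 1) * (C + 1) ≤ (2 * Pool.Agent.WQL.lg n) * (C + 1) := Nat.mul_le_mul_right _ (by omega)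
  have e : (C + 2 + 2 * (C + 1)) * Pool.Agent.WQL.lg n = (C + 2) * Pool.Agent.WQL.lg n + (2 * Pool.Agent.WQL.lg n) * (C + 1) := by ring
  omega

/-! ### The start -/

section start

variable {β m : ℕ}

/-- the sign of a token -/
private def q11_sg (κ : Fin 2) : ℤ := if κ = 0 then 1 else -1

/-- the vector of a position -/
private def q11_X (v : Fin m → ℤ) : List ℤ := 1 :: List.ofFn v

private theorem q11_cvX (v : Fin m → ℤ) : (q09_cv (q11_X v) : List (ZB β)) = pl v := by
  unfold q09_cv q11_X pl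
  rw [List.map_cons, List.map_ofFn]
  rfl

private theorem q11_lenX (v : Fin m → ℤ) : (q11_X v).length = m + 1 := by
  unfold q11_X
  rw [List.length_cons, List.length_ofFn]

private theorem q11_rows (u v : Fin m → ℤ) : q11_X (v + u) = lm (q10b_rows u) (q11_X v) := by
  apply q09_cv_inj (β := 2)
  rw [← q09_linMap, q11_cvX, q11_cvX, q10b_linMap]

private theorem q11_id (v : Fin m → ℤ) : q11_X v = lm (q09_id (m + 1)) (q11_X v) := by
  apply q09_cv_inj (β := 2)
  rw [← q09_linMap, q09_id_eq (m + 1) _ (by rw [q09_cv, List.length_map, q11_lenX])]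

private theorem q11_val (κ : Fin 2) (v : Fin m → ℤ) : q11_sg κ = dt [q11_sg κ] (q11_X v) := by
  simp [dt, q11_X]

/-- the list of the walk -/
private def q11_R (I : List (IM m 2)) : List (List (ZB β) × ZB β) :=
  (posM 0 I).map (fun x => (pl x.1, ZB.mk (q11_sg x.2)))

private theorem q11_ctR [Fact (2 ≤ β)] : ∃ T : List (IM m 2) → ℕ, (∃ C, ∀ I, T I ≤ C * (I.length + 1) * lg I.length) ∧
    CT (fun I : List (IM m 2) => (q11_R I : List (List (ZB β) × ZB β))) T := by
  obtain ⟨C1, hC1⟩ := q09_size β (m + 1) 1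
  have hsz : ∀ (n : ℕ) (v : Fin m → ℤ), (∀ i, |v i| ≤ (n : ℤ)) →
      size (q09_cv (q11_X v) : List (ZB β)) ≤ C1 * lg n := by
    intro n v hv
    refine hC1 n _ (by rw [q09_cv, List.length_map, q11_lenX]) fun y hy => ?_
    rw [q11_cvX] at hy
    unfold pl at hy
    rcases List.mem_cons.1 hy with h | h
    · subst h
      show (1 : ℤ).natAbs ≤ _
      simp
    · obtain ⟨i, rfl⟩ := (List.mem_ofFn' _ _).1 h
      have := abs_le.1 (hv i)
      show (v i).natAbs ≤ _
      rw [one_mul, pow_one]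
      omega
  let W := q09_walk (σ := Unit) (m := m) (k := 2) (fun _ _ => ()) (fun _ a => q10b_rows (stv a))
    (fun _ => q09_id (m + 1)) (fun _ κ => [q11_sg κ]) (m + 1)
  have hA : ∀ (s : Unit) (a : Fin m × Bool) (v : Fin m → ℤ), () = s →
      () = () ∧ q11_X (v + stv a) = lm (q10b_rows (stv a)) (q11_X v) := fun _ a v _ => ⟨rfl, q11_rows _ _⟩
  have hct := ct_walk W () (q09_cv (q11_X (0 : Fin m → ℤ)) : List (ZB β))
  refine ⟨fun I => W.cost ((), (q09_cv (q11_X (0 : Fin m → ℤ)) : List (ZB β))) I, ⟨C1 + 1, fun I => ?_⟩, hct.congr fun I => ?_⟩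
  · have h1 := q09_cost (σ := Unit) (fun _ => ()) q11_X (m + 1) q11_lenX (fun _ _ => ())
      (fun _ a => q10b_rows (stv a)) hA (fun _ => q09_id (m + 1)) (fun _ κ => [q11_sg κ]) I.length
      (C1 * lg I.length) (hsz I.length) I 0 (fun i => by simp)
    refine h1.trans ?_
    have hL := lg_pos I.length
    have h2 : (I.length + 1) * (C1 * lg I.length + 1) ≤ (I.length + 1) * ((C1 + 1) * lg I.length) := by
      refine Nat.mul_le_mul_left _ ?_
      rw [Nat.add_mul]
      omega
    refine h2.trans (le_of_eq ?_)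
    ring
  · have h1 := q09_run (σ := Unit) (fun _ => ()) q11_X (m + 1) q11_lenX (fun _ _ => ())
      (fun _ a => q10b_rows (stv a)) hA q11_X (fun _ => q09_id (m + 1)) (fun _ v _ => q11_id v)
      (fun κ _ => q11_sg κ) (fun _ κ => [q11_sg κ]) (fun _ κ v _ => q11_val κ v) (β := β) I 0
    refine h1.trans ?_
    unfold q11_R
    refine List.map_congr_left fun x _ => ?_
    rw [q11_cvX]

/-- the start list -/
private def q11_A (l : List (List (ZB β) × ZB β)) : SL β 3 :=
  l.flatMap (fun y => [(0 : Fin 3), 2].map (fun τ => ((τ, y.1), y.2)))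

private theorem q11_ctA [Fact (2 ≤ β)] : CT (fun l : List (List (ZB β) × ZB β) => q11_A l) (fun l => size l) := by
  obtain ⟨κ, hκ⟩ := size_fin (Fin 3)
  have h1 : ∀ τ ∈ [(0 : Fin 3), 2], CT (fun y : List (ZB β) × ZB β => ((τ, y.1), y.2)) (fun _ => 0) := by
    intro τ _
    have h2 := (CT.assocL (α := Fin 3) (β := List (ZB β)) (γ := ZB β)).comp (CT.pushConst (α := List (ZB β) × ZB β) τ)
    refine (h2.mono (κ + 1) fun y => ?_).congr fun y => rfl
    have h3 := hκ τ
    show 0 + size τ ≤ (κ + 1) * (0 + 1)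
    omega
  have h2 := CT.mapConst [(0 : Fin 3), 2] h1
  have h3 := ct_map h2
  have h4 := ct_flatten.comp h3
  obtain ⟨C, hC⟩ := h3.size_le
  have hsum : ∀ l : List (List (ZB β) × ZB β), (l.map (fun a => size a + 0)).sum ≤ size l := by
    intro l
    have := p05_sum_size_le l
    simpa using this
  refine (h4.mono (4 + 3 * C) fun l => ?_).congr fun l => ?_
  · have h5 := hC l
    have h6 := hsum l
    show (size l + (l.map (fun a => size a + 0)).sum) + size (l.map _) ≤ _
    have h7 : C * (size l + (l.map (fun a => size a + 0)).sum + 1) ≤ C * (2 * size l + 1) := Nat.mul_le_mul_left _ (by omega)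
    have e : (4 + 3 * C) * (size l + 1) = C * (2 * size l + 1) + 4 * size l + 4 + C * size l + 2 * C := by ring
    refine (Nat.add_le_add (Nat.add_le_add_left h6 _) (h5.trans (Nat.add_le_add_left h7 _))).trans ?_
    rw [e]
    have := Nat.zero_le (C * size l)
    omega
  · unfold q11_A
    rw [List.flatMap_def]


/-! ### Meaning of the start list -/

private theorem q11_ksumA (l : List ((Fin m → ℤ) × Fin 2)) (τ : Fin 3) (v : Fin m → ℤ) :
    ksum (q11_A (l.map (fun x => ((pl x.1 : List (ZB β)), (ZB.mk (q11_sg x.2) : ZB β))))) (τ, pl v) =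
      if τ = 1 then 0 else ((l.filter (fun x => decide (x.1 = v))).map (fun x => q11_sg x.2)).sum := by
  classical
  induction l with
  | nil =>
    show ksum ([] : SL β 3) _ = _
    rw [q09_ksum_nil]
    simp
  | cons x l ih =>
    have e : q11_A (((x :: l).map (fun x => ((pl x.1 : List (ZB β)), (ZB.mk (q11_sg x.2) : ZB β))))) =
        (((0 : Fin 3), (pl x.1 : List (ZB β))), (ZB.mk (q11_sg x.2) : ZB β)) ::
        (((2 : Fin 3), (pl x.1 : List (ZB β))), (ZB.mk (q11_sg x.2) : ZB β)) ::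
        q11_A (l.map (fun x => ((pl x.1 : List (ZB β)), (ZB.mk (q11_sg x.2) : ZB β)))) := rfl
    rw [e, q10b_ksum_cons, q10b_ksum_cons, ih]
    have hpl : ∀ w : Fin m → ℤ, (pl x.1 : List (ZB β)) = pl w ↔ x.1 = w := fun w =>
      ⟨fun h => q10b_pl_inj h, fun h => by rw [h]⟩
    simp only [Prod.mk.injEq, hpl]
    have h3 : (ZB.mk (q11_sg x.2) : ZB β).val = q11_sg x.2 := rfl
    rw [h3]
    by_cases hx : x.1 = v
    · rw [List.filter_cons_of_pos (by simpa using hx), List.map_cons, List.sum_cons]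
      fin_cases τ <;> simp [hx]
    · rw [List.filter_cons_of_neg (by simpa using hx)]
      simp [hx]

private theorem q11_denA (I : List (IM m 2)) : den (q11_A (q11_R I) : SL β 3) (![spM I, 0, spM I] : Fin 3 → LM m) := by
  intro τ v
  unfold q11_R
  rw [q11_ksumA]
  have h1 := spM_coeff I v
  have h2 : ((posM 0 I).filter (fun x => decide (x.1 = v))).map (fun x => q11_sg x.2) =
      ((posM 0 I).filter (fun x => decide (x.1 = v))).map (fun x => if x.2 = 0 then (1 : ℤ) else -1) := rfl
  rw [h2, ← h1]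
  fin_cases τ <;> simp

private theorem q11_memA {l : List (List (ZB β) × ZB β)} {y : (Fin 3 × List (ZB β)) × ZB β} (hy : y ∈ q11_A l) :
    (y.1.2, y.2) ∈ l := by
  unfold q11_A at hy
  obtain ⟨z, hz, hy⟩ := List.mem_flatMap.1 hy
  obtain ⟨τ, _, rfl⟩ := List.mem_map.1 hy
  exact hz

private theorem q11_nearA (I : List (IM m 2)) : near 0 I (q11_A (q11_R I) : SL β 3) := by
  intro y hy
  have h1 := q11_memA hy
  unfold q11_R at h1
  obtain ⟨x, hx, h2⟩ := List.mem_map.1 h1
  refine ⟨x.1, (congrArg Prod.fst h2).symm, x, hx, fun i => ?_⟩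
  simp

private theorem q11_tvA (l : List ((Fin m → ℤ) × Fin 2)) :
    tv (q11_A (l.map (fun x => ((pl x.1 : List (ZB β)), (ZB.mk (q11_sg x.2) : ZB β))))) = 2 * l.length := by
  induction l with
  | nil => rfl
  | cons x l ih =>
    have e : q11_A (((x :: l).map (fun x => ((pl x.1 : List (ZB β)), (ZB.mk (q11_sg x.2) : ZB β))))) =
        (((0 : Fin 3), (pl x.1 : List (ZB β))), (ZB.mk (q11_sg x.2) : ZB β)) ::
        (((2 : Fin 3), (pl x.1 : List (ZB β))), (ZB.mk (q11_sg x.2) : ZB β)) ::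
        q11_A (l.map (fun x => ((pl x.1 : List (ZB β)), (ZB.mk (q11_sg x.2) : ZB β)))) := rfl
    have h3 : (ZB.mk (q11_sg x.2) : ZB β).val.natAbs = 1 := by
      show (q11_sg x.2).natAbs = 1
      unfold q11_sg
      split_ifs <;> rfl
    rw [e]
    unfold tv at ih ⊢
    rw [List.map_cons, List.map_cons, List.sum_cons, List.sum_cons, ih, List.length_cons, h3]
    ring

private theorem q11_lenA (l : List (List (ZB β) × ZB β)) : (q11_A l).length = 2 * l.length := by
  induction l with
  | nil => rfl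
  | cons x l ih =>
    show (((0, x.1), x.2) :: ((2, x.1), x.2) :: q11_A l : SL β 3).length = _
    rw [List.length_cons, List.length_cons, ih, List.length_cons]
    ring

/-! ### Normalised lists -/

private theorem q11_near_keys {ρ : ℕ} {I : List (IM m 2)} {l l' : SL β 3} (h : near ρ I l)
    (h' : ∀ y ∈ l', ∃ z ∈ l, z.1 = y.1) : near ρ I l' := by
  intro y hy
  obtain ⟨z, hz, e⟩ := h' y hy
  obtain ⟨v, hv, h2⟩ := h z hz
  exact ⟨v, by rw [← e]; exact hv, h2⟩

private theorem q11_tv_sum {κ : Type} (ks : List κ) (hks : ks.Nodup) (l : List (κ × ZB β)) :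
    (ks.map (fun c => (ksum l c).natAbs)).sum ≤ tv l := by
  classical
  induction l with
  | nil =>
    have : ∀ c : κ, (ksum ([] : List (κ × ZB β)) c).natAbs = 0 := fun c => by rw [q09_ksum_nil]; rfl
    simp only [this]
    simp
  | cons y l ih =>
    have h1 : ∀ c, (ksum (y :: l) c).natAbs ≤ (if y.1 = c then y.2.val.natAbs else 0) + (ksum l c).natAbs := by
      intro c
      rw [q10b_ksum_cons]
      refine (Int.natAbs_add_le _ _).trans (Nat.add_le_add_right ?_ _)
      split_ifs <;> simp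
    have h2 : (ks.map (fun c => if y.1 = c then y.2.val.natAbs else 0)).sum ≤ y.2.val.natAbs := by
      clear ih h1
      induction ks with
      | nil => simp
      | cons c ks ih =>
        rw [List.nodup_cons] at hks
        rw [List.map_cons, List.sum_cons]
        by_cases hc : y.1 = c
        · have h3 : ∀ c' ∈ ks, (if y.1 = c' then y.2.val.natAbs else 0) = 0 := by
            intro c' hc'
            rw [if_neg]
            intro h4
            rw [← h4, hc] at hc'
            exact hks.1 hc'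
          rw [List.map_congr_left h3, if_pos hc]
          simp
        · rw [if_neg hc, zero_add]
          exact ih hks.2
    have h3 : (ks.map (fun c => (ksum (y :: l) c).natAbs)).sum ≤
        (ks.map (fun c => (if y.1 = c then y.2.val.natAbs else 0) + (ksum l c).natAbs)).sum :=
      List.sum_le_sum fun c _ => h1 c
    rw [List.sum_map_add] at h3
    show _ ≤ y.2.val.natAbs + tv l
    omega

private theorem q11_tv_norm {κ : Type} {l l' : List (κ × ZB β)} (hn : (l'.map Prod.fst).Nodup)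
    (hk : ∀ c, ksum l' c = ksum l c) : tv l' ≤ tv l := by
  have h1 := q11_tv_sum (l'.map Prod.fst) hn l
  have h2 : tv l' = ((l'.map Prod.fst).map (fun c => (ksum l c).natAbs)).sum := by
    unfold tv
    rw [List.map_map]
    congr 1
    refine List.map_congr_left fun y hy => ?_
    have h3 := q09_ksum_nodup l' hn y hy
    show y.2.val.natAbs = (ksum l y.1).natAbs
    rw [← hk, h3]
  rw [h2]
  exact h1

private theorem q11_len {ρ : ℕ} {I : List (IM m 2)} {l : SL β 3} (hn : (l.map Prod.fst).Nodup) (h : near ρ I l) :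
    l.length ≤ 3 * (I.length * (2 * ρ + 1) ^ m) := by
  classical
  let box : Finset (Fin m → ℤ) := Fintype.piFinset (fun _ => Finset.Icc (-(ρ : ℤ)) ρ)
  have hbox : box.card = (2 * ρ + 1) ^ m := by
    rw [Fintype.card_piFinset_const, Int.card_Icc]
    congr 1
    omega
  let E : Finset (List (ZB β)) := (posM 0 I).toFinset.biUnion (fun z => box.image (fun d => pl (z.1 + d)))
  have hE : E.card ≤ I.length * (2 * ρ + 1) ^ m := by
    refine Finset.card_biUnion_le_card_mul _ _ ((2 * ρ + 1) ^ m) (fun z _ => ?_) |>.trans ?_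
    · rw [← hbox]
      exact Finset.card_image_le
    · exact Nat.mul_le_mul_right _ ((List.toFinset_card_le _).trans (length_posM 0 I))
  have h1 : (l.map Prod.fst).toFinset ⊆ (Finset.univ : Finset (Fin 3)) ×ˢ E := by
    intro c hc
    rw [List.mem_toFinset] at hc
    obtain ⟨y, hy, rfl⟩ := List.mem_map.1 hc
    rw [Finset.mem_product]
    refine ⟨Finset.mem_univ _, ?_⟩
    obtain ⟨v, hv, z, hz, hd⟩ := h y hy
    rw [Finset.mem_biUnion]
    refine ⟨z, List.mem_toFinset.2 hz, Finset.mem_image.2 ⟨v - z.1, ?_, ?_⟩⟩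
    · rw [Fintype.mem_piFinset]
      intro i
      have := abs_le.1 (hd i)
      rw [Finset.mem_Icc, Pi.sub_apply]
      exact this
    · rw [hv]
      congr 1
      funext i
      simp
  have h2 := Finset.card_le_card h1
  rw [List.toFinset_card_of_nodup hn, List.length_map, Finset.card_product, Finset.card_univ, Fintype.card_fin] at h2
  exact h2.trans (Nat.mul_le_mul_left _ hE)

/-! ### Sizes -/

private theorem q11_size (p : ℕ) [Fact (2 ≤ p)] (R B : ℕ) (κ : ℕ → ℕ) (hκ : ∃ C : ℕ, ∀ n, κ n ≤ C * lg n) :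
    ∃ C, ∀ (I : List (IM m 2)) (l : SL p 3) (j : ℕ), j ≤ κ I.length + 1 → near (R * j) I l →
      tv l ≤ B ^ j * (2 * I.length) → ∀ y ∈ l, size y ≤ C * lg I.length := by
  obtain ⟨C0, hC0⟩ := hκ
  obtain ⟨C1, hC1⟩ := q09_size p (m + 1) (1 + R * (C0 + 1))
  obtain ⟨C2, hC2⟩ := size_zb_log p
  obtain ⟨C3, hC3⟩ := size_fin (Fin 3)
  refine ⟨C1 + C2 * (B * (C0 + 1) + 4) + C3 + 2, fun I l j hj hn ht y hy => ?_⟩
  have hL := lg_pos I.length
  have hj2 : j ≤ (C0 + 1) * lg I.length := by
    have := hC0 I.length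
    rw [Nat.add_mul]
    omega
  obtain ⟨v, hv, z, hz, hd⟩ := hn y hy
  have h1 : size (pl v : List (ZB p)) ≤ C1 * lg I.length := by
    refine hC1 I.length _ (by unfold pl; rw [List.length_cons, List.length_ofFn]) fun w hw => ?_
    have hbig : I.length + R * j ≤ (1 + R * (C0 + 1)) * (I.length + 1) ^ (1 + R * (C0 + 1)) := by
      have e1 : (I.length + 1) ≤ (I.length + 1) ^ (1 + R * (C0 + 1)) := Nat.le_self_pow (by omega) _
      have e2 : R * j ≤ R * (C0 + 1) * (I.length + 1) := by
        rw [mul_assoc]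
        exact Nat.mul_le_mul_left _ (hj2.trans (Nat.mul_le_mul_left _ (q11_lg_le _)))
      have e3 : (1 + R * (C0 + 1)) * (I.length + 1) ≤ (1 + R * (C0 + 1)) * (I.length + 1) ^ (1 + R * (C0 + 1)) :=
        Nat.mul_le_mul_left _ e1
      have e4 : (1 + R * (C0 + 1)) * (I.length + 1) = (I.length + 1) + R * (C0 + 1) * (I.length + 1) := by ring
      omega
    have hone : 1 ≤ (1 + R * (C0 + 1)) * (I.length + 1) ^ (1 + R * (C0 + 1)) :=
      Nat.mul_pos (by omega) (Nat.pow_pos (by omega))
    unfold pl at hw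
    rcases List.mem_cons.1 hw with h | h
    · subst h
      show (1 : ℤ).natAbs ≤ _
      simpa using hone
    · obtain ⟨i, rfl⟩ := (List.mem_ofFn' _ _).1 h
      have a1 := abs_le.1 (hd i)
      have a2 := abs_le.1 (posM_bound I z hz i)
      show (v i).natAbs ≤ _
      refine le_trans ?_ hbig
      omega
  have h2 : size y.2 ≤ C2 * (B * (C0 + 1) + 4) * lg I.length := by
    refine (hC2 y.2).trans ?_
    rw [mul_assoc]
    refine Nat.mul_le_mul_left _ ?_
    have a1 : y.2.val.natAbs ≤ tv l := by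
      unfold tv
      exact List.single_le_sum (fun _ _ => Nat.zero_le _) _ (List.mem_map.2 ⟨y, hy, rfl⟩)
    have a2 : B ^ j * (2 * I.length) ≤ 2 ^ (B * j + (lg I.length + 2)) := by
      rw [pow_add, pow_mul]
      refine Nat.mul_le_mul (Nat.pow_le_pow_left Nat.lt_two_pow_self.le _) ?_
      have := q11_lt I.length
      have e : 2 ^ (lg I.length + 2) = 2 * 2 ^ (lg I.length + 1) := by rw [pow_succ]; ring
      omega
    have a3 : Nat.log 2 y.2.val.natAbs ≤ B * j + (lg I.length + 2) := by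
      have := Nat.log_mono_right (b := 2) ((a1.trans ht).trans a2)
      rwa [Nat.log_pow (by norm_num)] at this
    have a4 : B * j ≤ B * ((C0 + 1) * lg I.length) := Nat.mul_le_mul_left _ hj2
    have e : (B * (C0 + 1) + 4) * lg I.length = B * ((C0 + 1) * lg I.length) + 4 * lg I.length := by ring
    omega
  have h3 := hC3 y.1.1
  have h4 : C3 * 1 ≤ C3 * lg I.length := Nat.mul_le_mul_left _ hL
  rw [size_prod, size_prod, hv]
  have e : (C1 + C2 * (B * (C0 + 1) + 4) + C3 + 2) * lg I.length =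
    C1 * lg I.length + C2 * (B * (C0 + 1) + 4) * lg I.length + C3 * lg I.length + 2 * lg I.length := by ring
  omega

private theorem q11_foldCost {σ : Type} (T : Unit × σ → ℕ) (g : σ → σ) (b : ℕ) : ∀ (N : ℕ) (s : σ),
    (∀ j < N, T ((), g^[j] s) ≤ b) → foldCost T (fun x => g x.2) (List.replicate N ()) s ≤ N * b := by
  intro N
  induction N with
  | zero => intro s _; simp [foldCost]
  | succ N ih =>
    intro s h
    rw [List.replicate_succ]
    show T ((), s) + foldCost T (fun x => g x.2) (List.replicate N ()) (g s) ≤ _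
    have h1 := h 0 (Nat.succ_pos _)
    have h2 := ih (g s) (fun j hj => by
      have := h (j + 1) (Nat.succ_lt_succ hj)
      rwa [Function.iterate_succ_apply] at this)
    rw [Nat.add_mul, Nat.one_mul]
    have h3 : T ((), s) ≤ b := h1
    omega

private theorem q11_it (D S T r F : LM m) (j : ℕ) :
    (fun τ => ∑ τ', (![![D, 0, 0], ![S, T, 0], ![0, 0, r]] : Fin 3 → Fin 3 → LM m) τ τ' * itB D S T r F j τ') =
      itB D S T r F (j + 1) := by
  funext τ
  rw [Fin.sum_univ_three]
  fin_cases τ <;> simp [itB]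

end start

theorem exists_iter {m : ℕ} (p : ℕ) [Fact (2 ≤ p)] (D S T r : LM m) (κ : ℕ → ℕ)
    (hκ : ∃ C : ℕ, ∀ n, κ n ≤ C * lg n)
    (hct : CT (fun I : List (IM m 2) => κ I.length) (fun I => (I.length + 1) * lg I.length)) :
    ∃ (f : List (IM m 2) → SL p 3) (C : ℕ),
      CT f (fun I => (I.length + 1) * lg I.length ^ C) ∧
      (∀ I, near (C * lg I.length) I (f I)) ∧
      (∀ I, den (f I) (itB D S T r (spM I) (κ I.length))) ∧
      (∀ I, ((f I).map Prod.fst).Nodup) ∧
      (∀ I, (f I).length ≤ C * (I.length + 1) * lg I.length ^ C) ∧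
      ∀ I, ∀ y ∈ f I, size y ≤ C * lg I.length := by
  obtain ⟨fN, hN, hN1, hN2, hN3⟩ := exists_norm (Fin 3 × List (ZB p)) p
  obtain ⟨op, R, hop⟩ := exists_op (β := p) (![![D, 0, 0], ![S, T, 0], ![0, 0, r]] : Fin 3 → Fin 3 → LM m)
  obtain ⟨Ca, hCa⟩ := length_apo (β := p) op
  obtain ⟨B, hB⟩ := tv_apo (β := p) op
  obtain ⟨Cs, hCs⟩ := q11_size (m := m) p R B κ hκ
  obtain ⟨K, hK1, ⟨CK, hK2⟩, hK3⟩ := exists_log Cs
  obtain ⟨TR, ⟨CR, hTR⟩, hctR⟩ := q11_ctR (β := p) (m := m)
  obtain ⟨D0, hD0⟩ := size_list_fin (IM m 2)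
  obtain ⟨C0, hC0⟩ := hκ
  obtain ⟨CS, hCS⟩ := hctR.size_le
  let g : List (IM m 2) → SL p 3 → SL p 3 := fun I l => fN (K I.length, apo op l)
  let s0 : List (IM m 2) → SL p 3 := fun I => fN (K I.length, q11_A (q11_R I))
  -- invariants
  let Inv : List (IM m 2) → ℕ → SL p 3 → Prop := fun I j l => near (R * j) I l ∧
    den l (itB D S T r (spM I) j) ∧ (l.map Prod.fst).Nodup ∧ tv l ≤ B ^ j * (2 * I.length)
  have htvA : ∀ I : List (IM m 2), tv (q11_A (q11_R I) : SL p 3) ≤ 2 * I.length := by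
    intro I
    unfold q11_R
    rw [q11_tvA]
    exact Nat.mul_le_mul_left _ (length_posM 0 I)
  have hszA : ∀ (I : List (IM m 2)), ∀ y ∈ (q11_A (q11_R I) : SL p 3), size y ≤ Cs * lg I.length := by
    intro I
    refine hCs I _ 0 (Nat.zero_le _) ?_ ?_
    · rw [Nat.mul_zero]
      exact q11_nearA I
    · rw [pow_zero, Nat.one_mul]
      exact htvA I
  have hinv0 : ∀ I, Inv I 0 (s0 I) := by
    intro I
    have hn : ((s0 I).map Prod.fst).Nodup := hN3 _ fun y hy => by
      have h1 := hszA I y hy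
      have h2 := hK1 I.length
      rw [size_prod] at h1
      show size y.1 ≤ K I.length
      omega
    have hk : ∀ c, ksum (s0 I) c = ksum (q11_A (q11_R I) : SL p 3) c := fun c => hN1 _ c
    refine ⟨?_, ?_, hn, ?_⟩
    · rw [Nat.mul_zero]
      exact q11_near_keys (q11_nearA I) (hN2 _)
    · intro τ v
      rw [hk]
      exact q11_denA I τ v
    · rw [pow_zero, Nat.one_mul]
      exact (q11_tv_norm hn hk).trans (htvA I)
  have happly : ∀ I j l, Inv I j l → near (R * (j + 1)) I (apo op l) ∧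
      den (apo op l) (itB D S T r (spM I) (j + 1)) ∧ tv (apo op l) ≤ B ^ (j + 1) * (2 * I.length) := by
    intro I j l h
    obtain ⟨h1, h2, _, h4⟩ := h
    obtain ⟨a1, a2⟩ := hop (R * j) I l _ h1 h2
    rw [q11_it] at a2
    refine ⟨a1, a2, (hB l).trans ?_⟩
    rw [pow_succ]
    calc B * tv l ≤ B * (B ^ j * (2 * I.length)) := Nat.mul_le_mul_left _ h4
      _ = B ^ j * B * (2 * I.length) := by ring
  have hinvS : ∀ I j l, j ≤ κ I.length → Inv I j l → Inv I (j + 1) (g I l) := by
    intro I j l hj h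
    obtain ⟨a1, a2, a3⟩ := happly I j l h
    have hn : ((g I l).map Prod.fst).Nodup := hN3 _ fun y hy => by
      have h1 := hCs I (apo op l) (j + 1) (Nat.succ_le_succ hj) a1 a3 y hy
      have h2 := hK1 I.length
      rw [size_prod] at h1
      show size y.1 ≤ K I.length
      omega
    have hk : ∀ c, ksum (g I l) c = ksum (apo op l) c := fun c => hN1 _ c
    refine ⟨q11_near_keys a1 (hN2 _), fun τ v => ?_, hn, (q11_tv_norm hn hk).trans a3⟩
    rw [hk]
    exact a2 τ v
  have hinv : ∀ I j, j ≤ κ I.length → Inv I j ((g I)^[j] (s0 I)) := by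
    intro I j
    induction j with
    | zero => intro _; exact hinv0 I
    | succ j ih =>
      intro hj
      rw [Function.iterate_succ_apply']
      exact hinvS I j _ (Nat.le_of_succ_le hj) (ih (Nat.le_of_succ_le hj))
  -- the bounds
  let Λ : ℕ → ℕ := fun n => 3 * (n * (2 * (R * κ n) + 1) ^ m)
  have hPκ : q11_PL κ := (q11_PL_lg C0).mono hC0
  have hPK : q11_PL K := (q11_PL_lg CK).mono hK2
  have hΛ : q11_NL Λ := by
    have h1 : q11_PL (fun n => (2 * (R * κ n) + 1) ^ m) :=
      (((q11_PL_const 2).mul ((q11_PL_const R).mul hPκ)).add (q11_PL_const 1)).pow m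
    refine ((q11_NL_lin 3).mul h1).mono fun n => ?_
    show 3 * (n * (2 * (R * κ n) + 1) ^ m) ≤ 3 * (n + 1) * (2 * (R * κ n) + 1) ^ m
    rw [← mul_assoc]
    exact Nat.mul_le_mul_right _ (by omega)
  have hlenst : ∀ I j, j ≤ κ I.length → ((g I)^[j] (s0 I)).length ≤ Λ I.length := by
    intro I j hj
    obtain ⟨h1, _, h3, _⟩ := hinv I j hj
    refine (q11_len h3 h1).trans (Nat.mul_le_mul_left _ (Nat.mul_le_mul_left _ (Nat.pow_le_pow_left ?_ _)))
    have := Nat.mul_le_mul_left R hj
    omega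
  have hszst : ∀ I j, j ≤ κ I.length → ∀ y ∈ (g I)^[j] (s0 I), size y ≤ Cs * lg I.length := by
    intro I j hj
    obtain ⟨h1, _, _, h4⟩ := hinv I j hj
    exact hCs I _ j (Nat.le_succ_of_le hj) h1 h4
  have hΛ' : q11_NL (fun n => Ca * Λ n + 2 * (n + 1)) :=
    (((hΛ.mul (q11_PL_const Ca)).mono fun n => by rw [mul_comm]).add (q11_NL_lin 2))
  obtain ⟨Cl, hCl⟩ := hΛ'.lg
  -- the step
  let step : (Unit × ℕ) × SL p 3 → SL p 3 := fun x => fN (x.1.2, apo op x.2)
  let TN : ℕ × List ((Fin 3 × List (ZB p)) × ZB p) → ℕ := fun x =>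
    (x.1 + 1) * ((x.2.length + 1) * (mxs x.2 + lg x.2.length))
  have hstep : CT step (fun x => (size x.1.1 + (size x.1.2 + size x.2)) + TN (x.1.2, apo op x.2)) := by
    have h1 : CT (fun x : (Unit × ℕ) × SL p 3 => (x.1.2, x.2)) (fun x => size x.1.1) :=
      CT.first (γ := SL p 3) (CT.snd (α := Unit) (β := ℕ))
    have h2 : CT (fun x : ℕ × SL p 3 => (x.1, apo op x.2)) (fun x => size x.1 + size x.2) :=
      CT.second (ct_apo (β := p) op)
    exact hN.comp (h2.comp h1)
  have hloop := CT.foldlEnv hstep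
  have hs0 : CT s0 (fun I => (size I + ((I.length + 1) * lg I.length) +
      (TR I + size (q11_R I : List (List (ZB p) × ZB p)))) + TN (K I.length, q11_A (q11_R I))) :=
    hN.comp ((hK3 (IM m 2)).pair (q11_ctA.comp hctR))
  have hin : CT (fun I : List (IM m 2) => (List.replicate (κ I.length) (), (K I.length, s0 I)))
      (fun I => size I + ((I.length + 1) * lg I.length + 0) + (size I + ((I.length + 1) * lg I.length) +
        ((size I + ((I.length + 1) * lg I.length) +
      (TR I + size (q11_R I : List (List (ZB p) × ZB p)))) + TN (K I.length, q11_A (q11_R I))))) :=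
    (ct_units.comp hct).pair ((hK3 (IM m 2)).pair hs0)
  have hall := hloop.comp hin
  have hf : ∀ I : List (IM m 2), (List.replicate (κ I.length) ()).foldl
      (fun s a => step ((a, K I.length), s)) (s0 I) = (g I)^[κ I.length] (s0 I) := by
    intro I
    have h1 := List.foldl_const (f := g I) (s0 I) (List.replicate (κ I.length) ())
    rw [List.length_replicate] at h1
    exact h1
  -- cost of a round
  let bR : ℕ → ℕ := fun n => (size () + ((2 * K n + 1) + (Cs * lg n + 1) * (Λ n + 1))) +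
    (K n + 1) * ((Ca * Λ n + 1) * (Cs * lg n + Cl * lg n))
  have hbR : q11_NL bR := by
    have h1 : q11_NL (fun n => (Cs * lg n + 1) * (Λ n + 1)) :=
      (((hΛ.add (q11_PL_const 1).nl).mul ((q11_PL_lg Cs).add (q11_PL_const 1))).mono fun n => by rw [mul_comm])
    have h2 : q11_PL (fun n => size () + (2 * K n + 1)) :=
      (q11_PL_const _).add (((q11_PL_const 2).mul hPK).add (q11_PL_const 1))
    have h3 : q11_PL (fun n => (K n + 1) * (Cs * lg n + Cl * lg n)) :=
      (hPK.add (q11_PL_const 1)).mul ((q11_PL_lg Cs).add (q11_PL_lg Cl))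
    have h4 : q11_NL (fun n => (Ca * Λ n + 1) * ((K n + 1) * (Cs * lg n + Cl * lg n))) :=
      (((hΛ.mul (q11_PL_const Ca)).add (q11_PL_const 1).nl).mul h3).mono fun n => by rw [mul_comm Ca]
    refine ((h2.nl.add h1).add h4).mono fun n => le_of_eq ?_
    show (size () + ((2 * K n + 1) + (Cs * lg n + 1) * (Λ n + 1))) +
      (K n + 1) * ((Ca * Λ n + 1) * (Cs * lg n + Cl * lg n)) = (size () + (2 * K n + 1) +
      (Cs * lg n + 1) * (Λ n + 1)) + (Ca * Λ n + 1) * ((K n + 1) * (Cs * lg n + Cl * lg n))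
    ring
  have hround : ∀ I : List (IM m 2), ∀ j < κ I.length,
      (size () + (size (K I.length) + size ((g I)^[j] (s0 I)))) + TN (K I.length, apo op ((g I)^[j] (s0 I))) ≤
        bR I.length := by
    intro I j hj
    set l := (g I)^[j] (s0 I) with hl
    have h1 : l.length ≤ Λ I.length := hlenst I j hj.le
    have h2 : size l ≤ (Cs * lg I.length + 1) * (Λ I.length + 1) :=
      (size_list_le_of _ l (hszst I j hj.le)).trans (Nat.mul_le_mul_left _ (Nat.succ_le_succ h1))
    have h3 : (apo op l).length ≤ Ca * Λ I.length := (hCa l).trans (Nat.mul_le_mul_left _ h1)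
    obtain ⟨a1, _, a3⟩ := happly I j l (hinv I j hj.le)
    have h4 : mxs (apo op l) ≤ Cs * lg I.length :=
      q09_mxs_le _ _ (hCs I _ (j + 1) (Nat.succ_le_succ hj.le) a1 a3)
    have h5 : lg (apo op l).length ≤ Cl * lg I.length := (lg_mono (by omega)).trans (hCl I.length)
    have h6 : TN (K I.length, apo op l) ≤
        (K I.length + 1) * ((Ca * Λ I.length + 1) * (Cs * lg I.length + Cl * lg I.length)) :=
      Nat.mul_le_mul_left _ (Nat.mul_le_mul (Nat.succ_le_succ h3) (Nat.add_le_add h4 h5))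
    have h7 : size (K I.length) = 2 * K I.length + 1 := size_nat _
    show _ ≤ (size () + ((2 * K I.length + 1) + (Cs * lg I.length + 1) * (Λ I.length + 1))) +
      (K I.length + 1) * ((Ca * Λ I.length + 1) * (Cs * lg I.length + Cl * lg I.length))
    rw [h7]
    omega
  have hfc : ∀ I : List (IM m 2), foldCost (fun y : Unit × SL p 3 => (size y.1 + (size (K I.length) + size y.2)) +
      TN (K I.length, apo op y.2)) (fun y => step ((y.1, K I.length), y.2)) (List.replicate (κ I.length) ()) (s0 I) ≤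
      κ I.length * bR I.length := fun I =>
    q11_foldCost _ (g I) (bR I.length) (κ I.length) (s0 I) (hround I)
  -- cost of the start
  let bS : ℕ → ℕ := fun n => 4 * (D0 * (n + 1)) + 4 * ((n + 1) * lg n) + CR * (n + 1) * lg n +
    CS * (CR * (n + 1) * lg n + 1) + (K n + 1) * ((2 * n + 1) * (Cs * lg n + Cl * lg n))
  have hbS : q11_NL bS := by
    have h0 : q11_NL (fun n => (n + 1) * lg n) := ((q11_NL_lin 1).mul (q11_PL_lg 1)).mono fun n => by
      simp
    have h1 : q11_NL (fun n => 4 * (D0 * (n + 1))) := (q11_NL_lin (4 * D0)).mono fun n => by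
      show 4 * (D0 * (n + 1)) ≤ 4 * D0 * (n + 1)
      rw [mul_assoc]
    have h2 : q11_NL (fun n => 4 * ((n + 1) * lg n)) := (h0.mul (q11_PL_const 4)).mono fun n => by
      rw [mul_comm]
    have h3 : q11_NL (fun n => CR * (n + 1) * lg n) := (h0.mul (q11_PL_const CR)).mono fun n => by
      show CR * (n + 1) * lg n ≤ (n + 1) * lg n * CR
      exact le_of_eq (by ring)
    have h4 : q11_NL (fun n => CS * (CR * (n + 1) * lg n + 1)) :=
      ((h3.add (q11_PL_const 1).nl).mul (q11_PL_const CS)).mono fun n => by rw [mul_comm]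
    have h5 : q11_NL (fun n => (K n + 1) * ((2 * n + 1) * (Cs * lg n + Cl * lg n))) := by
      refine ((q11_NL_lin 2).mul ((hPK.add (q11_PL_const 1)).mul ((q11_PL_lg Cs).add (q11_PL_lg Cl)))).mono fun n => ?_
      show (K n + 1) * ((2 * n + 1) * (Cs * lg n + Cl * lg n)) ≤
        2 * (n + 1) * ((K n + 1) * (Cs * lg n + Cl * lg n))
      have e : (K n + 1) * ((2 * n + 1) * (Cs * lg n + Cl * lg n)) =
        (2 * n + 1) * ((K n + 1) * (Cs * lg n + Cl * lg n)) := by ring
      rw [e]
      exact Nat.mul_le_mul_right _ (by omega)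
    exact (((h1.add h2).add h3).add h4).add h5
  have hstart : ∀ I : List (IM m 2), size I + ((I.length + 1) * lg I.length + 0) + (size I + ((I.length + 1) * lg I.length) +
        ((size I + ((I.length + 1) * lg I.length) +
      (TR I + size (q11_R I : List (List (ZB p) × ZB p)))) + TN (K I.length, q11_A (q11_R I)))) ≤ bS I.length := by
    intro I
    have h1 := hD0 I
    have h2 := hTR I
    have h3 : size (q11_R I : List (List (ZB p) × ZB p)) ≤ size I + CS * (TR I + 1) := hCS I
    have h4 : CS * (TR I + 1) ≤ CS * (CR * (I.length + 1) * lg I.length + 1) :=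
      Nat.mul_le_mul_left _ (Nat.succ_le_succ h2)
    have h5 : (q11_A (q11_R I : List (List (ZB p) × ZB p))).length ≤ 2 * I.length := by
      rw [q11_lenA]
      unfold q11_R
      rw [List.length_map]
      exact Nat.mul_le_mul_left _ (length_posM 0 I)
    have h6 : mxs (q11_A (q11_R I) : SL p 3) ≤ Cs * lg I.length := q09_mxs_le _ _ (hszA I)
    have h7 : lg (q11_A (q11_R I : List (List (ZB p) × ZB p))).length ≤ Cl * lg I.length :=
      (lg_mono (by omega)).trans (hCl I.length)
    have h8 : TN (K I.length, q11_A (q11_R I)) ≤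
        (K I.length + 1) * ((2 * I.length + 1) * (Cs * lg I.length + Cl * lg I.length)) :=
      Nat.mul_le_mul_left _ (Nat.mul_le_mul (by show (q11_A (q11_R I : List (List (ZB p) × ZB p))).length + 1 ≤ _; omega)
        (Nat.add_le_add h6 h7))
    show _ ≤ 4 * (D0 * (I.length + 1)) + 4 * ((I.length + 1) * lg I.length) + CR * (I.length + 1) * lg I.length +
      CS * (CR * (I.length + 1) * lg I.length + 1) +
      (K I.length + 1) * ((2 * I.length + 1) * (Cs * lg I.length + Cl * lg I.length))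
    omega
  -- total cost
  obtain ⟨cu, hcu⟩ := size_list_fin Unit
  let bT : ℕ → ℕ := fun n => bS n + (cu * (κ n + 1) + (κ n + 1) * (2 * K n + 1) + κ n * bR n)
  have hbT : q11_NL bT := by
    have h1 : q11_PL (fun n => cu * (κ n + 1)) := (q11_PL_const cu).mul (hPκ.add (q11_PL_const 1))
    have h2 : q11_PL (fun n => (κ n + 1) * (2 * K n + 1)) :=
      (hPκ.add (q11_PL_const 1)).mul (((q11_PL_const 2).mul hPK).add (q11_PL_const 1))
    have h3 : q11_NL (fun n => κ n * bR n) := (hbR.mul hPκ).mono fun n => by rw [mul_comm]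
    exact hbS.add ((h1.add h2).nl.add h3)
  obtain ⟨C1, hC1⟩ := hbT
  obtain ⟨C2, hC2⟩ := hΛ
  have hT : CT (fun I : List (IM m 2) => (g I)^[κ I.length] (s0 I)) (fun I => bT I.length) := by
    refine (hall.mono 1 fun I => ?_).congr hf
    have h1 := hstart I
    have h2 := hfc I
    have h3 : size (List.replicate (κ I.length) ()) ≤ cu * (κ I.length + 1) := by
      have := hcu (List.replicate (κ I.length) ())
      rwa [List.length_replicate] at this
    have h4 : ((List.replicate (κ I.length) ()).length + 1) * size (K I.length) =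
        (κ I.length + 1) * (2 * K I.length + 1) := by
      rw [List.length_replicate, size_nat]
    rw [Nat.one_mul]
    refine Nat.le_succ_of_le ?_
    show _ + (size (List.replicate (κ I.length) ()) +
      ((List.replicate (κ I.length) ()).length + 1) * size (K I.length) +
      foldCost (fun y : Unit × SL p 3 => (size y.1 + (size (K I.length) + size y.2)) +
      TN (K I.length, apo op y.2)) (fun y => step ((y.1, K I.length), y.2)) (List.replicate (κ I.length) ()) (s0 I)) ≤
      bS I.length + (cu * (κ I.length + 1) + (κ I.length + 1) * (2 * K I.length + 1) + κ I.length * bR I.length)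
    rw [h4]
    exact Nat.add_le_add h1 (Nat.add_le_add (Nat.add_le_add_right h3 _) h2)
  refine ⟨fun I => (g I)^[κ I.length] (s0 I), C1 + C2 + Cs + R * C0, ?_, fun I => ?_, fun I => ?_, fun I => ?_, fun I => ?_,
    fun I y hy => ?_⟩
  · refine hT.mono C1 fun I => ?_
    refine (hC1 I.length).trans ?_
    rw [mul_assoc]
    refine Nat.mul_le_mul_left _ ((Nat.mul_le_mul_left _ ?_).trans (Nat.le_succ _))
    exact Nat.pow_le_pow_right (lg_pos _) (by omega)
  · obtain ⟨h1, _, _, _⟩ := hinv I _ le_rfl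
    intro y hy
    obtain ⟨v, hv, z, hz, hd⟩ := h1 y hy
    refine ⟨v, hv, z, hz, fun i => (hd i).trans ?_⟩
    have h2 : R * κ I.length ≤ (C1 + C2 + Cs + R * C0) * lg I.length := by
      have h3 : R * κ I.length ≤ R * (C0 * lg I.length) := Nat.mul_le_mul_left _ (hC0 _)
      have e : (C1 + C2 + Cs + R * C0) * lg I.length = (C1 + C2 + Cs) * lg I.length + R * (C0 * lg I.length) := by ring
      omega
    exact_mod_cast h2
  · exact (hinv I _ le_rfl).2.1
  · exact (hinv I _ le_rfl).2.2.1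
  · refine (hlenst I _ le_rfl).trans ((hC2 _).trans ?_)
    exact Nat.mul_le_mul (Nat.mul_le_mul_right _ (by omega)) (Nat.pow_le_pow_right (lg_pos _) (by omega))
  · exact (hszst I _ le_rfl y hy).trans (Nat.mul_le_mul_right _ (by omega))

end Pool.Agent.WQL
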