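import Pool.Agent.Lib.MP_2da099_lc.QL.Q09
import Pool.Agent.Lib.MP_2da099_lc.QL.L01

/-!
# T1: integers.

`QL_chart` with `σ = Unit`, `X v = 1 :: List.ofFn v`, `key v = List.ofFn v`, `val κ v = ± 1`; `spM_coeff`;
`(E : LM m) ∣ F` iff `E` divides all coefficients.
-/

set_option autoImplicit false

namespace Pool.Agent.WQL

open Pool.Agent.Lib.PolyTime Pool.Agent.WPM Pool.Agent.WPR Function

theorem t1_dt_cons (a b : ℤ) (w x : List ℤ) : dt (a :: w) (b :: x) = a * b + dt w x := by
  simp [dt]

theorem t1_dt_ofFn {m : ℕ} (w v : Fin m → ℤ) :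
    dt (List.ofFn w) (List.ofFn v) = ∑ i, w i * v i := by
  have h : List.zipWith (fun a b => a * b) (List.ofFn w) (List.ofFn v)
      = List.ofFn (fun i => w i * v i) := by
    apply List.ext_getElem
    · simp
    · intro i h1 h2
      simp
  unfold dt
  rw [h, List.sum_ofFn]

theorem t1_rows_ofFn {m : ℕ} (c : Fin m → ℤ) (v : Fin m → ℤ) :
    lm (List.ofFn (fun i : Fin m => c i :: List.ofFn (fun j : Fin m => if i = j then (1 : ℤ) else 0)))
      (1 :: List.ofFn v) = List.ofFn (fun i => v i + c i) := by
  unfold lm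
  rw [List.map_ofFn]
  congr 1
  funext i
  rw [Function.comp_apply, t1_dt_cons, t1_dt_ofFn]
  simp [add_comm]

theorem t1_dvd_iff {m : ℕ} (E : ℕ) (F : LM m) :
    (E : LM m) ∣ F ↔ ∀ c : Fin m → ℤ, (E : ℤ) ∣ F.coeff c := by
  constructor
  · rintro ⟨G, rfl⟩ c
    have h : ((E : LM m) * G).coeff c = (E : ℤ) * G.coeff c := by
      rw [← nsmul_eq_mul, AddMonoidAlgebra.coeff_smul, Finsupp.smul_apply, nsmul_eq_mul]
    rw [h]
    exact dvd_mul_right _ _
  · intro h
    choose g hg using h
    refine ⟨AddMonoidAlgebra.ofCoeff (Finsupp.onFinset F.coeff.support (fun c => if F.coeff c = 0 then 0 else g c) ?_), ?_⟩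
    · intro c hc
      rw [Finsupp.mem_support_iff]
      intro h0
      exact hc (if_pos h0)
    · rw [← nsmul_eq_mul]
      ext c
      simp only [AddMonoidAlgebra.coeff_smul, Finsupp.smul_apply, Finsupp.onFinset_apply]
      split_ifs with h0
      · simp [h0]
      · rw [hg c]
        simp

theorem QL_int {m : ℕ} (E : ℕ) : QL (fun I : List (IM m 2) => (E : LM m) ∣ spM I) := by
  classical
  have h := QL_chart (m := m) (k := 2) (σ := Unit) (fun _ => ()) (fun v => 1 :: List.ofFn v) (m + 1)
    (fun v => by simp)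
    (fun _ a => ⟨(), (1 :: List.replicate m 0) ::
      List.ofFn (fun i : Fin m => stv a i :: List.ofFn (fun j : Fin m => if i = j then (1 : ℤ) else 0)),
      fun v _ => ⟨rfl, by
        have h1 := t1_rows_ofFn (stv a) v
        unfold lm at h1 ⊢
        rw [List.map_cons, h1]
        have h2 : dt (1 :: List.replicate m 0) (1 :: List.ofFn v) = 1 := by
          rw [t1_dt_cons]
          have h3 : List.replicate m (0 : ℤ) = List.ofFn (fun _ : Fin m => (0 : ℤ)) := by simp
          rw [h3, t1_dt_ofFn]
          simp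
        rw [h2]
        rfl⟩⟩)
    ⟨1, fun n v hv y hy => by
      rw [List.mem_cons] at hy
      rcases hy with rfl | hy
      · simp
      · rw [List.mem_ofFn] at hy
        obtain ⟨i, rfl⟩ := hy
        have := hv i
        have h2 : ((v i).natAbs : ℤ) ≤ n := by
          rw [Int.natCast_natAbs]
          exact this
        simp only [pow_one, one_mul]
        omega⟩
    (fun v => List.ofFn v)
    (fun _ => ⟨List.ofFn (fun i : Fin m => 0 :: List.ofFn (fun j : Fin m => if i = j then (1 : ℤ) else 0)),
      fun v _ => by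
        have h1 := t1_rows_ofFn 0 v
        simp only [Pi.zero_apply, add_zero] at h1
        exact h1.symm⟩)
    (fun κ _ => if κ = 0 then 1 else -1)
    (fun _ κ => ⟨[if κ = 0 then 1 else -1], fun v _ => by simp [dt]⟩)
    E
  obtain ⟨f, T, C, h1, h2, h3⟩ := h
  refine ⟨f, T, C, h1, fun I => ?_, h3⟩
  rw [h2 I]
  change _ ↔ (E : LM m) ∣ spM I
  rw [t1_dvd_iff]
  constructor
  · intro h c
    rw [spM_coeff]
    have h4 := h (List.ofFn c)
    have h5 : (posM 0 I).filter (fun x => decide (List.ofFn x.1 = List.ofFn c))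
        = (posM 0 I).filter (fun x => decide (x.1 = c)) := by
      apply List.filter_congr
      intro x _
      simp [List.ofFn_injective.eq_iff]
    rw [h5] at h4
    exact h4
  · intro h c
    by_cases hc : ∃ v : Fin m → ℤ, List.ofFn v = c
    · obtain ⟨v, rfl⟩ := hc
      have h4 := h v
      rw [spM_coeff] at h4
      have h5 : (posM 0 I).filter (fun x => decide (List.ofFn x.1 = List.ofFn v))
          = (posM 0 I).filter (fun x => decide (x.1 = v)) := by
        apply List.filter_congr
        intro x _
        simp [List.ofFn_injective.eq_iff]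
      rw [h5]
      exact h4
    · have h5 : (posM 0 I).filter (fun x => decide (List.ofFn x.1 = c)) = [] := by
        rw [List.filter_eq_nil_iff]
        intro x _ hx
        rw [decide_eq_true_eq] at hx
        exact hc ⟨x.1, hx⟩
      rw [h5]
      simp

end Pool.Agent.WQL
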